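import Pool.Agent.Lib.MP_6aab98_ag.GT.Defs

/-! # MP_6aab98_ag GT: auxiliary definitions -/

namespace Pool.Agent.PlaneGT

open Finset Filter Topology Asymptotics
open scoped Nat

/-- `R` is the radius: the point where `∑ (3 d ^ 2 - 2 d) n_d R ^ d` reaches `27`. -/
def IsRad (R : ℝ) : Prop :=
  1 < R ∧ HasSum (fun d : ℕ => (3 * (d : ℝ) ^ 2 - 2 * d) * n d * R ^ d) 27

/-- `Dl = 27 + 2 phi' - 3 phi''` -/
noncomputable def Dl (q : ℂ) : ℂ := 27 + 2 * phi 1 q - 3 * phi 2 q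

/-- the right-hand side of the differential equation `Dl * phi''' = Rh` -/
noncomputable def Rh (q : ℂ) : ℂ := 6 * phi 0 q - 33 * phi 1 q + 54 * phi 2 q + phi 2 q ^ 2

/-- `Kz = Rh + 9 Dl` -/
noncomputable def Kz (q : ℂ) : ℂ :=
  243 + 6 * phi 0 q - 15 * phi 1 q + 27 * phi 2 q + phi 2 q ^ 2

/-- the discriminant of the characteristic polynomial of `Emat` as a polynomial in
`phi, phi', phi''` -/
noncomputable def Dp (f0 f1 f2 : ℂ) : ℂ :=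
  let A : ℂ := -f2
  let B : ℂ := (27 * f2 - 27 * f1 + 6 * f0) - 6 * (6 * f2 - 2 * f1)
  let C : ℂ := (6 * f2 - 2 * f1) ^ 2 - 9 * (27 * f2 - 27 * f1 + 6 * f0)
    - (27 * f2 - 27 * f1 + 6 * f0) * f2
  A ^ 2 * B ^ 2 - 4 * B ^ 3 - 4 * A ^ 3 * C + 18 * A * B * C - 27 * C ^ 2

/-- the discriminant at `q` -/
noncomputable def Dq (q : ℂ) : ℂ := Dp (phi 0 q) (phi 1 q) (phi 2 q)

/-- the half-open annulus `1 ≤ |q| < R` -/
def Ann (R : ℝ) : Set ℂ := {q | 1 ≤ ‖q‖ ∧ ‖q‖ < R}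

/-- Sizes of the data of a semisimple point along a filter: `ρ i` is the size of
`Delta_i ^ (1/2)`. -/
structure Tame {ι : Type} (l : Filter ι) (ρ : ι → Fin 3 → ℝ) (u x y : ι → Fin 3 → ℂ) :
    Prop where
  pos : ∀ t i, 0 < ρ t i
  one : ∀ i, (fun _ : ι => (1 : ℝ)) =O[l] (fun t => ρ t i)
  fin : ∀ i, i ≠ 0 → (fun t => ρ t i) =O[l] (fun _ : ι => (1 : ℝ))
  sep : ∀ i j, i ≠ j → (fun t => (u t i - u t j)⁻¹) =O[l] (fun _ : ι => (1 : ℝ))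
  yup : ∀ i, (fun t => y t i) =O[l] (fun t => ((ρ t i)⁻¹) ^ 2)
  yinv : ∀ i, (fun t => (y t i)⁻¹) =O[l] (fun t => (ρ t i) ^ 2)
  xup : ∀ i, (fun t => x t i) =O[l] (fun t => (ρ t i)⁻¹)

end Pool.Agent.PlaneGT
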