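import Mathlib

/-! # MP_6aab98_ag: the Givental-Teleman genus g potential of the projective plane (definitions)

References: A. Givental, Gromov-Witten invariants and quantization of quadratic Hamiltonians, and
Semisimple Frobenius structures at higher genus (2001); C. Teleman, The structure of 2D semi-simple
field theories, Invent. Math. 188 (2012). The genus `g ≥ 2` potential of the projective plane,
restricted to `(t_0, t_1, t_2) = (0, log q, 1)`, is the generating series
`∑ N_{g,d} q ^ d / (3 d - 1 + g)!`, and it equals the graph sum `Fg g q` below, which is built from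
the quantum cohomology (the numbers `N0`), the matrix `R` which is determined by the Euler field,
and the intersection numbers of psi classes. -/

namespace Pool.Agent.PlaneGT

open Finset
open scoped Nat

/-- Kontsevich's recursion: `N0 d` is the number of rational plane curves of degree `d` through
`3 d - 1` general points. -/
def N0 : ℕ → ℤ
  | 0 => 0
  | 1 => 1
  | (d + 2) => ∑ i : Fin (d + 1), N0 (i + 1) * N0 (d + 1 - i) *
      ((i + 1 : ℤ) ^ 2 * ((d + 1 - i : ℕ) : ℤ) ^ 2 * ((3 * d + 2).choose (3 * i + 1) : ℤ)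
        - (i + 1 : ℤ) ^ 3 * ((d + 1 - i : ℕ) : ℤ) * ((3 * d + 2).choose (3 * i + 2) : ℤ))
decreasing_by
  all_goals
    have := i.2
    omega

/-- `n d = N_{0,d} / (3 d - 1)!`. -/
noncomputable def n (d : ℕ) : ℝ := (N0 d : ℝ) / ((3 * d - 1)! : ℝ)

/-- `phi j q = ∑ d ^ j n_d q ^ d`: the `j`-th derivative with respect to `log q` of the
instanton part of the genus zero potential, at `t_0 = 0`, `t_2 = 1`. -/
noncomputable def phi (j : ℕ) (q : ℂ) : ℂ := ∑' d : ℕ, (d : ℂ) ^ j * (n d : ℂ) * q ^ d

/-! ## Intersection numbers of psi classes -/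

/-- All ways to split a list into two complementary sublists. -/
def splits : List ℕ → List (List ℕ × List ℕ)
  | [] => [([], [])]
  | (x :: s) => (splits s).map (fun p => (x :: p.1, p.2)) ++
      (splits s).map (fun p => (p.1, x :: p.2))

/-- Witten-Kontsevich numbers by the Dijkgraaf-Verlinde-Verlinde recursion; the first argument
bounds the depth of the recursion. -/
def wkAux : ℕ → ℕ → List ℕ → ℚ
  | 0, _, _ => 0
  | (_ + 1), _, [] => 0
  | (f + 1), g, (k :: s) =>
    if k + s.sum + 3 ≠ 3 * g + (s.length + 1) then 0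
    else if g = 0 ∧ s.length = 2 then 1
    else if g = 1 ∧ s.length = 0 then 1 / 24
    else ((∑ j : Fin s.length, ((2 * k + 2 * s.get j - 1)‼ : ℚ) / ((2 * s.get j - 1)‼ : ℚ) *
            wkAux f g ((k + s.get j - 1) :: s.eraseIdx j)) +
          1 / 2 * ∑ a ∈ range (k - 1), ((2 * a + 1)‼ : ℚ) * ((2 * (k - 2 - a) + 1)‼ : ℚ) *
            ((if g = 0 then 0 else wkAux f (g - 1) (a :: (k - 2 - a) :: s)) +
              ∑ h ∈ range (g + 1), ((splits s).map (fun p =>
                wkAux f h (a :: p.1) * wkAux f (g - h) ((k - 2 - a) :: p.2))).sum)) /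
          ((2 * k + 1)‼ : ℚ)

/-- `wk g [k_1, ..., k_n]` is the intersection number of `psi_1 ^ k_1 ... psi_n ^ k_n` on the
moduli space of stable curves of genus `g` with `n` marked points (zero if the degree does not
match or if the space is empty). -/
def wk (g : ℕ) (s : List ℕ) : ℚ := wkAux (2 * g + s.length) g s

/-! ## Givental's graph sum for a semisimple Frobenius manifold of dimension 3

The data at a semisimple point: the eigenvalues `u i` of the multiplication by the Euler field and
the coefficients `x i` of the unit and `y i` of the point class in the idempotents `pi i`.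
Then `eta (pi i) (pi i) = y i`. -/

section Graph

variable (u x y : Fin 3 → ℂ)

/-- `V i j = eta (pi i) (mu (pi j)) / eta (pi i) (pi i)`, `mu = diag (-1, 0, 1)`: the matrix of the
grading operator `mu` in the basis of idempotents. -/
noncomputable def Vm (i j : Fin 3) : ℂ := (x i * y j - y i * x j) / y i

/-- off-diagonal part of the next coefficient of the matrix `R` -/
noncomputable def offR (m : ℕ) (A : Fin 3 → Fin 3 → ℂ) (i j : Fin 3) : ℂ :=
  if i = j then 0 else ((m : ℂ) * A i j + ∑ k, Vm x y i k * A k j) / (u j - u i)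

/-- The coefficients of the matrix `R(z) = 1 + R_1 z + ...` in the basis of idempotents:
`(u j - u i) (R_{m+1}) i j = ((m + V) R_m) i j` and
`(m + 1) (R_{m+1}) i i = - ∑ V i k (R_{m+1}) k i`. -/
noncomputable def Rm : ℕ → Fin 3 → Fin 3 → ℂ
  | 0 => fun i j => if i = j then 1 else 0
  | (m + 1) => fun i j =>
      if i = j then -(∑ k, Vm x y i k * offR u x y m (Rm m) k i) / ((m : ℂ) + 1)
      else offR u x y m (Rm m) i j

/-- The coefficients of `R(z)⁻¹`, which is the adjoint of `R(-z)`. -/
noncomputable def Sm (m : ℕ) (i j : Fin 3) : ℂ :=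
  (-1) ^ m * Rm u x y m j i * y j / y i

/-- The coefficient of `z ^ l` (`l ≥ 2`) in `T(z) = z (1 - R(z)⁻¹ 1)`. -/
noncomputable def Tm (l : ℕ) (i : Fin 3) : ℂ := -∑ j, Sm u x y (l - 1) i j

/-- The coefficient of `z ^ k w ^ l` in the edge series
`(eta⁻¹ - R(z)⁻¹ eta⁻¹ (R(w)⁻¹)ᵀ) / (z + w)`. -/
noncomputable def edge (k l : ℕ) (i j : Fin 3) : ℂ :=
  ∑ t ∈ range (k + 1), (-1) ^ (t + 1) *
    ∑ s, Sm u x y (k - t) i s * Sm u x y (l + 1 + t) j s / y s

/-- The contribution of a vertex of genus `h` and colour `i` with half-edges decorated by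
`psi ^ k`, `k ∈ ks`. -/
noncomputable def vert (h : ℕ) (i : Fin 3) (ks : List ℕ) : ℂ :=
  y i / y i ^ h * ∑ m ∈ range (3 * h + ks.length), (1 / (m ! : ℂ)) *
    ∑ l : Fin m → Fin (3 * h + ks.length),
      ((wk h (ks ++ List.ofFn (fun j => (l j : ℕ) + 2)) : ℚ) : ℂ) *
        ∏ j, Tm u x y ((l j : ℕ) + 2) i

/-- the decorations of the half-edges at the vertex `v` -/
def halves {V E : ℕ} (e : Fin E → Fin V × Fin V) (k : Fin E → ℕ × ℕ) (v : Fin V) : List ℕ :=
  (List.finRange E).flatMap (fun a =>
    (if (e a).1 = v then [(k a).1] else []) ++ (if (e a).2 = v then [(k a).2] else []))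

/-- the graph with vertices `Fin V` and edges `e` is connected -/
def Conn {V E : ℕ} (e : Fin E → Fin V × Fin V) : Prop :=
  ∀ A : Finset (Fin V), A.Nonempty → (∀ a, (e a).1 ∈ A ↔ (e a).2 ∈ A) → A = univ

/-- the contribution of a graph with genera `γ`, colours `c` and decorations `k` -/
noncomputable def graphTerm {V E : ℕ} (γ : Fin V → ℕ) (e : Fin E → Fin V × Fin V)
    (c : Fin V → Fin 3) (k : Fin E → ℕ × ℕ) : ℂ :=
  (∏ v, vert u x y (γ v) (c v) (halves e k v)) *
    ∏ a, edge u x y (k a).1 (k a).2 (c (e a).1) (c (e a).2)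

open Classical in
/-- Givental's graph sum for the potential of genus `g`: the sum over all stable graphs of genus
`g` without legs, with labelled vertices and labelled oriented edges, divided by the number of
labellings. -/
noncomputable def graphSum (g : ℕ) : ℂ :=
  ∑ V ∈ Icc 1 (2 * g - 2), ∑ E ∈ range (3 * g - 2), (1 / ((V ! : ℂ) * (E ! : ℂ) * 2 ^ E)) *
    ∑ γ : Fin V → Fin (g + 1), ∑ e : Fin E → Fin V × Fin V,
      if Conn e ∧ (∑ v, (γ v : ℕ)) + E + 1 = g + V then
        ∑ c : Fin V → Fin 3, ∑ k : Fin E → Fin (3 * g) × Fin (3 * g),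
          graphTerm u x y (fun v => (γ v : ℕ)) e c (fun a => (((k a).1 : ℕ), ((k a).2 : ℕ)))
      else 0

end Graph

/-! ## The projective plane -/

/-- Coefficient of the quantum multiplication by the Euler field, see `Emat`. Here
`F = (t_0 ^ 2 t_2 + t_0 t_1 ^ 2) / 2 + ∑ N_{0,d} t_2 ^ (3 d - 1) e ^ (d t_1) / (3 d - 1)!` is the
genus zero potential. -/
noncomputable def ca (q : ℂ) : ℂ := 6 * phi 2 q - 2 * phi 1 q

/-- see `Emat` -/
noncomputable def cb (q : ℂ) : ℂ := 27 * phi 2 q - 27 * phi 1 q + 6 * phi 0 q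

/-- The quantum multiplication by the Euler field `t_0 ∂_0 + 3 ∂_1 - t_2 ∂_2` at the point
`(0, log q, 1)`, in the basis of the unit, the line class and the point class. -/
noncomputable def Emat (q : ℂ) : Matrix (Fin 3) (Fin 3) ℂ :=
  !![0, ca q, cb q; 3, phi 2 q, ca q; -1, 3, 0]

/-- The eigenvalues of the quantum multiplication by the Euler field (the canonical coordinates),
in some order. -/
noncomputable def uq (q : ℂ) : Fin 3 → ℂ :=
  Classical.epsilon (fun u : Fin 3 → ℂ => ∀ s : ℂ, (s • 1 - Emat q).det = ∏ i, (s - u i))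

/-- `χ'(u_i)`, `χ` the characteristic polynomial -/
noncomputable def chi' (u : Fin 3 → ℂ) (i : Fin 3) : ℂ := ∏ j ∈ univ.erase i, (u i - u j)

/-- the coefficient of the unit in the idempotent `pi i` -/
noncomputable def xq (q : ℂ) (i : Fin 3) : ℂ :=
  (uq q i ^ 2 - phi 2 q * uq q i - 3 * ca q) / chi' (uq q) i

/-- the coefficient of the point class in the idempotent `pi i` -/
noncomputable def yq (q : ℂ) (i : Fin 3) : ℂ := (9 + phi 2 q - uq q i) / chi' (uq q) i

/-- The genus `g` Gromov-Witten potential of the projective plane at `(0, log q, 1)`, by the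
formula of Givental and Teleman. -/
noncomputable def Fg (g : ℕ) (q : ℂ) : ℂ := graphSum (uq q) (xq q) (yq q) g

/-- The number of plane curves of degree `d` and genus `g ≥ 2` through `3 d - 1 + g` points:
`(3 d - 1 + g)!` times the coefficient of `q ^ d` in the genus `g` potential (by Cauchy's formula
on the unit circle, which lies in the punctured disc where `Fg g` is holomorphic). -/
noncomputable def Ng (g d : ℕ) : ℝ :=
  ((3 * d - 1 + g)! : ℝ) *
    ((2 * Real.pi * Complex.I)⁻¹ * ∮ q in C(0, 1), Fg g q / q ^ (d + 1)).re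

end Pool.Agent.PlaneGT
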