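import Pool.Agent.Lib.MP_6aab98_ag.GT.Phi1

/-! # MP_6aab98_ag GT, row Ode2 -/

namespace Pool.Agent.PlaneGT

open Finset Filter Topology Asymptotics
open scoped Nat

/-- `phi j q` as a sum -/
theorem Ode2_hasSum {R : ℝ} (hR : IsRad R) {j : ℕ} (hj : j ≤ 2) {q : ℂ} (hq : ‖q‖ ≤ R) :
    HasSum (fun d : ℕ => (d : ℂ) ^ j * (n d : ℂ) * q ^ d) (phi j q) :=
  (phi_summable hR hj hq).hasSum

theorem Ode2_coef_nonneg (d : ℕ) : 0 ≤ (3 * (d : ℝ) ^ 2 - 2 * d) * n d := by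
  apply mul_nonneg _ (n_nonneg d)
  rcases Nat.eq_zero_or_pos d with h | h
  · simp [h]
  · have h1 : (1 : ℝ) ≤ d := by exact_mod_cast h
    nlinarith

/-- `Dl` as a sum -/
theorem Ode2_Dl_hasSum {R : ℝ} (hR : IsRad R) {q : ℂ} (hq : ‖q‖ ≤ R) :
    HasSum (fun d : ℕ => (((3 * (d : ℝ) ^ 2 - 2 * d) * n d : ℝ) : ℂ) * ((R : ℂ) ^ d - q ^ d))
      (Dl q) := by
  have h0 : HasSum (fun d : ℕ => (((3 * (d : ℝ) ^ 2 - 2 * d) * n d * R ^ d : ℝ) : ℂ))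
      ((27 : ℝ) : ℂ) := Complex.hasSum_ofReal.mpr hR.2
  have h1 := Ode2_hasSum hR (j := 1) (by norm_num) hq
  have h2 := Ode2_hasSum hR (j := 2) (by norm_num) hq
  have h3 := (h0.add (h1.mul_left 2)).sub (h2.mul_left 3)
  have e1 : ((27 : ℝ) : ℂ) + 2 * phi 1 q - 3 * phi 2 q = Dl q := by
    simp [Dl]
  rw [e1] at h3
  refine h3.congr_fun ?_ |> fun h => h
  intro d
  push_cast
  ring

/-- Row Ode2. -/
theorem Dl_R {R : ℝ} (hR : IsRad R) : Dl (R : ℂ) = 0 := by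
  have hq : ‖(R : ℂ)‖ ≤ R := by
    rw [Complex.norm_real, Real.norm_eq_abs, abs_of_pos (by linarith [hR.1])]
  have h := Ode2_Dl_hasSum hR hq
  simp only [sub_self, mul_zero] at h
  exact h.unique hasSum_zero

/-- Row Ode2. `Re (Dl q) = ∑ (3 d ^ 2 - 2 d) n_d (R ^ d - Re q ^ d)`, all terms are nonnegative
and the term `d = 1` is `(R - Re q) / 2`. -/
theorem Dl_re {R : ℝ} (hR : IsRad R) {q : ℂ} (hq : ‖q‖ ≤ R) : (R - q.re) / 2 ≤ (Dl q).re := by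
  have h := Complex.hasSum_re (Ode2_Dl_hasSum hR hq)
  have hnn : ∀ d : ℕ, 0 ≤ ((((3 * (d : ℝ) ^ 2 - 2 * d) * n d : ℝ) : ℂ) *
      ((R : ℂ) ^ d - q ^ d)).re := by
    intro d
    rw [Complex.re_ofReal_mul]
    apply mul_nonneg (Ode2_coef_nonneg d)
    have h1 : ((R : ℂ) ^ d).re = R ^ d := by
      rw [← Complex.ofReal_pow, Complex.ofReal_re]
    have h2 : (q ^ d).re ≤ R ^ d := by
      calc (q ^ d).re ≤ ‖q ^ d‖ := Complex.re_le_norm _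
        _ = ‖q‖ ^ d := norm_pow _ _
        _ ≤ R ^ d := pow_le_pow_left₀ (norm_nonneg _) hq d
    rw [Complex.sub_re, h1]
    linarith
  have h1 := le_hasSum h 1 (fun d _ => hnn d)
  refine le_trans (le_of_eq ?_) h1
  rw [Complex.re_ofReal_mul, n_one]
  simp
  ring

/-- Row Ode2. `6 - 33 d + 54 d ^ 2 > 0`. -/
theorem exists_K {R : ℝ} (hR : IsRad R) : ∃ K : ℝ, 0 < K ∧ Rh (R : ℂ) = (K : ℂ) := by
  have hR0 : 0 < R := by linarith [hR.1]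
  have hphi : ∀ j ≤ 2, phi j (R : ℂ) = ((∑' d : ℕ, (d : ℝ) ^ j * n d * R ^ d : ℝ) : ℂ) := by
    intro j _
    rw [phi, Complex.ofReal_tsum]
    congr 1
    ext d
    push_cast
    ring
  have hs : ∀ j ≤ 2, HasSum (fun d : ℕ => (d : ℝ) ^ j * n d * R ^ d)
      (∑' d : ℕ, (d : ℝ) ^ j * n d * R ^ d) := fun j hj => (summable_R hR hj).hasSum
  set a0 := ∑' d : ℕ, (d : ℝ) ^ 0 * n d * R ^ d with ha0
  set a1 := ∑' d : ℕ, (d : ℝ) ^ 1 * n d * R ^ d with ha1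
  set a2 := ∑' d : ℕ, (d : ℝ) ^ 2 * n d * R ^ d with ha2
  have h0 := hs 0 (by norm_num)
  have h1 := hs 1 (by norm_num)
  have h2 := hs 2 (by norm_num)
  have h3 := ((h0.mul_left 6).sub (h1.mul_left 33)).add (h2.mul_left 54)
  have hnn : ∀ d : ℕ, 0 ≤ 6 * ((d : ℝ) ^ 0 * n d * R ^ d) - 33 * ((d : ℝ) ^ 1 * n d * R ^ d) +
      54 * ((d : ℝ) ^ 2 * n d * R ^ d) := by
    intro d
    have e : 6 * ((d : ℝ) ^ 0 * n d * R ^ d) - 33 * ((d : ℝ) ^ 1 * n d * R ^ d) +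
      54 * ((d : ℝ) ^ 2 * n d * R ^ d) = (6 - 33 * (d : ℝ) + 54 * (d : ℝ) ^ 2) * (n d * R ^ d) := by
      ring
    rw [e]
    apply mul_nonneg
    · nlinarith [sq_nonneg ((d : ℝ) - 11 / 36)]
    · exact mul_nonneg (n_nonneg d) (pow_nonneg hR0.le d)
  have h4 := le_hasSum h3 1 (fun d _ => hnn d)
  rw [n_one] at h4
  refine ⟨6 * a0 - 33 * a1 + 54 * a2 + a2 ^ 2, ?_, ?_⟩
  · have h5 : 0 ≤ a2 ^ 2 := sq_nonneg _
    have h6 : 0 < 6 * (((1 : ℕ) : ℝ) ^ 0 * (1 / 2) * R ^ 1) -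
      33 * (((1 : ℕ) : ℝ) ^ 1 * (1 / 2) * R ^ 1) + 54 * (((1 : ℕ) : ℝ) ^ 2 * (1 / 2) * R ^ 1) := by
      norm_num
      linarith
    linarith
  · rw [Rh, hphi 0 (by norm_num), hphi 1 (by norm_num), hphi 2 (by norm_num), ← ha0, ← ha1, ← ha2]
    push_cast
    ring

/-- `Dl` does not vanish in the punctured closed disc. -/
theorem Dl_ne {R : ℝ} (hR : IsRad R) {q : ℂ} (hq : ‖q‖ ≤ R) (h : q ≠ R) : Dl q ≠ 0 := by
  intro h0
  have h1 := Dl_re hR hq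
  rw [h0, Complex.zero_re] at h1
  have h2 : R ≤ q.re := by linarith
  have h3 : q.re ≤ ‖q‖ := Complex.re_le_norm q
  have h4 : q.re = R := le_antisymm (h3.trans hq) h2
  have h5 : ‖q‖ = q.re := le_antisymm (by linarith) h3
  have h6 : q.im = 0 := by
    have h7 := Complex.sq_norm q
    rw [Complex.normSq_apply, h5] at h7
    nlinarith
  exact h (Complex.ext (by simpa using h4) (by simpa using h6))

/-- `|1 - q / R|` is at most a multiple of `Re Dl` near the circle -/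
theorem Dl_re_pos {R : ℝ} (hR : IsRad R) {q : ℂ} (hq : ‖q‖ < R) : 0 < (Dl q).re := by
  have h1 := Dl_re hR hq.le
  have h3 : q.re ≤ ‖q‖ := Complex.re_le_norm q
  linarith

end Pool.Agent.PlaneGT
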