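import Pool.Agent.Lib.MP_6aab98_ag.GT.Ode1
import Pool.Agent.Lib.MP_6aab98_ag.GT.Ode2

/-! # MP_6aab98_ag GT, row Dl1 -/

namespace Pool.Agent.PlaneGT

open Finset Filter Topology Asymptotics
open scoped Nat

/-- Row Dl1. For `0 < ‖q‖ < R` the derivative of `Dl ^ 2` is `(4 phi 2 * Dl - 6 Rh) / q`. -/
theorem Dl_sq_deriv {R : ℝ} (hR : IsRad R) {q : ℂ} (h0 : q ≠ 0) (hq : ‖q‖ < R) :
    HasDerivAt (fun z => Dl z ^ 2) ((4 * phi 2 q * Dl q - 6 * Rh q) / q) q := by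
  have h1 := phi_deriv hR 1 h0 hq
  have h2 := phi_deriv hR 2 h0 hq
  have hD : HasDerivAt Dl (2 * (phi (1 + 1) q / q) - 3 * (phi (2 + 1) q / q)) q :=
    ((h1.const_mul 2).const_add 27).sub (h2.const_mul 3)
  have h3 := hD.fun_pow 2
  have h4 := ode hR hq
  have h5 : (4 * phi 2 q * Dl q - 6 * Rh q) / q =
      ((2 : ℕ) : ℂ) * Dl q ^ (2 - 1) * (2 * (phi (1 + 1) q / q) - 3 * (phi (2 + 1) q / q)) := by
    rw [← h4]
    push_cast
    norm_num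
    ring
  rw [h5]
  exact h3

private theorem Dl1_cont {R : ℝ} (hR : IsRad R) : ContinuousOn Dl (Metric.closedBall 0 R) := by
  have h1 := phi_cont hR (j := 1) (by norm_num)
  have h2 := phi_cont hR (j := 2) le_rfl
  exact (continuousOn_const.add (continuousOn_const.mul h1)).sub (continuousOn_const.mul h2)

private theorem Dl1_bound {C : ℝ} {q : ℂ} (h : ∀ j ≤ 2, ‖phi j q‖ ≤ C) :
    ‖Dl q‖ ≤ 27 + 5 * C := by
  have h1 := h 1 (by norm_num)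
  have h2 := h 2 le_rfl
  have h3 : ‖Dl q‖ ≤ ‖(27 : ℂ)‖ + ‖2 * phi 1 q‖ + ‖3 * phi 2 q‖ := by
    refine (norm_sub_le _ _).trans ?_
    gcongr
    exact norm_add_le _ _
  rw [norm_mul, norm_mul] at h3
  simp only [Complex.norm_ofNat] at h3
  linarith

private theorem Dl1_rbound {C : ℝ} (hC : 0 < C) {q : ℂ} (h : ∀ j ≤ 2, ‖phi j q‖ ≤ C) :
    ‖Rh q‖ ≤ 93 * C + C ^ 2 := by
  have h0 := h 0 (by norm_num)
  have h1 := h 1 (by norm_num)
  have h2 := h 2 le_rfl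
  have h3 : ‖Rh q‖ ≤ ‖6 * phi 0 q‖ + ‖33 * phi 1 q‖ + ‖54 * phi 2 q‖ + ‖phi 2 q ^ 2‖ := by
    refine (norm_add_le _ _).trans ?_
    gcongr
    refine (norm_add_le _ _).trans ?_
    gcongr
    exact norm_sub_le _ _
  rw [norm_mul, norm_mul, norm_mul, norm_pow] at h3
  simp only [Complex.norm_ofNat] at h3
  have h4 : ‖phi 2 q‖ ^ 2 ≤ C ^ 2 := pow_le_pow_left₀ (norm_nonneg _) h2 2
  linarith

/-- the version on `ball R (R / 2)` -/
theorem Dl1_near {R : ℝ} (hR : IsRad R) : ∃ C : ℝ, 0 < C ∧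
    ∀ q ∈ Metric.ball (R : ℂ) (R / 2) ∩ Metric.ball 0 R, ‖Dl q‖ ^ 2 ≤ C * ‖q - R‖ := by
  obtain ⟨C0, hC0, hb⟩ := phi_bound hR
  have hR0 : 0 < R := lt_trans one_pos hR.1
  set s : Set ℂ := Metric.ball (R : ℂ) (R / 2) ∩ Metric.ball 0 R with hs
  have hconv : Convex ℝ s := (convex_ball _ _).inter (convex_ball _ _)
  obtain ⟨D, hD⟩ : ∃ D : ℝ, D = (4 * C0 * (27 + 5 * C0) + 6 * (93 * C0 + C0 ^ 2)) / (R / 2) :=
    ⟨_, rfl⟩
  have hD0 : 0 < D := by rw [hD]; positivity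
  refine ⟨D, hD0, ?_⟩
  have hmem : ∀ q ∈ s, q ≠ 0 ∧ ‖q‖ < R ∧ R / 2 < ‖q‖ := by
    intro q hq
    have h1 : ‖q - R‖ < R / 2 := by
      have := hq.1
      rwa [Metric.mem_ball, dist_eq_norm] at this
    have h2 : ‖q‖ < R := by
      have := hq.2
      rwa [Metric.mem_ball, dist_zero_right] at this
    have h3 : R ≤ ‖q‖ + ‖q - R‖ := by
      have h4 : ‖(R : ℂ)‖ = R := by
        rw [Complex.norm_real, Real.norm_of_nonneg hR0.le]
      have h5 : ‖(R : ℂ)‖ ≤ ‖q‖ + ‖q - R‖ := by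
        have h6 : (R : ℂ) = q - (q - R) := by ring
        calc ‖(R : ℂ)‖ = ‖q - (q - R)‖ := by rw [← h6]
          _ ≤ _ := norm_sub_le _ _
      rwa [h4] at h5
    have h4 : R / 2 < ‖q‖ := by linarith
    refine ⟨?_, h2, h4⟩
    intro h5
    rw [h5, norm_zero] at h4
    linarith
  have hder : ∀ q ∈ s, HasDerivWithinAt (fun z => Dl z ^ 2)
      ((4 * phi 2 q * Dl q - 6 * Rh q) / q) s q := fun q hq =>
    (Dl_sq_deriv hR (hmem q hq).1 (hmem q hq).2.1).hasDerivWithinAt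
  have hnorm : ∀ q ∈ s, ‖(4 * phi 2 q * Dl q - 6 * Rh q) / q‖ ≤ D := by
    intro q hq
    obtain ⟨h1, h2, h3⟩ := hmem q hq
    have hj : ∀ j ≤ 2, ‖phi j q‖ ≤ C0 := fun j hj => hb j hj q h2.le
    have h4 := Dl1_bound hj
    have h5 := Dl1_rbound hC0 hj
    have h6 := hj 2 le_rfl
    rw [norm_div, hD]
    have h7 : ‖4 * phi 2 q * Dl q - 6 * Rh q‖ ≤ 4 * C0 * (27 + 5 * C0) + 6 * (93 * C0 + C0 ^ 2) := by
      refine (norm_sub_le _ _).trans ?_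
      rw [norm_mul, norm_mul, norm_mul]
      simp only [Complex.norm_ofNat]
      gcongr
    gcongr
  have hle : ∀ q ∈ s, ∀ q' ∈ s, ‖Dl q ^ 2 - Dl q' ^ 2‖ ≤ D * ‖q - q'‖ := fun q hq q' hq' =>
    hconv.norm_image_sub_le_of_norm_hasDerivWithin_le hder hnorm hq' hq
  have hcl : (R : ℂ) ∈ closure s := by
    rw [Metric.mem_closure_iff]
    intro e he
    obtain ⟨m, hm⟩ : ∃ m : ℝ, m = min (e / 2) (R / 4) := ⟨_, rfl⟩
    have hm1 : m ≤ e / 2 := by rw [hm]; exact min_le_left _ _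
    have hm2 : m ≤ R / 4 := by rw [hm]; exact min_le_right _ _
    have hm0 : 0 < m := by rw [hm]; exact lt_min (by linarith) (by linarith)
    have hd : dist (((R - m : ℝ)) : ℂ) (R : ℂ) = m := by
      rw [Complex.dist_eq, ← Complex.ofReal_sub, Complex.norm_real, Real.norm_eq_abs]
      rw [show R - m - R = -m by ring, abs_neg, abs_of_pos hm0]
    refine ⟨((R - m : ℝ) : ℂ), ⟨?_, ?_⟩, ?_⟩
    · rw [Metric.mem_ball, hd]
      linarith
    · rw [Metric.mem_ball, dist_zero_right, Complex.norm_real, Real.norm_eq_abs,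
        abs_of_pos (by linarith)]
      linarith
    · rw [dist_comm, hd]
      linarith
  have hcD : ContinuousWithinAt Dl s (R : ℂ) := by
    have h1 : (R : ℂ) ∈ Metric.closedBall (0 : ℂ) R := by
      rw [Metric.mem_closedBall, dist_zero_right, Complex.norm_real, Real.norm_of_nonneg hR0.le]
    refine (Dl1_cont hR (R : ℂ) h1).mono ?_
    intro q hq
    exact Metric.ball_subset_closedBall hq.2
  intro q hq
  have h1 : ‖Dl q ^ 2 - Dl (R : ℂ) ^ 2‖ ≤ D * ‖q - R‖ := by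
    refine ContinuousWithinAt.closure_le (f := fun q' => ‖Dl q ^ 2 - Dl q' ^ 2‖)
      (g := fun q' => D * ‖q - q'‖) hcl ?_ ?_ (fun q' hq' => hle q hq q' hq')
    · exact (continuousWithinAt_const.sub (hcD.pow 2)).norm
    · exact continuousWithinAt_const.mul (continuousWithinAt_const.sub continuousWithinAt_id).norm
  rw [Dl_R hR] at h1
  simpa using h1

/-- Row Dl1. On the convex set `ball R (R / 2) ∩ ball 0 R` the derivative of `Dl ^ 2` is bounded;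
apply the mean value inequality to `q, q'` and let `q' → R` (continuity of `phi` on the closed
disc). For `‖q - R‖ ≥ R / 2` use `phi_bound`. -/
theorem Dl_sq_le {R : ℝ} (hR : IsRad R) : ∃ C : ℝ, 0 < C ∧ ∀ q ∈ Ann R,
    ‖Dl q‖ ^ 2 ≤ C * ‖q - R‖ := by
  obtain ⟨C0, hC0, hb⟩ := phi_bound hR
  obtain ⟨C1, hC1, h1⟩ := Dl1_near hR
  have hR0 : 0 < R := lt_trans one_pos hR.1
  refine ⟨C1 + (27 + 5 * C0) ^ 2 / (R / 2), by positivity, ?_⟩
  intro q hq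
  by_cases h : ‖q - R‖ < R / 2
  · have h2 := h1 q ⟨by rwa [Metric.mem_ball, dist_eq_norm], by
      rw [Metric.mem_ball, dist_zero_right]
      exact hq.2⟩
    refine h2.trans ?_
    have h3 : 0 ≤ (27 + 5 * C0) ^ 2 / (R / 2) := by positivity
    have h4 := norm_nonneg (q - R)
    nlinarith
  · rw [not_lt] at h
    have h2 : ‖Dl q‖ ≤ 27 + 5 * C0 := Dl1_bound fun j hj => hb j hj q hq.2.le
    have h3 : ‖Dl q‖ ^ 2 ≤ (27 + 5 * C0) ^ 2 := pow_le_pow_left₀ (norm_nonneg _) h2 2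
    have h4 : (27 + 5 * C0) ^ 2 ≤ (27 + 5 * C0) ^ 2 / (R / 2) * ‖q - R‖ := by
      rw [div_mul_eq_mul_div, le_div_iff₀ (by positivity)]
      gcongr
    have h5 : 0 ≤ C1 * ‖q - R‖ := by positivity
    nlinarith

/-- Row Dl1. `phi 2 q - phi 2 R = (2 (phi 1 q - phi 1 R) - Dl q) / 3` and `phi_lip`. -/
theorem Rh_sub_le {R : ℝ} (hR : IsRad R) {K : ℝ} (hK : Rh (R : ℂ) = K) : ∃ C : ℝ, 0 < C ∧
    ∀ q : ℂ, ‖q‖ ≤ R → ‖Rh q - K‖ ≤ C * (‖q - R‖ + ‖Dl q‖) := by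
  obtain ⟨C0, hC0, hb⟩ := phi_bound hR
  obtain ⟨L, hL, hl⟩ := phi_lip hR
  have hR0 : 0 < R := lt_trans one_pos hR.1
  have hRn : ‖(R : ℂ)‖ ≤ R := by
    rw [Complex.norm_real, Real.norm_of_nonneg hR0.le]
  refine ⟨39 * L + (54 + 2 * C0) * (L + 1), by positivity, ?_⟩
  intro q hq
  have h0 := hl 0 (by norm_num) q hq
  have h1 := hl 1 le_rfl q hq
  have hDR : 27 + 2 * phi 1 (R : ℂ) - 3 * phi 2 (R : ℂ) = 0 := Dl_R hR
  have h2 : phi 2 q - phi 2 (R : ℂ) = (2 * (phi 1 q - phi 1 (R : ℂ)) - Dl q) / 3 := by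
    unfold Dl
    linear_combination (1 / 3 : ℂ) * hDR
  have h3 : ‖phi 2 q - phi 2 (R : ℂ)‖ ≤ (L + 1) * (‖q - R‖ + ‖Dl q‖) := by
    rw [h2, norm_div, Complex.norm_ofNat]
    have h4 : ‖2 * (phi 1 q - phi 1 (R : ℂ)) - Dl q‖ ≤
        2 * ‖phi 1 q - phi 1 (R : ℂ)‖ + ‖Dl q‖ := by
      refine (norm_sub_le _ _).trans ?_
      rw [norm_mul, Complex.norm_ofNat]
    rw [div_le_iff₀ (by norm_num)]
    have h5 := norm_nonneg (q - R)
    have h6 := norm_nonneg (Dl q)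
    nlinarith [mul_nonneg hL.le h6, mul_nonneg hL.le h5]
  have h4 : Rh q - K = 6 * (phi 0 q - phi 0 (R : ℂ)) - 33 * (phi 1 q - phi 1 (R : ℂ)) +
      (54 + (phi 2 q + phi 2 (R : ℂ))) * (phi 2 q - phi 2 (R : ℂ)) := by
    rw [← hK]
    unfold Rh
    ring
  have h5 : ‖54 + (phi 2 q + phi 2 (R : ℂ))‖ ≤ 54 + 2 * C0 := by
    refine (norm_add_le _ _).trans ?_
    rw [Complex.norm_ofNat]
    have h6 := norm_add_le (phi 2 q) (phi 2 (R : ℂ))
    have h7 := hb 2 le_rfl q hq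
    have h8 := hb 2 le_rfl (R : ℂ) hRn
    linarith
  have h6 : ‖Rh q - K‖ ≤ 6 * ‖phi 0 q - phi 0 (R : ℂ)‖ + 33 * ‖phi 1 q - phi 1 (R : ℂ)‖ +
      ‖54 + (phi 2 q + phi 2 (R : ℂ))‖ * ‖phi 2 q - phi 2 (R : ℂ)‖ := by
    rw [h4]
    refine (norm_add_le _ _).trans ?_
    rw [norm_mul]
    gcongr
    refine (norm_sub_le _ _).trans ?_
    rw [norm_mul, norm_mul, Complex.norm_ofNat, Complex.norm_ofNat]
  have h7 : ‖54 + (phi 2 q + phi 2 (R : ℂ))‖ * ‖phi 2 q - phi 2 (R : ℂ)‖ ≤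
      (54 + 2 * C0) * ((L + 1) * (‖q - R‖ + ‖Dl q‖)) := by
    gcongr
  have h8 := norm_nonneg (Dl q)
  have h9 : 39 * (L * ‖q - R‖) ≤ 39 * L * (‖q - R‖ + ‖Dl q‖) := by
    have := mul_nonneg hL.le h8
    nlinarith
  calc ‖Rh q - K‖ ≤ 39 * (L * ‖q - R‖) + (54 + 2 * C0) * ((L + 1) * (‖q - R‖ + ‖Dl q‖)) := by
        linarith
    _ ≤ 39 * L * (‖q - R‖ + ‖Dl q‖) + (54 + 2 * C0) * ((L + 1) * (‖q - R‖ + ‖Dl q‖)) := by
        linarith
    _ = _ := by ring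

end Pool.Agent.PlaneGT
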