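import Pool.Agent.Lib.MP_6aab98_ag.GT.Dl1

/-! # MP_6aab98_ag GT, row Dl2 -/

namespace Pool.Agent.PlaneGT

open Finset Filter Topology Asymptotics
open scoped Nat

/-- the derivative of `Dl ^ 2 - 6 K (1 - q / R)` near `R` -/
private theorem Dl2_der {R : ℝ} (hR : IsRad R) {K : ℝ} (hK : Rh (R : ℂ) = K) : ∃ E : ℝ, 0 < E ∧
    ∀ z : ℂ, ‖z - R‖ < R / 2 → ‖z‖ < R →
      ‖(4 * phi 2 z * Dl z - 6 * Rh z) / z + 6 * K / R‖ ≤ E * Real.sqrt ‖z - R‖ := by
  have hR0 : 0 < R := lt_trans one_pos hR.1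
  obtain ⟨C0, hC0, hb⟩ := phi_bound hR
  obtain ⟨C1, hC1, h1⟩ := Dl1_near hR
  obtain ⟨C2, hC2, h2⟩ := Rh_sub_le hR hK
  refine ⟨(4 * C0 * Real.sqrt C1 + 6 * (C2 * (Real.sqrt (R / 2) + Real.sqrt C1)) +
    6 * |K| / R * Real.sqrt (R / 2)) / (R / 2), by positivity, ?_⟩
  intro z hz1 hz2
  have hz3 : R / 2 < ‖z‖ := by
    have h4 : ‖(R : ℂ)‖ = R := by
      rw [Complex.norm_real, Real.norm_of_nonneg hR0.le]
    have h5 : ‖(R : ℂ)‖ ≤ ‖z‖ + ‖z - R‖ := by
      have h6 : (R : ℂ) = z - (z - R) := by ring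
      calc ‖(R : ℂ)‖ = ‖z - (z - R)‖ := by rw [← h6]
        _ ≤ _ := norm_sub_le _ _
    rw [h4] at h5
    linarith
  have hz0 : z ≠ 0 := by
    intro h
    rw [h, norm_zero] at hz3
    linarith
  have hRc : (R : ℂ) ≠ 0 := by exact_mod_cast hR0.ne'
  set s : ℝ := Real.sqrt ‖z - R‖ with hs
  have hs0 : 0 ≤ s := Real.sqrt_nonneg _
  have hss : s * s = ‖z - R‖ := Real.mul_self_sqrt (norm_nonneg _)
  have hs1 : s ≤ Real.sqrt (R / 2) := Real.sqrt_le_sqrt hz1.le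
  have hzR : ‖z - R‖ ≤ Real.sqrt (R / 2) * s := by
    rw [← hss]
    exact mul_le_mul_of_nonneg_right hs1 hs0
  have hDl : ‖Dl z‖ ≤ Real.sqrt C1 * s := by
    have h3 := h1 z ⟨by rw [Metric.mem_ball, dist_eq_norm]; exact hz1,
      by rw [Metric.mem_ball, dist_zero_right]; exact hz2⟩
    have h4 : ‖Dl z‖ = Real.sqrt (‖Dl z‖ ^ 2) := (Real.sqrt_sq (norm_nonneg _)).symm
    rw [h4, hs, ← Real.sqrt_mul hC1.le]
    exact Real.sqrt_le_sqrt h3
  have hRh : ‖Rh z - K‖ ≤ C2 * (Real.sqrt (R / 2) + Real.sqrt C1) * s := by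
    have h3 := h2 z hz2.le
    have h4 : ‖z - R‖ + ‖Dl z‖ ≤ (Real.sqrt (R / 2) + Real.sqrt C1) * s := by
      rw [add_mul]
      exact add_le_add hzR hDl
    calc ‖Rh z - K‖ ≤ C2 * (‖z - R‖ + ‖Dl z‖) := h3
      _ ≤ C2 * ((Real.sqrt (R / 2) + Real.sqrt C1) * s) := mul_le_mul_of_nonneg_left h4 hC2.le
      _ = _ := by ring
  have hphi := hb 2 le_rfl z hz2.le
  have heq : (4 * phi 2 z * Dl z - 6 * Rh z) / z + 6 * K / R =
      (4 * phi 2 z * Dl z - 6 * (Rh z - K) + 6 * K / R * (z - R)) / z := by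
    field_simp
    ring
  rw [heq, norm_div, div_le_iff₀ (norm_pos_iff.mpr hz0)]
  have hn1 : ‖4 * phi 2 z * Dl z‖ ≤ 4 * C0 * Real.sqrt C1 * s := by
    rw [norm_mul, norm_mul, Complex.norm_ofNat]
    calc 4 * ‖phi 2 z‖ * ‖Dl z‖ ≤ 4 * C0 * (Real.sqrt C1 * s) := by gcongr
      _ = _ := by ring
  have hn2 : ‖6 * (Rh z - K)‖ ≤ 6 * (C2 * (Real.sqrt (R / 2) + Real.sqrt C1)) * s := by
    rw [norm_mul, Complex.norm_ofNat]
    calc 6 * ‖Rh z - K‖ ≤ 6 * (C2 * (Real.sqrt (R / 2) + Real.sqrt C1) * s) := by gcongr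
      _ = _ := by ring
  have hn3 : ‖6 * (K : ℂ) / R * (z - R)‖ ≤ 6 * |K| / R * Real.sqrt (R / 2) * s := by
    rw [norm_mul, norm_div, norm_mul, Complex.norm_ofNat, Complex.norm_real, Complex.norm_real,
      Real.norm_of_nonneg hR0.le, Real.norm_eq_abs]
    calc 6 * |K| / R * ‖z - R‖ ≤ 6 * |K| / R * (Real.sqrt (R / 2) * s) := by gcongr
      _ = _ := by ring
  have hn : ‖4 * phi 2 z * Dl z - 6 * (Rh z - K) + 6 * K / R * (z - R)‖ ≤
      (4 * C0 * Real.sqrt C1 + 6 * (C2 * (Real.sqrt (R / 2) + Real.sqrt C1)) +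
        6 * |K| / R * Real.sqrt (R / 2)) * s := by
    refine (norm_add_le _ _).trans ?_
    have := norm_sub_le (4 * phi 2 z * Dl z) (6 * (Rh z - K))
    rw [add_mul, add_mul]
    linarith
  refine hn.trans ?_
  set N : ℝ := 4 * C0 * Real.sqrt C1 + 6 * (C2 * (Real.sqrt (R / 2) + Real.sqrt C1)) +
        6 * |K| / R * Real.sqrt (R / 2) with hN
  have hN0 : 0 ≤ N := by positivity
  have h7 : N * s = N / (R / 2) * s * (R / 2) := by
    field_simp
  rw [h7]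
  exact mul_le_mul_of_nonneg_left hz3.le (by positivity)

/-- Row Dl2. With `h q = Dl q ^ 2 - 6 K (1 - q / R)`: `h' = (4 phi 2 Dl - 6 (Rh - K)) / q
- 6 K (1 / q - 1 / R)` is `O(‖q - R‖ ^ (1/2))` on `ball R (R / 2) ∩ ball 0 R`
(use a version of `Dl_sq_le` on this set), so by the mean value inequality on
`ball R (2 ‖q - R‖) ∩ ball R (R / 2) ∩ ball 0 R` (convex) `‖h q‖ ≤ C ‖q - R‖ ^ (3/2)`.
For `‖q - R‖ ≥ R / 4` trivial by boundedness. -/
theorem Dl_sq_asymp {R : ℝ} (hR : IsRad R) {K : ℝ} (hK : Rh (R : ℂ) = K) : ∃ C : ℝ, 0 < C ∧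
    ∀ q ∈ Ann R, ‖Dl q ^ 2 - 6 * K * (1 - q / R)‖ ≤ C * (‖q - R‖ * Real.sqrt ‖q - R‖) := by
  have hR0 : 0 < R := lt_trans one_pos hR.1
  have hRc : (R : ℂ) ≠ 0 := by exact_mod_cast hR0.ne'
  obtain ⟨E, hE, hder⟩ := Dl2_der hR hK
  obtain ⟨C3, hC3, h3⟩ := Dl_sq_le hR
  -- far from `R`
  have hfar : ∀ q ∈ Ann R, R / 2 ≤ ‖q - R‖ →
      ‖Dl q ^ 2 - 6 * K * (1 - q / R)‖ ≤
        (C3 + 6 * |K| / R) / Real.sqrt (R / 2) * (‖q - R‖ * Real.sqrt ‖q - R‖) := by
    intro q hq hfar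
    have h4 := h3 q hq
    have h5 : ‖6 * (K : ℂ) * (1 - q / R)‖ = 6 * |K| / R * ‖q - R‖ := by
      have h6 : 6 * (K : ℂ) * (1 - q / R) = -(6 * K / R * (q - R)) := by
        field_simp
        ring
      rw [h6, norm_neg, norm_mul, norm_div, norm_mul, Complex.norm_ofNat, Complex.norm_real,
        Complex.norm_real, Real.norm_of_nonneg hR0.le, Real.norm_eq_abs]
    have h6 : ‖Dl q ^ 2 - 6 * K * (1 - q / R)‖ ≤ (C3 + 6 * |K| / R) * ‖q - R‖ := by
      refine (norm_sub_le _ _).trans ?_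
      rw [norm_pow, h5, add_mul]
      linarith
    have h7 : Real.sqrt (R / 2) ≤ Real.sqrt ‖q - R‖ := Real.sqrt_le_sqrt hfar
    have h8 : 0 < Real.sqrt (R / 2) := Real.sqrt_pos.mpr (by positivity)
    refine h6.trans ?_
    have h9 : (C3 + 6 * |K| / R) * ‖q - R‖ =
        (C3 + 6 * |K| / R) / Real.sqrt (R / 2) * (‖q - R‖ * Real.sqrt (R / 2)) := by
      field_simp
    rw [h9]
    gcongr
  refine ⟨E + (C3 + 6 * |K| / R) / Real.sqrt (R / 2), by positivity, fun q hq => ?_⟩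
  by_cases hc : R / 2 ≤ ‖q - R‖
  · refine (hfar q hq hc).trans ?_
    gcongr
    linarith
  push Not at hc
  have hqR : ‖q‖ < R := hq.2
  -- the path
  let γ : ℝ → ℂ := fun t => q + t * (R - q)
  have hγR : ∀ t : ℝ, γ t - R = ((1 - t : ℝ) : ℂ) * (q - R) := by
    intro t
    change q + t * (R - q) - R = _
    push_cast
    ring
  have hγn : ∀ t : ℝ, 0 ≤ t → t ≤ 1 → ‖γ t - R‖ ≤ ‖q - R‖ := by
    intro t ht0 ht1
    rw [hγR, norm_mul, Complex.norm_real, Real.norm_of_nonneg (by linarith)]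
    exact mul_le_of_le_one_left (norm_nonneg _) (by linarith)
  have hγb : ∀ t : ℝ, 0 ≤ t → t < 1 → ‖γ t‖ < R := by
    intro t ht0 ht1
    have h1 : γ t = ((1 - t : ℝ) : ℂ) * q + (t : ℂ) * R := by
      change q + t * (R - q) = _
      push_cast
      ring
    rw [h1]
    have h2 : ‖((1 - t : ℝ) : ℂ) * q + (t : ℂ) * R‖ ≤ (1 - t) * ‖q‖ + t * R := by
      refine (norm_add_le _ _).trans ?_
      rw [norm_mul, norm_mul, Complex.norm_real, Complex.norm_real, Complex.norm_real,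
        Real.norm_of_nonneg (by linarith), Real.norm_of_nonneg ht0, Real.norm_of_nonneg hR0.le]
    nlinarith
  have hγb' : ∀ t : ℝ, 0 ≤ t → t ≤ 1 → ‖γ t‖ ≤ R := by
    intro t ht0 ht1
    rcases ht1.lt_or_eq with h | h
    · exact (hγb t ht0 h).le
    · have h1 : γ t = R := by
        change q + t * (R - q) = _
        rw [h]
        push_cast
        ring
      rw [h1, Complex.norm_real, Real.norm_of_nonneg hR0.le]
  let h : ℂ → ℂ := fun z => Dl z ^ 2 - 6 * K * (1 - z / R)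
  have hγd : ∀ t : ℝ, HasDerivAt γ (R - q) t := by
    intro t
    have h1 : HasDerivAt (fun s : ℝ => q + (s : ℂ) * (R - q)) (1 * (R - q)) t :=
      ((HasDerivAt.ofReal_comp (hasDerivAt_id t)).mul_const (R - q)).const_add q
    rwa [one_mul] at h1
  have hhd : ∀ z : ℂ, z ≠ 0 → ‖z‖ < R →
      HasDerivAt h ((4 * phi 2 z * Dl z - 6 * Rh z) / z + 6 * K / R) z := by
    intro z hz0 hz
    have h1 := Dl_sq_deriv hR hz0 hz
    have h2 : HasDerivAt (fun w : ℂ => 6 * (K : ℂ) * (1 - w / R)) (6 * K * (-(1 / R))) z :=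
      (((hasDerivAt_id z).div_const (R : ℂ)).const_sub 1).const_mul (6 * (K : ℂ))
    have h3 := h1.sub h2
    have h4 : (4 * phi 2 z * Dl z - 6 * Rh z) / z - 6 * K * (-(1 / R)) =
        (4 * phi 2 z * Dl z - 6 * Rh z) / z + 6 * K / R := by
      ring
    rw [h4] at h3
    exact h3
  have hDc : ContinuousOn Dl (Metric.closedBall 0 R) := by
    have h1 := phi_cont hR (j := 1) (by norm_num)
    have h2 := phi_cont hR (j := 2) le_rfl
    exact (continuousOn_const.add (continuousOn_const.mul h1)).sub (continuousOn_const.mul h2)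
  have hhc : ContinuousOn h (Metric.closedBall 0 R) :=
    (hDc.pow 2).sub (continuousOn_const.mul
      (continuousOn_const.sub (continuousOn_id.div_const (R : ℂ))))
  have hγc : Continuous γ := by
    change Continuous fun t : ℝ => q + (t : ℂ) * (R - q)
    fun_prop
  have hmv := norm_image_sub_le_of_norm_deriv_right_le_segment (f := fun t => h (γ t))
    (f' := fun t => ((4 * phi 2 (γ t) * Dl (γ t) - 6 * Rh (γ t)) / γ t + 6 * K / R) * (R - q))
    (a := 0) (b := 1) (C := E * Real.sqrt ‖q - R‖ * ‖q - R‖) ?_ ?_ ?_ 1 (by simp)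
  · have e1 : γ 1 = R := by
      change q + ((1 : ℝ) : ℂ) * (R - q) = _
      push_cast
      ring
    have e0 : γ 0 = q := by
      change q + ((0 : ℝ) : ℂ) * (R - q) = _
      push_cast
      ring
    have e2 : h R = 0 := by
      change Dl (R : ℂ) ^ 2 - 6 * K * (1 - (R : ℂ) / R) = 0
      rw [Dl_R hR, div_self hRc]
      ring
    simp only [e1, e0, e2, zero_sub, norm_neg, sub_zero, mul_one] at hmv
    have h5 : ‖Dl q ^ 2 - 6 * K * (1 - q / R)‖ ≤ E * (‖q - R‖ * Real.sqrt ‖q - R‖) := by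
      refine hmv.trans (le_of_eq (by ring))
    refine h5.trans ?_
    gcongr
    have : 0 ≤ (C3 + 6 * |K| / R) / Real.sqrt (R / 2) := by positivity
    linarith
  · refine hhc.comp hγc.continuousOn ?_
    intro t ht
    rw [Metric.mem_closedBall, dist_zero_right]
    exact hγb' t ht.1 ht.2
  · intro t ht
    have h1 : ‖γ t - R‖ < R / 2 := (hγn t ht.1 ht.2.le).trans_lt hc
    have h0 : γ t ≠ 0 := by
      intro h0
      rw [h0, zero_sub, norm_neg, Complex.norm_real, Real.norm_of_nonneg hR0.le] at h1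
      linarith
    have h2 := HasDerivAt.scomp t (hhd (γ t) h0 (hγb t ht.1 ht.2)) (hγd t)
    rw [smul_eq_mul, mul_comm] at h2
    exact h2.hasDerivWithinAt
  · intro t ht
    have h1 : ‖γ t - R‖ < R / 2 := (hγn t ht.1 ht.2.le).trans_lt hc
    have h2 := hder (γ t) h1 (hγb t ht.1 ht.2)
    rw [norm_mul, norm_sub_rev (R : ℂ) q]
    refine mul_le_mul_of_nonneg_right ?_ (norm_nonneg _)
    refine h2.trans ?_
    exact mul_le_mul_of_nonneg_left (Real.sqrt_le_sqrt (hγn t ht.1 ht.2.le)) hE.le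

end Pool.Agent.PlaneGT
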