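import Pool.Agent.Lib.MP_6aab98_ag.GT.Dl2

/-! # MP_6aab98_ag GT, row Dl3 -/

namespace Pool.Agent.PlaneGT

open Finset Filter Topology Asymptotics
open scoped Nat

/-- the principal square root -/
private theorem Dl3_sq (w : ℂ) : (w ^ (1 / 2 : ℂ)) ^ 2 = w := by
  have h := Complex.cpow_nat_inv_pow w (n := 2) two_ne_zero
  have h1 : ((2 : ℕ) : ℂ)⁻¹ = (1 / 2 : ℂ) := by norm_num
  rw [h1] at h
  exact h

private theorem Dl3_re_nonneg (w : ℂ) : 0 ≤ (w ^ (1 / 2 : ℂ)).re := by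
  by_cases hw : w = 0
  · rw [hw, Complex.zero_cpow (by norm_num)]
    simp
  rw [Complex.cpow_def_of_ne_zero hw, Complex.exp_re]
  refine mul_nonneg (Real.exp_pos _).le ?_
  have h1 : (Complex.log w * (1 / 2 : ℂ)).im = Complex.arg w / 2 := by
    have h2 : (1 / 2 : ℂ) = ((1 / 2 : ℝ) : ℂ) := by norm_num
    rw [h2, Complex.im_mul_ofReal, Complex.log_im]
    ring
  rw [h1]
  have h2 := Complex.neg_pi_lt_arg w
  have h3 := Complex.arg_le_pi w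
  exact Real.cos_nonneg_of_mem_Icc ⟨by linarith, by linarith⟩

private theorem Dl3_norm (w : ℂ) : ‖w ^ (1 / 2 : ℂ)‖ ^ 2 = ‖w‖ := by
  rw [← norm_pow, Dl3_sq]

private theorem Dl3_re {w : ℂ} (hw : 0 ≤ w.re) :
    ‖w ^ (1 / 2 : ℂ)‖ ≤ Real.sqrt 2 * (w ^ (1 / 2 : ℂ)).re := by
  obtain ⟨s, hs⟩ : ∃ s : ℂ, s = w ^ (1 / 2 : ℂ) := ⟨_, rfl⟩
  have h1 : 0 ≤ s.re := by
    rw [hs]
    exact Dl3_re_nonneg w
  have h2 : s ^ 2 = w := by
    rw [hs]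
    exact Dl3_sq w
  have h3 : (s ^ 2).re = s.re ^ 2 - s.im ^ 2 := by
    rw [pow_two, Complex.mul_re]
    ring
  rw [h2] at h3
  rw [← hs]
  refine abs_le_of_sq_le_sq' ?_ (by positivity) |>.2
  rw [mul_pow, Real.sq_sqrt (by norm_num), Complex.sq_norm, Complex.normSq_apply]
  nlinarith

private theorem Dl3_w {R : ℝ} (hR : 0 < R) {q : ℂ} (hq : ‖q‖ < R) :
    0 < (1 - q / R : ℂ).re ∧ ‖q - R‖ = R * ‖1 - q / R‖ := by
  constructor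
  · rw [Complex.sub_re, Complex.one_re, Complex.div_ofReal_re, sub_pos, div_lt_one hR]
    exact lt_of_le_of_lt (Complex.re_le_norm q) hq
  · have hR0 : (R : ℂ) ≠ 0 := by exact_mod_cast hR.ne'
    have h1 : (1 - q / R : ℂ) = -((q - R) / R) := by
      field_simp
      ring
    rw [h1, norm_neg, norm_div, Complex.norm_real, Real.norm_of_nonneg hR.le]
    field_simp

/-- Row Dl3. With `s = (1 - q / R) ^ (1/2)` one has `|arg s| ≤ π / 4`, so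
`Re (Dl + √(6K) s) ≥ Re (√(6 K) s) ≥ √(6K) |s| / √2`. -/
theorem Dl_asymp {R : ℝ} (hR : IsRad R) {K : ℝ} (hK0 : 0 < K) (hK : Rh (R : ℂ) = K) :
    ∃ C : ℝ, 0 < C ∧ ∀ q ∈ Ann R,
      ‖Dl q - (Real.sqrt (6 * K) : ℂ) * (1 - q / R) ^ (1 / 2 : ℂ)‖ ≤ C * ‖1 - q / R‖ := by
  obtain ⟨C, hC, h⟩ := Dl_sq_asymp hR hK
  have hR0 : 0 < R := lt_trans one_pos hR.1
  obtain ⟨κ, hκ⟩ : ∃ κ : ℝ, κ = Real.sqrt (6 * K) := ⟨_, rfl⟩
  have hκ0 : 0 < κ := by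
    rw [hκ]
    exact Real.sqrt_pos.2 (by positivity)
  have hκ2 : κ ^ 2 = 6 * K := by
    rw [hκ]
    exact Real.sq_sqrt (by positivity)
  have h2 : 0 < Real.sqrt 2 := Real.sqrt_pos.2 (by norm_num)
  have hsR : 0 < Real.sqrt R := Real.sqrt_pos.2 hR0
  refine ⟨C * (R * Real.sqrt R) * Real.sqrt 2 / κ, by positivity, ?_⟩
  intro q hq
  obtain ⟨hw, hn⟩ := Dl3_w hR0 hq.2
  have h1 := h q hq
  have hD := Dl_re_pos hR hq.2
  rw [hn] at h1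
  obtain ⟨w, hwe⟩ : ∃ w : ℂ, w = 1 - q / R := ⟨_, rfl⟩
  rw [← hwe] at hw h1 ⊢
  rw [← hκ]
  have hs2 := Dl3_sq w
  have hsn := Dl3_norm w
  have hsr := Dl3_re hw.le
  have hw0 : w ≠ 0 := by
    intro h0
    rw [h0, Complex.zero_re] at hw
    exact lt_irrefl _ hw
  obtain ⟨s, hs⟩ : ∃ s : ℂ, s = w ^ (1 / 2 : ℂ) := ⟨_, rfl⟩
  rw [← hs] at hs2 hsn hsr ⊢
  have hs0 : 0 < ‖s‖ := by
    rw [norm_pos_iff]
    intro h0
    rw [h0] at hs2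
    apply hw0
    rw [← hs2]
    ring
  have hfac : Dl q ^ 2 - 6 * K * w = (Dl q - κ * s) * (Dl q + κ * s) := by
    have h3 : (6 * K : ℂ) = (κ : ℂ) ^ 2 := by
      have h4 : ((6 * K : ℝ) : ℂ) = ((κ ^ 2 : ℝ) : ℂ) := by rw [hκ2]
      push_cast at h4
      exact h4
    rw [h3, ← hs2]
    ring
  have hlow : κ * ‖s‖ / Real.sqrt 2 ≤ ‖Dl q + κ * s‖ := by
    have h3 : (Dl q + κ * s).re = (Dl q).re + κ * s.re := by
      rw [Complex.add_re, Complex.re_ofReal_mul]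
    have h4 := Complex.re_le_norm (Dl q + κ * s)
    rw [h3] at h4
    refine le_trans ?_ h4
    rw [div_le_iff₀ h2]
    have h5 : κ * ‖s‖ ≤ κ * (Real.sqrt 2 * s.re) := mul_le_mul_of_nonneg_left hsr hκ0.le
    have h6 : 0 ≤ (Dl q).re * Real.sqrt 2 := by positivity
    linarith
  have hsq : Real.sqrt (R * ‖w‖) = Real.sqrt R * ‖s‖ := by
    rw [Real.sqrt_mul hR0.le, ← hsn, Real.sqrt_sq (norm_nonneg s)]
  rw [hfac, norm_mul, hsq, ← hsn] at h1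
  rw [← hsn]
  have h3 : ‖Dl q - κ * s‖ * (κ * ‖s‖ / Real.sqrt 2) ≤
      C * (R * ‖s‖ ^ 2 * (Real.sqrt R * ‖s‖)) :=
    le_trans (mul_le_mul_of_nonneg_left hlow (norm_nonneg _)) h1
  have h4 : C * (R * ‖s‖ ^ 2 * (Real.sqrt R * ‖s‖)) =
      C * (R * Real.sqrt R) * Real.sqrt 2 / κ * ‖s‖ ^ 2 * (κ * ‖s‖ / Real.sqrt 2) := by
    field_simp
  rw [h4] at h3
  exact le_of_mul_le_mul_right h3 (by positivity)

/-- Row Dl3. Near `R` from `Dl_asymp`; away from `R` from `Dl_re`, as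
`R - q.re ≥ ‖q - R‖ ^ 2 / (2 R)`. -/
theorem Dl_lower {R : ℝ} (hR : IsRad R) : ∃ c : ℝ, 0 < c ∧ ∀ q ∈ Ann R,
    c * Real.sqrt ‖1 - q / R‖ ≤ ‖Dl q‖ := by
  obtain ⟨K, hK0, hK⟩ := exists_K hR
  obtain ⟨C, hC, h⟩ := Dl_asymp hR hK0 hK
  have hR0 : 0 < R := lt_trans one_pos hR.1
  obtain ⟨κ, hκ⟩ : ∃ κ : ℝ, κ = Real.sqrt (6 * K) := ⟨_, rfl⟩
  have hκ0 : 0 < κ := by
    rw [hκ]
    exact Real.sqrt_pos.2 (by positivity)
  obtain ⟨δ, hδ⟩ : ∃ δ : ℝ, δ = κ / (2 * C) := ⟨_, rfl⟩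
  have hδ0 : 0 < δ := by
    rw [hδ]
    positivity
  refine ⟨min (κ / 2) (R * δ ^ 3 / 4), by positivity, ?_⟩
  intro q hq
  obtain ⟨hw, hn⟩ := Dl3_w hR0 hq.2
  have h1 := h q hq
  have hre := Dl_re hR hq.2.le
  have hnn : ‖q - R‖ ^ 2 ≤ 2 * R * (R - q.re) := by
    have h3 := Complex.sq_norm (q - R)
    rw [Complex.normSq_apply, Complex.sub_re, Complex.sub_im, Complex.ofReal_re,
      Complex.ofReal_im] at h3
    have h4 := Complex.sq_norm q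
    rw [Complex.normSq_apply] at h4
    have h5 : ‖q‖ ^ 2 ≤ R ^ 2 := pow_le_pow_left₀ (norm_nonneg q) hq.2.le 2
    nlinarith
  rw [hn] at hnn
  obtain ⟨w, hwe⟩ : ∃ w : ℂ, w = 1 - q / R := ⟨_, rfl⟩
  rw [← hwe] at hw h1 hnn ⊢
  rw [← hκ] at h1
  have hsn := Dl3_norm w
  obtain ⟨s, hs⟩ : ∃ s : ℂ, s = w ^ (1 / 2 : ℂ) := ⟨_, rfl⟩
  rw [← hs] at hsn h1
  rw [← hsn] at hnn h1
  rw [← hsn, Real.sqrt_sq (norm_nonneg s)]
  have hs0 : 0 ≤ ‖s‖ := norm_nonneg s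
  rcases le_total ‖s‖ δ with hc | hc
  · -- near `R`
    refine (mul_le_mul_of_nonneg_right (min_le_left _ _) hs0).trans ?_
    have h3 : ‖(κ : ℂ) * s‖ = κ * ‖s‖ := by
      rw [norm_mul, Complex.norm_real, Real.norm_of_nonneg hκ0.le]
    have h4 : ‖(κ : ℂ) * s‖ ≤ ‖Dl q‖ + ‖Dl q - κ * s‖ := by
      have h5 : (κ : ℂ) * s = Dl q - (Dl q - κ * s) := by ring
      calc ‖(κ : ℂ) * s‖ = ‖Dl q - (Dl q - κ * s)‖ := by rw [← h5]
        _ ≤ ‖Dl q‖ + ‖Dl q - κ * s‖ := norm_sub_le _ _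
    rw [h3] at h4
    have h5 : C * ‖s‖ ^ 2 ≤ κ / 2 * ‖s‖ := by
      have h6 : C * ‖s‖ ≤ κ / 2 := by
        rw [hδ, le_div_iff₀ (by positivity)] at hc
        linarith
      calc C * ‖s‖ ^ 2 = C * ‖s‖ * ‖s‖ := by ring
        _ ≤ κ / 2 * ‖s‖ := mul_le_mul_of_nonneg_right h6 hs0
    linarith
  · -- away from `R`
    refine (mul_le_mul_of_nonneg_right (min_le_right _ _) hs0).trans ?_
    have h3 : R * ‖s‖ ^ 4 / 4 ≤ (Dl q).re := by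
      refine le_trans ?_ hre
      have h4 : R * (R * ‖s‖ ^ 4) ≤ R * (2 * (R - q.re)) := by
        calc R * (R * ‖s‖ ^ 4) = (R * ‖s‖ ^ 2) ^ 2 := by ring
          _ ≤ 2 * R * (R - q.re) := hnn
          _ = R * (2 * (R - q.re)) := by ring
      have h5 := le_of_mul_le_mul_left h4 hR0
      linarith
    refine le_trans ?_ (h3.trans (Complex.re_le_norm _))
    have h4 : δ ^ 3 ≤ ‖s‖ ^ 3 := pow_le_pow_left₀ hδ0.le hc 3
    calc R * δ ^ 3 / 4 * ‖s‖ ≤ R * ‖s‖ ^ 3 / 4 * ‖s‖ := by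
          apply mul_le_mul_of_nonneg_right _ hs0
          have := mul_le_mul_of_nonneg_left h4 hR0.le
          linarith
      _ = R * ‖s‖ ^ 4 / 4 := by ring

end Pool.Agent.PlaneGT
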