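import Pool.Agent.Lib.MP_6aab98_ag.GT.Dl3

/-! # MP_6aab98_ag GT, row Dl4 -/

namespace Pool.Agent.PlaneGT

open Finset Filter Topology Asymptotics
open scoped Nat

/-- `a ^ k` and `b ^ k` for close `a`, `b`. -/
private lemma Dl4_pow_sub (a b : ℂ) (M : ℝ) (ha : ‖a‖ ≤ M) (hb : ‖b‖ ≤ M) (k : ℕ) :
    ‖a ^ (k + 1) - b ^ (k + 1)‖ ≤ (k + 1) * M ^ k * ‖a - b‖ := by
  have hM : 0 ≤ M := le_trans (norm_nonneg _) ha
  induction k with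
  | zero => simp
  | succ k ih =>
    have h1 : a ^ (k + 1 + 1) - b ^ (k + 1 + 1) = a * (a ^ (k + 1) - b ^ (k + 1)) + (a - b) * b ^ (k + 1) := by
      ring
    rw [h1]
    have hbk : ‖b‖ ^ (k + 1) ≤ M ^ (k + 1) := pow_le_pow_left₀ (norm_nonneg _) hb _
    calc ‖a * (a ^ (k + 1) - b ^ (k + 1)) + (a - b) * b ^ (k + 1)‖
        ≤ ‖a * (a ^ (k + 1) - b ^ (k + 1))‖ + ‖(a - b) * b ^ (k + 1)‖ := norm_add_le _ _
      _ = ‖a‖ * ‖a ^ (k + 1) - b ^ (k + 1)‖ + ‖a - b‖ * ‖b‖ ^ (k + 1) := by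
          rw [norm_mul, norm_mul, norm_pow]
      _ ≤ M * ((k + 1) * M ^ k * ‖a - b‖) + ‖a - b‖ * M ^ (k + 1) := by
          gcongr
      _ = ((k + 1 : ℕ) + 1 : ℝ) * M ^ (k + 1) * ‖a - b‖ := by
          push_cast
          ring

/-- Row Fas2. From `Dl_asymp` and `Dl_lower`: `Dl ^ (-k) = (√(6K)) ^ (-k) (1 - q / R) ^ (-k/2)
(1 + O(|1 - q/R| ^ (1/2)))`. -/
theorem Dl_pow_asymp {R : ℝ} (hR : IsRad R) {K : ℝ} (hK0 : 0 < K) (hK : Rh (R : ℂ) = K) (k : ℕ)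
    (hk : 1 ≤ k) : ∃ C : ℝ, 0 < C ∧ ∀ q ∈ Ann R,
      ‖((Dl q)⁻¹) ^ k - (((Real.sqrt (6 * K))⁻¹ ^ k : ℝ) : ℂ) * (1 - q / R) ^ (-(k : ℂ) / 2)‖ ≤
        C * ‖1 - q / R‖ ^ (-((k : ℝ) - 1) / 2) := by
  obtain ⟨C1, hC1, h1⟩ := Dl_asymp hR hK0 hK
  obtain ⟨c, hc, h2⟩ := Dl_lower hR
  set κ := Real.sqrt (6 * K) with hκ
  have hκ0 : 0 < κ := Real.sqrt_pos.mpr (by linarith)
  obtain ⟨m, rfl⟩ : ∃ m, k = m + 1 := ⟨k - 1, by omega⟩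
  set M := max c⁻¹ κ⁻¹ with hM
  have hM0 : 0 < M := lt_of_lt_of_le (inv_pos.mpr hc) (le_max_left _ _)
  refine ⟨(m + 1) * M ^ m * (C1 / (c * κ)), by positivity, fun q hq => ?_⟩
  have hR0 : 0 < R := by linarith [hR.1]
  set s : ℂ := 1 - q / R with hs
  have hs0 : s ≠ 0 := by
    intro h0
    have h3 : q = R := by
      have h4 : q / R = 1 := by
        rw [hs] at h0
        exact (sub_eq_zero.mp h0).symm
      rw [div_eq_one_iff_eq (by exact_mod_cast hR0.ne')] at h4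
      exact h4
    have h5 : ‖q‖ < R := hq.2
    rw [h3, Complex.norm_real, Real.norm_eq_abs, abs_of_pos hR0] at h5
    exact lt_irrefl _ h5
  have hsn : 0 < ‖s‖ := norm_pos_iff.mpr hs0
  set r := Real.sqrt ‖s‖ with hr
  have hr0 : 0 < r := Real.sqrt_pos.mpr hsn
  have hrr : r * r = ‖s‖ := Real.mul_self_sqrt hsn.le
  set w : ℂ := s ^ (1 / 2 : ℂ) with hw
  have hwn : ‖w‖ = r := by
    rw [hw, hr, Real.sqrt_eq_rpow]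
    rw [Complex.norm_cpow_of_ne_zero hs0]
    simp
  have hw0 : w ≠ 0 := by
    rw [← norm_pos_iff, hwn]
    exact hr0
  have hD := h1 q hq
  have hDl := h2 q hq
  have hDp : 0 < ‖Dl q‖ := lt_of_lt_of_le (by positivity) hDl
  have hD0 : Dl q ≠ 0 := norm_pos_iff.mp hDp
  have hκc : (κ : ℂ) ≠ 0 := by exact_mod_cast hκ0.ne'
  have hb : (((κ⁻¹) ^ (m + 1) : ℝ) : ℂ) * s ^ (-((m + 1 : ℕ) : ℂ) / 2) = (((κ : ℂ) * w)⁻¹) ^ (m + 1) := by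
    have h7 : s ^ (-((m + 1 : ℕ) : ℂ) / 2) = (w ^ (m + 1))⁻¹ := by
      have h8 : -((m + 1 : ℕ) : ℂ) / 2 = -(((m + 1 : ℕ) : ℂ) * (1 / 2)) := by ring
      rw [h8, Complex.cpow_neg, Complex.cpow_nat_mul]
    rw [h7]
    push_cast
    rw [mul_inv, mul_pow, inv_pow, inv_pow]
  rw [hb]
  have hab : ‖(Dl q)⁻¹ - ((κ : ℂ) * w)⁻¹‖ ≤ C1 / (c * κ) := by
    have h9 : (Dl q)⁻¹ - ((κ : ℂ) * w)⁻¹ = ((κ : ℂ) * w - Dl q) / (Dl q * ((κ : ℂ) * w)) := by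
      field_simp
    rw [h9, norm_div, norm_mul, norm_mul, hwn, Complex.norm_real, Real.norm_eq_abs, abs_of_pos hκ0,
      norm_sub_rev]
    rw [div_le_div_iff₀ (by positivity) (by positivity)]
    have h10 : ‖Dl q - (κ : ℂ) * w‖ ≤ C1 * (r * r) := by
      rw [hrr]
      exact hD
    calc ‖Dl q - (κ : ℂ) * w‖ * (c * κ) ≤ C1 * (r * r) * (c * κ) := by gcongr
      _ = C1 * ((c * r) * (κ * r)) := by ring
      _ ≤ C1 * (‖Dl q‖ * (κ * r)) := by gcongr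
  have ha' : ‖(Dl q)⁻¹‖ ≤ M * r⁻¹ := by
    rw [norm_inv]
    calc ‖Dl q‖⁻¹ ≤ (c * r)⁻¹ := inv_anti₀ (by positivity) hDl
      _ = c⁻¹ * r⁻¹ := mul_inv _ _
      _ ≤ M * r⁻¹ := by
        gcongr
        exact le_max_left _ _
  have hb' : ‖((κ : ℂ) * w)⁻¹‖ ≤ M * r⁻¹ := by
    rw [norm_inv, norm_mul, hwn, Complex.norm_real, Real.norm_eq_abs, abs_of_pos hκ0, mul_inv]
    gcongr
    exact le_max_right _ _
  have h11 := Dl4_pow_sub _ _ _ ha' hb' m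
  have h12 : ‖s‖ ^ (-(((m + 1 : ℕ) : ℝ) - 1) / 2) = (r⁻¹) ^ m := by
    have h13 : -(((m + 1 : ℕ) : ℝ) - 1) / 2 = -((1 / 2 : ℝ) * (m : ℝ)) := by
      push_cast
      ring
    rw [h13, Real.rpow_neg hsn.le, Real.rpow_mul hsn.le, ← Real.sqrt_eq_rpow, Real.rpow_natCast, inv_pow]
  rw [h12]
  calc ‖((Dl q)⁻¹) ^ (m + 1) - (((κ : ℂ) * w)⁻¹) ^ (m + 1)‖
      ≤ (m + 1) * (M * r⁻¹) ^ m * ‖(Dl q)⁻¹ - ((κ : ℂ) * w)⁻¹‖ := h11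
    _ ≤ (m + 1) * (M * r⁻¹) ^ m * (C1 / (c * κ)) := by gcongr
    _ = (m + 1) * M ^ m * (C1 / (c * κ)) * (r⁻¹) ^ m := by
      rw [mul_pow]
      ring

end Pool.Agent.PlaneGT
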