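import Pool.Agent.Lib.MP_6aab98_ag.GT.Ode1
import Pool.Agent.Lib.MP_6aab98_ag.GT.Ode2

/-! # MP_6aab98_ag GT, row Dsc1 -/

namespace Pool.Agent.PlaneGT

open Finset Filter Topology Asymptotics
open scoped Nat

private theorem Dsc1_deriv {f0 f1 f2 : ℂ → ℂ} {a0 a1 a2 q : ℂ} (h0 : HasDerivAt f0 a0 q)
    (h1 : HasDerivAt f1 a1 q) (h2 : HasDerivAt f2 a2 q) {P : ℂ}
    (hP : P = (let A : ℂ := -f2 q
      let B : ℂ := (27 * f2 q - 27 * f1 q + 6 * f0 q) - 6 * (6 * f2 q - 2 * f1 q)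
      let C : ℂ := (6 * f2 q - 2 * f1 q) ^ 2 - 9 * (27 * f2 q - 27 * f1 q + 6 * f0 q)
        - (27 * f2 q - 27 * f1 q + 6 * f0 q) * f2 q
      let a : ℂ := -a2
      let b : ℂ := (27 * a2 - 27 * a1 + 6 * a0) - 6 * (6 * a2 - 2 * a1)
      let c : ℂ := 2 * (6 * f2 q - 2 * f1 q) * (6 * a2 - 2 * a1) - 9 * (27 * a2 - 27 * a1 + 6 * a0)
        - ((27 * a2 - 27 * a1 + 6 * a0) * f2 q + (27 * f2 q - 27 * f1 q + 6 * f0 q) * a2)
      2 * A * a * B ^ 2 + A ^ 2 * (2 * B * b) - 12 * B ^ 2 * b - 4 * (3 * A ^ 2 * a * C + A ^ 3 * c)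
        + 18 * (a * B * C + A * b * C + A * B * c) - 54 * C * c)) :
    HasDerivAt (fun z => Dp (f0 z) (f1 z) (f2 z)) P q := by
  have hA : HasDerivAt (fun z => -f2 z) (-a2) q := h2.neg
  have hb : HasDerivAt (fun z => 27 * f2 z - 27 * f1 z + 6 * f0 z)
      (27 * a2 - 27 * a1 + 6 * a0) q :=
    ((h2.const_mul 27).sub (h1.const_mul 27)).add (h0.const_mul 6)
  have ha : HasDerivAt (fun z => 6 * f2 z - 2 * f1 z) (6 * a2 - 2 * a1) q :=
    (h2.const_mul 6).sub (h1.const_mul 2)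
  have hB : HasDerivAt (fun z => (27 * f2 z - 27 * f1 z + 6 * f0 z) - 6 * (6 * f2 z - 2 * f1 z))
      ((27 * a2 - 27 * a1 + 6 * a0) - 6 * (6 * a2 - 2 * a1)) q := hb.sub (ha.const_mul 6)
  have hC : HasDerivAt (fun z => (6 * f2 z - 2 * f1 z) ^ 2
      - 9 * (27 * f2 z - 27 * f1 z + 6 * f0 z) - (27 * f2 z - 27 * f1 z + 6 * f0 z) * f2 z)
      (2 * (6 * f2 q - 2 * f1 q) * (6 * a2 - 2 * a1) - 9 * (27 * a2 - 27 * a1 + 6 * a0)
        - ((27 * a2 - 27 * a1 + 6 * a0) * f2 q + (27 * f2 q - 27 * f1 q + 6 * f0 q) * a2)) q := by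
    have h := ((ha.pow 2).sub (hb.const_mul 9)).sub (hb.mul h2)
    refine h.congr_deriv ?_
    push_cast
    ring
  have h := (((((hA.pow 2).mul (hB.pow 2)).sub ((hB.pow 3).const_mul 4)).sub
    (((hA.pow 3).mul hC).const_mul 4)).add (((hA.mul hB).mul hC).const_mul 18)).sub
    ((hC.pow 2).const_mul 27)
  refine (h.congr_of_eventuallyEq ?_).congr_deriv ?_
  · refine Filter.Eventually.of_forall fun z => ?_
    simp only [Dp, Pi.pow_apply, Pi.mul_apply, Pi.sub_apply, Pi.add_apply]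
    ring
  · subst hP
    simp only [Pi.pow_apply, Pi.mul_apply]
    push_cast
    ring

/-- Row Dsc1. `q D' = (54 + 4 phi 2) / Dl * D`: chain rule, `ode` and a polynomial identity. -/
theorem Dq_deriv {R : ℝ} (hR : IsRad R) {q : ℂ} (h0 : q ≠ 0) (hq : ‖q‖ < R) :
    HasDerivAt Dq ((54 + 4 * phi 2 q) * Dq q / (Dl q * q)) q := by
  have hne : q ≠ (R : ℂ) := by
    intro h
    rw [h, Complex.norm_real, Real.norm_eq_abs] at hq
    exact absurd hq (not_lt.mpr (le_abs_self R))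
  have hD : Dl q ≠ 0 := Dl_ne hR hq.le hne
  have hode := ode hR hq
  have h3 : phi 3 q = Rh q / Dl q := by
    rw [eq_div_iff hD, mul_comm]; exact hode
  refine Dsc1_deriv (phi_deriv hR 0 h0 hq) (phi_deriv hR 1 h0 hq) (phi_deriv hR 2 h0 hq) ?_
  simp only [zero_add, one_add_one_eq_two, Nat.reduceAdd]
  rw [h3]
  have hDe : Dl q = 27 + 2 * phi 1 q - 3 * phi 2 q := rfl
  have hRe : Rh q = 6 * phi 0 q - 33 * phi 1 q + 54 * phi 2 q + phi 2 q ^ 2 := rfl
  simp only [Dq, Dp]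
  rw [div_eq_iff (mul_ne_zero hD h0)]
  generalize hf : Rh q / Dl q = f3
  have hf3 : f3 * Dl q = 6 * phi 0 q - 33 * phi 1 q + 54 * phi 2 q + phi 2 q ^ 2 := by
    rw [← hf, div_mul_cancel₀ _ hD, hRe]
  have e0 : phi 1 q / q * (Dl q * q) = phi 1 q * Dl q := by field_simp
  have e1 : phi 2 q / q * (Dl q * q) = phi 2 q * Dl q := by field_simp
  have e2 : f3 / q * (Dl q * q) = 6 * phi 0 q - 33 * phi 1 q + 54 * phi 2 q + phi 2 q ^ 2 := by
    rw [← hf3]; field_simp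
  rw [hDe] at e0 e1 e2 ⊢
  generalize phi 1 q / q = a0 at *
  generalize phi 2 q / q = a1 at *
  generalize f3 / q = a2 at *
  generalize phi 0 q = f0 at *
  generalize phi 1 q = f1 at *
  generalize phi 2 q = f2 at *
  have key : ∀ (A B C DA DB DC : ℂ), A = -f2 →
      B = (27 * f2 - 27 * f1 + 6 * f0) - 6 * (6 * f2 - 2 * f1) →
      C = (6 * f2 - 2 * f1) ^ 2 - 9 * (27 * f2 - 27 * f1 + 6 * f0)
        - (27 * f2 - 27 * f1 + 6 * f0) * f2 →
      DA = 2 * A * B ^ 2 - 12 * A ^ 2 * C + 18 * B * C →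
      DB = 2 * A ^ 2 * B - 12 * B ^ 2 + 18 * A * C →
      DC = -4 * A ^ 3 + 18 * A * B - 54 * C →
      (54 + 4 * f2) * (A ^ 2 * B ^ 2 - 4 * B ^ 3 - 4 * A ^ 3 * C + 18 * A * B * C - 27 * C ^ 2)
        = (DB * 6 + DC * (-54 - 6 * f2)) * (f1 * (27 + 2 * f1 - 3 * f2))
        + (DB * (-15) + DC * (-4 * (6 * f2 - 2 * f1) + 243 + 27 * f2))
          * (f2 * (27 + 2 * f1 - 3 * f2))
        + (-DA - 9 * DB + DC * (12 * (6 * f2 - 2 * f1) - 243 - (54 * f2 - 27 * f1 + 6 * f0)))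
          * (6 * f0 - 33 * f1 + 54 * f2 + f2 ^ 2) := by
    intro A B C DA DB DC hA hB hC hDA hDB hDC
    subst hDA hDB hDC hA hB hC
    ring
  have := key _ _ _ _ _ _ rfl rfl rfl rfl rfl rfl
  rw [this, ← e0, ← e1, ← e2]
  ring

/-- Row Dsc1. `D = - 19683 q ^ 2 + O(q ^ 3)`. -/
theorem Dq_near_zero {R : ℝ} (hR : IsRad R) : ∃ C : ℝ, 0 < C ∧ ∀ q : ℂ, ‖q‖ ≤ 1 →
    ‖Dq q + 19683 * q ^ 2‖ ≤ C * ‖q‖ ^ 3 := by
  obtain ⟨K, hK, hb⟩ := phi_near_zero hR
  set l : Filter ℂ := 𝓟 {q : ℂ | ‖q‖ ≤ 1} with hl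
  have hmem : ∀ q ∈ {q : ℂ | ‖q‖ ≤ 1}, ‖q‖ ≤ 1 := fun q h => h
  have q1 : (fun q : ℂ => q) =O[l] (fun _ => (1 : ℂ)) := by
    rw [hl, isBigO_principal]
    exact ⟨1, fun q hq => by simpa using hq⟩
  have e : ∀ j ≤ 2, (fun q : ℂ => phi j q - q / 2) =O[l] (fun q => q ^ 2) := by
    intro j hj
    rw [hl, isBigO_principal]
    exact ⟨K, fun q hq => by rw [norm_pow]; exact hb j hj q hq⟩
  have q21 : (fun q : ℂ => q ^ 2) =O[l] (fun q => q) := by
    have h := (isBigO_refl (fun q : ℂ => q) l).mul q1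
    refine (h.congr (fun q => ?_) (fun q => ?_))
    · ring
    · ring
  have q31 : (fun q : ℂ => q ^ 3) =O[l] (fun q => q ^ 2) := by
    have h := (isBigO_refl (fun q : ℂ => q ^ 2) l).mul q1
    refine (h.congr (fun q => ?_) (fun q => ?_))
    · ring
    · ring
  have q43 : (fun q : ℂ => q ^ 4) =O[l] (fun q => q ^ 3) := by
    have h := (isBigO_refl (fun q : ℂ => q ^ 3) l).mul q1
    refine (h.congr (fun q => ?_) (fun q => ?_))
    · ring
    · ring
  have f : ∀ j ≤ 2, (fun q : ℂ => phi j q) =O[l] (fun q => q) := by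
    intro j hj
    have h := ((e j hj).trans q21).add ((isBigO_refl (fun q : ℂ => q) l).const_mul_left (1 / 2))
    refine h.congr (fun q => ?_) (fun q => rfl)
    ring
  have f0 := f 0 (by norm_num)
  have f1 := f 1 (by norm_num)
  have f2 := f 2 le_rfl
  have e0 := e 0 (by norm_num)
  have e1 := e 1 (by norm_num)
  have e2 := e 2 le_rfl
  have hA : (fun q => -phi 2 q) =O[l] (fun q => q) := f2.neg_left
  have hb' : (fun q => 27 * phi 2 q - 27 * phi 1 q + 6 * phi 0 q) =O[l] (fun q => q) :=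
    ((f2.const_mul_left 27).sub (f1.const_mul_left 27)).add (f0.const_mul_left 6)
  have ha' : (fun q => 6 * phi 2 q - 2 * phi 1 q) =O[l] (fun q => q) :=
    (f2.const_mul_left 6).sub (f1.const_mul_left 2)
  have hB : (fun q => (27 * phi 2 q - 27 * phi 1 q + 6 * phi 0 q)
      - 6 * (6 * phi 2 q - 2 * phi 1 q)) =O[l] (fun q => q) := hb'.sub (ha'.const_mul_left 6)
  have hE : (fun q => ((6 * phi 2 q - 2 * phi 1 q) ^ 2
      - 9 * (27 * phi 2 q - 27 * phi 1 q + 6 * phi 0 q)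
      - (27 * phi 2 q - 27 * phi 1 q + 6 * phi 0 q) * phi 2 q) + 27 * q) =O[l]
      (fun q => q ^ 2) := by
    have h1 := (ha'.mul ha').congr_right (g₂ := fun q : ℂ => q ^ 2) (fun q => by ring)
    have h2 := (hb'.mul f2).congr_right (g₂ := fun q : ℂ => q ^ 2) (fun q => by ring)
    have h3 := (((e2.const_mul_left 27).sub (e1.const_mul_left 27)).add
      (e0.const_mul_left 6)).const_mul_left 9
    refine ((h1.sub h3).sub h2).congr_left (fun q => ?_)
    ring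
  have hC : (fun q => ((6 * phi 2 q - 2 * phi 1 q) ^ 2
      - 9 * (27 * phi 2 q - 27 * phi 1 q + 6 * phi 0 q)
      - (27 * phi 2 q - 27 * phi 1 q + 6 * phi 0 q) * phi 2 q)) =O[l] (fun q => q) := by
    refine ((hE.trans q21).sub ((isBigO_refl (fun q : ℂ => q) l).const_mul_left 27)).congr_left
      (fun q => ?_)
    ring
  have hAB := hA.mul hB
  have t1 := (hAB.mul hAB).congr_right (g₂ := fun q : ℂ => q ^ 4) (fun q => by ring)
  have t2 := (((hB.mul hB).mul hB).congr_right (g₂ := fun q : ℂ => q ^ 3)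
    (fun q => by ring)).const_mul_left 4
  have t3 := ((((hA.mul hA).mul hA).mul hC).congr_right (g₂ := fun q : ℂ => q ^ 4)
    (fun q => by ring)).const_mul_left 4
  have t4 := ((hAB.mul hC).congr_right (g₂ := fun q : ℂ => q ^ 3)
    (fun q => by ring)).const_mul_left 18
  have t5 := ((hE.mul hE).congr_right (g₂ := fun q : ℂ => q ^ 4)
    (fun q => by ring)).const_mul_left 27
  have t6 := ((hE.mul (isBigO_refl (fun q : ℂ => q) l)).congr_right (g₂ := fun q : ℂ => q ^ 3)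
    (fun q => by ring)).const_mul_left 1458
  have h := (((((t1.trans q43).sub t2).sub (t3.trans q43)).add t4).sub (t5.trans q43)).add t6
  have h' : (fun q : ℂ => Dq q + 19683 * q ^ 2) =O[l] (fun q => q ^ 3) := by
    refine h.congr_left (fun q => ?_)
    simp only [Dq, Dp]
    ring
  rw [hl, isBigO_principal] at h'
  obtain ⟨C, hC'⟩ := h'
  refine ⟨max C 1, lt_max_of_lt_right one_pos, fun q hq => ?_⟩
  refine (hC' q hq).trans ?_
  rw [norm_pow]
  exact mul_le_mul_of_nonneg_right (le_max_left _ _) (by positivity)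

end Pool.Agent.PlaneGT
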