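import Pool.Agent.Lib.MP_6aab98_ag.GT.Dsc1
import Pool.Agent.Lib.MP_6aab98_ag.GT.Dl3

/-! # MP_6aab98_ag GT, row Dsc2 -/

namespace Pool.Agent.PlaneGT

open Finset Filter Topology Asymptotics
open scoped Nat

/-- lower bound for `Dl` on the ray, up to the radius -/
private theorem Dsc2_Dl {R : ℝ} (hR : IsRad R) : ∃ c : ℝ, 0 < c ∧ ∀ q : ℂ, ‖q‖ < R →
    c * Real.sqrt (1 - ‖q‖ / R) ≤ ‖Dl q‖ := by
  obtain ⟨c, hc, h⟩ := Dl_lower hR
  have hR1 : 1 < R := hR.1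
  have hR0 : 0 < R := by linarith
  refine ⟨min c ((R - 1) / 2), lt_min hc (by linarith), fun q hq => ?_⟩
  have hs0 : 0 ≤ Real.sqrt (1 - ‖q‖ / R) := Real.sqrt_nonneg _
  have hs1 : Real.sqrt (1 - ‖q‖ / R) ≤ 1 := by
    have h0 : 0 ≤ ‖q‖ / R := by positivity
    exact (Real.sqrt_le_sqrt (by linarith : 1 - ‖q‖ / R ≤ 1)).trans_eq Real.sqrt_one
  by_cases h1 : 1 ≤ ‖q‖
  · have h2 := h q ⟨h1, hq⟩
    have h3 : Real.sqrt (1 - ‖q‖ / R) ≤ Real.sqrt ‖1 - q / R‖ := by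
      apply Real.sqrt_le_sqrt
      have h4 : ‖(1 : ℂ)‖ - ‖q / R‖ ≤ ‖1 - q / R‖ := norm_sub_norm_le _ _
      rw [norm_one, norm_div, Complex.norm_real, Real.norm_of_nonneg hR0.le] at h4
      exact h4
    calc min c ((R - 1) / 2) * Real.sqrt (1 - ‖q‖ / R)
        ≤ c * Real.sqrt (1 - ‖q‖ / R) := mul_le_mul_of_nonneg_right (min_le_left _ _) hs0
      _ ≤ c * Real.sqrt ‖1 - q / R‖ := mul_le_mul_of_nonneg_left h3 hc.le
      _ ≤ ‖Dl q‖ := h2
  · push Not at h1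
    have h2 := Dl_re hR hq.le
    have h3 : q.re ≤ ‖q‖ := Complex.re_le_norm q
    have h4 : (Dl q).re ≤ ‖Dl q‖ := Complex.re_le_norm _
    calc min c ((R - 1) / 2) * Real.sqrt (1 - ‖q‖ / R)
        ≤ (R - 1) / 2 * Real.sqrt (1 - ‖q‖ / R) :=
          mul_le_mul_of_nonneg_right (min_le_right _ _) hs0
      _ ≤ (R - 1) / 2 * 1 := mul_le_mul_of_nonneg_left hs1 (by linarith)
      _ ≤ ‖Dl q‖ := by linarith

/-- Row Dsc2. On a ray `q = t e^{iθ}`, `t ∈ [t0, R)`, `y t = D (t e^{iθ})` satisfies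
`y' = a y`, `‖a t‖ ≤ C / √(1 - t / R)` (`Dl_lower` for `t ≥ 1`, `Dl_re` for `t ≤ 1`); with
`B t = - 2 C R √(1 - t / R)` the function `‖y t‖ ^ 2 exp (2 B t)` is monotone, so
`‖y t‖ ≥ ‖y t0‖ exp (- 2 C R)`, and `‖y t0‖ ≥ c0` for a small `t0` by `Dq_near_zero`. -/
theorem Dq_lower {R : ℝ} (hR : IsRad R) : ∃ c : ℝ, 0 < c ∧ ∀ q ∈ Ann R, c ≤ ‖Dq q‖ := by
  obtain ⟨c1, hc1, hDl⟩ := Dsc2_Dl hR
  obtain ⟨C2, hC2, hphi⟩ := phi_bound hR
  obtain ⟨C3, hC3, hnz⟩ := Dq_near_zero hR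
  have hR1 : 1 < R := hR.1
  have hR0 : 0 < R := by linarith
  -- the starting point
  let t0 : ℝ := min 1 (19683 / (2 * C3))
  have ht0 : 0 < t0 := lt_min one_pos (by positivity)
  have ht01 : t0 ≤ 1 := min_le_left _ _
  have ht02 : C3 * t0 ≤ 19683 / 2 := by
    have h1 : t0 ≤ 19683 / (2 * C3) := min_le_right _ _
    calc C3 * t0 ≤ C3 * (19683 / (2 * C3)) := mul_le_mul_of_nonneg_left h1 hC3.le
      _ = 19683 / 2 := by
        field_simp
  have hstart : ∀ z : ℂ, ‖z‖ = t0 → 19683 / 2 * t0 ^ 2 ≤ ‖Dq z‖ := by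
    intro z hz
    have h1 := hnz z (by rw [hz]; exact ht01)
    have h2 : ‖(19683 : ℂ) * z ^ 2‖ = 19683 * t0 ^ 2 := by
      rw [norm_mul, norm_pow, hz]
      norm_num
    have h3 : ‖(19683 : ℂ) * z ^ 2‖ ≤ ‖Dq z + 19683 * z ^ 2‖ + ‖Dq z‖ := by
      have h4 := norm_sub_le (Dq z + 19683 * z ^ 2) (Dq z)
      rwa [add_sub_cancel_left] at h4
    rw [hz] at h1
    have h5 : C3 * t0 ^ 3 ≤ 19683 / 2 * t0 ^ 2 := by
      have h6 := mul_le_mul_of_nonneg_right ht02 (sq_nonneg t0)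
      nlinarith [h6]
    rw [h2] at h3
    linarith
  -- the constant in the bound for the logarithmic derivative
  let C : ℝ := (54 + 4 * C2) / (c1 * t0)
  have hC : 0 < C := by positivity
  refine ⟨19683 / 2 * t0 ^ 2 * Real.exp (-(2 * C * R)), by positivity, fun q hq => ?_⟩
  obtain ⟨hq1, hqR⟩ := hq
  have hq0 : q ≠ 0 := by
    rintro rfl
    rw [norm_zero] at hq1
    linarith
  have hqn : (‖q‖ : ℂ) ≠ 0 := by
    rw [Ne, Complex.ofReal_eq_zero, norm_eq_zero]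
    exact hq0
  let w : ℂ := q / ‖q‖
  have hw : ‖w‖ = 1 := by
    change ‖q / (‖q‖ : ℂ)‖ = 1
    rw [norm_div, Complex.norm_real, norm_norm, div_self]
    exact norm_ne_zero_iff.2 hq0
  have hqw : ((‖q‖ : ℝ) : ℂ) * w = q := by
    change (‖q‖ : ℂ) * (q / ‖q‖) = q
    field_simp
  have hnorm : ∀ t : ℝ, 0 ≤ t → ‖(t : ℂ) * w‖ = t := by
    intro t ht
    rw [norm_mul, hw, mul_one, Complex.norm_real, Real.norm_of_nonneg ht]
  -- the function on the ray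
  let y : ℝ → ℂ := fun t => Dq ((t : ℂ) * w)
  let y' : ℝ → ℂ := fun t => w * ((54 + 4 * phi 2 ((t : ℂ) * w)) * Dq ((t : ℂ) * w) /
    (Dl ((t : ℂ) * w) * ((t : ℂ) * w)))
  have hy : ∀ t : ℝ, 0 < t → t < R → HasDerivAt y (y' t) t := by
    intro t ht htR
    have h1 : HasDerivAt (fun s : ℝ => (s : ℂ) * w) (1 * w) t :=
      (HasDerivAt.ofReal_comp (hasDerivAt_id t)).mul_const w
    rw [one_mul] at h1
    have hne : (t : ℂ) * w ≠ 0 := by
      rw [← norm_ne_zero_iff, hnorm t ht.le]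
      exact ht.ne'
    have h2 := Dq_deriv hR hne (by rw [hnorm t ht.le]; exact htR)
    have h3 := HasDerivAt.scomp t h2 h1
    exact h3
  let B' : ℝ → ℝ := fun t => C / Real.sqrt (1 - t / R)
  have hpos : ∀ t : ℝ, t < R → 0 < 1 - t / R := by
    intro t ht
    have : t / R < 1 := (div_lt_one hR0).2 ht
    linarith
  have hyB : ∀ t : ℝ, t0 ≤ t → t < R → ‖y' t‖ ≤ B' t * ‖y t‖ := by
    intro t ht htR
    have ht' : 0 < t := ht0.trans_le ht
    have hs : 0 < Real.sqrt (1 - t / R) := Real.sqrt_pos.2 (hpos t htR)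
    have h1 := hDl ((t : ℂ) * w) (by rw [hnorm t ht'.le]; exact htR)
    rw [hnorm t ht'.le] at h1
    have h2 : ‖(54 : ℂ) + 4 * phi 2 ((t : ℂ) * w)‖ ≤ 54 + 4 * C2 := by
      have h3 := hphi 2 le_rfl ((t : ℂ) * w) (by rw [hnorm t ht'.le]; exact htR.le)
      have h4 := norm_add_le (54 : ℂ) (4 * phi 2 ((t : ℂ) * w))
      rw [norm_mul] at h4
      norm_num at h4
      linarith
    have h5 : ‖y' t‖ = ‖(54 : ℂ) + 4 * phi 2 ((t : ℂ) * w)‖ * ‖y t‖ /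
        (‖Dl ((t : ℂ) * w)‖ * t) := by
      change ‖w * ((54 + 4 * phi 2 ((t : ℂ) * w)) * Dq ((t : ℂ) * w) /
        (Dl ((t : ℂ) * w) * ((t : ℂ) * w)))‖ = _
      rw [norm_mul, hw, one_mul, norm_div, norm_mul, norm_mul, hnorm t ht'.le]
    rw [h5]
    have h6 : 0 < ‖Dl ((t : ℂ) * w)‖ := (mul_pos hc1 hs).trans_le h1
    rw [div_le_iff₀ (mul_pos h6 ht')]
    have h7 : c1 * Real.sqrt (1 - t / R) * t0 ≤ ‖Dl ((t : ℂ) * w)‖ * t :=
      mul_le_mul h1 ht ht0.le h6.le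
    have h8 : B' t * (c1 * Real.sqrt (1 - t / R) * t0) = 54 + 4 * C2 := by
      change (54 + 4 * C2) / (c1 * t0) / Real.sqrt (1 - t / R) *
        (c1 * Real.sqrt (1 - t / R) * t0) = _
      have hs' := hs.ne'
      generalize Real.sqrt (1 - t / R) = s at hs' ⊢
      field_simp
    have hB0 : 0 ≤ B' t := by
      change 0 ≤ C / Real.sqrt (1 - t / R)
      positivity
    calc ‖(54 : ℂ) + 4 * phi 2 ((t : ℂ) * w)‖ * ‖y t‖
        ≤ (54 + 4 * C2) * ‖y t‖ := mul_le_mul_of_nonneg_right h2 (norm_nonneg _)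
      _ = B' t * (c1 * Real.sqrt (1 - t / R) * t0) * ‖y t‖ := by rw [h8]
      _ ≤ B' t * (‖Dl ((t : ℂ) * w)‖ * t) * ‖y t‖ :=
          mul_le_mul_of_nonneg_right (mul_le_mul_of_nonneg_left h7 hB0) (norm_nonneg _)
      _ = B' t * ‖y t‖ * (‖Dl ((t : ℂ) * w)‖ * t) := by ring
  let B : ℝ → ℝ := fun t => -(2 * C * R) * Real.sqrt (1 - t / R)
  have hB : ∀ t : ℝ, t < R → HasDerivAt B (B' t) t := by
    intro t htR
    have hs : 0 < Real.sqrt (1 - t / R) := Real.sqrt_pos.2 (hpos t htR)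
    have h1 : HasDerivAt (fun s : ℝ => 1 - s / R) (-(1 / R)) t :=
      ((hasDerivAt_id t).div_const R).const_sub 1
    have h2 := (h1.sqrt (hpos t htR).ne').const_mul (-(2 * C * R))
    have h3 : -(2 * C * R) * (-(1 / R) / (2 * Real.sqrt (1 - t / R))) = B' t := by
      change _ = C / Real.sqrt (1 - t / R)
      field_simp
    rw [h3] at h2
    exact h2
  let g : ℝ → ℝ := fun t => ‖y t‖ ^ 2 * Real.exp (2 * B t)
  have hg : ∀ t : ℝ, t0 ≤ t → t < R → HasDerivAt g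
      (2 * inner ℝ (y t) (y' t) * Real.exp (2 * B t) +
        ‖y t‖ ^ 2 * (Real.exp (2 * B t) * (2 * B' t))) t := by
    intro t ht htR
    have h1 := (hy t (ht0.trans_le ht) htR).norm_sq
    have h2 := ((hB t htR).const_mul 2).exp
    exact h1.mul h2
  have hmono : MonotoneOn g (Set.Icc t0 ‖q‖) := by
    refine monotoneOn_of_deriv_nonneg (convex_Icc _ _) ?_ ?_ ?_
    · intro t ht
      exact (hg t ht.1 (ht.2.trans_lt hqR)).continuousAt.continuousWithinAt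
    · intro t ht
      rw [interior_Icc] at ht
      exact (hg t ht.1.le (ht.2.trans hqR)).differentiableAt.differentiableWithinAt
    · intro t ht
      rw [interior_Icc] at ht
      rw [(hg t ht.1.le (ht.2.trans hqR)).deriv]
      have h1 := hyB t ht.1.le (ht.2.trans hqR)
      have h2 : -(‖y t‖ * ‖y' t‖) ≤ inner ℝ (y t) (y' t) :=
        (abs_le.1 (abs_real_inner_le_norm (y t) (y' t))).1
      have h3 : ‖y t‖ * ‖y' t‖ ≤ ‖y t‖ * (B' t * ‖y t‖) :=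
        mul_le_mul_of_nonneg_left h1 (norm_nonneg _)
      have h4 : 0 ≤ 2 * inner ℝ (y t) (y' t) + ‖y t‖ ^ 2 * (2 * B' t) := by
        nlinarith
      have h5 := mul_nonneg h4 (Real.exp_pos (2 * B t)).le
      nlinarith [h5]
  have hle : t0 ≤ ‖q‖ := ht01.trans hq1
  have h1 := hmono (Set.left_mem_Icc.2 hle) (Set.right_mem_Icc.2 hle) hle
  have h2 : g ‖q‖ = ‖Dq q‖ ^ 2 * Real.exp (2 * B ‖q‖) := by
    change ‖Dq (((‖q‖ : ℝ) : ℂ) * w)‖ ^ 2 * Real.exp (2 * B ‖q‖) = _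
    rw [hqw]
  have h3 : g t0 = ‖y t0‖ ^ 2 * Real.exp (2 * B t0) := rfl
  have h4 : 19683 / 2 * t0 ^ 2 ≤ ‖y t0‖ := hstart _ (hnorm t0 ht0.le)
  have h5 : B ‖q‖ ≤ 0 := by
    change -(2 * C * R) * Real.sqrt (1 - ‖q‖ / R) ≤ 0
    have : 0 ≤ 2 * C * R * Real.sqrt (1 - ‖q‖ / R) := by positivity
    linarith
  have h6 : -(2 * C * R) ≤ B t0 := by
    change -(2 * C * R) ≤ -(2 * C * R) * Real.sqrt (1 - t0 / R)
    have h7 : Real.sqrt (1 - t0 / R) ≤ 1 := by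
      have h0 : 0 ≤ t0 / R := by positivity
      exact (Real.sqrt_le_sqrt (by linarith : 1 - t0 / R ≤ 1)).trans_eq Real.sqrt_one
    have h8 : 0 ≤ 2 * C * R := by positivity
    nlinarith
  rw [h2, h3] at h1
  have h9 : Real.exp (2 * B ‖q‖) ≤ 1 := Real.exp_le_one_iff.2 (by linarith)
  have h10 : Real.exp (-(2 * C * R)) ^ 2 ≤ Real.exp (2 * B t0) := by
    rw [← Real.exp_nat_mul]
    apply Real.exp_le_exp.2
    push_cast
    linarith
  have h11 : (19683 / 2 * t0 ^ 2 * Real.exp (-(2 * C * R))) ^ 2 ≤ ‖Dq q‖ ^ 2 := by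
    rw [mul_pow]
    calc (19683 / 2 * t0 ^ 2) ^ 2 * Real.exp (-(2 * C * R)) ^ 2
        ≤ ‖y t0‖ ^ 2 * Real.exp (2 * B t0) :=
          mul_le_mul (pow_le_pow_left₀ (by positivity) h4 2) h10 (by positivity) (by positivity)
      _ ≤ ‖Dq q‖ ^ 2 * Real.exp (2 * B ‖q‖) := h1
      _ ≤ ‖Dq q‖ ^ 2 * 1 := mul_le_mul_of_nonneg_left h9 (by positivity)
      _ = ‖Dq q‖ ^ 2 := mul_one _
  exact (pow_le_pow_iff_left₀ (by positivity) (norm_nonneg _) two_ne_zero).1 h11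

end Pool.Agent.PlaneGT
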