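import Pool.Agent.Lib.MP_6aab98_ag.GT.Lab2

/-! # MP_6aab98_ag GT, row Exq1 -/

namespace Pool.Agent.PlaneGT

open Finset Filter Topology Asymptotics
open scoped Nat

private theorem Exq1_sub_le {R : ℝ} (hR : IsRad R) : ∃ C : ℝ, 0 < C ∧ ∀ q ∈ Ann R,
    ‖q - R‖ ≤ C * ‖Dl q‖ := by
  obtain ⟨c, hc, h⟩ := Dl_lower hR
  have hR1 : 1 < R := hR.1
  have hR0 : 0 < R := by linarith
  refine ⟨R * 2 / c, by positivity, fun q hq => ?_⟩
  have hRn : ‖(R : ℂ)‖ = R := by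
    rw [Complex.norm_real, Real.norm_eq_abs, abs_of_pos hR0]
  have hRne : (R : ℂ) ≠ 0 := by
    intro h0
    rw [h0, norm_zero] at hRn
    linarith
  have h1 : ‖q - R‖ = R * ‖1 - q / R‖ := by
    have h2 : q - R = -((R : ℂ) * (1 - q / R)) := by
      field_simp
      ring
    rw [h2, norm_neg, norm_mul, hRn]
  have h3 : ‖1 - q / R‖ ≤ 2 := by
    have h4 : ‖q / R‖ ≤ 1 := by
      rw [norm_div, hRn, div_le_one hR0]
      exact hq.2.le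
    calc ‖1 - q / R‖ ≤ ‖(1 : ℂ)‖ + ‖q / R‖ := norm_sub_le _ _
      _ ≤ 2 := by rw [norm_one]; linarith
  have h5 := h q hq
  have h0 : 0 ≤ ‖1 - q / R‖ := norm_nonneg _
  have h6 : ‖1 - q / R‖ ≤ 2 * Real.sqrt ‖1 - q / R‖ := by
    have h7 : Real.sqrt ‖1 - q / R‖ ≤ 2 := by
      rw [Real.sqrt_le_left (by norm_num)]
      linarith
    have h8 := Real.mul_self_sqrt h0
    have h9 := Real.sqrt_nonneg ‖1 - q / R‖
    nlinarith
  have h10 : Real.sqrt ‖1 - q / R‖ ≤ ‖Dl q‖ / c := by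
    rw [le_div_iff₀ hc]
    linarith
  calc ‖q - R‖ = R * ‖1 - q / R‖ := h1
    _ ≤ R * (2 * (‖Dl q‖ / c)) := by
        refine mul_le_mul_of_nonneg_left ?_ hR0.le
        linarith
    _ = R * 2 / c * ‖Dl q‖ := by ring

/-- Row Exq1. `Kz = Rh + 9 Dl`, `Rh_sub_le` and `‖q - R‖ = O(‖Dl q‖)` from `Dl_lower`. -/
theorem Kz_sub {R : ℝ} (hR : IsRad R) {K : ℝ} (hK : Rh (R : ℂ) = K) :
    (fun q => Kz q - K) =O[𝓟 (Ann R)] (fun q => ‖Dl q‖) := by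
  obtain ⟨C1, hC1, h1⟩ := Exq1_sub_le hR
  obtain ⟨C2, hC2, h2⟩ := Rh_sub_le hR hK
  rw [isBigO_principal]
  refine ⟨C2 * (C1 + 1) + 9, fun q hq => ?_⟩
  rw [norm_norm]
  have h3 : Kz q - K = (Rh q - K) + 9 * Dl q := by
    unfold Kz Rh Dl
    ring
  have h4 := h2 q hq.2.le
  have h5 := h1 q hq
  have h6 : ‖(9 : ℂ) * Dl q‖ = 9 * ‖Dl q‖ := by
    rw [norm_mul]
    norm_num
  calc ‖Kz q - K‖ ≤ ‖Rh q - K‖ + ‖9 * Dl q‖ := by
        rw [h3]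
        exact norm_add_le _ _
    _ ≤ C2 * (‖q - R‖ + ‖Dl q‖) + 9 * ‖Dl q‖ := by
        rw [h6]
        linarith
    _ ≤ C2 * (C1 * ‖Dl q‖ + ‖Dl q‖) + 9 * ‖Dl q‖ := by
        have h7 : C2 * (‖q - R‖ + ‖Dl q‖) ≤ C2 * (C1 * ‖Dl q‖ + ‖Dl q‖) :=
          mul_le_mul_of_nonneg_left (by linarith) hC2.le
        linarith
    _ = (C2 * (C1 + 1) + 9) * ‖Dl q‖ := by ring

private theorem Exq1_phi {R : ℝ} (hR : IsRad R) {j : ℕ} (hj : j ≤ 2) :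
    (fun q => phi j q) =O[𝓟 (Ann R)] (fun _ => (1 : ℝ)) := by
  obtain ⟨C, hC, h⟩ := phi_bound hR
  rw [isBigO_principal]
  refine ⟨C, fun q hq => ?_⟩
  rw [norm_one, mul_one]
  exact h j hj q hq.2.le

private theorem Exq1_Dl {R : ℝ} (hR : IsRad R) :
    (fun q => ‖Dl q‖) =O[𝓟 (Ann R)] (fun _ => (1 : ℝ)) := by
  have h1 : (fun q => Dl q) =O[𝓟 (Ann R)] (fun _ => (1 : ℝ)) := by
    have hc : ∀ c : ℂ, (fun _ : ℂ => c) =O[𝓟 (Ann R)] (fun _ : ℂ => (1 : ℝ)) :=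
      fun c => isBigO_const_const c one_ne_zero _
    have h2 := ((hc 27).add ((Exq1_phi hR (show 1 ≤ 2 by norm_num)).const_mul_left 2)).sub
      ((Exq1_phi hR (le_refl 2)).const_mul_left 3)
    exact h2
  exact h1.norm_left

/-- Row Exq1. `1 / y 0 = chi' 0 / Y 0`, `Dl ^ 2 / Y 0 = Y 1 Y 2`,
`chi' 0 = Y 1 Y 2 - Y 0 (Y 1 + Y 2) + Y 0 ^ 2`, `Y 1 Y 2 = Kz - Y 0 (Y 1 + Y 2)`. -/
theorem Lab.y0 {R : ℝ} (hR : IsRad R) {K : ℝ} (hK : Rh (R : ℂ) = K) {u : ℂ → Fin 3 → ℂ}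
    (h : Lab R u) :
    (fun q => Dl q ^ 2 * (yu q (u q) 0)⁻¹ - (K : ℂ) ^ 2) =O[𝓟 (Ann R)] (fun q => ‖Dl q‖) := by
  have hc : ∀ c : ℂ, (fun _ : ℂ => c) =O[𝓟 (Ann R)] (fun _ : ℂ => (1 : ℝ)) :=
    fun c => isBigO_const_const c one_ne_zero _
  have hphi2 := Exq1_phi hR (le_refl 2)
  have hY : ∀ i, (fun q => Yu q (u q) i) =O[𝓟 (Ann R)] (fun _ => (1 : ℝ)) := by
    intro i
    exact ((hc 9).add hphi2).sub (h.u_bd i)
  have hDl := Exq1_Dl hR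
  have hY0 : (fun q => Yu q (u q) 0) =O[𝓟 (Ann R)] (fun q => ‖Dl q‖) := by
    refine h.Y0.trans ?_
    have h1 := hDl.mul (isBigO_refl (fun q => ‖Dl q‖) (𝓟 (Ann R)))
    refine h1.congr (fun q => ?_) (fun q => ?_)
    · ring
    · ring
  have hS : (fun q => Yu q (u q) 1 + Yu q (u q) 2) =O[𝓟 (Ann R)] (fun _ => (1 : ℝ)) :=
    (hY 1).add (hY 2)
  have hKz := Kz_sub hR hK
  -- `P = Y 1 * Y 2`
  have hP : (fun q => Yu q (u q) 1 * Yu q (u q) 2) =O[𝓟 (Ann R)] (fun _ => (1 : ℝ)) := by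
    refine ((hY 1).mul (hY 2)).congr_right (fun q => ?_)
    ring
  have hPK : (fun q => Yu q (u q) 1 * Yu q (u q) 2 - K) =O[𝓟 (Ann R)] (fun q => ‖Dl q‖) := by
    have h1 : (fun q => Yu q (u q) 0 * (Yu q (u q) 1 + Yu q (u q) 2)) =O[𝓟 (Ann R)]
        (fun q => ‖Dl q‖) := by
      refine (hY0.mul hS).congr_right (fun q => ?_)
      ring
    refine (hKz.sub h1).congr_left (fun q => ?_)
    have h2 := (h.rts q).Y2
    unfold Yu Kz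
    linear_combination (-1 : ℂ) * h2
  have hPK2 : (fun q => Yu q (u q) 1 * Yu q (u q) 2 + K) =O[𝓟 (Ann R)] (fun _ => (1 : ℝ)) :=
    hP.add (hc K)
  have hT1 : (fun q => (Yu q (u q) 1 * Yu q (u q) 2 - K) *
      (Yu q (u q) 1 * Yu q (u q) 2 + K)) =O[𝓟 (Ann R)] (fun q => ‖Dl q‖) := by
    refine (hPK.mul hPK2).congr_right (fun q => ?_)
    ring
  have hT2 : (fun q => Yu q (u q) 0 * ((Yu q (u q) 1 * Yu q (u q) 2) *
      (Yu q (u q) 0 - (Yu q (u q) 1 + Yu q (u q) 2)))) =O[𝓟 (Ann R)] (fun q => ‖Dl q‖) := by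
    refine (hY0.mul (hP.mul ((hY 0).sub hS))).congr_right (fun q => ?_)
    ring
  refine (hT1.add hT2).congr' ?_ EventuallyEq.rfl
  rw [EventuallyEq, eventually_principal]
  intro q hq
  have hDl0 : Dl q ≠ 0 := by
    refine Dl_ne hR hq.2.le ?_
    intro h0
    have h1 := hq.2
    rw [h0, Complex.norm_real, Real.norm_eq_abs, abs_of_pos (by linarith [hR.1])] at h1
    exact lt_irrefl _ h1
  have h3 : Yu q (u q) 0 * Yu q (u q) 1 * Yu q (u q) 2 = Dl q ^ 2 := by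
    have h4 := (h.rts q).Y3
    unfold Yu Dl
    exact h4
  have hY00 : Yu q (u q) 0 ≠ 0 := by
    intro h0
    rw [h0] at h3
    apply hDl0
    have h5 : Dl q ^ 2 = 0 := by rw [← h3]; ring
    exact pow_eq_zero_iff (two_ne_zero) |>.1 h5
  have hchi : chi' (u q) 0 = (Yu q (u q) 1 - Yu q (u q) 0) * (Yu q (u q) 2 - Yu q (u q) 0) := by
    have he : (univ : Finset (Fin 3)).erase 0 = {1, 2} := by decide
    unfold chi' Yu
    rw [he, Finset.prod_pair (by decide)]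
    ring
  have hyu : yu q (u q) 0 = Yu q (u q) 0 / chi' (u q) 0 := rfl
  show (Yu q (u q) 1 * Yu q (u q) 2 - K) * (Yu q (u q) 1 * Yu q (u q) 2 + K) +
      Yu q (u q) 0 * ((Yu q (u q) 1 * Yu q (u q) 2) *
      (Yu q (u q) 0 - (Yu q (u q) 1 + Yu q (u q) 2))) =
    Dl q ^ 2 * (yu q (u q) 0)⁻¹ - (K : ℂ) ^ 2
  rw [hyu, inv_div, hchi, ← h3]
  field_simp
  ring

end Pool.Agent.PlaneGT
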