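import Pool.Agent.Lib.MP_6aab98_ag.GT.Base

/-! # MP_6aab98_ag GT, row Siz1 -/

namespace Pool.Agent.PlaneGT

open Finset Filter Topology Asymptotics
open scoped Nat

section

variable {ι : Type} {l : Filter ι} {ρ : ι → Fin 3 → ℝ} {u x y : ι → Fin 3 → ℂ}

/-- Row Siz1. -/
theorem Tame.oInv (h : Tame l ρ u x y) (i : Fin 3) :
    (fun t => (ρ t i)⁻¹) =O[l] (fun _ => (1 : ℝ)) := by
  have h1 := (h.one i).inv_rev (Filter.Eventually.of_forall fun t ht => absurd ht one_ne_zero)
  simpa using h1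

/-- Row Siz1. -/
theorem Tame.oV (h : Tame l ρ u x y) (i j : Fin 3) :
    (fun t => Vm (x t) (y t) i j) =O[l] (fun t => ρ t i * (ρ t j)⁻¹) := by
  have e : ∀ t, x t i * y t j * (y t i)⁻¹ - (y t i * (y t i)⁻¹) * x t j = Vm (x t) (y t) i j := by
    intro t
    unfold Vm
    rw [div_eq_mul_inv]
    ring
  refine IsBigO.congr_left ?_ e
  have h1 : (fun t => x t i * y t j * (y t i)⁻¹) =O[l] (fun t => ρ t i * (ρ t j)⁻¹) := by
    have a := ((h.xup i).mul (h.yup j)).mul (h.yinv i)
    have b : (fun t => ρ t i * (ρ t j)⁻¹ * (ρ t j)⁻¹) =O[l] (fun t => ρ t i * (ρ t j)⁻¹ * 1) :=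
      (isBigO_refl _ _).mul (h.oInv j)
    refine (a.congr_right fun t => ?_).trans (b.congr_right fun t => mul_one _)
    have hi := (h.pos t i).ne'
    have hj := (h.pos t j).ne'
    field_simp
  have h2 : (fun t => (y t i * (y t i)⁻¹) * x t j) =O[l] (fun t => ρ t i * (ρ t j)⁻¹) := by
    have a := ((h.yup i).mul (h.yinv i)).mul (h.xup j)
    have b : (fun t => (1 : ℝ) * (ρ t j)⁻¹) =O[l] (fun t => ρ t i * (ρ t j)⁻¹) :=
      (h.one i).mul (isBigO_refl _ _)
    refine (a.congr_right fun t => ?_).trans b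
    have hi := (h.pos t i).ne'
    field_simp
  exact h1.sub h2

theorem Siz1_off (h : Tame l ρ u x y) (m : ℕ) (A : ι → Fin 3 → Fin 3 → ℂ)
    (hA : ∀ i j, (fun t => A t i j) =O[l] (fun t => ρ t i * (ρ t j)⁻¹)) (i j : Fin 3) :
    (fun t => offR (u t) (x t) (y t) m (A t) i j) =O[l] (fun t => ρ t i * (ρ t j)⁻¹) := by
  by_cases hij : i = j
  · simp only [offR, if_pos hij]
    exact isBigO_zero _ _
  · simp only [offR, if_neg hij]
    have h1 : (fun t => (m : ℂ) * A t i j + ∑ k, Vm (x t) (y t) i k * A t k j) =O[l]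
        (fun t => ρ t i * (ρ t j)⁻¹) := by
      refine ((hA i j).const_mul_left _).add (IsBigO.fun_sum fun k _ => ?_)
      refine ((h.oV i k).mul (hA k j)).congr_right fun t => ?_
      have hk := (h.pos t k).ne'
      field_simp
    have h2 := h1.mul (h.sep j i (Ne.symm hij))
    refine (h2.congr_right fun t => mul_one _).congr_left fun t => ?_
    rw [div_eq_mul_inv]

/-- Row Siz1. Induction on `m`. -/
theorem Tame.oR (h : Tame l ρ u x y) (m : ℕ) (i j : Fin 3) :
    (fun t => Rm (u t) (x t) (y t) m i j) =O[l] (fun t => ρ t i * (ρ t j)⁻¹) := by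
  induction m generalizing i j with
  | zero =>
    by_cases hij : i = j
    · subst hij
      simp only [Rm, if_true]
      refine (isBigO_const_const (1 : ℂ) (one_ne_zero (α := ℝ)) l).congr_right fun t => ?_
      rw [mul_inv_cancel₀ (h.pos t i).ne']
    · simp only [Rm, if_neg hij]
      exact isBigO_zero _ _
  | succ m ih =>
    have ho := Siz1_off h m (fun t => Rm (u t) (x t) (y t) m) ih
    by_cases hij : i = j
    · subst hij
      simp only [Rm, if_true]
      have h1 : (fun t => ∑ k, Vm (x t) (y t) i k * offR (u t) (x t) (y t) m (Rm (u t) (x t) (y t) m) k i) =O[l]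
          (fun t => ρ t i * (ρ t i)⁻¹) := by
        refine IsBigO.fun_sum fun k _ => ?_
        refine ((h.oV i k).mul (ho k i)).congr_right fun t => ?_
        have hk := (h.pos t k).ne'
        field_simp
      have h2 := (h1.const_mul_left (-((m : ℂ) + 1)⁻¹))
      refine h2.congr_left fun t => ?_
      rw [div_eq_mul_inv]
      ring
    · simp only [Rm, if_neg hij]
      exact ho i j

/-- Row Siz1. -/
theorem Tame.oS (h : Tame l ρ u x y) (m : ℕ) (i j : Fin 3) :
    (fun t => Sm (u t) (x t) (y t) m i j) =O[l] (fun t => ρ t i * (ρ t j)⁻¹) := by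
  have h1 := (((h.oR m j i).mul (h.yup j)).mul (h.yinv i)).const_mul_left ((-1 : ℂ) ^ m)
  refine (h1.congr_right fun t => ?_).congr_left fun t => ?_
  · have hi := (h.pos t i).ne'
    have hj := (h.pos t j).ne'
    field_simp
  · unfold Sm
    rw [div_eq_mul_inv]
    ring

/-- Row Siz1. -/
theorem Tame.oT (h : Tame l ρ u x y) (m : ℕ) (i : Fin 3) :
    (fun t => Tm (u t) (x t) (y t) m i) =O[l] (fun t => ρ t i) := by
  unfold Tm
  refine IsBigO.neg_left (IsBigO.fun_sum fun j _ => ?_)
  refine (h.oS (m - 1) i j).trans ?_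
  have b : (fun t => ρ t i * (ρ t j)⁻¹) =O[l] (fun t => ρ t i * 1) := (isBigO_refl _ _).mul (h.oInv j)
  exact b.congr_right fun t => mul_one _

/-- Row Siz1. -/
theorem Tame.oE (h : Tame l ρ u x y) (k m : ℕ) (i j : Fin 3) :
    (fun t => edge (u t) (x t) (y t) k m i j) =O[l] (fun t => ρ t i * ρ t j) := by
  unfold edge
  refine IsBigO.fun_sum fun r _ => ?_
  refine IsBigO.const_mul_left (IsBigO.fun_sum fun s _ => ?_) _
  have h1 := ((h.oS (k - r) i s).mul (h.oS (m + 1 + r) j s)).mul (h.yinv s)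
  refine (h1.congr_right fun t => ?_).congr_left fun t => ?_
  · have hs := (h.pos t s).ne'
    field_simp
  · rw [div_eq_mul_inv]

end

end Pool.Agent.PlaneGT
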