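import Pool.Agent.Lib.MP_6aab98_ag.GT.Lab2
import Pool.Agent.Lib.MP_6aab98_ag.GT.Siz1

/-! # MP_6aab98_ag GT, row Exq2 -/

namespace Pool.Agent.PlaneGT

open Finset Filter Topology Asymptotics
open scoped Nat

private theorem Exq2_T (u x y : Fin 3 → ℂ) : Tm u x y 2 0 =
    Rm u x y 1 0 0 * y 0 / y 0 + Vm x y 1 0 / (u 0 - u 1) * y 1 / y 0 +
      Vm x y 2 0 / (u 0 - u 2) * y 2 / y 0 := by
  have h1 : Rm u x y 1 1 0 = Vm x y 1 0 / (u 0 - u 1) := by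
    simp [Rm, offR]
  have h2 : Rm u x y 1 2 0 = Vm x y 2 0 / (u 0 - u 2) := by
    simp [Rm, offR]
  unfold Tm
  rw [Fin.sum_univ_three]
  unfold Sm
  simp only [Nat.add_one_sub_one, pow_one]
  rw [h1, h2]
  ring

private theorem Exq2_alg {D f2 Y0 Y1 Y2 x1 x2 c0 c1 c2 N0 : ℂ} (hY0 : Y0 ≠ 0) (hY1 : Y1 ≠ 0)
    (hY2 : Y2 ≠ 0) (h01 : Y1 - Y0 ≠ 0) (h02 : Y2 - Y0 ≠ 0) (h12 : Y2 - Y1 ≠ 0)
    (hD : Y0 * Y1 * Y2 = D ^ 2) (hN : N0 = 3 * D - (18 + f2) * Y0 + Y0 ^ 2)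
    (hc0 : c0 = (Y1 - Y0) * (Y2 - Y0)) (hc1 : c1 = -(Y1 - Y0) * (Y2 - Y1))
    (hc2 : c2 = (Y2 - Y0) * (Y2 - Y1)) :
    D * ((x1 * (Y0 / c0) - Y1 / c1 * (N0 / c0)) / (Y1 / c1) / (Y1 - Y0) * (Y1 / c1) / (Y0 / c0) +
      (x2 * (Y0 / c0) - Y2 / c2 * (N0 / c0)) / (Y2 / c2) / (Y2 - Y0) * (Y2 / c2) / (Y0 / c0)) - 3 =
    D * (x1 / (Y1 - Y0)) + D * (x2 / (Y2 - Y0)) +
      D * ((-(18 + f2) + Y0) * (Y1 * Y2 - Y0 ^ 2) * c0⁻¹ ^ 2) +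
      3 * (Y0 * (2 * (Y1 * Y2) * (Y1 + Y2) - 3 * (Y1 * Y2) * Y0 - Y0 * (Y1 + Y2) ^ 2 +
        2 * Y0 ^ 2 * (Y1 + Y2) - Y0 ^ 3) * c0⁻¹ ^ 2) := by
  have e0 : c0 ≠ 0 := by rw [hc0]; exact mul_ne_zero h01 h02
  have e1 : c1 ≠ 0 := by rw [hc1]; exact mul_ne_zero (neg_ne_zero.mpr h01) h12
  have e2 : c2 ≠ 0 := by rw [hc2]; exact mul_ne_zero h02 h12
  have k1 : (x1 * (Y0 / c0) - Y1 / c1 * (N0 / c0)) / (Y1 / c1) / (Y1 - Y0) * (Y1 / c1) / (Y0 / c0) =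
      x1 / (Y1 - Y0) - Y1 * N0 / (c1 * Y0 * (Y1 - Y0)) := by
    field_simp
  have k2 : (x2 * (Y0 / c0) - Y2 / c2 * (N0 / c0)) / (Y2 / c2) / (Y2 - Y0) * (Y2 / c2) / (Y0 / c0) =
      x2 / (Y2 - Y0) - Y2 * N0 / (c2 * Y0 * (Y2 - Y0)) := by
    field_simp
  have k3 : Y1 * N0 / (c1 * Y0 * (Y1 - Y0)) + Y2 * N0 / (c2 * Y0 * (Y2 - Y0)) =
      -(N0 / Y0 * ((Y1 * Y2 - Y0 ^ 2) * c0⁻¹ ^ 2)) := by
    rw [hc0, hc1, hc2]
    field_simp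
    ring
  have k4 : D * (N0 / Y0) = 3 * (Y1 * Y2) + D * (-(18 + f2) + Y0) := by
    rw [hN]
    field_simp
    linear_combination (-3) * hD
  have k5 : (Y1 * Y2) * (Y1 * Y2 - Y0 ^ 2) - c0 ^ 2 =
      Y0 * (2 * (Y1 * Y2) * (Y1 + Y2) - 3 * (Y1 * Y2) * Y0 - Y0 * (Y1 + Y2) ^ 2 +
        2 * Y0 ^ 2 * (Y1 + Y2) - Y0 ^ 3) := by
    rw [hc0]; ring
  have k6 : c0 ^ 2 * c0⁻¹ ^ 2 = 1 := by
    rw [← mul_pow, mul_inv_cancel₀ e0, one_pow]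
  rw [k1, k2, ← k5]
  linear_combination (-D) * k3 + ((Y1 * Y2 - Y0 ^ 2) * c0⁻¹ ^ 2) * k4 + 3 * k6

private theorem Exq2_pt {R : ℝ} (hR : IsRad R) {u : ℂ → Fin 3 → ℂ} (h : Lab R u) {q : ℂ}
    (hq : q ∈ Ann R) :
    Dl q * Tm (u q) (xu q (u q)) (yu q (u q)) 2 0 - 3 =
      Dl q * Rm (u q) (xu q (u q)) (yu q (u q)) 1 0 0 +
      Dl q * (xu q (u q) 1 * (u q 0 - u q 1)⁻¹) + Dl q * (xu q (u q) 2 * (u q 0 - u q 2)⁻¹) +
      Dl q * ((-(18 + phi 2 q) + Yu q (u q) 0) *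
        (Yu q (u q) 1 * Yu q (u q) 2 - Yu q (u q) 0 ^ 2) * (chi' (u q) 0)⁻¹ ^ 2) +
      3 * (Yu q (u q) 0 * (2 * (Yu q (u q) 1 * Yu q (u q) 2) * (Yu q (u q) 1 + Yu q (u q) 2) -
        3 * (Yu q (u q) 1 * Yu q (u q) 2) * Yu q (u q) 0 -
        Yu q (u q) 0 * (Yu q (u q) 1 + Yu q (u q) 2) ^ 2 +
        2 * Yu q (u q) 0 ^ 2 * (Yu q (u q) 1 + Yu q (u q) 2) - Yu q (u q) 0 ^ 3) *
          (chi' (u q) 0)⁻¹ ^ 2) := by
  have hr := h.rts q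
  have hdisc := hr.disc
  obtain ⟨c, hc, hlow⟩ := Dq_lower hR
  have hDq : Dq q ≠ 0 := by
    intro h0
    have := hlow q hq
    rw [h0, norm_zero] at this
    linarith
  have hne : (u q 0 - u q 1) * (u q 0 - u q 2) * (u q 1 - u q 2) ≠ 0 := by
    intro h0
    rw [h0] at hdisc
    apply hDq
    unfold Dq
    rw [← hdisc]
    norm_num
  have hqR : q ≠ R := by
    intro h0
    have h1 := hq.2
    rw [h0, Complex.norm_real, Real.norm_eq_abs] at h1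
    exact absurd (le_abs_self R) (not_le.mpr h1)
  have hDl : Dl q ≠ 0 := Dl_ne hR hq.2.le hqR
  have hY3 : Yu q (u q) 0 * Yu q (u q) 1 * Yu q (u q) 2 = Dl q ^ 2 := by
    unfold Yu Dl
    exact hr.Y3
  have hYne : Yu q (u q) 0 * Yu q (u q) 1 * Yu q (u q) 2 ≠ 0 := by
    rw [hY3]; exact pow_ne_zero _ hDl
  have hd01 : u q 0 - u q 1 = Yu q (u q) 1 - Yu q (u q) 0 := by unfold Yu; ring
  have hd02 : u q 0 - u q 2 = Yu q (u q) 2 - Yu q (u q) 0 := by unfold Yu; ring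
  have hd12 : u q 1 - u q 2 = Yu q (u q) 2 - Yu q (u q) 1 := by unfold Yu; ring
  rw [hd01, hd02, hd12] at hne
  have hc0 : chi' (u q) 0 = (Yu q (u q) 1 - Yu q (u q) 0) * (Yu q (u q) 2 - Yu q (u q) 0) := by
    rw [← hd01, ← hd02]
    unfold chi'
    rw [show (univ.erase (0 : Fin 3)) = {1, 2} by decide]
    rw [Finset.prod_pair (by decide)]
  have hc1 : chi' (u q) 1 = -(Yu q (u q) 1 - Yu q (u q) 0) * (Yu q (u q) 2 - Yu q (u q) 1) := by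
    rw [← hd01, ← hd12]
    unfold chi'
    rw [show (univ.erase (1 : Fin 3)) = {0, 2} by decide]
    rw [Finset.prod_pair (by decide)]
    ring
  have hc2 : chi' (u q) 2 = (Yu q (u q) 2 - Yu q (u q) 0) * (Yu q (u q) 2 - Yu q (u q) 1) := by
    rw [← hd02, ← hd12]
    unfold chi'
    rw [show (univ.erase (2 : Fin 3)) = {0, 1} by decide]
    rw [Finset.prod_pair (by decide)]
    ring
  have hN : u q 0 ^ 2 - phi 2 q * u q 0 - 3 * ca q =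
      3 * Dl q - (18 + phi 2 q) * Yu q (u q) 0 + Yu q (u q) 0 ^ 2 := by
    unfold Yu Dl ca; ring
  have halg := Exq2_alg (x1 := xu q (u q) 1) (x2 := xu q (u q) 2)
    (left_ne_zero_of_mul (left_ne_zero_of_mul hYne))
    (right_ne_zero_of_mul (left_ne_zero_of_mul hYne)) (right_ne_zero_of_mul hYne)
    (left_ne_zero_of_mul (left_ne_zero_of_mul hne))
    (right_ne_zero_of_mul (left_ne_zero_of_mul hne)) (right_ne_zero_of_mul hne)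
    hY3 hN hc0 hc1 hc2
  have hy0 : yu q (u q) 0 ≠ 0 := by
    show Yu q (u q) 0 / chi' (u q) 0 ≠ 0
    apply div_ne_zero (left_ne_zero_of_mul (left_ne_zero_of_mul hYne))
    rw [hc0]
    exact left_ne_zero_of_mul hne
  rw [Exq2_T, mul_div_cancel_right₀ _ hy0]
  have hV1 : Vm (xu q (u q)) (yu q (u q)) 1 0 =
      (xu q (u q) 1 * (Yu q (u q) 0 / chi' (u q) 0) - Yu q (u q) 1 / chi' (u q) 1 *
        ((u q 0 ^ 2 - phi 2 q * u q 0 - 3 * ca q) / chi' (u q) 0)) /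
          (Yu q (u q) 1 / chi' (u q) 1) := rfl
  have hV2 : Vm (xu q (u q)) (yu q (u q)) 2 0 =
      (xu q (u q) 2 * (Yu q (u q) 0 / chi' (u q) 0) - Yu q (u q) 2 / chi' (u q) 2 *
        ((u q 0 ^ 2 - phi 2 q * u q 0 - 3 * ca q) / chi' (u q) 0)) /
          (Yu q (u q) 2 / chi' (u q) 2) := rfl
  have hy0' : yu q (u q) 0 = Yu q (u q) 0 / chi' (u q) 0 := rfl
  have hy1' : yu q (u q) 1 = Yu q (u q) 1 / chi' (u q) 1 := rfl
  have hy2' : yu q (u q) 2 = Yu q (u q) 2 / chi' (u q) 2 := rfl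
  rw [hV1, hV2, hy0', hy1', hy2', hd01, hd02, ← div_eq_mul_inv (xu q (u q) 1),
    ← div_eq_mul_inv (xu q (u q) 2)]
  linear_combination halg

/-- Row Exq2. `T_{2,0} = - ∑ S_1 0 j = (R_1)_{00} + ∑_{j ≠ 0} (R_1)_{j0} y j / y 0 ...
= (R_1)_{00} + ∑_{j ≠ 0} (x_j - (y_j / y_0) x_0) / (u_0 - u_j)`; the terms `x_j / (u_0 - u_j)` and
`(R_1)_{00}` are `O(1)`, and
`- ∑_j (y_j / y_0) x_0 / (u_0 - u_j) = (3 Dl / Y_0 - (18 + phi 2) + Y_0) (Y_1 Y_2 - Y_0 ^ 2) /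
(chi' 0) ^ 2` and `3 Dl / Y_0 = 3 Y_1 Y_2 / Dl`. -/
theorem Lab.T20 {R : ℝ} (hR : IsRad R) {K : ℝ} (hK0 : 0 < K) (hK : Rh (R : ℂ) = K)
    {u : ℂ → Fin 3 → ℂ} (h : Lab R u) :
    (fun q => Dl q * Tm (u q) (xu q (u q)) (yu q (u q)) 2 0 - 3)
      =O[𝓟 (Ann R)] (fun q => ‖Dl q‖) := by
  have hT := Lab.tame hR h
  obtain ⟨C, hC, hphi⟩ := phi_bound hR
  have hp : ∀ j ≤ 2, (fun q => phi j q) =O[𝓟 (Ann R)] (fun _ => (1 : ℝ)) := by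
    intro j hj
    rw [isBigO_principal]
    refine ⟨C, fun q hq => ?_⟩
    rw [norm_one, mul_one]
    exact hphi j hj q hq.2.le
  have hconst : ∀ c : ℂ, (fun _ : ℂ => c) =O[𝓟 (Ann R)] (fun _ => (1 : ℝ)) := by
    intro c
    exact isBigO_const_const _ one_ne_zero _
  have hmul : ∀ {f g : ℂ → ℂ}, f =O[𝓟 (Ann R)] (fun _ => (1 : ℝ)) →
      g =O[𝓟 (Ann R)] (fun _ => (1 : ℝ)) →
      (fun q => f q * g q) =O[𝓟 (Ann R)] (fun _ => (1 : ℝ)) := by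
    intro f g hf hg
    simpa using hf.mul hg
  have hpow : ∀ {f : ℂ → ℂ} (k : ℕ), f =O[𝓟 (Ann R)] (fun _ => (1 : ℝ)) →
      (fun q => f q ^ k) =O[𝓟 (Ann R)] (fun _ => (1 : ℝ)) := by
    intro f k hf
    simpa using hf.pow k
  have hY : ∀ i, (fun q => Yu q (u q) i) =O[𝓟 (Ann R)] (fun _ => (1 : ℝ)) := by
    intro i
    unfold Yu
    exact ((hconst 9).add (hp 2 le_rfl)).sub (h.u_bd i)
  have hDl : (fun q => Dl q) =O[𝓟 (Ann R)] (fun _ => (1 : ℝ)) := by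
    unfold Dl
    exact ((hconst 27).add (hmul (hconst 2) (hp 1 (by norm_num)))).sub
      (hmul (hconst 3) (hp 2 le_rfl))
  have hDn : (fun q => Dl q) =O[𝓟 (Ann R)] (fun q => ‖Dl q‖) := (isBigO_refl _ _).norm_right
  have hY0 : (fun q => Yu q (u q) 0) =O[𝓟 (Ann R)] (fun q => ‖Dl q‖) := by
    refine h.Y0.trans ?_
    have h1 : (fun q => ‖Dl q‖ * ‖Dl q‖) =O[𝓟 (Ann R)] (fun q => (1 : ℝ) * ‖Dl q‖) :=
      hDl.norm_left.mul (isBigO_refl _ _)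
    simpa [pow_two] using h1
  have hchi : (fun q => (chi' (u q) 0)⁻¹) =O[𝓟 (Ann R)] (fun _ => (1 : ℝ)) := by
    have h1 : (fun q => (chi' (u q) 0)⁻¹) =
        (fun q => (u q 0 - u q 1)⁻¹ * (u q 0 - u q 2)⁻¹) := by
      funext q
      unfold chi'
      rw [show (univ.erase (0 : Fin 3)) = {1, 2} by decide, Finset.prod_pair (by decide), mul_inv]
    rw [h1]
    exact hmul (h.sep 0 1 (by decide)) (h.sep 0 2 (by decide))
  have hR1 : (fun q => Rm (u q) (xu q (u q)) (yu q (u q)) 1 0 0) =O[𝓟 (Ann R)]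
      (fun _ => (1 : ℝ)) := by
    refine (hT.oR 1 0 0).trans ?_
    rw [isBigO_principal]
    refine ⟨1, fun q hq => ?_⟩
    rw [mul_inv_cancel₀ (hT.pos q 0).ne', one_mul]
  have hx : ∀ i, i ≠ 0 → (fun q => xu q (u q) i) =O[𝓟 (Ann R)] (fun _ => (1 : ℝ)) := by
    intro i hi
    refine (hT.xup i).trans ?_
    rw [isBigO_principal]
    refine ⟨1, fun q hq => ?_⟩
    unfold rho
    rw [if_neg (fun hh => hi hh.1), inv_one, one_mul]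
  have hDO : ∀ {f : ℂ → ℂ}, f =O[𝓟 (Ann R)] (fun _ => (1 : ℝ)) →
      (fun q => Dl q * f q) =O[𝓟 (Ann R)] (fun q => ‖Dl q‖) := by
    intro f hf
    simpa using hDn.mul hf
  have h1 := hDO hR1
  have h2 := hDO (hmul (hx 1 (by decide)) (h.sep 0 1 (by decide)))
  have h3 := hDO (hmul (hx 2 (by decide)) (h.sep 0 2 (by decide)))
  have h4 := hDO (hmul (hmul (((hconst (18 : ℂ)).add (hp 2 le_rfl)).neg_left.add (hY 0))
    ((hmul (hY 1) (hY 2)).sub (hpow 2 (hY 0)))) (hpow 2 hchi))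
  have h5 : (fun q => (3 : ℂ) * (Yu q (u q) 0 * (2 * (Yu q (u q) 1 * Yu q (u q) 2) *
        (Yu q (u q) 1 + Yu q (u q) 2) -
        3 * (Yu q (u q) 1 * Yu q (u q) 2) * Yu q (u q) 0 -
        Yu q (u q) 0 * (Yu q (u q) 1 + Yu q (u q) 2) ^ 2 +
        2 * Yu q (u q) 0 ^ 2 * (Yu q (u q) 1 + Yu q (u q) 2) - Yu q (u q) 0 ^ 3) *
          (chi' (u q) 0)⁻¹ ^ 2)) =O[𝓟 (Ann R)] (fun q => ‖Dl q‖) := by
    have hP := hmul (hY 1) (hY 2)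
    have hS := (hY 1).add (hY 2)
    have hin := ((((hmul (hmul (hconst 2) hP) hS).sub (hmul (hmul (hconst 3) hP) (hY 0))).sub
      (hmul (hY 0) (hpow 2 hS))).add (hmul (hmul (hconst 2) (hpow 2 (hY 0))) hS)).sub
      (hpow 3 (hY 0))
    have hb := hmul (hconst 3) (hmul hin (hpow 2 hchi))
    have hc := hY0.mul hb
    refine (hc.congr' ?_ ?_)
    · exact Eventually.of_forall (fun q => by ring)
    · exact Eventually.of_forall (fun q => by simp)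
  have hsum := (((h1.add h2).add h3).add h4).add h5
  refine hsum.congr' ?_ EventuallyEq.rfl
  rw [EventuallyEq, eventually_principal]
  intro q hq
  exact (Exq2_pt hR h hq).symm

end Pool.Agent.PlaneGT
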