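import Pool.Agent.Lib.MP_6aab98_ag.GT.Gra1

/-! # MP_6aab98_ag GT, row Gra2 -/

namespace Pool.Agent.PlaneGT

open Finset Filter Topology Asymptotics
open scoped Nat

open Classical in
/-- the part of the graph sum with `V` vertices and `E` edges -/
private noncomputable def Gra2_T (u x y : Fin 3 → ℂ) (g V E : ℕ) : ℂ :=
  (1 / ((V ! : ℂ) * (E ! : ℂ) * 2 ^ E)) *
    ∑ γ : Fin V → Fin (g + 1), ∑ e : Fin E → Fin V × Fin V,
      if Conn e ∧ (∑ v, (γ v : ℕ)) + E + 1 = g + V then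
        ∑ c : Fin V → Fin 3, ∑ k : Fin E → Fin (3 * g) × Fin (3 * g),
          graphTerm u x y (fun v => (γ v : ℕ)) e c (fun a => (((k a).1 : ℕ), ((k a).2 : ℕ)))
      else 0

private theorem Gra2_sum (u x y : Fin 3 → ℂ) (g : ℕ) :
    graphSum u x y g = ∑ V ∈ Icc 1 (2 * g - 2), ∑ E ∈ range (3 * g - 2), Gra2_T u x y g V E :=
  rfl

private theorem Gra2_conn {V : ℕ} (hV : 2 ≤ V) (e : Fin 0 → Fin V × Fin V) : ¬ Conn e := by
  intro h
  have h1 := h {⟨0, by omega⟩} (Finset.singleton_nonempty _) (fun a => a.elim0)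
  have h2 : (⟨1, by omega⟩ : Fin V) ∈ ({⟨0, by omega⟩} : Finset (Fin V)) := by
    rw [h1]; exact Finset.mem_univ _
  rw [Finset.mem_singleton, Fin.mk.injEq] at h2
  omega

private theorem Gra2_zero (u x y : Fin 3 → ℂ) (g : ℕ) {V : ℕ} (hV : 2 ≤ V) :
    Gra2_T u x y g V 0 = 0 := by
  unfold Gra2_T
  rw [Finset.sum_eq_zero, mul_zero]
  intro γ _
  apply Finset.sum_eq_zero
  intro e _
  rw [if_neg]
  rintro ⟨h, _⟩
  exact Gra2_conn hV e h

private theorem Gra2_one (u x y : Fin 3 → ℂ) (g : ℕ) :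
    Gra2_T u x y g 1 0 = ∑ i, vert u x y g i [] := by
  classical
  have hconn : ∀ e : Fin 0 → Fin 1 × Fin 1, Conn e := by
    intro e A hA _
    ext v
    obtain ⟨w, hw⟩ := hA
    refine ⟨fun _ => Finset.mem_univ _, fun _ => ?_⟩
    rw [Subsingleton.elim v w]
    exact hw
  unfold Gra2_T
  have h1 : ∀ γ : Fin 1 → Fin (g + 1), (∑ e : Fin 0 → Fin 1 × Fin 1,
      if Conn e ∧ (∑ v, (γ v : ℕ)) + 0 + 1 = g + 1 then
        ∑ c : Fin 1 → Fin 3, ∑ k : Fin 0 → Fin (3 * g) × Fin (3 * g),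
          graphTerm u x y (fun v => (γ v : ℕ)) e c (fun a => (((k a).1 : ℕ), ((k a).2 : ℕ)))
      else 0) = if γ = (fun _ => Fin.last g) then ∑ i, vert u x y g i [] else 0 := by
    intro γ
    rw [Fintype.sum_unique]
    by_cases hγ : γ = (fun _ => Fin.last g)
    · rw [if_pos hγ, if_pos]
      · subst hγ
        rw [← Equiv.sum_comp (Equiv.funUnique (Fin 1) (Fin 3)).symm]
        apply Finset.sum_congr rfl
        intro i _
        rw [Fintype.sum_unique]
        unfold graphTerm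
        simp [halves]
      · refine ⟨hconn _, ?_⟩
        subst hγ
        simp
    · rw [if_neg hγ, if_neg]
      rintro ⟨_, h⟩
      apply hγ
      funext v
      rw [Fin.sum_univ_one] at h
      apply Fin.ext
      rw [Subsingleton.elim v 0, Fin.val_last]
      omega
  rw [Finset.sum_congr rfl (fun γ _ => h1 γ), Finset.sum_ite_eq' Finset.univ]
  simp

section

variable {ι : Type} {l : Filter ι} {ρ : ι → Fin 3 → ℝ} {u x y : ι → Fin 3 → ℂ}

private theorem Gra2_isBigO {κ : Type*} {s : Finset κ} {A : κ → ι → ℂ} {f : ι → ℝ}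
    (h : ∀ i ∈ s, (fun t => A i t) =O[l] f) : (fun t => ∑ i ∈ s, A i t) =O[l] f := by
  have h1 : (∑ i ∈ s, fun t => A i t) =O[l] f := IsBigO.sum h
  have h2 : (∑ i ∈ s, fun t => A i t) = (fun t => ∑ i ∈ s, A i t) := by
    funext t
    rw [Finset.sum_apply]
  rw [← h2]
  exact h1

private theorem Gra2_big (h : Tame l ρ u x y) (g V E : ℕ) :
    (fun t => Gra2_T (u t) (x t) (y t) g V (E + 1)) =O[l] (fun t => ρ t 0 ^ (5 * g - 6)) := by
  classical
  unfold Gra2_T
  apply IsBigO.const_mul_left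
  apply Gra2_isBigO
  intro γ _
  apply Gra2_isBigO
  intro e _
  by_cases hc : Conn e ∧ (∑ v, (γ v : ℕ)) + (E + 1) + 1 = g + V
  · simp only [if_pos hc]
    apply Gra2_isBigO
    intro c _
    apply Gra2_isBigO
    intro k _
    exact h.oTerm _ e c _ (by omega) hc.2
  · simp only [if_neg hc]
    exact isBigO_zero _ _

private theorem Gra2_const (h : Tame l ρ u x y) (n : ℕ) :
    (fun _ : ι => (1 : ℝ)) =O[l] (fun t => ρ t 0 ^ n) := by
  have := (h.one 0).pow n
  simpa using this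

private theorem Gra2_vert (h : Tame l ρ u x y) (g n : ℕ) {i : Fin 3} (hi : i ≠ 0) :
    (fun t => vert (u t) (x t) (y t) g i []) =O[l] (fun t => ρ t 0 ^ n) := by
  refine (h.oVert g i []).trans ?_
  have h1 := ((h.fin i hi).pow (5 * g + ([] : List ℕ).length)).mul ((h.oInv i).pow 5)
  simp only [one_pow, mul_one] at h1
  exact h1.trans (Gra2_const h n)

/-- Row Gra2. The terms with `E = 0` and `V ≥ 2` vanish (not connected), and those with `E = 0`,
`V = 1` have `γ = g` and sum up to `∑ i, vert g i []`; for `i ≠ 0` these are `O(1)`. -/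
theorem Tame.oSum (h : Tame l ρ u x y) {g : ℕ} (hg : 2 ≤ g) :
    (fun t => graphSum (u t) (x t) (y t) g - vert (u t) (x t) (y t) g 0 []) =O[l]
      (fun t => ρ t 0 ^ (5 * g - 6)) := by
  obtain ⟨N, hN⟩ : ∃ N, 3 * g - 2 = N + 1 := ⟨3 * g - 3, by omega⟩
  have key : ∀ t, graphSum (u t) (x t) (y t) g - vert (u t) (x t) (y t) g 0 [] =
      (∑ V ∈ Icc 1 (2 * g - 2), ∑ E ∈ range N, Gra2_T (u t) (x t) (y t) g V (E + 1)) +
        (vert (u t) (x t) (y t) g 1 [] + vert (u t) (x t) (y t) g 2 []) := by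
    intro t
    rw [Gra2_sum, hN]
    have h1 : ∀ V ∈ Icc 1 (2 * g - 2), ∑ E ∈ range (N + 1), Gra2_T (u t) (x t) (y t) g V E =
        ∑ E ∈ range N, Gra2_T (u t) (x t) (y t) g V (E + 1) + Gra2_T (u t) (x t) (y t) g V 0 :=
      fun V _ => Finset.sum_range_succ' _ _
    rw [Finset.sum_congr rfl h1, Finset.sum_add_distrib]
    have h2 : ∑ V ∈ Icc 1 (2 * g - 2), Gra2_T (u t) (x t) (y t) g V 0 =
        ∑ i, vert (u t) (x t) (y t) g i [] := by
      rw [Finset.sum_eq_single 1, Gra2_one]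
      · intro V hV hV1
        rw [Finset.mem_Icc] at hV
        exact Gra2_zero _ _ _ _ (by omega)
      · intro h3
        exact absurd (Finset.mem_Icc.2 ⟨le_rfl, by omega⟩) h3
    rw [h2, Fin.sum_univ_three]
    ring
  simp only [key]
  apply IsBigO.add
  · apply Gra2_isBigO
    intro V _
    apply Gra2_isBigO
    intro E _
    exact Gra2_big h g V E
  · exact (Gra2_vert h g _ (by decide)).add (Gra2_vert h g _ (by decide))

end

end Pool.Agent.PlaneGT
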