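import Pool.Agent.Lib.MP_6aab98_ag.GT.Base

/-! # MP_6aab98_ag GT, row Wk1 -/

namespace Pool.Agent.PlaneGT

open Finset Filter Topology Asymptotics
open scoped Nat

/-- the main term of the recursion -/
private noncomputable def Wk1_num (f g k : ℕ) (s : List ℕ) : ℚ :=
  (∑ j : Fin s.length, ((2 * k + 2 * s.get j - 1)‼ : ℚ) / ((2 * s.get j - 1)‼ : ℚ) *
            wkAux f g ((k + s.get j - 1) :: s.eraseIdx j)) +
          1 / 2 * ∑ a ∈ range (k - 1), ((2 * a + 1)‼ : ℚ) * ((2 * (k - 2 - a) + 1)‼ : ℚ) *
            ((if g = 0 then 0 else wkAux f (g - 1) (a :: (k - 2 - a) :: s)) +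
              ∑ h ∈ range (g + 1), ((splits s).map (fun p =>
                wkAux f h (a :: p.1) * wkAux f (g - h) ((k - 2 - a) :: p.2))).sum)

private theorem Wk1_succ (f g k : ℕ) (s : List ℕ) : wkAux (f + 1) g (k :: s) =
    if k + s.sum + 3 ≠ 3 * g + (s.length + 1) then 0
    else if g = 0 ∧ s.length = 2 then 1
    else if g = 1 ∧ s.length = 0 then 1 / 24
    else Wk1_num f g k s / ((2 * k + 1)‼ : ℚ) := rfl

private theorem Wk1_df (m : ℕ) : (0 : ℚ) < ((m‼ : ℕ) : ℚ) := by
  exact_mod_cast Nat.doubleFactorial_pos m

/-- Row Wk. The dimension constraint (first test in the definition). -/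
theorem wk_dim {g : ℕ} {s : List ℕ} (h : wk g s ≠ 0) : s.sum + 3 = 3 * g + s.length := by
  unfold wk at h
  cases s with
  | nil =>
    exfalso
    apply h
    cases hf : 2 * g + ([] : List ℕ).length <;> rfl
  | cons k s =>
    by_contra hne
    apply h
    have h1 : 2 * g + (k :: s).length = (2 * g + s.length) + 1 := by
      rw [List.length_cons]; ring
    rw [h1, Wk1_succ, if_pos]
    rw [List.sum_cons, List.length_cons] at hne
    exact hne

/-- Row Wk. -/
theorem wk_nil (g : ℕ) : wk g [] = 0 := by
  unfold wk
  cases hf : 2 * g + ([] : List ℕ).length <;> rfl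

private theorem Wk1_parts {f : ℕ} (ih : ∀ (g : ℕ) (s : List ℕ), 0 ≤ wkAux f g s) (g k : ℕ)
    (s : List ℕ) :
    (0 ≤ ∑ j : Fin s.length, ((2 * k + 2 * s.get j - 1)‼ : ℚ) / ((2 * s.get j - 1)‼ : ℚ) *
            wkAux f g ((k + s.get j - 1) :: s.eraseIdx j)) ∧
    (∀ a, 0 ≤ ((2 * a + 1)‼ : ℚ) * ((2 * (k - 2 - a) + 1)‼ : ℚ) *
            ((if g = 0 then 0 else wkAux f (g - 1) (a :: (k - 2 - a) :: s)) +
              ∑ h ∈ range (g + 1), ((splits s).map (fun p =>
                wkAux f h (a :: p.1) * wkAux f (g - h) ((k - 2 - a) :: p.2))).sum)) ∧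
    (∀ a, 0 ≤ ∑ h ∈ range (g + 1), ((splits s).map (fun p =>
                wkAux f h (a :: p.1) * wkAux f (g - h) ((k - 2 - a) :: p.2))).sum) := by
  have h3 : ∀ a, 0 ≤ ∑ h ∈ range (g + 1), ((splits s).map (fun p =>
                wkAux f h (a :: p.1) * wkAux f (g - h) ((k - 2 - a) :: p.2))).sum := by
    intro a
    refine Finset.sum_nonneg fun h _ => ?_
    refine List.sum_nonneg ?_
    intro x hx
    rw [List.mem_map] at hx
    obtain ⟨p, _, rfl⟩ := hx
    exact mul_nonneg (ih _ _) (ih _ _)
  refine ⟨?_, ?_, h3⟩
  · refine Finset.sum_nonneg fun j _ => ?_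
    exact mul_nonneg (div_nonneg (Wk1_df _).le (Wk1_df _).le) (ih _ _)
  · intro a
    refine mul_nonneg (mul_nonneg (Wk1_df _).le (Wk1_df _).le) (add_nonneg ?_ (h3 a))
    split_ifs
    · exact le_rfl
    · exact ih _ _

/-- Row Wk. Induction on `f`. -/
theorem wkAux_nonneg (f g : ℕ) (s : List ℕ) : 0 ≤ wkAux f g s := by
  induction f generalizing g s with
  | zero => exact le_rfl
  | succ f ih =>
    cases s with
    | nil => exact le_rfl
    | cons k s =>
      rw [Wk1_succ]
      split_ifs
      · exact le_rfl
      · exact zero_le_one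
      · norm_num
      · obtain ⟨h1, h2, _⟩ := Wk1_parts ih g k s
        refine div_nonneg ?_ (Wk1_df _).le
        unfold Wk1_num
        refine add_nonneg h1 (mul_nonneg (by norm_num) ?_)
        exact Finset.sum_nonneg fun a _ => h2 a

private theorem Wk1_erase (t : List ℕ) (j : ℕ) (hj : j < t.length) :
    t[j] + (t.eraseIdx j).sum = t.sum := by
  induction t generalizing j with
  | nil => exact absurd hj (Nat.not_lt_zero _)
  | cons x t ih =>
    cases j with
    | zero => simp
    | succ j =>
      have h1 : j < t.length := by simpa using hj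
      have h2 := ih j h1
      simp only [List.getElem_cons_succ, List.eraseIdx_cons_succ, List.sum_cons]
      omega

/-- Row Wk. Induction on `f`: if `s = k :: t` with `t ≠ []`, the term of some `j` with
`k + t_j ≥ 1` in the first sum is positive (`(g, t with t_j replaced by k + t_j - 1)` is again
stable of the right dimension); if `s = [k]` and `g ≥ 2` then `k = 3 g - 2 ≥ 4` and the term
`wkAux f (g - 1) [0, k - 2]` (`a = 0`) is positive; `[0, 0, 0]`, `g = 0` and `[1]`, `g = 1` are
the initial values. -/
theorem wkAux_pos {f g : ℕ} {s : List ℕ} (hf : 2 * g + s.length ≤ f) (hs : s ≠ [])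
    (hst : 3 ≤ 2 * g + s.length) (hd : s.sum + 3 = 3 * g + s.length) : 0 < wkAux f g s := by
  induction f generalizing g s with
  | zero => omega
  | succ f ih =>
    cases s with
    | nil => exact absurd rfl hs
    | cons k t =>
      rw [List.length_cons] at hf hst hd
      rw [List.sum_cons] at hd
      rw [Wk1_succ, if_neg (not_not.mpr (by omega))]
      split_ifs with h1 h2
      · exact zero_lt_one
      · norm_num
      refine div_pos ?_ (Wk1_df _)
      obtain ⟨p1, p2, p3⟩ := Wk1_parts (wkAux_nonneg f) g k t
      unfold Wk1_num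
      by_cases ht : t = []
      · -- one point
        subst ht
        simp only [List.length_nil, List.sum_nil] at hf hst hd h1 h2
        have hg : 2 ≤ g := by
          by_contra hg
          have : g = 1 := by omega
          exact h2 ⟨this, trivial⟩
        have hk : 4 ≤ k := by omega
        refine add_pos_of_nonneg_of_pos p1 (mul_pos (by norm_num) ?_)
        refine Finset.sum_pos' (fun a _ => p2 a) ⟨0, Finset.mem_range.mpr (by omega), ?_⟩
        refine mul_pos (mul_pos (Wk1_df _) (Wk1_df _)) ?_
        refine add_pos_of_pos_of_nonneg ?_ (p3 0)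
        rw [if_neg (by omega)]
        refine ih ?_ (List.cons_ne_nil _ _) ?_ ?_
        · simp only [List.length_cons, List.length_nil]; omega
        · simp only [List.length_cons, List.length_nil]; omega
        · simp only [List.length_cons, List.length_nil, List.sum_cons, List.sum_nil]; omega
      · -- at least two points
        have hlen : 1 ≤ t.length := List.length_pos_iff.mpr ht
        have hj : ∃ j : Fin t.length, 1 ≤ k + t.get j := by
          by_contra hcon
          push Not at hcon
          have h0 : ∀ x ∈ t, x = 0 := by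
            intro x hx
            obtain ⟨j, rfl⟩ := List.get_of_mem hx
            have := hcon j
            omega
          have hk0 : k = 0 := by
            have := hcon ⟨0, hlen⟩
            omega
          have hsum : t.sum = 0 := List.sum_eq_zero h0
          apply h1
          omega
        obtain ⟨j, hj⟩ := hj
        refine add_pos_of_pos_of_nonneg ?_
          (mul_nonneg (by norm_num) (Finset.sum_nonneg fun a _ => p2 a))
        refine Finset.sum_pos' (fun i _ => ?_) ⟨j, Finset.mem_univ _, ?_⟩
        · exact mul_nonneg (div_nonneg (Wk1_df _).le (Wk1_df _).le) (wkAux_nonneg _ _ _)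
        · refine mul_pos (div_pos (Wk1_df _) (Wk1_df _)) ?_
          have hl : (t.eraseIdx j).length = t.length - 1 := List.length_eraseIdx_of_lt j.2
          have hsum := Wk1_erase t j j.2
          have hget : t.get j = t[(j : ℕ)] := rfl
          rw [hget] at hj ⊢
          refine ih ?_ (List.cons_ne_nil _ _) ?_ ?_
          · rw [List.length_cons, hl]; omega
          · rw [List.length_cons, hl]
            by_contra hcon
            have hg0 : g = 0 := by omega
            exact h1 ⟨hg0, by omega⟩
          · rw [List.length_cons, hl, List.sum_cons]; omega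

/-- Row Wk. -/
theorem wk_two_pos {g : ℕ} (hg : 2 ≤ g) : 0 < wk g (List.replicate (3 * g - 3) 2) := by
  unfold wk
  refine wkAux_pos le_rfl ?_ ?_ ?_
  · intro h
    have := congrArg List.length h
    rw [List.length_replicate, List.length_nil] at this
    omega
  · rw [List.length_replicate]; omega
  · rw [List.length_replicate, List.sum_replicate, smul_eq_mul]; omega

end Pool.Agent.PlaneGT
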