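import Pool.Agent.Lib.MP_6aab98_ag.GT.Siz1
import Pool.Agent.Lib.MP_6aab98_ag.GT.Wk1

/-! # MP_6aab98_ag GT, row Siz3 -/

namespace Pool.Agent.PlaneGT

open Finset Filter Topology Asymptotics
open scoped Nat

section

variable {ι : Type} {l : Filter ι} {ρ : ι → Fin 3 → ℝ} {u x y : ι → Fin 3 → ℂ}

/-- the term of `vert` with `m` legs -/
private noncomputable def Siz3_A (u x y : Fin 3 → ℂ) (g N m : ℕ) (i : Fin 3) : ℂ :=
  (1 / (m ! : ℂ)) * ∑ b : Fin m → Fin N,
      ((wk g (List.ofFn (fun j => (b j : ℕ) + 2)) : ℚ) : ℂ) * ∏ j, Tm u x y ((b j : ℕ) + 2) i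

private theorem Siz3_vert (u x y : Fin 3 → ℂ) (g : ℕ) (i : Fin 3) :
    vert u x y g i [] = y i / y i ^ g * ∑ m ∈ range (3 * g), Siz3_A u x y g (3 * g) m i := rfl

private theorem Siz3_bound (h : Tame l ρ u x y) (g N m : ℕ) (i : Fin 3) :
    (fun t => Siz3_A (u t) (x t) (y t) g N m i) =O[l] (fun t => ρ t i ^ m) := by
  unfold Siz3_A
  refine IsBigO.const_mul_left (IsBigO.fun_sum fun b _ => IsBigO.const_mul_left ?_ _) _
  have h1 := IsBigO.finsetProd (l := l) (s := (univ : Finset (Fin m)))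
    (f := fun j t => Tm (u t) (x t) (y t) ((b j : ℕ) + 2) i) (g := fun _ t => ρ t i)
    (fun j _ => h.oT _ i)
  simpa using h1

/-- the dimension constraint for the list of legs -/
private theorem Siz3_dim {g N m : ℕ} {b : Fin m → Fin N}
    (hb : wk g (List.ofFn (fun j => (b j : ℕ) + 2)) ≠ 0) :
    (∑ j, (b j : ℕ)) + m + 3 = 3 * g := by
  have h1 := wk_dim hb
  rw [List.sum_ofFn, List.length_ofFn, Finset.sum_add_distrib] at h1
  simp only [Finset.sum_const, Finset.card_univ, Fintype.card_fin, smul_eq_mul] at h1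
  omega

private theorem Siz3_zero (u x y : Fin 3 → ℂ) {g N m : ℕ} (hm : 3 * g < m + 3) (i : Fin 3) :
    Siz3_A u x y g N m i = 0 := by
  unfold Siz3_A
  rw [Finset.sum_eq_zero, mul_zero]
  intro b _
  by_cases hb : wk g (List.ofFn (fun j => (b j : ℕ) + 2)) = 0
  · rw [hb]; simp
  · exfalso
    have := Siz3_dim hb
    omega

private theorem Siz3_main (u x y : Fin 3 → ℂ) {g N : ℕ} (hN : 0 < N) (hg : 1 ≤ g) (i : Fin 3) :
    Siz3_A u x y g N (3 * g - 3) i = (1 / ((3 * g - 3)! : ℂ)) *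
        (((wk g (List.replicate (3 * g - 3) 2) : ℚ) : ℂ) * Tm u x y 2 i ^ (3 * g - 3)) := by
  unfold Siz3_A
  congr 1
  rw [Finset.sum_eq_single (fun _ => (⟨0, hN⟩ : Fin N))]
  · simp
  · intro b _ hb
    by_cases h0 : wk g (List.ofFn (fun j => (b j : ℕ) + 2)) = 0
    · rw [h0]; simp
    · exfalso
      have h1 := Siz3_dim h0
      have h2 : ∑ j, (b j : ℕ) = 0 := by omega
      rw [Finset.sum_eq_zero_iff] at h2
      apply hb
      funext j
      exact Fin.ext (h2 j (mem_univ j))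
  · intro hn
    exact absurd (mem_univ _) hn

/-- Row Siz2. In `vert g i []` the only term that is not `O(ρ ^ (5 g - 6))` is the one with
`3 g - 3` legs, all with exponent `2`. -/
theorem Tame.oMain (h : Tame l ρ u x y) {g : ℕ} (hg : 2 ≤ g) (i : Fin 3) :
    (fun t => vert (u t) (x t) (y t) g i [] -
      y t i / y t i ^ g * ((1 / ((3 * g - 3)! : ℂ)) *
        (((wk g (List.replicate (3 * g - 3) 2) : ℚ) : ℂ) *
          Tm (u t) (x t) (y t) 2 i ^ (3 * g - 3)))) =O[l]
      (fun t => ρ t i ^ (5 * g - 6)) := by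
  have key : ∀ t, vert (u t) (x t) (y t) g i [] -
      y t i / y t i ^ g * ((1 / ((3 * g - 3)! : ℂ)) *
        (((wk g (List.replicate (3 * g - 3) 2) : ℚ) : ℂ) *
          Tm (u t) (x t) (y t) 2 i ^ (3 * g - 3))) =
      ((y t i)⁻¹) ^ (g - 1) * ∑ m ∈ range (3 * g - 3),
        Siz3_A (u t) (x t) (y t) g (3 * g) m i := by
    intro t
    rw [Siz3_vert, ← mul_sub, ← Siz3_main (u t) (x t) (y t) (by omega : 0 < 3 * g) (by omega) i]
    have h3 : range (3 * g) = range (3 * g - 3 + 3) := by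
      congr 1; omega
    rw [h3, Finset.sum_range_succ, Finset.sum_range_succ, Finset.sum_range_succ,
      Siz3_zero (m := 3 * g - 3 + 1) _ _ _ (by omega) i,
      Siz3_zero (m := 3 * g - 3 + 1 + 1) _ _ _ (by omega) i, add_zero, add_zero,
      add_sub_cancel_right]
    congr 1
    obtain ⟨k, rfl⟩ : ∃ k, g = k + 2 := ⟨g - 2, by omega⟩
    by_cases hy : y t i = 0
    · rw [hy]
      simp
    · rw [show k + 2 - 1 = k + 1 by omega, inv_pow]
      field_simp
      ring
  rw [show (fun t => vert (u t) (x t) (y t) g i [] -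
      y t i / y t i ^ g * ((1 / ((3 * g - 3)! : ℂ)) *
        (((wk g (List.replicate (3 * g - 3) 2) : ℚ) : ℂ) *
          Tm (u t) (x t) (y t) 2 i ^ (3 * g - 3)))) = _ from funext key]
  have h1 : (fun t => ((y t i)⁻¹) ^ (g - 1)) =O[l] (fun t => (ρ t i ^ 2) ^ (g - 1)) :=
    (h.yinv i).pow _
  have h2 : (fun t => ∑ m ∈ range (3 * g - 3), Siz3_A (u t) (x t) (y t) g (3 * g) m i)
      =O[l] (fun t => ρ t i ^ (3 * g - 4)) := by
    refine IsBigO.fun_sum fun m hm => (Siz3_bound h g (3 * g) m i).trans ?_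
    rw [mem_range] at hm
    obtain ⟨r, hr⟩ : ∃ r, 3 * g - 4 = m + r := ⟨3 * g - 4 - m, by omega⟩
    have h4 : (fun t => ρ t i ^ m * 1 ^ r) =O[l] (fun t => ρ t i ^ m * ρ t i ^ r) :=
      (isBigO_refl _ _).mul ((h.one i).pow r)
    rw [hr]
    simpa [pow_add] using h4
  have h5 := h1.mul h2
  refine h5.congr_right fun t => ?_
  rw [← pow_mul, ← pow_add]
  congr 1
  omega

end

end Pool.Agent.PlaneGT
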