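import Pool.Agent.Lib.MP_6aab98_ag.GT.Base

/-! # MP_6aab98_ag GT, row Sym1 -/

namespace Pool.Agent.PlaneGT

open Finset Filter Topology Asymptotics
open scoped Nat

theorem Sym1_Vm (x y : Fin 3 → ℂ) (σ : Equiv.Perm (Fin 3)) (i j : Fin 3) :
    Vm (x ∘ σ) (y ∘ σ) i j = Vm x y (σ i) (σ j) := rfl

theorem Sym1_offR (u x y : Fin 3 → ℂ) (σ : Equiv.Perm (Fin 3)) (m : ℕ)
    (A B : Fin 3 → Fin 3 → ℂ) (h : ∀ i j, A i j = B (σ i) (σ j)) (i j : Fin 3) :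
    offR (u ∘ σ) (x ∘ σ) (y ∘ σ) m A i j = offR u x y m B (σ i) (σ j) := by
  unfold offR
  by_cases hij : i = j
  · rw [if_pos hij, if_pos (congrArg σ hij)]
  · rw [if_neg hij, if_neg (fun h' => hij (σ.injective h'))]
    have e : ∑ k, Vm (x ∘ σ) (y ∘ σ) i k * A k j = ∑ k, Vm x y (σ i) k * B k (σ j) := by
      rw [← Equiv.sum_comp σ (fun k => Vm x y (σ i) k * B k (σ j))]
      exact Finset.sum_congr rfl fun k _ => by rw [Sym1_Vm, h]
    rw [e, h]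
    rfl

theorem Sym1_Rm (u x y : Fin 3 → ℂ) (σ : Equiv.Perm (Fin 3)) (m : ℕ) :
    ∀ i j, Rm (u ∘ σ) (x ∘ σ) (y ∘ σ) m i j = Rm u x y m (σ i) (σ j) := by
  induction m with
  | zero =>
    intro i j
    unfold Rm
    by_cases hij : i = j
    · rw [if_pos hij, if_pos (congrArg σ hij)]
    · rw [if_neg hij, if_neg (fun h' => hij (σ.injective h'))]
  | succ m ih =>
    intro i j
    unfold Rm
    by_cases hij : i = j
    · rw [if_pos hij, if_pos (congrArg σ hij)]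
      have e : ∑ k, Vm (x ∘ σ) (y ∘ σ) i k * offR (u ∘ σ) (x ∘ σ) (y ∘ σ) m
          (Rm (u ∘ σ) (x ∘ σ) (y ∘ σ) m) k i =
          ∑ k, Vm x y (σ i) k * offR u x y m (Rm u x y m) k (σ i) := by
        rw [← Equiv.sum_comp σ (fun k => Vm x y (σ i) k * offR u x y m (Rm u x y m) k (σ i))]
        exact Finset.sum_congr rfl fun k _ => by rw [Sym1_Vm, Sym1_offR u x y σ m _ _ ih]
      rw [e]
    · rw [if_neg hij, if_neg (fun h' => hij (σ.injective h')), Sym1_offR u x y σ m _ _ ih]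

theorem Sym1_Sm (u x y : Fin 3 → ℂ) (σ : Equiv.Perm (Fin 3)) (m : ℕ) (i j : Fin 3) :
    Sm (u ∘ σ) (x ∘ σ) (y ∘ σ) m i j = Sm u x y m (σ i) (σ j) := by
  unfold Sm
  rw [Sym1_Rm]
  rfl

theorem Sym1_Tm (u x y : Fin 3 → ℂ) (σ : Equiv.Perm (Fin 3)) (l : ℕ) (i : Fin 3) :
    Tm (u ∘ σ) (x ∘ σ) (y ∘ σ) l i = Tm u x y l (σ i) := by
  unfold Tm
  rw [← Equiv.sum_comp σ (fun j => Sm u x y (l - 1) (σ i) j)]
  exact congrArg _ (Finset.sum_congr rfl fun k _ => by rw [Sym1_Sm])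

theorem Sym1_edge (u x y : Fin 3 → ℂ) (σ : Equiv.Perm (Fin 3)) (k l : ℕ) (i j : Fin 3) :
    edge (u ∘ σ) (x ∘ σ) (y ∘ σ) k l i j = edge u x y k l (σ i) (σ j) := by
  unfold edge
  refine Finset.sum_congr rfl fun t _ => ?_
  rw [← Equiv.sum_comp σ (fun s => Sm u x y (k - t) (σ i) s * Sm u x y (l + 1 + t) (σ j) s / y s)]
  exact congrArg _ (Finset.sum_congr rfl fun s _ => by rw [Sym1_Sm, Sym1_Sm]; rfl)

theorem Sym1_vert (u x y : Fin 3 → ℂ) (σ : Equiv.Perm (Fin 3)) (h : ℕ) (i : Fin 3)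
    (ks : List ℕ) : vert (u ∘ σ) (x ∘ σ) (y ∘ σ) h i ks = vert u x y h (σ i) ks := by
  unfold vert
  refine congrArg₂ _ rfl (Finset.sum_congr rfl fun m _ => ?_)
  refine congrArg _ (Finset.sum_congr rfl fun l _ => ?_)
  refine congrArg _ (Finset.prod_congr rfl fun j _ => ?_)
  rw [Sym1_Tm]

theorem Sym1_graphTerm (u x y : Fin 3 → ℂ) (σ : Equiv.Perm (Fin 3)) {V E : ℕ} (γ : Fin V → ℕ)
    (e : Fin E → Fin V × Fin V) (c : Fin V → Fin 3) (k : Fin E → ℕ × ℕ) :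
    graphTerm (u ∘ σ) (x ∘ σ) (y ∘ σ) γ e c k = graphTerm u x y γ e (σ ∘ c) k := by
  unfold graphTerm
  refine congrArg₂ _ (Finset.prod_congr rfl fun v _ => ?_) (Finset.prod_congr rfl fun a _ => ?_)
  · rw [Sym1_vert]
    rfl
  · rw [Sym1_edge]
    rfl

/-- Row Sym. `(Vm (x ∘ σ) (y ∘ σ)) i j = Vm x y (σ i) (σ j)`, the same for `Rm` (induction), `Sm`, `Tm`, `edge`,
`vert`; then reindex the sum over the colours by `c ↦ σ ∘ c`. -/
theorem graphSum_perm (u x y : Fin 3 → ℂ) (σ : Equiv.Perm (Fin 3)) (g : ℕ) :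
    graphSum (u ∘ σ) (x ∘ σ) (y ∘ σ) g = graphSum u x y g := by
  classical
  unfold graphSum
  refine Finset.sum_congr rfl fun V _ => Finset.sum_congr rfl fun E _ => ?_
  refine congrArg _ (Finset.sum_congr rfl fun γ _ => Finset.sum_congr rfl fun e _ => ?_)
  split_ifs
  · rw [← Equiv.sum_comp (Equiv.arrowCongr (Equiv.refl (Fin V)) σ)
      (fun c : Fin V → Fin 3 => ∑ k : Fin E → Fin (3 * g) × Fin (3 * g),
        graphTerm u x y (fun v => (γ v : ℕ)) e c (fun a => (((k a).1 : ℕ), ((k a).2 : ℕ))))]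
    refine Finset.sum_congr rfl fun c _ => Finset.sum_congr rfl fun k _ => ?_
    rw [Sym1_graphTerm]
    rfl
  · rfl

end Pool.Agent.PlaneGT
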