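import Pool.Agent.Lib.MP_6aab98_ag.GT.Exq1
import Pool.Agent.Lib.MP_6aab98_ag.GT.Exq2
import Pool.Agent.Lib.MP_6aab98_ag.GT.Gra2
import Pool.Agent.Lib.MP_6aab98_ag.GT.Siz3
import Pool.Agent.Lib.MP_6aab98_ag.GT.Sym1
import Pool.Agent.Lib.MP_6aab98_ag.GT.Dl3

/-! # MP_6aab98_ag GT, row Fas1 -/

namespace Pool.Agent.PlaneGT

open Finset Filter Topology Asymptotics
open scoped Nat

theorem Fas1_y (y : ℂ) {g : ℕ} (hg : 2 ≤ g) : y / y ^ g = (y⁻¹) ^ (g - 1) := by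
  obtain ⟨k, rfl⟩ : ∃ k, g = k + 2 := ⟨g - 2, by omega⟩
  have h1 : k + 2 - 1 = k + 1 := by omega
  rw [h1]
  by_cases hy : y = 0
  · rw [hy]
    simp
  · rw [inv_pow, pow_succ' y (k + 1), div_mul_cancel_left₀ hy]

theorem Fas1_bdd {f : ℂ → ℂ} {c : ℂ} {g : ℂ → ℝ} {l : Filter ℂ}
    (hf : (fun q => f q - c) =O[l] g) (hg : g =O[l] (fun _ => (1 : ℝ))) :
    f =O[l] (fun _ => (1 : ℝ)) := by
  have h1 : (fun q => (f q - c) + c) =O[l] (fun _ => (1 : ℝ)) :=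
    (hf.trans hg).add (isBigO_const_const c one_ne_zero l)
  refine h1.congr_left fun q => ?_
  ring

theorem Fas1_mul {f1 f2 : ℂ → ℂ} {c1 c2 : ℂ} {g : ℂ → ℝ} {l : Filter ℂ}
    (h1 : (fun q => f1 q - c1) =O[l] g) (h2 : (fun q => f2 q - c2) =O[l] g)
    (hg : g =O[l] (fun _ => (1 : ℝ))) :
    (fun q => f1 q * f2 q - c1 * c2) =O[l] g := by
  have h3 := h1.mul (Fas1_bdd h2 hg)
  have h4 : (fun q => c1 * (f2 q - c2)) =O[l] g := h2.const_mul_left c1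
  have h5 : (fun q => (f1 q - c1) * f2 q + c1 * (f2 q - c2)) =O[l] g := by
    refine IsBigO.add ?_ h4
    refine h3.trans (IsBigO.of_bound 1 (Eventually.of_forall fun q => ?_))
    simp
  refine h5.congr_left fun q => ?_
  ring

theorem Fas1_pow {f : ℂ → ℂ} {c : ℂ} {g : ℂ → ℝ} {l : Filter ℂ}
    (hf : (fun q => f q - c) =O[l] g) (hg : g =O[l] (fun _ => (1 : ℝ))) (n : ℕ) :
    (fun q => f q ^ n - c ^ n) =O[l] g := by
  induction n with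
  | zero =>
    simp only [pow_zero, sub_self]
    exact isBigO_zero _ _
  | succ n ih =>
    simp only [pow_succ]
    exact Fas1_mul ih hf hg

theorem Fas1_chi (u : Fin 3 → ℂ) (σ : Equiv.Perm (Fin 3)) (i : Fin 3) :
    chi' (u ∘ σ) i = chi' u (σ i) := by
  unfold chi'
  refine Finset.prod_bij (fun j _ => σ j) ?_ ?_ ?_ ?_
  · intro j hj
    rw [Finset.mem_erase] at hj ⊢
    exact ⟨fun h => hj.1 (σ.injective h), Finset.mem_univ _⟩
  · intro j _ j' _ h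
    exact σ.injective h
  · intro j hj
    rw [Finset.mem_erase] at hj
    refine ⟨σ.symm j, ?_, ?_⟩
    · rw [Finset.mem_erase]
      refine ⟨fun h => hj.1 ?_, Finset.mem_univ _⟩
      rw [← h, Equiv.apply_symm_apply]
    · exact Equiv.apply_symm_apply σ j
  · intro j _
    rfl

/-- the leading coefficient with respect to `Dl` -/
noncomputable def hco (K : ℝ) (g : ℕ) : ℝ :=
  1 / ((3 * g - 3)! : ℝ) * (wk g (List.replicate (3 * g - 3) 2) : ℝ) * (27 * K ^ 2) ^ (g - 1)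

/-- Row Fas. -/
theorem hco_pos {K : ℝ} (hK0 : 0 < K) {g : ℕ} (hg : 2 ≤ g) : 0 < hco K g := by
  unfold hco
  have h1 : (0 : ℝ) < ((3 * g - 3)! : ℝ) := by exact_mod_cast Nat.factorial_pos _
  have h2 : (0 : ℝ) < (wk g (List.replicate (3 * g - 3) 2) : ℝ) := by
    exact_mod_cast wk_two_pos hg
  positivity

/-- Row Fas. `chi'`, `xu`, `yu` are compatible with relabelling; `graphSum_perm`. -/
theorem Fg_eq {R : ℝ} {u : ℂ → Fin 3 → ℂ} (h : Lab R u) (g : ℕ) (q : ℂ) :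
    Fg g q = graphSum (u q) (xu q (u q)) (yu q (u q)) g := by
  obtain ⟨σ, hσ⟩ := h.perm q
  have hx : xu q (u q) = xq q ∘ σ := by
    funext i
    rw [hσ]
    unfold xu xq
    rw [Fas1_chi]
    rfl
  have hy : yu q (u q) = yq q ∘ σ := by
    funext i
    rw [hσ]
    unfold yu yq
    rw [Fas1_chi]
    rfl
  rw [hx, hy, hσ, graphSum_perm]
  rfl

/-- Row Fas. `Lab.tame`, `Tame.oSum`, `Tame.oMain`, and `Lab.y0`, `Lab.T20` for
`y_0 ^ (1 - g) T_{2,0} ^ (3 g - 3) = (K ^ 2) ^ (g - 1) 3 ^ (3 g - 3) Dl ^ (-(5 g - 5)) (1 + O(Dl))`. -/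
theorem Fg_asymp {R : ℝ} (hR : IsRad R) {K : ℝ} (hK0 : 0 < K) (hK : Rh (R : ℂ) = K) {g : ℕ}
    (hg : 2 ≤ g) :
    (fun q => Fg g q - (hco K g : ℂ) * ((Dl q)⁻¹) ^ (5 * g - 5)) =O[𝓟 (Ann R)]
      (fun q => (‖Dl q‖⁻¹) ^ (5 * g - 6)) := by
  obtain ⟨u, h⟩ := exists_Lab hR
  have ht := h.tame hR
  obtain ⟨c, hc, hlow⟩ := Dl_lower hR
  have hD : ∀ q ∈ Ann R, Dl q ≠ 0 := by
    intro q hq h0
    have h1 := hlow q hq
    rw [h0, norm_zero] at h1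
    have hR0 : (0 : ℝ) < R := by linarith [hR.1]
    have h2 : (1 : ℂ) - q / R ≠ 0 := by
      intro h3
      have hRc : (R : ℂ) ≠ 0 := by exact_mod_cast hR0.ne'
      have h4 : q = R := by
        field_simp at h3
        linear_combination -h3
      have h5 := hq.2
      rw [h4, Complex.norm_real, Real.norm_eq_abs, abs_of_pos hR0] at h5
      exact lt_irrefl _ h5
    have h3 : 0 < c * Real.sqrt ‖(1 : ℂ) - q / R‖ :=
      mul_pos hc (Real.sqrt_pos.2 (norm_pos_iff.2 h2))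
    linarith
  have hrho : ∀ q ∈ Ann R, rho q 0 = ‖Dl q‖⁻¹ := by
    intro q hq
    unfold rho
    rw [if_pos ⟨rfl, hD q hq⟩]
  have hDl1 : (fun q => ‖Dl q‖) =O[𝓟 (Ann R)] (fun _ => (1 : ℝ)) := by
    have h1 := ht.one 0
    rw [isBigO_principal] at h1 ⊢
    obtain ⟨C, hC⟩ := h1
    refine ⟨C, fun q hq => ?_⟩
    have h2 := hC q hq
    rw [hrho q hq] at h2
    have h3 : 0 < ‖Dl q‖ := norm_pos_iff.2 (hD q hq)
    rw [norm_one, norm_inv, norm_norm] at h2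
    rw [norm_norm, norm_one, mul_one]
    calc ‖Dl q‖ = ‖Dl q‖ * 1 := (mul_one _).symm
      _ ≤ ‖Dl q‖ * (C * ‖Dl q‖⁻¹) := mul_le_mul_of_nonneg_left h2 h3.le
      _ = C := by field_simp
  have e1 := ht.oSum hg
  have e2 := ht.oMain hg 0
  have e12 := e1.add e2
  have e3 : (fun q => rho q 0 ^ (5 * g - 6)) =O[𝓟 (Ann R)]
      (fun q => (‖Dl q‖⁻¹) ^ (5 * g - 6)) := by
    rw [isBigO_principal]
    refine ⟨1, fun q hq => ?_⟩
    rw [hrho q hq, one_mul]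
  have e4 := e12.trans e3

  have f1 := Fas1_pow (h.y0 hR hK) hDl1 (g - 1)
  have f2 := Fas1_pow (h.T20 hR hK0 hK) hDl1 (3 * g - 3)
  have f3 := Fas1_mul f1 f2 hDl1
  have f4 : (fun q => (1 / ((3 * g - 3)! : ℂ)) * ((wk g (List.replicate (3 * g - 3) 2) : ℚ) : ℂ) *
      (((Dl q ^ 2 * (yu q (u q) 0)⁻¹) ^ (g - 1) *
        (Dl q * Tm (u q) (xu q (u q)) (yu q (u q)) 2 0) ^ (3 * g - 3) -
        ((K : ℂ) ^ 2) ^ (g - 1) * 3 ^ (3 * g - 3)))) =O[𝓟 (Ann R)] (fun q => ‖Dl q‖) :=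
    f3.const_mul_left _
  have f5 : (fun q => ((Dl q)⁻¹) ^ (5 * g - 5)) =O[𝓟 (Ann R)]
      (fun q => (‖Dl q‖⁻¹) ^ (5 * g - 5)) := by
    rw [isBigO_principal]
    refine ⟨1, fun q _ => ?_⟩
    rw [norm_pow, norm_inv, norm_pow, norm_inv, norm_norm, one_mul]
  have f6 := f4.mul f5
  have f7 : (fun q => ‖Dl q‖ * (‖Dl q‖⁻¹) ^ (5 * g - 5)) =O[𝓟 (Ann R)]
      (fun q => (‖Dl q‖⁻¹) ^ (5 * g - 6)) := by
    rw [isBigO_principal]
    refine ⟨1, fun q hq => ?_⟩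
    have h3 : ‖Dl q‖ ≠ 0 := (norm_pos_iff.2 (hD q hq)).ne'
    have h4 : 5 * g - 5 = (5 * g - 6) + 1 := by omega
    rw [h4, pow_succ, one_mul]
    apply le_of_eq
    congr 1
    field_simp
  have f8 := f6.trans f7
  have hfin := e4.add f8
  refine (hfin.congr' ?_ EventuallyEq.rfl)
  rw [Filter.EventuallyEq, Filter.eventually_principal]
  intro q hq
  have hDq := hD q hq
  rw [Fg_eq h g q]
  set D := Dl q with hDdef
  set y0 := yu q (u q) 0 with hy0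
  set T := Tm (u q) (xu q (u q)) (yu q (u q)) 2 0 with hT
  have g1 : y0 / y0 ^ g = (y0⁻¹) ^ (g - 1) := Fas1_y y0 hg
  have g2 : (D ^ 2 * y0⁻¹) ^ (g - 1) * (D * T) ^ (3 * g - 3) * (D⁻¹) ^ (5 * g - 5) =
      (y0⁻¹) ^ (g - 1) * T ^ (3 * g - 3) := by
    have h5 : 5 * g - 5 = 2 * (g - 1) + (3 * g - 3) := by omega
    rw [h5, mul_pow, mul_pow, pow_add, ← pow_mul]
    have h6 : D ^ (2 * (g - 1)) * (D⁻¹) ^ (2 * (g - 1)) = 1 := by
      rw [← mul_pow, mul_inv_cancel₀ hDq, one_pow]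
    have h7 : D ^ (3 * g - 3) * (D⁻¹) ^ (3 * g - 3) = 1 := by
      rw [← mul_pow, mul_inv_cancel₀ hDq, one_pow]
    calc D ^ (2 * (g - 1)) * y0⁻¹ ^ (g - 1) * (D ^ (3 * g - 3) * T ^ (3 * g - 3)) *
          (D⁻¹ ^ (2 * (g - 1)) * D⁻¹ ^ (3 * g - 3)) =
          (D ^ (2 * (g - 1)) * (D⁻¹) ^ (2 * (g - 1))) * (D ^ (3 * g - 3) * (D⁻¹) ^ (3 * g - 3)) *
            (y0⁻¹ ^ (g - 1) * T ^ (3 * g - 3)) := by ring
      _ = _ := by rw [h6, h7, one_mul, one_mul]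
  have g3 : (hco K g : ℂ) = (1 / ((3 * g - 3)! : ℂ)) *
      ((wk g (List.replicate (3 * g - 3) 2) : ℚ) : ℂ) * (((K : ℂ) ^ 2) ^ (g - 1) * 3 ^ (3 * g - 3)) := by
    have h8 : (3 : ℂ) ^ (3 * g - 3) = 27 ^ (g - 1) := by
      have : 3 * g - 3 = 3 * (g - 1) := by omega
      rw [this, pow_mul]
      norm_num
    rw [h8]
    unfold hco
    push_cast
    rw [mul_pow]
    ring
  rw [g3, g1]
  linear_combination ((1 / ((3 * g - 3)! : ℂ)) *
      ((wk g (List.replicate (3 * g - 3) 2) : ℚ) : ℂ)) * g2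

end Pool.Agent.PlaneGT
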