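import Pool.Agent.Lib.MP_6aab98_ag.GT.Fas1
import Pool.Agent.Lib.MP_6aab98_ag.GT.Dl4

/-! # MP_6aab98_ag GT, row Fas2 -/

namespace Pool.Agent.PlaneGT

open Finset Filter Topology Asymptotics
open scoped Nat

/-- Row Fas2. -/
theorem Fg_asymp2 {R : ℝ} (hR : IsRad R) {K : ℝ} (hK0 : 0 < K) (hK : Rh (R : ℂ) = K) {g : ℕ}
    (hg : 2 ≤ g) : ∃ C : ℝ, ∀ q ∈ Ann R,
      ‖Fg g q - ((hco K g * (Real.sqrt (6 * K))⁻¹ ^ (5 * g - 5) : ℝ) : ℂ) *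
        (1 - q / R) ^ ((-((5 * (g : ℝ) - 5) / 2) : ℝ) : ℂ)‖ ≤
        C * ‖1 - q / R‖ ^ (-((5 * (g : ℝ) - 6) / 2)) := by
  obtain ⟨C1, hC1⟩ := isBigO_principal.1 (Fg_asymp hR hK0 hK hg)
  obtain ⟨C2, hC2, hpow⟩ := Dl_pow_asymp hR hK0 hK (5 * g - 5) (by omega)
  obtain ⟨c, hc, hlow⟩ := Dl_lower hR
  have hR1 := hR.1
  refine ⟨|C1| * (c⁻¹) ^ (5 * g - 6) + |hco K g| * C2, fun q hq => ?_⟩
  have hR0 : (R : ℂ) ≠ 0 := by
    intro h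
    have : R = 0 := by exact_mod_cast h
    linarith
  have hd : 0 < ‖1 - q / R‖ := by
    rw [norm_pos_iff]
    intro h
    have h1 : q = R := by
      have h2 : q / R = 1 := by
        rw [sub_eq_zero] at h
        exact h.symm
      rwa [div_eq_one_iff_eq hR0] at h2
    have h3 := hq.2
    rw [h1, Complex.norm_real, Real.norm_eq_abs, abs_of_pos (by linarith)] at h3
    exact lt_irrefl _ h3
  set d := ‖1 - q / R‖ with hdd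
  have hsd : 0 < Real.sqrt d := Real.sqrt_pos.2 hd
  have hD := hlow q hq
  have hcs : 0 < c * Real.sqrt d := mul_pos hc hsd
  -- exponents
  have hg2 : (2 : ℝ) ≤ (g : ℝ) := by exact_mod_cast hg
  have hk5 : (((5 * g - 5 : ℕ)) : ℝ) = 5 * (g : ℝ) - 5 := by
    rw [Nat.cast_sub (by omega)]
    push_cast
    ring
  have hk6 : (((5 * g - 6 : ℕ)) : ℝ) = 5 * (g : ℝ) - 6 := by
    rw [Nat.cast_sub (by omega)]
    push_cast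
    ring
  have hexp : (-(((5 * g - 5 : ℕ)) : ℂ) / 2) = ((-((5 * (g : ℝ) - 5) / 2) : ℝ) : ℂ) := by
    have h5 : (((5 * g - 5 : ℕ)) : ℂ) = ((5 * (g : ℝ) - 5 : ℝ) : ℂ) := by
      rw [← hk5]
      push_cast
      rfl
    rw [h5]
    push_cast
    ring
  have h1 : ‖Fg g q - (hco K g : ℂ) * ((Dl q)⁻¹) ^ (5 * g - 5)‖ ≤
      |C1| * (c⁻¹) ^ (5 * g - 6) * d ^ (-((5 * (g : ℝ) - 6) / 2)) := by
    refine le_trans (hC1 q hq) ?_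
    rw [norm_pow, norm_inv, norm_norm]
    have h2 : (‖Dl q‖⁻¹) ^ (5 * g - 6) ≤ ((c * Real.sqrt d)⁻¹) ^ (5 * g - 6) := by
      refine pow_le_pow_left₀ (inv_nonneg.2 (norm_nonneg _)) ?_ _
      exact inv_anti₀ hcs hD
    have h3 : ((c * Real.sqrt d)⁻¹) ^ (5 * g - 6) =
        (c⁻¹) ^ (5 * g - 6) * d ^ (-((5 * (g : ℝ) - 6) / 2)) := by
      rw [mul_inv, mul_pow]
      congr 1
      rw [Real.sqrt_eq_rpow, ← Real.rpow_neg hd.le, ← Real.rpow_natCast, ← Real.rpow_mul hd.le,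
        hk6]
      congr 1
      ring
    calc C1 * (‖Dl q‖⁻¹) ^ (5 * g - 6) ≤ |C1| * (‖Dl q‖⁻¹) ^ (5 * g - 6) :=
          mul_le_mul_of_nonneg_right (le_abs_self _)
            (pow_nonneg (inv_nonneg.2 (norm_nonneg _)) _)
      _ ≤ |C1| * ((c * Real.sqrt d)⁻¹) ^ (5 * g - 6) :=
          mul_le_mul_of_nonneg_left h2 (abs_nonneg _)
      _ = |C1| * (c⁻¹) ^ (5 * g - 6) * d ^ (-((5 * (g : ℝ) - 6) / 2)) := by
          rw [h3]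
          ring
  have h2 : ‖(hco K g : ℂ) * ((Dl q)⁻¹) ^ (5 * g - 5) -
      ((hco K g * (Real.sqrt (6 * K))⁻¹ ^ (5 * g - 5) : ℝ) : ℂ) *
        (1 - q / R) ^ ((-((5 * (g : ℝ) - 5) / 2) : ℝ) : ℂ)‖ ≤
      |hco K g| * C2 * d ^ (-((5 * (g : ℝ) - 6) / 2)) := by
    have h3 := hpow q hq
    rw [hexp, hk5] at h3
    have h4 : (hco K g : ℂ) * ((Dl q)⁻¹) ^ (5 * g - 5) -
      ((hco K g * (Real.sqrt (6 * K))⁻¹ ^ (5 * g - 5) : ℝ) : ℂ) *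
        (1 - q / R) ^ ((-((5 * (g : ℝ) - 5) / 2) : ℝ) : ℂ) =
      (hco K g : ℂ) * (((Dl q)⁻¹) ^ (5 * g - 5) -
        (((Real.sqrt (6 * K))⁻¹ ^ (5 * g - 5) : ℝ) : ℂ) *
        (1 - q / R) ^ ((-((5 * (g : ℝ) - 5) / 2) : ℝ) : ℂ)) := by
      rw [Complex.ofReal_mul]
      ring
    rw [h4, norm_mul, Complex.norm_real, Real.norm_eq_abs, mul_assoc]
    refine mul_le_mul_of_nonneg_left ?_ (abs_nonneg _)
    have h5 : (-((5 * (g : ℝ) - 5) - 1) / 2 : ℝ) = -((5 * (g : ℝ) - 6) / 2) := by ring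
    rw [h5] at h3
    exact h3
  calc ‖Fg g q - ((hco K g * (Real.sqrt (6 * K))⁻¹ ^ (5 * g - 5) : ℝ) : ℂ) *
        (1 - q / R) ^ ((-((5 * (g : ℝ) - 5) / 2) : ℝ) : ℂ)‖
      = ‖(Fg g q - (hco K g : ℂ) * ((Dl q)⁻¹) ^ (5 * g - 5)) +
        ((hco K g : ℂ) * ((Dl q)⁻¹) ^ (5 * g - 5) -
      ((hco K g * (Real.sqrt (6 * K))⁻¹ ^ (5 * g - 5) : ℝ) : ℂ) *
        (1 - q / R) ^ ((-((5 * (g : ℝ) - 5) / 2) : ℝ) : ℂ))‖ := by
        congr 1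
        ring
    _ ≤ _ := norm_add_le _ _
    _ ≤ |C1| * (c⁻¹) ^ (5 * g - 6) * d ^ (-((5 * (g : ℝ) - 6) / 2)) +
        |hco K g| * C2 * d ^ (-((5 * (g : ℝ) - 6) / 2)) := add_le_add h1 h2
    _ = (|C1| * (c⁻¹) ^ (5 * g - 6) + |hco K g| * C2) * d ^ (-((5 * (g : ℝ) - 6) / 2)) := by
        ring

end Pool.Agent.PlaneGT
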