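import Pool.Agent.Lib.MP_6aab98_ag.GT.Siz2

/-! # MP_6aab98_ag GT, row Gra1 -/

namespace Pool.Agent.PlaneGT

open Finset Filter Topology Asymptotics
open scoped Nat

section

variable {ι : Type} {l : Filter ι} {ρ : ι → Fin 3 → ℝ} {u x y : ι → Fin 3 → ℂ}

theorem Gra1_length {V E : ℕ} (e : Fin E → Fin V × Fin V) (k : Fin E → ℕ × ℕ) (v : Fin V) :
    (halves e k v).length
      = ∑ a, ((if (e a).1 = v then 1 else 0) + (if (e a).2 = v then 1 else 0)) := by
  unfold halves
  rw [List.length_flatMap, Fin.sum_univ_def]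
  congr 1
  apply List.map_congr_left
  intro a _
  rw [List.length_append]
  split_ifs <;> simp

/-- Row Gra1. Each edge has two half-edges. -/
theorem sum_halves {V E : ℕ} (e : Fin E → Fin V × Fin V) (k : Fin E → ℕ × ℕ) :
    ∑ v, (halves e k v).length = 2 * E := by
  simp_rw [Gra1_length]
  rw [Finset.sum_comm]
  have : ∀ a : Fin E, ∑ v : Fin V, ((if (e a).1 = v then 1 else 0)
      + (if (e a).2 = v then 1 else 0)) = 2 := by
    intro a
    rw [Finset.sum_add_distrib]
    simp
  rw [Finset.sum_congr rfl (fun a _ => this a)]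
  simp [mul_comm]

/-- Row Gra1. The weight of the edges as a product over the vertices. -/
theorem prod_halves {V E : ℕ} (e : Fin E → Fin V × Fin V) (k : Fin E → ℕ × ℕ) (w : Fin V → ℝ) :
    ∏ a, (w (e a).1 * w (e a).2) = ∏ v, w v ^ (halves e k v).length := by
  simp_rw [Gra1_length, ← Finset.prod_pow_eq_pow_sum]
  rw [Finset.prod_comm]
  apply Finset.prod_congr rfl
  intro a _
  simp_rw [pow_add]
  rw [Finset.prod_mul_distrib]
  congr 1
  · rw [Finset.prod_eq_single (e a).1]
    · simp
    · intro b _ hb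
      simp [Ne.symm hb]
    · simp
  · rw [Finset.prod_eq_single (e a).2]
    · simp
    · intro b _ hb
      simp [Ne.symm hb]
    · simp

theorem Gra1_prod {κ : Type} (s : Finset κ) {f : κ → ι → ℂ} {g : κ → ι → ℝ}
    (h : ∀ i ∈ s, f i =O[l] g i) :
    (fun t => ∏ i ∈ s, f i t) =O[l] (fun t => ∏ i ∈ s, g i t) := by
  classical
  induction s using Finset.induction_on with
  | empty => simpa using (isBigO_const_const (1 : ℂ) (one_ne_zero : (1 : ℝ) ≠ 0) l)
  | insert a s ha ih =>
    simp_rw [Finset.prod_insert ha]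
    exact (h a (Finset.mem_insert_self a s)).mul
      (ih (fun i hi => h i (Finset.mem_insert_of_mem hi)))

theorem Gra1_prodR {κ : Type} (s : Finset κ) {f : κ → ι → ℝ} {g : κ → ι → ℝ}
    (h : ∀ i ∈ s, f i =O[l] g i) :
    (fun t => ∏ i ∈ s, f i t) =O[l] (fun t => ∏ i ∈ s, g i t) := by
  classical
  induction s using Finset.induction_on with
  | empty => simpa using (isBigO_const_const (1 : ℝ) (one_ne_zero : (1 : ℝ) ≠ 0) l)
  | insert a s ha ih =>
    simp_rw [Finset.prod_insert ha]
    exact (h a (Finset.mem_insert_self a s)).mul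
      (ih (fun i hi => h i (Finset.mem_insert_of_mem hi)))

/-- `ρ_i = O(ρ_0)` -/
theorem Tame.Gra1_le (h : Tame l ρ u x y) (i : Fin 3) :
    (fun t => ρ t i) =O[l] (fun t => ρ t 0) := by
  by_cases hi : i = 0
  · subst hi
    exact isBigO_refl _ _
  · exact (h.fin i hi).trans (h.one 0)

/-- Row Gra1. If some vertex has genus `0` and valency `≤ 2` the term vanishes. Otherwise it is
`O(∏_v ρ_{c v} ^ (5 γ v + 2 n_v - 5))`, all these exponents are `≥ 0`, `ρ_i = O(ρ_0)`, and their
sum is `5 (g - 1) - E ≤ 5 g - 6`. -/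
theorem Tame.oTerm (h : Tame l ρ u x y) {g V E : ℕ} (γ : Fin V → ℕ)
    (e : Fin E → Fin V × Fin V) (c : Fin V → Fin 3) (k : Fin E → ℕ × ℕ) (hE : 1 ≤ E)
    (hg : (∑ v, γ v) + E + 1 = g + V) :
    (fun t => graphTerm (u t) (x t) (y t) γ e c k) =O[l] (fun t => ρ t 0 ^ (5 * g - 6)) := by
  by_cases hu : ∃ v, γ v = 0 ∧ (halves e k v).length ≤ 2
  · obtain ⟨v, hv0, hv⟩ := hu
    have hz : (fun t => graphTerm (u t) (x t) (y t) γ e c k) = fun _ => (0 : ℂ) := by
      funext t
      unfold graphTerm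
      rw [Finset.prod_eq_zero (Finset.mem_univ v), zero_mul]
      rw [hv0]
      exact vert_unstable _ _ _ _ hv
    rw [hz]
    exact isBigO_zero _ _
  · push Not at hu
    have hst : ∀ v, 5 ≤ 5 * γ v + 2 * (halves e k v).length := by
      intro v
      rcases Nat.eq_zero_or_pos (γ v) with h0 | h0
      · have := hu v h0
        omega
      · omega
    have h1 : (fun t => ∏ v, vert (u t) (x t) (y t) (γ v) (c v) (halves e k v)) =O[l]
        (fun t => ∏ v, (ρ t (c v) ^ (5 * γ v + (halves e k v).length) * ((ρ t (c v))⁻¹) ^ 5)) :=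
      Gra1_prod univ (fun v _ => h.oVert (γ v) (c v) (halves e k v))
    have h2 : (fun t => ∏ a, edge (u t) (x t) (y t) (k a).1 (k a).2 (c (e a).1) (c (e a).2))
        =O[l] (fun t => ∏ a, (ρ t (c (e a).1) * ρ t (c (e a).2))) :=
      Gra1_prod univ (fun a _ => h.oE _ _ _ _)
    have h3 := h1.mul h2
    have h4 : (fun t => (∏ v, (ρ t (c v) ^ (5 * γ v + (halves e k v).length)
          * ((ρ t (c v))⁻¹) ^ 5)) * ∏ a, (ρ t (c (e a).1) * ρ t (c (e a).2)))
        = fun t => ∏ v, ρ t (c v) ^ (5 * γ v + 2 * (halves e k v).length - 5) := by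
      funext t
      rw [prod_halves e k (fun v => ρ t (c v)), ← Finset.prod_mul_distrib]
      apply Finset.prod_congr rfl
      intro v _
      have hp : ρ t (c v) ≠ 0 := (h.pos t (c v)).ne'
      obtain ⟨m, hm⟩ := Nat.exists_eq_add_of_le (hst v)
      have hm' : 5 * γ v + 2 * (halves e k v).length - 5 = m := by omega
      have hm2 : ρ t (c v) ^ (5 * γ v + (halves e k v).length) * ρ t (c v) ^ (halves e k v).length
          = ρ t (c v) ^ m * ρ t (c v) ^ 5 := by
        rw [← pow_add, ← pow_add]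
        congr 1
        omega
      rw [hm', mul_right_comm, hm2, mul_assoc, ← mul_pow, mul_inv_cancel₀ hp, one_pow, mul_one]
    rw [h4] at h3
    have h5 : (fun t => ∏ v, ρ t (c v) ^ (5 * γ v + 2 * (halves e k v).length - 5)) =O[l]
        (fun t => ∏ v : Fin V, ρ t 0 ^ (5 * γ v + 2 * (halves e k v).length - 5)) :=
      Gra1_prodR univ (fun v _ => (h.Gra1_le (c v)).pow _)
    simp_rw [Finset.prod_pow_eq_pow_sum] at h5
    have hS : (∑ v, (5 * γ v + 2 * (halves e k v).length - 5)) + E + 5 = 5 * g := by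
      have hs1 : (∑ v, (5 * γ v + 2 * (halves e k v).length - 5)) + 5 * V
          = 5 * (∑ v, γ v) + 2 * (∑ v, (halves e k v).length) := by
        have : ∑ v, (5 * γ v + 2 * (halves e k v).length)
            = ∑ v : Fin V, ((5 * γ v + 2 * (halves e k v).length - 5) + 5) :=
          Finset.sum_congr rfl (fun v _ => (Nat.sub_add_cancel (hst v)).symm)
        rw [Finset.sum_add_distrib, Finset.sum_add_distrib, ← Finset.mul_sum,
          ← Finset.mul_sum] at this
        simp only [Finset.sum_const, Finset.card_univ, Fintype.card_fin, smul_eq_mul] at this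
        rw [this]
        ring
      rw [sum_halves] at hs1
      omega
    obtain ⟨m, hm⟩ : ∃ m, 5 * g - 6 = (∑ v, (5 * γ v + 2 * (halves e k v).length - 5)) + m :=
      Nat.exists_eq_add_of_le (by omega)
    have h6 : (fun t => ρ t 0 ^ (∑ v, (5 * γ v + 2 * (halves e k v).length - 5))) =O[l]
        (fun t => ρ t 0 ^ (5 * g - 6)) := by
      rw [hm]
      simp_rw [pow_add]
      have h7 : (fun _ : ι => (1 : ℝ)) =O[l] (fun t => ρ t 0 ^ m) := by
        simpa using (h.one 0).pow m
      simpa using (isBigO_refl (fun t => ρ t 0 ^ (∑ v, (5 * γ v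
        + 2 * (halves e k v).length - 5))) l).mul h7
    exact (h3.trans h5).trans h6

end

end Pool.Agent.PlaneGT
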