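import Pool.Agent.Lib.MP_6aab98_ag.GT.Base

/-! # MP_6aab98_ag GT, row Gz1 -/

namespace Pool.Agent.PlaneGT

open Finset Filter Topology Asymptotics
open scoped Nat

/-- Row Gz1. -/
theorem n_zero : n 0 = 0 := by
  simp [n, N0]

/-- Row Gz1. -/
theorem n_one : n 1 = 1 / 2 := by
  norm_num [n, N0, Nat.factorial]

/-- The recursion as a sum over the antidiagonal. -/
private lemma Gz1_N0 (d : ℕ) : (N0 (d + 2) : ℝ) = ∑ p ∈ HasAntidiagonal.antidiagonal d,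
    (N0 (p.1 + 1) : ℝ) * (N0 (p.2 + 1) : ℝ) *
      (((p.1 : ℝ) + 1) ^ 2 * ((p.2 : ℝ) + 1) ^ 2 * ((3 * d + 2).choose (3 * p.1 + 1) : ℝ)
        - ((p.1 : ℝ) + 1) ^ 3 * ((p.2 : ℝ) + 1) * ((3 * d + 2).choose (3 * p.1 + 2) : ℝ)) := by
  rw [N0]
  push_cast
  rw [Finset.Nat.sum_antidiagonal_eq_sum_range_succ_mk, ← Fin.sum_univ_eq_sum_range
    (fun i => (N0 (i + 1) : ℝ) * (N0 (d - i + 1) : ℝ) *
      (((i : ℝ) + 1) ^ 2 * (((d - i : ℕ) : ℝ) + 1) ^ 2 * ((3 * d + 2).choose (3 * i + 1) : ℝ)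
        - ((i : ℝ) + 1) ^ 3 * (((d - i : ℕ) : ℝ) + 1) * ((3 * d + 2).choose (3 * i + 2) : ℝ)))]
  refine Finset.sum_congr rfl fun i _ => ?_
  have hi := i.2
  have e : d + 1 - (i : ℕ) = d - i + 1 := by omega
  rw [e]
  push_cast
  ring

private lemma Gz1_term (i j : ℕ) :
    ((3 * ((i + j + 2 : ℕ) : ℝ) - 1) * (3 * ((i + j + 2 : ℕ) : ℝ) - 2) *
      (3 * ((i + j + 2 : ℕ) : ℝ) - 3)) / ((3 * (i + j + 2) - 1)! : ℝ) *
      ((N0 (i + 1) : ℝ) * (N0 (j + 1) : ℝ) *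
      (((i : ℝ) + 1) ^ 2 * ((j : ℝ) + 1) ^ 2 * ((3 * (i + j) + 2).choose (3 * i + 1) : ℝ)
        - ((i : ℝ) + 1) ^ 3 * ((j : ℝ) + 1) * ((3 * (i + j) + 2).choose (3 * i + 2) : ℝ))) =
    (((i : ℝ) + 1) ^ 2 * ((j : ℝ) + 1) ^ 2 * (3 * i + 2) * (3 * j + 2) -
      ((i : ℝ) + 1) ^ 3 * ((j : ℝ) + 1) * (3 * j + 2) * (3 * j + 1)) * (n (i + 1) * n (j + 1)) := by
  have h1 : ((3 * (i + j + 2) - 1)! : ℝ) = (3 * ((i + j : ℕ) : ℝ) + 5) *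
      (3 * ((i + j : ℕ) : ℝ) + 4) * (3 * ((i + j : ℕ) : ℝ) + 3) * ((3 * (i + j) + 2)! : ℝ) := by
    have : 3 * (i + j + 2) - 1 = 3 * (i + j) + 2 + 1 + 1 + 1 := by omega
    rw [this, Nat.factorial_succ, Nat.factorial_succ, Nat.factorial_succ]
    push_cast
    ring
  have h2 : ((3 * (i + j) + 2).choose (3 * i + 1) : ℝ) * ((3 * i + 1)! : ℝ) *
      ((3 * j + 1)! : ℝ) = ((3 * (i + j) + 2)! : ℝ) := by
    have := Nat.add_choose_mul_factorial_mul_factorial (3 * j + 1) (3 * i + 1)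
    have e : 3 * j + 1 + (3 * i + 1) = 3 * (i + j) + 2 := by ring
    rw [e, mul_right_comm] at this
    exact_mod_cast this
  have h3 : ((3 * (i + j) + 2).choose (3 * i + 2) : ℝ) * ((3 * i + 2)! : ℝ) *
      ((3 * j)! : ℝ) = ((3 * (i + j) + 2)! : ℝ) := by
    have := Nat.add_choose_mul_factorial_mul_factorial (3 * j) (3 * i + 2)
    have e : 3 * j + (3 * i + 2) = 3 * (i + j) + 2 := by ring
    rw [e, mul_right_comm] at this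
    exact_mod_cast this
  have h4 : ((3 * i + 2)! : ℝ) = (3 * i + 2) * ((3 * i + 1)! : ℝ) := by
    rw [Nat.factorial_succ]
    push_cast
    ring
  have h5 : ((3 * j + 2)! : ℝ) = (3 * j + 2) * ((3 * j + 1)! : ℝ) := by
    rw [Nat.factorial_succ]
    push_cast
    ring
  have h6 : ((3 * j + 1)! : ℝ) = (3 * j + 1) * ((3 * j)! : ℝ) := by
    rw [Nat.factorial_succ]
    push_cast
    ring
  have n1 : n (i + 1) = (N0 (i + 1) : ℝ) / ((3 * i + 2)! : ℝ) := by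
    rw [n]
    congr 3
  have n2 : n (j + 1) = (N0 (j + 1) : ℝ) / ((3 * j + 2)! : ℝ) := by
    rw [n]
    congr 3
  have p1 : ((3 * i + 1)! : ℝ) ≠ 0 := by positivity
  have p2 : ((3 * j)! : ℝ) ≠ 0 := by positivity
  have p3 : ((3 * (i + j) + 2)! : ℝ) ≠ 0 := by positivity
  have c1 : ((3 * (i + j) + 2).choose (3 * i + 1) : ℝ) =
      ((3 * (i + j) + 2)! : ℝ) / (((3 * i + 1)! : ℝ) * ((3 * j + 1) * ((3 * j)! : ℝ))) := by
    rw [eq_div_iff (by positivity), ← h2, h6]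
    ring
  have c2 : ((3 * (i + j) + 2).choose (3 * i + 2) : ℝ) =
      ((3 * (i + j) + 2)! : ℝ) / (((3 * i + 2) * ((3 * i + 1)! : ℝ)) * ((3 * j)! : ℝ)) := by
    rw [eq_div_iff (by positivity), ← h3, h4]
    ring
  rw [h1, c1, c2, n1, n2, h4, h5, h6]
  push_cast
  generalize ((3 * i + 1)! : ℝ) = a at *
  generalize ((3 * j)! : ℝ) = b at *
  generalize ((3 * (i + j) + 2)! : ℝ) = c at *
  have q1 : (3 * ((i : ℝ) + j) + 5) ≠ 0 := by positivity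
  have q2 : (3 * ((i : ℝ) + j) + 4) ≠ 0 := by positivity
  have q3 : (3 * ((i : ℝ) + j) + 3) ≠ 0 := by positivity
  have q4 : (3 * (i : ℝ) + 2) ≠ 0 := by positivity
  have q5 : (3 * (j : ℝ) + 2) ≠ 0 := by positivity
  have q6 : (3 * (j : ℝ) + 1) ≠ 0 := by positivity
  have q7 : (3 * ((i : ℝ) + j + 2) - 1) * (3 * ((i : ℝ) + j + 2) - 2) *
      (3 * ((i : ℝ) + j + 2) - 3) = (3 * ((i : ℝ) + j) + 5) * (3 * ((i : ℝ) + j) + 4) *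
      (3 * ((i : ℝ) + j) + 3) := by ring
  rw [q7]
  field_simp

/-- Row Gz1. Kontsevich's recursion for `n`. For `d ≥ 2` unfold `N0`, reindex `i ↦ (i + 1, d - 1 - i)`
on the antidiagonal (the terms with `0` vanish), and divide by `(3 d - 1)!`:
with `i + j = d`, `(3 d - 4)! / ((3 i - 2)! (3 j - 2)!)` and `(3 d - 4)! / ((3 i - 1)! (3 j - 3)!)`
give `(3 d - 1) (3 d - 2) (3 d - 3) n_d = ∑ n_i n_j (i ^ 2 j ^ 2 (3 i - 1) (3 j - 1)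
- i ^ 3 j (3 j - 1) (3 j - 2))`, and symmetrising `i ↔ j` both this and the sum below equal
`∑ n_i n_j i j (3/2 d i j - d ^ 2 + 3 i j)`.  -/
theorem n_rec (d : ℕ) : (27 * (d : ℝ) ^ 3 - 54 * (d : ℝ) ^ 2 + 33 * d - 6) * n d =
    ∑ p ∈ HasAntidiagonal.antidiagonal d, ((p.1 : ℝ) ^ 2 * (p.2 : ℝ) ^ 2 +
      (3 * (p.1 : ℝ) ^ 2 - 2 * p.1) * (p.2 : ℝ) ^ 3) * (n p.1 * n p.2) := by
  rcases d with _ | _ | d
  · simp [n_zero]
  · rw [Finset.Nat.sum_antidiagonal_eq_sum_range_succ_mk]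
    simp [Finset.sum_range_succ, n_zero]
    left
    norm_num
  · -- the sum on the right
    have hr : ∑ p ∈ HasAntidiagonal.antidiagonal (d + 1 + 1), ((p.1 : ℝ) ^ 2 * (p.2 : ℝ) ^ 2 +
        (3 * (p.1 : ℝ) ^ 2 - 2 * p.1) * (p.2 : ℝ) ^ 3) * (n p.1 * n p.2) =
        ∑ p ∈ HasAntidiagonal.antidiagonal d, ((((p.1 : ℝ) + 1) ^ 2 * ((p.2 : ℝ) + 1) ^ 2 +
        (3 * ((p.1 : ℝ) + 1) ^ 2 - 2 * ((p.1 : ℝ) + 1)) * ((p.2 : ℝ) + 1) ^ 3) *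
          (n (p.1 + 1) * n (p.2 + 1))) := by
      rw [Finset.Nat.antidiagonal_succ_succ']
      simp [n_zero]
    rw [hr]
    have hl : (27 * ((d + 1 + 1 : ℕ) : ℝ) ^ 3 - 54 * ((d + 1 + 1 : ℕ) : ℝ) ^ 2 +
        33 * ((d + 1 + 1 : ℕ) : ℝ) - 6) * n (d + 1 + 1) =
        ∑ p ∈ HasAntidiagonal.antidiagonal d,
          ((((p.1 : ℝ) + 1) ^ 2 * ((p.2 : ℝ) + 1) ^ 2 * (3 * p.1 + 2) * (3 * p.2 + 2) -
          ((p.1 : ℝ) + 1) ^ 3 * ((p.2 : ℝ) + 1) * (3 * p.2 + 2) * (3 * p.2 + 1)) *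
          (n (p.1 + 1) * n (p.2 + 1))) := by
      have e0 : n (d + 1 + 1) = (N0 (d + 2) : ℝ) / ((3 * (d + 2) - 1)! : ℝ) := rfl
      have e1 : (27 * ((d + 1 + 1 : ℕ) : ℝ) ^ 3 - 54 * ((d + 1 + 1 : ℕ) : ℝ) ^ 2 +
          33 * ((d + 1 + 1 : ℕ) : ℝ) - 6) * n (d + 1 + 1) =
          ((3 * ((d + 2 : ℕ) : ℝ) - 1) * (3 * ((d + 2 : ℕ) : ℝ) - 2) *
          (3 * ((d + 2 : ℕ) : ℝ) - 3)) / ((3 * (d + 2) - 1)! : ℝ) * (N0 (d + 2) : ℝ) := by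
        rw [e0]
        push_cast
        ring
      rw [e1, Gz1_N0, Finset.mul_sum]
      refine Finset.sum_congr rfl fun p hp => ?_
      have hp' := HasAntidiagonal.mem_antidiagonal.mp hp
      subst hp'
      exact Gz1_term p.1 p.2
    rw [hl, ← sub_eq_zero, ← Finset.sum_sub_distrib]
    set F : ℕ × ℕ → ℝ := fun p =>
          (((p.1 : ℝ) + 1) ^ 2 * ((p.2 : ℝ) + 1) ^ 2 * (3 * p.1 + 2) * (3 * p.2 + 2) -
          ((p.1 : ℝ) + 1) ^ 3 * ((p.2 : ℝ) + 1) * (3 * p.2 + 2) * (3 * p.2 + 1)) *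
          (n (p.1 + 1) * n (p.2 + 1)) - ((((p.1 : ℝ) + 1) ^ 2 * ((p.2 : ℝ) + 1) ^ 2 +
        (3 * ((p.1 : ℝ) + 1) ^ 2 - 2 * ((p.1 : ℝ) + 1)) * ((p.2 : ℝ) + 1) ^ 3) *
          (n (p.1 + 1) * n (p.2 + 1))) with hF
    have hs : ∑ p ∈ HasAntidiagonal.antidiagonal d, F p.swap =
        ∑ p ∈ HasAntidiagonal.antidiagonal d, F p := Finset.Nat.sum_antidiagonal_swap
    have hz : ∑ p ∈ HasAntidiagonal.antidiagonal d, (F p + F p.swap) = 0 := by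
      refine Finset.sum_eq_zero fun p _ => ?_
      simp only [hF, Prod.fst_swap, Prod.snd_swap]
      ring
    rw [Finset.sum_add_distrib, hs] at hz
    linarith

end Pool.Agent.PlaneGT
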