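import Pool.Agent.Lib.MP_6aab98_ag.GT.Gz1

/-! # MP_6aab98_ag GT, row Gz2 -/

namespace Pool.Agent.PlaneGT

open Finset Filter Topology Asymptotics
open scoped Nat

/-- Row Gz2. The symmetric form of `n_rec`. -/
theorem n_sym (d : ℕ) : (27 * (d : ℝ) ^ 3 - 54 * (d : ℝ) ^ 2 + 33 * d - 6) * n d =
    ∑ p ∈ HasAntidiagonal.antidiagonal d, ((p.1 : ℝ) * (p.2 : ℝ) *
      (3 / 2 * d * (p.1 * p.2) - (d : ℝ) ^ 2 + 3 * (p.1 * p.2))) * (n p.1 * n p.2) := by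
  have h1 := n_rec d
  have h2 : ∑ p ∈ HasAntidiagonal.antidiagonal d, ((p.1 : ℝ) ^ 2 * (p.2 : ℝ) ^ 2 +
      (3 * (p.1 : ℝ) ^ 2 - 2 * p.1) * (p.2 : ℝ) ^ 3) * (n p.1 * n p.2) =
      ∑ p ∈ HasAntidiagonal.antidiagonal d, ((p.2 : ℝ) ^ 2 * (p.1 : ℝ) ^ 2 +
      (3 * (p.2 : ℝ) ^ 2 - 2 * p.2) * (p.1 : ℝ) ^ 3) * (n p.2 * n p.1) := by
    rw [← Finset.Nat.sum_antidiagonal_swap]
    rfl
  have h3 : (2 : ℝ) * ∑ p ∈ HasAntidiagonal.antidiagonal d, ((p.1 : ℝ) * (p.2 : ℝ) *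
      (3 / 2 * d * (p.1 * p.2) - (d : ℝ) ^ 2 + 3 * (p.1 * p.2))) * (n p.1 * n p.2) =
      ∑ p ∈ HasAntidiagonal.antidiagonal d, ((p.1 : ℝ) ^ 2 * (p.2 : ℝ) ^ 2 +
      (3 * (p.1 : ℝ) ^ 2 - 2 * p.1) * (p.2 : ℝ) ^ 3) * (n p.1 * n p.2) +
      ∑ p ∈ HasAntidiagonal.antidiagonal d, ((p.2 : ℝ) ^ 2 * (p.1 : ℝ) ^ 2 +
      (3 * (p.2 : ℝ) ^ 2 - 2 * p.2) * (p.1 : ℝ) ^ 3) * (n p.2 * n p.1) := by
    rw [Finset.mul_sum, ← Finset.sum_add_distrib]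
    apply Finset.sum_congr rfl
    intro p hp
    have hp' : p.1 + p.2 = d := HasAntidiagonal.mem_antidiagonal.mp hp
    have hd : (d : ℝ) = (p.1 : ℝ) + (p.2 : ℝ) := by
      rw [← hp']
      push_cast
      ring
    rw [hd]
    ring
  rw [← h2] at h3
  linarith

private lemma Gz2_fac (d : ℕ) : 27 * ((d : ℝ) + 1) ^ 3 - 54 * ((d : ℝ) + 1) ^ 2 + 33 * ((d : ℝ) + 1) - 6 =
    (3 * (d : ℝ) + 2) * (3 * (d : ℝ) + 1) * (3 * (d : ℝ)) := by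
  ring

private lemma Gz2_prod {i j : ℕ} (hi : 1 ≤ i) (hj : 1 ≤ j) :
    ((i : ℝ) + j) - 1 ≤ (i : ℝ) * j := by
  have h1 : (1 : ℝ) ≤ i := by exact_mod_cast hi
  have h2 : (1 : ℝ) ≤ j := by exact_mod_cast hj
  nlinarith

private lemma Gz2_term {i j d : ℕ} (hi : 1 ≤ i) (hj : 1 ≤ j) (hd : i + j = d) :
    0 < 3 / 2 * (d : ℝ) * ((i : ℝ) * j) - (d : ℝ) ^ 2 + 3 * ((i : ℝ) * j) := by
  have h1 := Gz2_prod hi hj
  have h2 : (d : ℝ) = (i : ℝ) + j := by rw [← hd]; push_cast; ring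
  have h3 : (2 : ℝ) ≤ d := by
    have : 2 ≤ d := by omega
    exact_mod_cast this
  rw [← h2] at h1
  have h4 : (3 / 2 * (d : ℝ) + 3) * ((d : ℝ) - 1) ≤ (3 / 2 * (d : ℝ) + 3) * ((i : ℝ) * j) :=
    mul_le_mul_of_nonneg_left h1 (by positivity)
  nlinarith

/-- Row Gz2. Strong induction with `n_sym`: for `i + j = d`, `i, j ≥ 1`, `i j ≥ d - 1`, so
`3/2 d i j - d ^ 2 + 3 i j ≥ (d ^ 2 + 3 d - 6) / 2 > 0` for `d ≥ 2`, and
`27 d ^ 3 - 54 d ^ 2 + 33 d - 6 = (3 d - 1) (3 d - 2) (3 d - 3)`. -/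
theorem n_pos {d : ℕ} (hd : 1 ≤ d) : 0 < n d := by
  induction d using Nat.strong_induction_on with
  | _ d ih =>
    rcases Nat.eq_or_lt_of_le hd with h | h
    · rw [← h, n_one]
      norm_num
    · obtain ⟨e, rfl⟩ : ∃ e, d = e + 1 := ⟨d - 1, by omega⟩
      have he : 1 ≤ e := by omega
      have heR : (1 : ℝ) ≤ e := by exact_mod_cast he
      have hs := n_sym (e + 1)
      have hc : (27 * (((e + 1 : ℕ) : ℝ)) ^ 3 - 54 * (((e + 1 : ℕ) : ℝ)) ^ 2 +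
          33 * ((e + 1 : ℕ) : ℝ) - 6) = (3 * (e : ℝ) + 2) * (3 * (e : ℝ) + 1) * (3 * (e : ℝ)) := by
        push_cast
        exact Gz2_fac e
      rw [hc] at hs
      have hcpos : 0 < (3 * (e : ℝ) + 2) * (3 * (e : ℝ) + 1) * (3 * (e : ℝ)) := by positivity
      have hrhs : 0 < ∑ p ∈ HasAntidiagonal.antidiagonal (e + 1), ((p.1 : ℝ) * (p.2 : ℝ) *
          (3 / 2 * ((e + 1 : ℕ) : ℝ) * (p.1 * p.2) - (((e + 1 : ℕ) : ℝ)) ^ 2 +
            3 * (p.1 * p.2))) * (n p.1 * n p.2) := by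
        have hterm : ∀ p ∈ HasAntidiagonal.antidiagonal (e + 1), 1 ≤ p.1 → 1 ≤ p.2 →
            0 < ((p.1 : ℝ) * (p.2 : ℝ) *
          (3 / 2 * ((e + 1 : ℕ) : ℝ) * (p.1 * p.2) - (((e + 1 : ℕ) : ℝ)) ^ 2 +
            3 * (p.1 * p.2))) * (n p.1 * n p.2) := by
          intro p hp h1 h2
          have hp' : p.1 + p.2 = e + 1 := HasAntidiagonal.mem_antidiagonal.mp hp
          have a1 : 0 < n p.1 := ih p.1 (by omega) h1
          have a2 : 0 < n p.2 := ih p.2 (by omega) h2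
          have a3 := Gz2_term h1 h2 hp'
          have a4 : (0 : ℝ) < p.1 := by exact_mod_cast h1
          have a5 : (0 : ℝ) < p.2 := by exact_mod_cast h2
          exact mul_pos (mul_pos (mul_pos a4 a5) a3) (mul_pos a1 a2)
        apply Finset.sum_pos'
        · intro p hp
          by_cases h1 : p.1 = 0
          · rw [h1]; simp
          · by_cases h2 : p.2 = 0
            · rw [h2]; simp
            · exact (hterm p hp (by omega) (by omega)).le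
        · refine ⟨(1, e), ?_, ?_⟩
          · rw [HasAntidiagonal.mem_antidiagonal]; omega
          · exact hterm (1, e) (by rw [HasAntidiagonal.mem_antidiagonal]; omega) le_rfl he
      rw [← hs] at hrhs
      exact (mul_pos_iff_of_pos_left hcpos).mp hrhs

/-- Row Gz2. -/
theorem n_nonneg (d : ℕ) : 0 ≤ n d := by
  rcases Nat.eq_zero_or_pos d with h | h
  · rw [h, n_zero]
  · exact (n_pos h).le

private lemma Gz2_step (K : ℕ) : ((K + 2 : ℕ) : ℝ) ^ 2 * n (K + 2) ≤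
    2 / 5 * ∑ p ∈ HasAntidiagonal.antidiagonal K,
      ((((p.1 + 1 : ℕ) : ℝ) ^ 2 * n (p.1 + 1)) * (((p.2 + 1 : ℕ) : ℝ) ^ 2 * n (p.2 + 1))) := by
  have hs := n_sym (K + 2)
  have hsum : ∑ p ∈ HasAntidiagonal.antidiagonal (K + 2), ((p.1 : ℝ) * (p.2 : ℝ) *
      (3 / 2 * ((K + 2 : ℕ) : ℝ) * (p.1 * p.2) - (((K + 2 : ℕ) : ℝ)) ^ 2 + 3 * (p.1 * p.2))) *
        (n p.1 * n p.2) ≤ (3 / 2 * ((K + 2 : ℕ) : ℝ) + 3) * ∑ p ∈ HasAntidiagonal.antidiagonal K,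
      ((((p.1 + 1 : ℕ) : ℝ) ^ 2 * n (p.1 + 1)) * (((p.2 + 1 : ℕ) : ℝ) ^ 2 * n (p.2 + 1))) := by
    rw [Finset.Nat.sum_antidiagonal_succ, Finset.Nat.sum_antidiagonal_succ', Finset.mul_sum]
    simp only [Nat.cast_zero, zero_mul, mul_zero, zero_add]
    apply Finset.sum_le_sum
    intro p _
    have a1 : 0 ≤ n (p.1 + 1) := n_nonneg _
    have a2 : 0 ≤ n (p.2 + 1) := n_nonneg _
    have a3 : (0 : ℝ) ≤ ((p.1 + 1 : ℕ) : ℝ) := by positivity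
    have a4 : (0 : ℝ) ≤ ((p.2 + 1 : ℕ) : ℝ) := by positivity
    have a5 : 0 ≤ (((p.1 + 1 : ℕ) : ℝ) * ((p.2 + 1 : ℕ) : ℝ)) * (((K + 2 : ℕ) : ℝ)) ^ 2 *
        (n (p.1 + 1) * n (p.2 + 1)) := by positivity
    nlinarith [a5]
  have hR0 : 0 ≤ ∑ p ∈ HasAntidiagonal.antidiagonal K,
      ((((p.1 + 1 : ℕ) : ℝ) ^ 2 * n (p.1 + 1)) * (((p.2 + 1 : ℕ) : ℝ) ^ 2 * n (p.2 + 1))) := by
    apply Finset.sum_nonneg
    intro p _
    have a1 : 0 ≤ n (p.1 + 1) := n_nonneg _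
    have a2 : 0 ≤ n (p.2 + 1) := n_nonneg _
    positivity
  set R := ∑ p ∈ HasAntidiagonal.antidiagonal K,
      ((((p.1 + 1 : ℕ) : ℝ) ^ 2 * n (p.1 + 1)) * (((p.2 + 1 : ℕ) : ℝ) ^ 2 * n (p.2 + 1))) with hR
  rw [← hs] at hsum
  push_cast at hsum ⊢
  have hK : (0 : ℝ) ≤ K := Nat.cast_nonneg K
  have hc : 0 < 27 * ((K : ℝ) + 2) ^ 3 - 54 * ((K : ℝ) + 2) ^ 2 + 33 * ((K : ℝ) + 2) - 6 := by
    have : 27 * ((K : ℝ) + 2) ^ 3 - 54 * ((K : ℝ) + 2) ^ 2 + 33 * ((K : ℝ) + 2) - 6 =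
      (3 * (K : ℝ) + 5) * (3 * (K : ℝ) + 4) * (3 * (K : ℝ) + 3) := by ring
    rw [this]; positivity
  have h1 : (27 * ((K : ℝ) + 2) ^ 3 - 54 * ((K : ℝ) + 2) ^ 2 + 33 * ((K : ℝ) + 2) - 6) *
      (((K : ℝ) + 2) ^ 2 * n (K + 2)) ≤
      (27 * ((K : ℝ) + 2) ^ 3 - 54 * ((K : ℝ) + 2) ^ 2 + 33 * ((K : ℝ) + 2) - 6) * (2 / 5 * R) := by
    have h2 : ((K : ℝ) + 2) ^ 2 * ((27 * ((K : ℝ) + 2) ^ 3 - 54 * ((K : ℝ) + 2) ^ 2 +
        33 * ((K : ℝ) + 2) - 6) * n (K + 2)) ≤ ((K : ℝ) + 2) ^ 2 *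
        ((3 / 2 * ((K : ℝ) + 2) + 3) * R) := mul_le_mul_of_nonneg_left hsum (by positivity)
    have h3 : ((K : ℝ) + 2) ^ 2 * (3 / 2 * ((K : ℝ) + 2) + 3) ≤
        (27 * ((K : ℝ) + 2) ^ 3 - 54 * ((K : ℝ) + 2) ^ 2 + 33 * ((K : ℝ) + 2) - 6) * (2 / 5) := by
      nlinarith [pow_nonneg hK 2, pow_nonneg hK 3]
    have h4 := mul_le_mul_of_nonneg_right h3 hR0
    nlinarith
  exact le_of_mul_le_mul_left h1 hc

private lemma Gz2_cat (k : ℕ) : ((k + 1 : ℕ) : ℝ) ^ 2 * n (k + 1) ≤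
    1 / 2 * (1 / 5) ^ k * (catalan k : ℝ) := by
  induction k using Nat.strong_induction_on with
  | _ k ih =>
    match k, ih with
    | 0, _ =>
      simp [n_one, catalan_zero]
    | (K + 1), ih =>
      have h1 := Gz2_step K
      have h2 : ∑ p ∈ HasAntidiagonal.antidiagonal K,
          ((((p.1 + 1 : ℕ) : ℝ) ^ 2 * n (p.1 + 1)) * (((p.2 + 1 : ℕ) : ℝ) ^ 2 * n (p.2 + 1))) ≤
          ∑ p ∈ HasAntidiagonal.antidiagonal K,
            (1 / 4 * (1 / 5) ^ K * ((catalan p.1 : ℝ) * (catalan p.2 : ℝ))) := by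
        apply Finset.sum_le_sum
        intro p hp
        have hp' : p.1 + p.2 = K := HasAntidiagonal.mem_antidiagonal.mp hp
        have b1 := ih p.1 (by omega)
        have b2 := ih p.2 (by omega)
        have c1 : 0 ≤ ((p.1 + 1 : ℕ) : ℝ) ^ 2 * n (p.1 + 1) := by
          have := n_nonneg (p.1 + 1)
          positivity
        have c2 : 0 ≤ ((p.2 + 1 : ℕ) : ℝ) ^ 2 * n (p.2 + 1) := by
          have := n_nonneg (p.2 + 1)
          positivity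
        have c3 := mul_le_mul b1 b2 c2 (c1.trans b1)
        have c4 : ((1 : ℝ) / 5) ^ K = (1 / 5) ^ p.1 * (1 / 5) ^ p.2 := by
          rw [← pow_add, hp']
        rw [c4]
        calc _ ≤ _ := c3
          _ = _ := by ring
      rw [← Finset.mul_sum] at h2
      have h3 : ∑ p ∈ HasAntidiagonal.antidiagonal K, ((catalan p.1 : ℝ) * (catalan p.2 : ℝ)) =
          (catalan (K + 1) : ℝ) := by
        rw [catalan_succ']
        push_cast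
        rfl
      rw [h3] at h2
      calc ((K + 1 + 1 : ℕ) : ℝ) ^ 2 * n (K + 1 + 1) ≤ _ := h1
        _ ≤ 2 / 5 * (1 / 4 * (1 / 5) ^ K * (catalan (K + 1) : ℝ)) := by
          exact mul_le_mul_of_nonneg_left h2 (by norm_num)
        _ = 1 / 2 * (1 / 5) ^ (K + 1) * (catalan (K + 1) : ℝ) := by ring

private lemma Gz2_cat_le (k : ℕ) : (catalan k : ℝ) ≤ 4 ^ k := by
  have h1 : catalan k ≤ 4 ^ k := by
    rw [catalan_eq_centralBinom_div]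
    calc k.centralBinom / (k + 1) ≤ k.centralBinom := Nat.div_le_self _ _
      _ = (2 * k).choose k := rfl
      _ ≤ 2 ^ (2 * k) := Nat.choose_le_two_pow _ _
      _ = 4 ^ k := by rw [pow_mul]; norm_num
  exact_mod_cast h1

/-- Row Gz2. With `x_d = d ^ 2 n_d`: `n_sym` gives `x_d ≤ (2/5) ∑_{i+j=d} x_i x_j` for `d ≥ 2`
(as `3/2 d i j - d ^ 2 + 3 i j ≤ (3/2 d + 3) i j` and
`d ^ 2 (3/2 d + 3) ≤ 2/5 (3 d - 1) (3 d - 2) (3 d - 3)` for `d ≥ 2`), so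
`x_d ≤ 1/2 (1/5) ^ (d-1) catalan (d - 1) ≤ 1/2 (4/5) ^ (d - 1)`. -/
theorem n_le (d : ℕ) : (d : ℝ) ^ 2 * n d ≤ (4 / 5 : ℝ) ^ d := by
  rcases Nat.eq_zero_or_pos d with h | h
  · rw [h, n_zero]
    norm_num
  · obtain ⟨k, rfl⟩ : ∃ k, d = k + 1 := ⟨d - 1, by omega⟩
    have h1 := Gz2_cat k
    have h2 := Gz2_cat_le k
    calc ((k + 1 : ℕ) : ℝ) ^ 2 * n (k + 1) ≤ 1 / 2 * (1 / 5) ^ k * (catalan k : ℝ) := h1
      _ ≤ 1 / 2 * (1 / 5) ^ k * 4 ^ k := by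
        exact mul_le_mul_of_nonneg_left h2 (by positivity)
      _ = 1 / 2 * (4 / 5) ^ k := by
        rw [mul_assoc, ← mul_pow]
        norm_num
      _ ≤ (4 / 5) ^ (k + 1) := by
        rw [pow_succ]
        have : (0 : ℝ) ≤ (4 / 5) ^ k := by positivity
        nlinarith

end Pool.Agent.PlaneGT
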