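import Pool.Agent.Lib.MP_6aab98_ag.GT.Base

/-! # MP_6aab98_ag GT, row Hol1 -/

namespace Pool.Agent.PlaneGT

open Finset Filter Topology Asymptotics
open scoped Nat

private lemma Hol1_Vm {x y : ℂ → Fin 3 → ℂ} {q0 : ℂ}
    (hx : ∀ i, DifferentiableAt ℂ (fun q => x q i) q0)
    (hy : ∀ i, DifferentiableAt ℂ (fun q => y q i) q0)
    (hy0 : ∀ i, y q0 i ≠ 0) (i j : Fin 3) :
    DifferentiableAt ℂ (fun q => Vm (x q) (y q) i j) q0 := by
  unfold Vm
  exact (((hx i).mul (hy j)).sub ((hy i).mul (hx j))).div (hy i) (hy0 i)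

private lemma Hol1_offR {u x y : ℂ → Fin 3 → ℂ} {q0 : ℂ}
    (hu : ∀ i, DifferentiableAt ℂ (fun q => u q i) q0)
    (hx : ∀ i, DifferentiableAt ℂ (fun q => x q i) q0)
    (hy : ∀ i, DifferentiableAt ℂ (fun q => y q i) q0)
    (hsep : ∀ i j, i ≠ j → u q0 i ≠ u q0 j) (hy0 : ∀ i, y q0 i ≠ 0) (m : ℕ)
    {A : ℂ → Fin 3 → Fin 3 → ℂ} (hA : ∀ i j, DifferentiableAt ℂ (fun q => A q i j) q0)
    (i j : Fin 3) :
    DifferentiableAt ℂ (fun q => offR (u q) (x q) (y q) m (A q) i j) q0 := by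
  unfold offR
  by_cases hij : i = j
  · simp only [if_pos hij]
    exact differentiableAt_const _
  · simp only [if_neg hij]
    refine DifferentiableAt.div (((differentiableAt_const _).mul (hA i j)).add ?_)
      ((hu j).sub (hu i)) ?_
    · apply DifferentiableAt.fun_sum
      intro k _
      exact (Hol1_Vm hx hy hy0 i k).mul (hA k j)
    · exact sub_ne_zero.2 (hsep j i (Ne.symm hij))

private lemma Hol1_Rm {u x y : ℂ → Fin 3 → ℂ} {q0 : ℂ}
    (hu : ∀ i, DifferentiableAt ℂ (fun q => u q i) q0)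
    (hx : ∀ i, DifferentiableAt ℂ (fun q => x q i) q0)
    (hy : ∀ i, DifferentiableAt ℂ (fun q => y q i) q0)
    (hsep : ∀ i j, i ≠ j → u q0 i ≠ u q0 j) (hy0 : ∀ i, y q0 i ≠ 0) (m : ℕ) :
    ∀ i j, DifferentiableAt ℂ (fun q => Rm (u q) (x q) (y q) m i j) q0 := by
  induction m with
  | zero =>
    intro i j
    simp only [Rm]
    exact differentiableAt_const _
  | succ m ih =>
    intro i j
    simp only [Rm]
    by_cases hij : i = j
    · simp only [if_pos hij]
      apply DifferentiableAt.div_const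
      apply DifferentiableAt.fun_neg
      apply DifferentiableAt.fun_sum
      intro k _
      exact (Hol1_Vm hx hy hy0 i k).mul (Hol1_offR hu hx hy hsep hy0 m ih k i)
    · simp only [if_neg hij]
      exact Hol1_offR hu hx hy hsep hy0 m ih i j

private lemma Hol1_Sm {u x y : ℂ → Fin 3 → ℂ} {q0 : ℂ}
    (hu : ∀ i, DifferentiableAt ℂ (fun q => u q i) q0)
    (hx : ∀ i, DifferentiableAt ℂ (fun q => x q i) q0)
    (hy : ∀ i, DifferentiableAt ℂ (fun q => y q i) q0)
    (hsep : ∀ i j, i ≠ j → u q0 i ≠ u q0 j) (hy0 : ∀ i, y q0 i ≠ 0) (m : ℕ) (i j : Fin 3) :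
    DifferentiableAt ℂ (fun q => Sm (u q) (x q) (y q) m i j) q0 := by
  unfold Sm
  exact (((differentiableAt_const _).mul (Hol1_Rm hu hx hy hsep hy0 m j i)).mul (hy j)).div
    (hy i) (hy0 i)

private lemma Hol1_Tm {u x y : ℂ → Fin 3 → ℂ} {q0 : ℂ}
    (hu : ∀ i, DifferentiableAt ℂ (fun q => u q i) q0)
    (hx : ∀ i, DifferentiableAt ℂ (fun q => x q i) q0)
    (hy : ∀ i, DifferentiableAt ℂ (fun q => y q i) q0)
    (hsep : ∀ i j, i ≠ j → u q0 i ≠ u q0 j) (hy0 : ∀ i, y q0 i ≠ 0) (l : ℕ) (i : Fin 3) :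
    DifferentiableAt ℂ (fun q => Tm (u q) (x q) (y q) l i) q0 := by
  unfold Tm
  apply DifferentiableAt.fun_neg
  apply DifferentiableAt.fun_sum
  intro j _
  exact Hol1_Sm hu hx hy hsep hy0 (l - 1) i j

private lemma Hol1_edge {u x y : ℂ → Fin 3 → ℂ} {q0 : ℂ}
    (hu : ∀ i, DifferentiableAt ℂ (fun q => u q i) q0)
    (hx : ∀ i, DifferentiableAt ℂ (fun q => x q i) q0)
    (hy : ∀ i, DifferentiableAt ℂ (fun q => y q i) q0)
    (hsep : ∀ i j, i ≠ j → u q0 i ≠ u q0 j) (hy0 : ∀ i, y q0 i ≠ 0) (k l : ℕ) (i j : Fin 3) :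
    DifferentiableAt ℂ (fun q => edge (u q) (x q) (y q) k l i j) q0 := by
  unfold edge
  apply DifferentiableAt.fun_sum
  intro t _
  apply (differentiableAt_const _).mul
  apply DifferentiableAt.fun_sum
  intro s _
  exact ((Hol1_Sm hu hx hy hsep hy0 (k - t) i s).mul
    (Hol1_Sm hu hx hy hsep hy0 (l + 1 + t) j s)).div (hy s) (hy0 s)

private lemma Hol1_prod {ι : Type*} (s : Finset ι) {f : ι → ℂ → ℂ} {q0 : ℂ}
    (hf : ∀ i ∈ s, DifferentiableAt ℂ (f i) q0) :
    DifferentiableAt ℂ (fun q => ∏ i ∈ s, f i q) q0 := by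
  classical
  induction s using Finset.induction_on with
  | empty =>
    simp only [Finset.prod_empty]
    exact differentiableAt_const _
  | insert a s ha ih =>
    simp only [Finset.prod_insert ha]
    exact (hf a (Finset.mem_insert_self a s)).mul
      (ih fun i hi => hf i (Finset.mem_insert_of_mem hi))

private lemma Hol1_vert {u x y : ℂ → Fin 3 → ℂ} {q0 : ℂ}
    (hu : ∀ i, DifferentiableAt ℂ (fun q => u q i) q0)
    (hx : ∀ i, DifferentiableAt ℂ (fun q => x q i) q0)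
    (hy : ∀ i, DifferentiableAt ℂ (fun q => y q i) q0)
    (hsep : ∀ i j, i ≠ j → u q0 i ≠ u q0 j) (hy0 : ∀ i, y q0 i ≠ 0) (h : ℕ) (i : Fin 3)
    (ks : List ℕ) :
    DifferentiableAt ℂ (fun q => vert (u q) (x q) (y q) h i ks) q0 := by
  unfold vert
  apply DifferentiableAt.mul
  · exact (hy i).div ((hy i).pow h) (pow_ne_zero h (hy0 i))
  · apply DifferentiableAt.fun_sum
    intro m _
    apply (differentiableAt_const _).mul
    apply DifferentiableAt.fun_sum
    intro l _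
    apply (differentiableAt_const _).mul
    apply Hol1_prod
    intro j _
    exact Hol1_Tm hu hx hy hsep hy0 _ i

private lemma Hol1_graphTerm {u x y : ℂ → Fin 3 → ℂ} {q0 : ℂ}
    (hu : ∀ i, DifferentiableAt ℂ (fun q => u q i) q0)
    (hx : ∀ i, DifferentiableAt ℂ (fun q => x q i) q0)
    (hy : ∀ i, DifferentiableAt ℂ (fun q => y q i) q0)
    (hsep : ∀ i j, i ≠ j → u q0 i ≠ u q0 j) (hy0 : ∀ i, y q0 i ≠ 0) {V E : ℕ}
    (γ : Fin V → ℕ) (e : Fin E → Fin V × Fin V) (c : Fin V → Fin 3) (k : Fin E → ℕ × ℕ) :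
    DifferentiableAt ℂ (fun q => graphTerm (u q) (x q) (y q) γ e c k) q0 := by
  unfold graphTerm
  apply DifferentiableAt.mul
  · apply Hol1_prod
    intro v _
    exact Hol1_vert hu hx hy hsep hy0 _ _ _
  · apply Hol1_prod
    intro a _
    exact Hol1_edge hu hx hy hsep hy0 _ _ _ _

/-- Row Hol1. All entries are built by sums, products and division by `u i - u j ≠ 0`,
`y i ≠ 0`. -/
theorem graphSum_diff {u x y : ℂ → Fin 3 → ℂ} {q0 : ℂ}
    (hu : ∀ i, DifferentiableAt ℂ (fun q => u q i) q0)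
    (hx : ∀ i, DifferentiableAt ℂ (fun q => x q i) q0)
    (hy : ∀ i, DifferentiableAt ℂ (fun q => y q i) q0)
    (hsep : ∀ i j, i ≠ j → u q0 i ≠ u q0 j) (hy0 : ∀ i, y q0 i ≠ 0) (g : ℕ) :
    DifferentiableAt ℂ (fun q => graphSum (u q) (x q) (y q) g) q0 := by
  unfold graphSum
  apply DifferentiableAt.fun_sum
  intro V _
  apply DifferentiableAt.fun_sum
  intro E _
  apply (differentiableAt_const _).mul
  apply DifferentiableAt.fun_sum
  intro γ _
  apply DifferentiableAt.fun_sum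
  intro e _
  split_ifs
  · apply DifferentiableAt.fun_sum
    intro c _
    apply DifferentiableAt.fun_sum
    intro k _
    exact Hol1_graphTerm hu hx hy hsep hy0 _ _ _ _
  · exact differentiableAt_const _

end Pool.Agent.PlaneGT
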