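import Pool.Agent.Lib.MP_6aab98_ag.GT.Rts1

/-! # MP_6aab98_ag GT, row Loc1 -/

namespace Pool.Agent.PlaneGT

open Finset Filter Topology Asymptotics
open scoped Nat

/-- the elementary symmetric functions -/
private def Loc1_phi : Fin 3 → (Fin 3 → ℂ) → ℂ :=
  ![fun u => u 0 + u 1 + u 2, fun u => u 0 * u 1 + u 0 * u 2 + u 1 * u 2,
    fun u => u 0 * u 1 * u 2]

/-- the coordinates -/
private noncomputable abbrev Loc1_p (i : Fin 3) : (Fin 3 → ℂ) →L[ℂ] ℂ :=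
  ContinuousLinearMap.proj i

/-- their derivatives -/
private noncomputable def Loc1_dphi (u : Fin 3 → ℂ) : Fin 3 → ((Fin 3 → ℂ) →L[ℂ] ℂ) :=
  ![Loc1_p 0 + Loc1_p 1 + Loc1_p 2,
    (u 0 • Loc1_p 1 + u 1 • Loc1_p 0) + (u 0 • Loc1_p 2 + u 2 • Loc1_p 0) +
      (u 1 • Loc1_p 2 + u 2 • Loc1_p 1),
    (u 0 * u 1) • Loc1_p 2 + u 2 • (u 0 • Loc1_p 1 + u 1 • Loc1_p 0)]

private theorem Loc1_strict (u : Fin 3 → ℂ) :
    HasStrictFDerivAt (fun x i => Loc1_phi i x) (ContinuousLinearMap.pi (Loc1_dphi u)) u := by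
  have hp : ∀ i : Fin 3, HasStrictFDerivAt (fun x : Fin 3 → ℂ => x i)
      (ContinuousLinearMap.proj i : (Fin 3 → ℂ) →L[ℂ] ℂ) u := fun i =>
    (ContinuousLinearMap.proj i : (Fin 3 → ℂ) →L[ℂ] ℂ).hasStrictFDerivAt
  rw [hasStrictFDerivAt_pi]
  intro i
  fin_cases i
  · exact ((hp 0).add (hp 1)).add (hp 2)
  · exact (((hp 0).mul (hp 1)).add ((hp 0).mul (hp 2))).add ((hp 1).mul (hp 2))
  · exact ((hp 0).mul (hp 1)).mul (hp 2)

private theorem Loc1_inj (u : Fin 3 → ℂ) (hne : (u 0 - u 1) * (u 0 - u 2) * (u 1 - u 2) ≠ 0)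
    (h : Fin 3 → ℂ) (hh : ContinuousLinearMap.pi (Loc1_dphi u) h = 0) : h = 0 := by
  have e1 : h 0 + h 1 + h 2 = 0 := congrFun hh 0
  have e2 : (u 0 * h 1 + u 1 * h 0) + (u 0 * h 2 + u 2 * h 0) + (u 1 * h 2 + u 2 * h 1) = 0 :=
    congrFun hh 1
  have e3 : (u 0 * u 1) * h 2 + u 2 * (u 0 * h 1 + u 1 * h 0) = 0 := congrFun hh 2
  have hab : u 0 - u 1 ≠ 0 := fun h0 => hne (by rw [h0]; ring)
  have hac : u 0 - u 2 ≠ 0 := fun h0 => hne (by rw [h0]; ring)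
  have hbc : u 1 - u 2 ≠ 0 := fun h0 => hne (by rw [h0]; ring)
  have k0 : h 0 * ((u 0 - u 1) * (u 0 - u 2)) = 0 := by
    linear_combination (u 0) ^ 2 * e1 - u 0 * e2 + e3
  have k1 : h 1 * ((u 0 - u 1) * (u 1 - u 2)) = 0 := by
    linear_combination -(u 1) ^ 2 * e1 + u 1 * e2 - e3
  have k2 : h 2 * ((u 0 - u 2) * (u 1 - u 2)) = 0 := by
    linear_combination (u 2) ^ 2 * e1 - u 2 * e2 + e3
  have h0 : h 0 = 0 := (mul_eq_zero.1 k0).resolve_right (mul_ne_zero hab hac)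
  have h1 : h 1 = 0 := (mul_eq_zero.1 k1).resolve_right (mul_ne_zero hab hbc)
  have h2 : h 2 = 0 := (mul_eq_zero.1 k2).resolve_right (mul_ne_zero hac hbc)
  funext i
  fin_cases i
  · exact h0
  · exact h1
  · exact h2

/-- Row Loc. If `f0, f1, f2` are holomorphic near `q0` and the roots at `q0` are different, there
are holomorphic enumerations of the roots near `q0`. For one root: the implicit function theorem
(or: the roots depend continuously on the coefficients, as `|χ_q (u i)| = ∏ |u i - v j|` is small,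
and a continuous root is differentiable at a simple root). -/
theorem exists_local_roots {f0 f1 f2 : ℂ → ℂ} {q0 : ℂ}
    (h0 : ∀ᶠ q in 𝓝 q0, DifferentiableAt ℂ f0 q) (h1 : ∀ᶠ q in 𝓝 q0, DifferentiableAt ℂ f1 q)
    (h2 : ∀ᶠ q in 𝓝 q0, DifferentiableAt ℂ f2 q) (hD : Dp (f0 q0) (f1 q0) (f2 q0) ≠ 0) :
    ∃ v : ℂ → Fin 3 → ℂ, (∀ᶠ q in 𝓝 q0, IsRts (f0 q) (f1 q) (f2 q) (v q)) ∧
      ∀ i, DifferentiableAt ℂ (fun q => v q i) q0 := by
  obtain ⟨u, hu⟩ := exists_isRts (f0 q0) (f1 q0) (f2 q0)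
  have hne : (u 0 - u 1) * (u 0 - u 2) * (u 1 - u 2) ≠ 0 := by
    intro h
    apply hD
    rw [← hu.disc, h]
    ring
  have d0 := h0.self_of_nhds
  have d1 := h1.self_of_nhds
  have d2 := h2.self_of_nhds
  have hker : LinearMap.ker (ContinuousLinearMap.pi (Loc1_dphi u) :
      (Fin 3 → ℂ) →L[ℂ] (Fin 3 → ℂ)).toLinearMap = ⊥ := by
    rw [LinearMap.ker_eq_bot']
    intro h hh
    exact Loc1_inj u hne h hh
  have hran : LinearMap.range (ContinuousLinearMap.pi (Loc1_dphi u) :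
      (Fin 3 → ℂ) →L[ℂ] (Fin 3 → ℂ)).toLinearMap = ⊤ := by
    rw [LinearMap.range_eq_top, ← LinearMap.injective_iff_surjective, ← LinearMap.ker_eq_bot]
    exact hker
  let L : (Fin 3 → ℂ) ≃L[ℂ] (Fin 3 → ℂ) :=
    ContinuousLinearEquiv.ofBijective (ContinuousLinearMap.pi (Loc1_dphi u)) hker hran
  have hst : HasStrictFDerivAt (fun (x : Fin 3 → ℂ) i => Loc1_phi i x)
      (L : (Fin 3 → ℂ) →L[ℂ] (Fin 3 → ℂ)) u := Loc1_strict u
  let Ev : ℂ → Fin 3 → ℂ := fun q => ![f2 q,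
    (27 * f2 q - 27 * f1 q + 6 * f0 q) - 6 * (6 * f2 q - 2 * f1 q),
    -((6 * f2 q - 2 * f1 q) ^ 2 - 9 * (27 * f2 q - 27 * f1 q + 6 * f0 q)
    - (27 * f2 q - 27 * f1 q + 6 * f0 q) * f2 q)]
  have hEv0 : Ev q0 = fun i => Loc1_phi i u := by
    funext i
    fin_cases i
    · exact hu.s1.symm
    · exact hu.s2.symm
    · exact hu.s3.symm
  have hEvd : DifferentiableAt ℂ Ev q0 := by
    rw [differentiableAt_pi]
    intro i
    fin_cases i
    · exact d2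
    · change DifferentiableAt ℂ (fun q => (27 * f2 q - 27 * f1 q + 6 * f0 q) -
        6 * (6 * f2 q - 2 * f1 q)) q0
      fun_prop
    · change DifferentiableAt ℂ (fun q => -((6 * f2 q - 2 * f1 q) ^ 2 -
        9 * (27 * f2 q - 27 * f1 q + 6 * f0 q)
        - (27 * f2 q - 27 * f1 q + 6 * f0 q) * f2 q)) q0
      fun_prop
  have hΨ : DifferentiableAt ℂ (hst.localInverse _ _ _) (Ev q0) := by
    rw [hEv0]
    exact hst.to_localInverse.hasFDerivAt.differentiableAt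
  refine ⟨fun q => hst.localInverse _ _ _ (Ev q), ?_, ?_⟩
  · have hr := hst.eventually_right_inverse
    have hc : Tendsto Ev (𝓝 q0) (𝓝 (fun i => Loc1_phi i u)) := by
      rw [← hEv0]; exact hEvd.continuousAt
    filter_upwards [hc.eventually hr] with q hq
    exact ⟨congrFun hq 0, congrFun hq 1, congrFun hq 2⟩
  · intro i
    exact differentiableAt_pi.1 (hΨ.comp q0 hEvd) i

end Pool.Agent.PlaneGT
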