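import Pool.Agent.Lib.MP_6aab98_ag.GT.Hol1
import Pool.Agent.Lib.MP_6aab98_ag.GT.Loc1
import Pool.Agent.Lib.MP_6aab98_ag.GT.Sym1
import Pool.Agent.Lib.MP_6aab98_ag.GT.Dsc3

/-! # MP_6aab98_ag GT, Hol3: the potential is holomorphic in the punctured disc -/

namespace Pool.Agent.PlaneGT

open Finset Filter Topology Asymptotics
open scoped Nat

private theorem Hol3_chi (u : Fin 3 → ℂ) (σ : Equiv.Perm (Fin 3)) (i : Fin 3) :
    chi' (u ∘ σ) i = chi' u (σ i) := by
  unfold chi'
  refine Finset.prod_bij (fun j _ => σ j) ?_ ?_ ?_ ?_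
  · intro j hj
    rw [Finset.mem_erase] at hj ⊢
    exact ⟨fun h => hj.1 (σ.injective h), Finset.mem_univ _⟩
  · intro j _ j' _ h
    exact σ.injective h
  · intro j hj
    rw [Finset.mem_erase] at hj
    refine ⟨σ.symm j, ?_, ?_⟩
    · rw [Finset.mem_erase]
      refine ⟨fun h => hj.1 ?_, Finset.mem_univ _⟩
      rw [← h, Equiv.apply_symm_apply]
    · exact Equiv.apply_symm_apply σ j
  · intro j _
    rfl

/-- The genus `g` potential is holomorphic in the punctured disc. -/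
theorem Fg_holo {R : ℝ} (hR : IsRad R) (g : ℕ) {q : ℂ} (h0 : q ≠ 0) (hq : ‖q‖ < R) :
    DifferentiableAt ℂ (Fg g) q := by
  have hphi : ∀ j : ℕ, ∀ᶠ z in 𝓝 q, DifferentiableAt ℂ (phi j) z := by
    intro j
    have h1 : ∀ᶠ z : ℂ in 𝓝 q, z ≠ 0 := isOpen_ne.mem_nhds h0
    have h2 : ∀ᶠ z : ℂ in 𝓝 q, ‖z‖ < R := (isOpen_lt continuous_norm continuous_const).mem_nhds hq
    filter_upwards [h1, h2] with z hz1 hz2
    exact (phi_deriv hR j hz1 hz2).differentiableAt
  have hD : Dp (phi 0 q) (phi 1 q) (phi 2 q) ≠ 0 := Dq_ne hR h0 hq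
  obtain ⟨v, hv, hvd⟩ := exists_local_roots (hphi 0) (hphi 1) (hphi 2) hD
  have hvq : IsRts (phi 0 q) (phi 1 q) (phi 2 q) (v q) := hv.self_of_nhds
  let X : ℂ → Fin 3 → ℂ := fun z i => (v z i ^ 2 - phi 2 z * v z i - 3 * ca z) / chi' (v z) i
  let Y : ℂ → Fin 3 → ℂ := fun z i => (9 + phi 2 z - v z i) / chi' (v z) i
  have hF : Fg g =ᶠ[𝓝 q] fun z => graphSum (v z) (X z) (Y z) g := by
    filter_upwards [hv] with z hz
    obtain ⟨σ, hσ⟩ := IsRts.exists_perm hz (uq_isRts z)
    have hx : X z = xq z ∘ σ := by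
      funext i
      change (v z i ^ 2 - phi 2 z * v z i - 3 * ca z) / chi' (v z) i = xq z (σ i)
      rw [hσ, Hol3_chi]
      rfl
    have hy : Y z = yq z ∘ σ := by
      funext i
      change (9 + phi 2 z - v z i) / chi' (v z) i = yq z (σ i)
      rw [hσ, Hol3_chi]
      rfl
    rw [hx, hy, hσ, graphSum_perm]
    rfl
  have hsep : ∀ i j, i ≠ j → v q i ≠ v q j := by
    have h1 := hvq.disc
    have h2 : ((v q 0 - v q 1) * (v q 0 - v q 2) * (v q 1 - v q 2)) ^ 2 ≠ 0 := by
      rw [h1]; exact hD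
    have h3 := ne_zero_pow two_ne_zero h2
    have h01 : v q 0 - v q 1 ≠ 0 := left_ne_zero_of_mul (left_ne_zero_of_mul h3)
    have h02 : v q 0 - v q 2 ≠ 0 := right_ne_zero_of_mul (left_ne_zero_of_mul h3)
    have h12 : v q 1 - v q 2 ≠ 0 := right_ne_zero_of_mul h3
    intro i j hij
    fin_cases i <;> fin_cases j
    · exact absurd rfl hij
    · exact sub_ne_zero.mp h01
    · exact sub_ne_zero.mp h02
    · exact (sub_ne_zero.mp h01).symm
    · exact absurd rfl hij
    · exact sub_ne_zero.mp h12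
    · exact (sub_ne_zero.mp h02).symm
    · exact (sub_ne_zero.mp h12).symm
    · exact absurd rfl hij
  have hchi : ∀ i, chi' (v q) i ≠ 0 := by
    intro i
    unfold chi'
    refine Finset.prod_ne_zero_iff.mpr fun j hj => ?_
    exact sub_ne_zero.mpr (hsep i j (Finset.ne_of_mem_erase hj).symm)
  have hchid : ∀ i, DifferentiableAt ℂ (fun z => chi' (v z) i) q := by
    intro i
    unfold chi'
    refine DifferentiableAt.fun_finsetProd fun j _ => ?_
    exact (hvd i).sub (hvd j)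
  have hp1 : DifferentiableAt ℂ (phi 1) q := (hphi 1).self_of_nhds
  have hp2 : DifferentiableAt ℂ (phi 2) q := (hphi 2).self_of_nhds
  have hca : DifferentiableAt ℂ ca q := by
    unfold ca
    exact (hp2.const_mul 6).sub (hp1.const_mul 2)
  have hX : ∀ i, DifferentiableAt ℂ (fun z => X z i) q := by
    intro i
    exact ((((hvd i).pow 2).sub (hp2.mul (hvd i))).sub (hca.const_mul 3)).div (hchid i) (hchi i)
  have hY : ∀ i, DifferentiableAt ℂ (fun z => Y z i) q := by
    intro i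
    exact ((hp2.const_add 9).sub (hvd i)).div (hchid i) (hchi i)
  have hY0 : ∀ i, Y q i ≠ 0 := by
    have h1 := hvq.Y3
    have h2 : Dl q ≠ 0 := by
      have h3 := Dl_re_pos hR hq
      intro h4
      rw [h4, Complex.zero_re] at h3
      exact lt_irrefl _ h3
    have h3 : (9 + phi 2 q - v q 0) * (9 + phi 2 q - v q 1) * (9 + phi 2 q - v q 2) ≠ 0 := by
      rw [h1]
      exact pow_ne_zero 2 h2
    have h00 : 9 + phi 2 q - v q 0 ≠ 0 := left_ne_zero_of_mul (left_ne_zero_of_mul h3)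
    have h01 : 9 + phi 2 q - v q 1 ≠ 0 := right_ne_zero_of_mul (left_ne_zero_of_mul h3)
    have h02 : 9 + phi 2 q - v q 2 ≠ 0 := right_ne_zero_of_mul h3
    intro i
    refine div_ne_zero ?_ (hchi i)
    fin_cases i
    · exact h00
    · exact h01
    · exact h02
  exact (graphSum_diff hvd hX hY hsep hY0 g).congr_of_eventuallyEq hF

end Pool.Agent.PlaneGT
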