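import Pool.Agent.Lib.MP_6aab98_ag.GT.Rts1
import Pool.Agent.Lib.MP_6aab98_ag.GT.Dsc2

/-! # MP_6aab98_ag GT, row Lab1 -/

namespace Pool.Agent.PlaneGT

open Finset Filter Topology Asymptotics
open scoped Nat

/-- `x i` for given eigenvalues -/
noncomputable def xu (q : ℂ) (u : Fin 3 → ℂ) (i : Fin 3) : ℂ :=
  (u i ^ 2 - phi 2 q * u i - 3 * ca q) / chi' u i

/-- `y i` for given eigenvalues -/
noncomputable def yu (q : ℂ) (u : Fin 3 → ℂ) (i : Fin 3) : ℂ := (9 + phi 2 q - u i) / chi' u i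

/-- `Y i = 9 + phi 2 q - u i` -/
noncomputable def Yu (q : ℂ) (u : Fin 3 → ℂ) (i : Fin 3) : ℂ := 9 + phi 2 q - u i

/-- A labelling of the eigenvalues on the annulus such that `Y 0` is small. -/
structure Lab (R : ℝ) (u : ℂ → Fin 3 → ℂ) : Prop where
  perm : ∀ q, ∃ σ : Equiv.Perm (Fin 3), u q = uq q ∘ σ
  rts : ∀ q, IsRts (phi 0 q) (phi 1 q) (phi 2 q) (u q)
  u_bd : ∀ i, (fun q => u q i) =O[𝓟 (Ann R)] (fun _ => (1 : ℝ))
  sep : ∀ i j, i ≠ j → (fun q => (u q i - u q j)⁻¹) =O[𝓟 (Ann R)] (fun _ => (1 : ℝ))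
  Y0 : (fun q => Yu q (u q) 0) =O[𝓟 (Ann R)] (fun q => ‖Dl q‖ ^ 2)
  Y0inv : (fun q => (Yu q (u q) 0)⁻¹) =O[𝓟 (Ann R)] (fun q => (‖Dl q‖⁻¹) ^ 2)
  Yinv : ∀ i, i ≠ 0 → (fun q => (Yu q (u q) i)⁻¹) =O[𝓟 (Ann R)] (fun _ => (1 : ℝ))

private lemma Lab1_root {f0 f1 f2 : ℂ} {u : Fin 3 → ℂ} (h : IsRts f0 f1 f2 u) {C : ℝ} (hC : 0 < C)
    (h0 : ‖f0‖ ≤ C) (h1 : ‖f1‖ ≤ C) (h2 : ‖f2‖ ≤ C) (i : Fin 3) :
    ‖u i‖ ≤ 1 + (C + 108 * C + (124 * C ^ 2 + 540 * C)) := by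
  have a1 : ‖27 * f2 - 27 * f1 + 6 * f0‖ ≤ 60 * C := by
    calc ‖27 * f2 - 27 * f1 + 6 * f0‖ ≤ ‖27 * f2‖ + ‖27 * f1‖ + ‖6 * f0‖ :=
          (norm_add_le _ _).trans (by linarith [norm_sub_le (27 * f2) (27 * f1)])
      _ = 27 * ‖f2‖ + 27 * ‖f1‖ + 6 * ‖f0‖ := by
          rw [norm_mul, norm_mul, norm_mul]; norm_num
      _ ≤ 60 * C := by linarith
  have a2 : ‖6 * f2 - 2 * f1‖ ≤ 8 * C := by
    calc ‖6 * f2 - 2 * f1‖ ≤ ‖6 * f2‖ + ‖2 * f1‖ := norm_sub_le _ _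
      _ = 6 * ‖f2‖ + 2 * ‖f1‖ := by rw [norm_mul, norm_mul]; norm_num
      _ ≤ 8 * C := by linarith
  have b2 : ‖(27 * f2 - 27 * f1 + 6 * f0) - 6 * (6 * f2 - 2 * f1)‖ ≤ 108 * C := by
    calc _ ≤ ‖27 * f2 - 27 * f1 + 6 * f0‖ + ‖6 * (6 * f2 - 2 * f1)‖ := norm_sub_le _ _
      _ = ‖27 * f2 - 27 * f1 + 6 * f0‖ + 6 * ‖6 * f2 - 2 * f1‖ := by
          rw [norm_mul (6 : ℂ)]; norm_num
      _ ≤ 108 * C := by linarith
  have b3 : ‖-((6 * f2 - 2 * f1) ^ 2 - 9 * (27 * f2 - 27 * f1 + 6 * f0)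
      - (27 * f2 - 27 * f1 + 6 * f0) * f2)‖ ≤ 124 * C ^ 2 + 540 * C := by
    rw [norm_neg]
    calc _ ≤ ‖(6 * f2 - 2 * f1) ^ 2‖ + ‖9 * (27 * f2 - 27 * f1 + 6 * f0)‖ +
          ‖(27 * f2 - 27 * f1 + 6 * f0) * f2‖ :=
          (norm_sub_le _ _).trans (by
            linarith [norm_sub_le ((6 * f2 - 2 * f1) ^ 2) (9 * (27 * f2 - 27 * f1 + 6 * f0))])
      _ = ‖6 * f2 - 2 * f1‖ ^ 2 + 9 * ‖27 * f2 - 27 * f1 + 6 * f0‖ +
          ‖27 * f2 - 27 * f1 + 6 * f0‖ * ‖f2‖ := by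
          rw [norm_pow, norm_mul (9 : ℂ), norm_mul _ f2]; norm_num
      _ ≤ (8 * C) ^ 2 + 9 * (60 * C) + 60 * C * C := by
          have := pow_le_pow_left₀ (norm_nonneg _) a2 2
          have h3 : ‖27 * f2 - 27 * f1 + 6 * f0‖ * ‖f2‖ ≤ 60 * C * C :=
            mul_le_mul a1 h2 (norm_nonneg _) (by positivity)
          linarith
      _ = 124 * C ^ 2 + 540 * C := by ring
  have hroot : u i ^ 3 = f2 * u i ^ 2 -
      ((27 * f2 - 27 * f1 + 6 * f0) - 6 * (6 * f2 - 2 * f1)) * u i +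
      -((6 * f2 - 2 * f1) ^ 2 - 9 * (27 * f2 - 27 * f1 + 6 * f0)
        - (27 * f2 - 27 * f1 + 6 * f0) * f2) := by
    rw [← h.s2, ← h.s3, ← h.s1]
    fin_cases i
    · simp only [Fin.zero_eta, Fin.isValue]
      ring
    · simp only [Fin.mk_one, Fin.isValue]
      ring
    · simp only [Fin.reduceFinMk, Fin.isValue]
      ring
  by_contra hlt
  rw [not_le] at hlt
  have hu1 : 1 ≤ ‖u i‖ := by
    have : 0 ≤ C + 108 * C + (124 * C ^ 2 + 540 * C) := by positivity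
    linarith
  have hu2 : ‖u i‖ ≤ ‖u i‖ ^ 2 := by nlinarith
  have hu3 : (1 : ℝ) ≤ ‖u i‖ ^ 2 := by nlinarith
  have hle : ‖u i‖ ^ 3 ≤ C * ‖u i‖ ^ 2 + 108 * C * ‖u i‖ + (124 * C ^ 2 + 540 * C) := by
    rw [← norm_pow, hroot]
    refine (norm_add_le _ _).trans (add_le_add ((norm_sub_le _ _).trans (add_le_add ?_ ?_)) b3)
    · rw [norm_mul, norm_pow]
      exact mul_le_mul_of_nonneg_right h2 (by positivity)
    · rw [norm_mul]
      exact mul_le_mul_of_nonneg_right b2 (norm_nonneg _)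
  have hle2 : ‖u i‖ ^ 3 ≤ (C + 108 * C + (124 * C ^ 2 + 540 * C)) * ‖u i‖ ^ 2 := by
    have k1 : 108 * C * ‖u i‖ ≤ 108 * C * ‖u i‖ ^ 2 :=
      mul_le_mul_of_nonneg_left hu2 (by positivity)
    have k2 : (124 * C ^ 2 + 540 * C) * 1 ≤ (124 * C ^ 2 + 540 * C) * ‖u i‖ ^ 2 :=
      mul_le_mul_of_nonneg_left hu3 (by positivity)
    linarith
  have hpos : 0 < ‖u i‖ ^ 2 := by linarith
  have : ‖u i‖ ^ 3 = ‖u i‖ * ‖u i‖ ^ 2 := by ring
  rw [this] at hle2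
  have := le_of_mul_le_mul_right hle2 hpos
  linarith

/-- separation from the discriminant -/
private lemma Lab1_sep {f0 f1 f2 : ℂ} {u : Fin 3 → ℂ} (h : IsRts f0 f1 f2 u) {M c : ℝ} (hM : 0 < M)
    (hc : 0 < c) (hu : ∀ i, ‖u i‖ ≤ M) (hD : c ≤ ‖Dp f0 f1 f2‖) (i j : Fin 3) (hij : i ≠ j) :
    Real.sqrt c / (2 * M) ^ 2 ≤ ‖u i - u j‖ := by
  have hd : ∀ a b : Fin 3, ‖u a - u b‖ ≤ 2 * M := fun a b =>
    (norm_sub_le _ _).trans (by linarith [hu a, hu b])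
  have h1 : Real.sqrt c ≤ ‖u 0 - u 1‖ * ‖u 0 - u 2‖ * ‖u 1 - u 2‖ := by
    rw [Real.sqrt_le_left (by positivity)]
    rw [← norm_mul, ← norm_mul, ← norm_pow, h.disc]
    exact hD
  have key : ∀ x y z : ℝ, 0 ≤ x → 0 ≤ y → 0 ≤ z → y ≤ 2 * M → z ≤ 2 * M →
      Real.sqrt c ≤ x * y * z → Real.sqrt c / (2 * M) ^ 2 ≤ x := by
    intro x y z hx hy hz hy2 hz2 hxyz
    rw [div_le_iff₀ (by positivity)]
    calc Real.sqrt c ≤ x * y * z := hxyz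
      _ ≤ x * (2 * M) * (2 * M) := by
          apply mul_le_mul _ hz2 hz (by positivity)
          exact mul_le_mul_of_nonneg_left hy2 hx
      _ = x * (2 * M) ^ 2 := by ring
  have k01 := key _ _ _ (norm_nonneg (u 0 - u 1)) (norm_nonneg (u 0 - u 2))
    (norm_nonneg (u 1 - u 2)) (hd _ _) (hd _ _) h1
  have k02 := key _ _ _ (norm_nonneg (u 0 - u 2)) (norm_nonneg (u 0 - u 1))
    (norm_nonneg (u 1 - u 2)) (hd _ _) (hd _ _) (by
      refine h1.trans (le_of_eq ?_)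
      ring)
  have k12 := key _ _ _ (norm_nonneg (u 1 - u 2)) (norm_nonneg (u 0 - u 1))
    (norm_nonneg (u 0 - u 2)) (hd _ _) (hd _ _) (by
      refine h1.trans (le_of_eq ?_)
      ring)
  fin_cases i <;> fin_cases j
  · exact absurd rfl hij
  · exact k01
  · exact k02
  · rw [norm_sub_rev]; exact k01
  · exact absurd rfl hij
  · exact k12
  · rw [norm_sub_rev]; exact k02
  · rw [norm_sub_rev]; exact k12
  · exact absurd rfl hij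

/-- Row Lab1. Choose a permutation such that `‖Y 0‖` is minimal. The roots are bounded by
the coefficients; `Dq_lower` and `IsRts.disc` give the separation; then `‖Y i‖ ≥ c / 2` for
`i ≠ 0` as `2 ‖Y i‖ ≥ ‖Y i - Y 0‖ ≥ c`, and `Y 0 Y 1 Y 2 = Dl ^ 2`. -/
theorem exists_Lab {R : ℝ} (hR : IsRad R) : ∃ u, Lab R u := by
  obtain ⟨C, hC, hphi⟩ := phi_bound hR
  obtain ⟨c, hc, hD⟩ := Dq_lower hR
  choose i0 hi0 using fun q : ℂ => Finite.exists_min (fun i : Fin 3 => ‖9 + phi 2 q - uq q i‖)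
  obtain ⟨u, hu⟩ : ∃ u : ℂ → Fin 3 → ℂ, u = fun q => uq q ∘ Equiv.swap 0 (i0 q) := ⟨_, rfl⟩
  have hr : ∀ q, IsRts (phi 0 q) (phi 1 q) (phi 2 q) (u q) := fun q => by
    rw [hu]
    exact (uq_isRts q).perm _
  have hmin : ∀ q i, ‖Yu q (u q) 0‖ ≤ ‖Yu q (u q) i‖ := by
    intro q i
    have h1 : u q 0 = uq q (i0 q) := by
      rw [hu]
      simp
    have h2 : u q i = uq q (Equiv.swap 0 (i0 q) i) := by
      rw [hu]
      rfl
    rw [Yu, Yu, h1, h2]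
    exact hi0 q _
  obtain ⟨M, hM⟩ : ∃ M : ℝ, M = 1 + (C + 108 * C + (124 * C ^ 2 + 540 * C)) := ⟨_, rfl⟩
  have hM0 : 0 < M := by rw [hM]; positivity
  have hub : ∀ q ∈ Ann R, ∀ i, ‖u q i‖ ≤ M := by
    intro q hq i
    rw [hM]
    exact Lab1_root (hr q) hC (hphi 0 (by norm_num) q hq.2.le) (hphi 1 (by norm_num) q hq.2.le)
      (hphi 2 le_rfl q hq.2.le) i
  obtain ⟨c1, hc1⟩ : ∃ c1 : ℝ, c1 = Real.sqrt c / (2 * M) ^ 2 := ⟨_, rfl⟩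
  have hc10 : 0 < c1 := by
    rw [hc1]
    have := Real.sqrt_pos.2 hc
    positivity
  have hsep : ∀ q ∈ Ann R, ∀ i j, i ≠ j → c1 ≤ ‖u q i - u q j‖ := by
    intro q hq i j hij
    rw [hc1]
    exact Lab1_sep (hr q) hM0 hc (hub q hq) (hD q hq) i j hij
  have hY : ∀ q ∈ Ann R, ∀ i, i ≠ 0 → c1 / 2 ≤ ‖Yu q (u q) i‖ := by
    intro q hq i hi
    have h1 := hsep q hq i 0 hi
    have h2 : u q i - u q 0 = Yu q (u q) 0 - Yu q (u q) i := by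
      unfold Yu
      ring
    rw [h2] at h1
    have h3 := norm_sub_le (Yu q (u q) 0) (Yu q (u q) i)
    have h4 := hmin q i
    linarith
  have hYu : ∀ q ∈ Ann R, ∀ i, ‖Yu q (u q) i‖ ≤ 9 + C + M := by
    intro q hq i
    calc ‖Yu q (u q) i‖ ≤ ‖(9 : ℂ) + phi 2 q‖ + ‖u q i‖ := norm_sub_le _ _
      _ ≤ ‖(9 : ℂ)‖ + ‖phi 2 q‖ + ‖u q i‖ := by linarith [norm_add_le (9 : ℂ) (phi 2 q)]
      _ ≤ 9 + C + M := by
          have := hphi 2 le_rfl q hq.2.le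
          have := hub q hq i
          have : ‖(9 : ℂ)‖ = 9 := by norm_num
          linarith
  have hprod : ∀ q, Yu q (u q) 0 * Yu q (u q) 1 * Yu q (u q) 2 = Dl q ^ 2 := fun q => (hr q).Y3
  have hDl : ∀ q ∈ Ann R, Dl q ≠ 0 := fun q hq => Dl_ne hR hq.2.le (by
    intro h
    have h2 := hq.2
    rw [h, Complex.norm_real, Real.norm_eq_abs] at h2
    exact absurd (le_abs_self R) (not_le.2 h2))
  refine ⟨u, ⟨fun q => ⟨Equiv.swap 0 (i0 q), by rw [hu]⟩, hr, ?_, ?_, ?_, ?_, ?_⟩⟩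
  · intro i
    rw [isBigO_principal]
    exact ⟨M, fun q hq => by simpa using hub q hq i⟩
  · intro i j hij
    rw [isBigO_principal]
    refine ⟨c1⁻¹, fun q hq => ?_⟩
    rw [norm_inv, norm_one, mul_one]
    exact inv_anti₀ hc10 (hsep q hq i j hij)
  · rw [isBigO_principal]
    refine ⟨((c1 / 2) ^ 2)⁻¹, fun q hq => ?_⟩
    have h1 := congrArg norm (hprod q)
    rw [norm_mul, norm_mul, norm_pow] at h1
    rw [norm_pow, norm_norm, ← h1]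
    have h2 : (c1 / 2) ^ 2 ≤ ‖Yu q (u q) 1‖ * ‖Yu q (u q) 2‖ := by
      rw [sq]
      exact mul_le_mul (hY q hq 1 (by decide)) (hY q hq 2 (by decide)) (by positivity)
        (norm_nonneg _)
    rw [← div_eq_inv_mul, le_div_iff₀ (by positivity), mul_assoc]
    exact mul_le_mul_of_nonneg_left h2 (norm_nonneg _)
  · rw [isBigO_principal]
    refine ⟨(9 + C + M) ^ 2, fun q hq => ?_⟩
    have h1 := congrArg norm (hprod q)
    rw [norm_mul, norm_mul, norm_pow] at h1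
    have hD0 : 0 < ‖Dl q‖ := norm_pos_iff.2 (hDl q hq)
    have hY0 : 0 < ‖Yu q (u q) 0‖ := by
      rw [norm_pos_iff]
      intro h
      have := hprod q
      rw [h, zero_mul, zero_mul] at this
      exact hDl q hq (pow_eq_zero_iff (by norm_num) |>.1 this.symm)
    rw [norm_inv, norm_pow, norm_inv, norm_norm, inv_pow, ← div_eq_mul_inv, ← h1,
      le_div_iff₀ (by rw [h1]; positivity)]
    have h2 : ‖Yu q (u q) 1‖ * ‖Yu q (u q) 2‖ ≤ (9 + C + M) ^ 2 := by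
      rw [sq]
      exact mul_le_mul (hYu q hq 1) (hYu q hq 2) (norm_nonneg _) (by positivity)
    calc ‖Yu q (u q) 0‖⁻¹ * (‖Yu q (u q) 0‖ * ‖Yu q (u q) 1‖ * ‖Yu q (u q) 2‖)
        = ‖Yu q (u q) 1‖ * ‖Yu q (u q) 2‖ := by field_simp
      _ ≤ _ := h2
  · intro i hi
    rw [isBigO_principal]
    refine ⟨(c1 / 2)⁻¹, fun q hq => ?_⟩
    rw [norm_inv, norm_one, mul_one]
    exact inv_anti₀ (by positivity) (hY q hq i hi)

end Pool.Agent.PlaneGT
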