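import Pool.Agent.Lib.MP_6aab98_ag.GT.Lab1

/-! # MP_6aab98_ag GT, row Lab2 -/

namespace Pool.Agent.PlaneGT

open Finset Filter Topology Asymptotics
open scoped Nat

/-- the sizes `ρ` -/
noncomputable def rho (q : ℂ) (i : Fin 3) : ℝ := if i = 0 ∧ Dl q ≠ 0 then ‖Dl q‖⁻¹ else 1

theorem Lab2_Dl_ne {R : ℝ} (hR : IsRad R) {q : ℂ} (hq : q ∈ Ann R) : Dl q ≠ 0 := by
  obtain ⟨c, hc, h⟩ := Dl_lower hR
  have h1 := h q hq
  intro h0
  rw [h0, norm_zero] at h1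
  have hR0 : (0 : ℝ) < R := by linarith [hR.1]
  have h2 : (1 - q / R : ℂ) ≠ 0 := by
    intro h3
    have h4 : q = R := by
      have h6 : (R : ℂ) ≠ 0 := by exact_mod_cast hR0.ne'
      have h7 : q / R = 1 := by linear_combination -h3
      rwa [div_eq_one_iff_eq h6] at h7
    have h5 := hq.2
    rw [h4] at h5
    simp [abs_of_pos hR0] at h5
  have h3 : 0 < Real.sqrt ‖1 - q / R‖ := Real.sqrt_pos.2 (norm_pos_iff.2 h2)
  nlinarith [mul_pos hc h3]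

theorem Lab2_phi_bd {R : ℝ} (hR : IsRad R) {j : ℕ} (hj : j ≤ 2) :
    (fun q => phi j q) =O[𝓟 (Ann R)] (fun _ => (1 : ℝ)) := by
  obtain ⟨C, _, h⟩ := phi_bound hR
  rw [isBigO_principal]
  exact ⟨C, fun q hq => by simpa using h j hj q hq.2.le⟩

theorem Lab2_const_bd {R : ℝ} (c : ℂ) :
    (fun _ : ℂ => c) =O[𝓟 (Ann R)] (fun _ => (1 : ℝ)) := by
  rw [isBigO_principal]
  exact ⟨‖c‖, fun q _ => by simp⟩

theorem Lab2_mul_bd {R : ℝ} {f g : ℂ → ℂ} (hf : f =O[𝓟 (Ann R)] (fun _ => (1 : ℝ)))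
    (hg : g =O[𝓟 (Ann R)] (fun _ => (1 : ℝ))) :
    (fun q => f q * g q) =O[𝓟 (Ann R)] (fun _ => (1 : ℝ)) := by
  simpa using hf.mul hg

theorem Lab2_Dl_bd {R : ℝ} (hR : IsRad R) : Dl =O[𝓟 (Ann R)] (fun _ => (1 : ℝ)) := by
  have h := ((Lab2_const_bd (R := R) 27).add (Lab2_mul_bd (Lab2_const_bd 2)
    (Lab2_phi_bd hR (show 1 ≤ 2 by norm_num)))).sub
    (Lab2_mul_bd (Lab2_const_bd 3) (Lab2_phi_bd hR (show 2 ≤ 2 by norm_num)))
  exact h

theorem Lab2_Yu_bd {R : ℝ} (hR : IsRad R) {u : ℂ → Fin 3 → ℂ} (h : Lab R u) (i : Fin 3) :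
    (fun q => Yu q (u q) i) =O[𝓟 (Ann R)] (fun _ => (1 : ℝ)) :=
  ((Lab2_const_bd (R := R) 9).add (Lab2_phi_bd hR (le_refl 2))).sub (h.u_bd i)

theorem Lab2_chi_bd {R : ℝ} {u : ℂ → Fin 3 → ℂ} (h : Lab R u) (i : Fin 3) :
    (fun q => chi' (u q) i) =O[𝓟 (Ann R)] (fun _ => (1 : ℝ)) := by
  have h1 : ∀ j, (fun q => u q i - u q j) =O[𝓟 (Ann R)] (fun _ => (1 : ℝ)) :=
    fun j => (h.u_bd i).sub (h.u_bd j)
  fin_cases i
  · have e : (fun q => chi' (u q) 0) = fun q => (u q 0 - u q 1) * (u q 0 - u q 2) := by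
      funext q
      have : (univ.erase (0 : Fin 3)) = {1, 2} := by decide
      simp [chi', this]
    show (fun q => chi' (u q) 0) =O[𝓟 (Ann R)] (fun _ => (1 : ℝ))
    rw [e]
    exact Lab2_mul_bd (h1 1) (h1 2)
  · have e : (fun q => chi' (u q) 1) = fun q => (u q 1 - u q 0) * (u q 1 - u q 2) := by
      funext q
      have : (univ.erase (1 : Fin 3)) = {0, 2} := by decide
      simp [chi', this]
    show (fun q => chi' (u q) 1) =O[𝓟 (Ann R)] (fun _ => (1 : ℝ))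
    rw [e]
    exact Lab2_mul_bd (h1 0) (h1 2)
  · have e : (fun q => chi' (u q) 2) = fun q => (u q 2 - u q 0) * (u q 2 - u q 1) := by
      funext q
      have : (univ.erase (2 : Fin 3)) = {0, 1} := by decide
      simp [chi', this]
    show (fun q => chi' (u q) 2) =O[𝓟 (Ann R)] (fun _ => (1 : ℝ))
    rw [e]
    exact Lab2_mul_bd (h1 0) (h1 1)

theorem Lab2_chi_inv_bd {R : ℝ} {u : ℂ → Fin 3 → ℂ} (h : Lab R u) (i : Fin 3) :
    (fun q => (chi' (u q) i)⁻¹) =O[𝓟 (Ann R)] (fun _ => (1 : ℝ)) := by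
  fin_cases i
  · have e : (fun q => (chi' (u q) 0)⁻¹) = fun q => (u q 0 - u q 1)⁻¹ * (u q 0 - u q 2)⁻¹ := by
      funext q
      have : (univ.erase (0 : Fin 3)) = {1, 2} := by decide
      simp [chi', this, mul_comm]
    show (fun q => (chi' (u q) 0)⁻¹) =O[𝓟 (Ann R)] (fun _ => (1 : ℝ))
    rw [e]
    exact Lab2_mul_bd (h.sep 0 1 (by decide)) (h.sep 0 2 (by decide))
  · have e : (fun q => (chi' (u q) 1)⁻¹) = fun q => (u q 1 - u q 0)⁻¹ * (u q 1 - u q 2)⁻¹ := by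
      funext q
      have : (univ.erase (1 : Fin 3)) = {0, 2} := by decide
      simp [chi', this, mul_comm]
    show (fun q => (chi' (u q) 1)⁻¹) =O[𝓟 (Ann R)] (fun _ => (1 : ℝ))
    rw [e]
    exact Lab2_mul_bd (h.sep 1 0 (by decide)) (h.sep 1 2 (by decide))
  · have e : (fun q => (chi' (u q) 2)⁻¹) = fun q => (u q 2 - u q 0)⁻¹ * (u q 2 - u q 1)⁻¹ := by
      funext q
      have : (univ.erase (2 : Fin 3)) = {0, 1} := by decide
      simp [chi', this, mul_comm]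
    show (fun q => (chi' (u q) 2)⁻¹) =O[𝓟 (Ann R)] (fun _ => (1 : ℝ))
    rw [e]
    exact Lab2_mul_bd (h.sep 2 0 (by decide)) (h.sep 2 1 (by decide))

theorem Lab2_rho_zero {R : ℝ} (hR : IsRad R) {q : ℂ} (hq : q ∈ Ann R) :
    rho q 0 = ‖Dl q‖⁻¹ := by
  simp [rho, Lab2_Dl_ne hR hq]

theorem Lab2_rho_ne (q : ℂ) {i : Fin 3} (hi : i ≠ 0) : rho q i = 1 := by
  simp [rho, hi]

theorem Lab2_rho_one {R : ℝ} (hR : IsRad R) (i : Fin 3) :
    (fun _ : ℂ => (1 : ℝ)) =O[𝓟 (Ann R)] (fun q => rho q i) := by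
  by_cases hi : i = 0
  · subst hi
    obtain ⟨C, hC⟩ := isBigO_principal.1 (Lab2_Dl_bd hR)
    rw [isBigO_principal]
    refine ⟨C, fun q hq => ?_⟩
    have h1 := hC q hq
    have h2 : 0 < ‖Dl q‖ := norm_pos_iff.2 (Lab2_Dl_ne hR hq)
    rw [Lab2_rho_zero hR hq]
    simp only [norm_one, mul_one, norm_inv, norm_norm] at h1 ⊢
    rw [← div_eq_mul_inv, le_div_iff₀ h2]
    linarith
  · rw [isBigO_principal]
    refine ⟨1, fun q _ => ?_⟩
    rw [Lab2_rho_ne q hi]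
    simp

/-- `O(‖Dl‖ ^ k)` as `O((rho⁻¹) ^ k)` -/
theorem Lab2_to_rho {R : ℝ} (hR : IsRad R) {f : ℂ → ℂ} {k : ℕ}
    (hf : f =O[𝓟 (Ann R)] (fun q => ‖Dl q‖ ^ k)) :
    f =O[𝓟 (Ann R)] (fun q => ((rho q 0)⁻¹) ^ k) := by
  rw [isBigO_principal] at hf ⊢
  obtain ⟨C, hC⟩ := hf
  refine ⟨C, fun q hq => ?_⟩
  rw [Lab2_rho_zero hR hq, inv_inv]
  exact hC q hq

theorem Lab2_to_rho' {R : ℝ} (hR : IsRad R) {f : ℂ → ℂ} {k : ℕ}
    (hf : f =O[𝓟 (Ann R)] (fun q => (‖Dl q‖⁻¹) ^ k)) :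
    f =O[𝓟 (Ann R)] (fun q => (rho q 0) ^ k) := by
  rw [isBigO_principal] at hf ⊢
  obtain ⟨C, hC⟩ := hf
  refine ⟨C, fun q hq => ?_⟩
  rw [Lab2_rho_zero hR hq]
  exact hC q hq

theorem Lab2_mul_bd' {R : ℝ} {f g : ℂ → ℂ} {F : ℂ → ℝ} (hf : f =O[𝓟 (Ann R)] F)
    (hg : g =O[𝓟 (Ann R)] (fun _ => (1 : ℝ))) :
    (fun q => f q * g q) =O[𝓟 (Ann R)] F := by
  simpa using hf.mul hg

theorem Lab2_num (q : ℂ) (u : Fin 3 → ℂ) (i : Fin 3) :
    u i ^ 2 - phi 2 q * u i - 3 * ca q =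
      3 * Dl q - (18 + phi 2 q) * Yu q u i + Yu q u i ^ 2 := by
  unfold ca Dl Yu
  ring

/-- Row Lab2. `y i = Y i / chi' i`, `x i = (3 Dl - (18 + phi 2) Y i + Y i ^ 2) / chi' i`. -/
theorem Lab.tame {R : ℝ} (hR : IsRad R) {u : ℂ → Fin 3 → ℂ} (h : Lab R u) :
    Tame (𝓟 (Ann R)) rho u (fun q => xu q (u q)) (fun q => yu q (u q)) where
  pos := fun q i => by
    unfold rho
    split_ifs with h1
    · exact inv_pos.2 (norm_pos_iff.2 h1.2)
    · exact one_pos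
  one := Lab2_rho_one hR
  fin := fun i hi => by
    rw [isBigO_principal]
    exact ⟨1, fun q _ => by rw [Lab2_rho_ne q hi]; simp⟩
  sep := h.sep
  yup := fun i => by
    have e : (fun q => yu q (u q) i) = fun q => Yu q (u q) i * (chi' (u q) i)⁻¹ := by
      funext q
      rfl
    show (fun q => yu q (u q) i) =O[𝓟 (Ann R)] _
    rw [e]
    by_cases hi : i = 0
    · subst hi
      exact Lab2_mul_bd' (Lab2_to_rho hR h.Y0) (Lab2_chi_inv_bd h 0)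
    · have h1 := Lab2_mul_bd (Lab2_Yu_bd hR h i) (Lab2_chi_inv_bd h i)
      simpa [Lab2_rho_ne _ hi] using h1
  yinv := fun i => by
    have e : (fun q => (yu q (u q) i)⁻¹) = fun q => (Yu q (u q) i)⁻¹ * chi' (u q) i := by
      funext q
      show ((9 + phi 2 q - u q i) / chi' (u q) i)⁻¹ = (9 + phi 2 q - u q i)⁻¹ * chi' (u q) i
      rw [inv_div, div_eq_mul_inv, mul_comm]
    show (fun q => (yu q (u q) i)⁻¹) =O[𝓟 (Ann R)] _
    rw [e]
    by_cases hi : i = 0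
    · subst hi
      exact Lab2_mul_bd' (Lab2_to_rho' hR h.Y0inv) (Lab2_chi_bd h 0)
    · have h1 := Lab2_mul_bd (h.Yinv i hi) (Lab2_chi_bd h i)
      simpa [Lab2_rho_ne _ hi] using h1
  xup := fun i => by
    have e : (fun q => xu q (u q) i) = fun q => (3 * Dl q - (18 + phi 2 q) * Yu q (u q) i +
        Yu q (u q) i ^ 2) * (chi' (u q) i)⁻¹ := by
      funext q
      show (u q i ^ 2 - phi 2 q * u q i - 3 * ca q) / chi' (u q) i = _
      rw [Lab2_num, div_eq_mul_inv]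
    show (fun q => xu q (u q) i) =O[𝓟 (Ann R)] _
    rw [e]
    have hY := Lab2_Yu_bd hR h i
    have hph := Lab2_phi_bd hR (le_refl 2)
    by_cases hi : i = 0
    · subst hi
      have hY1 : (fun q => Yu q (u q) 0) =O[𝓟 (Ann R)] (fun q => ‖Dl q‖ ^ 1) := by
        refine h.Y0.trans ?_
        obtain ⟨C, hC⟩ := isBigO_principal.1 (Lab2_Dl_bd hR)
        rw [isBigO_principal]
        refine ⟨C, fun q hq => ?_⟩
        have h1 := hC q hq
        simp only [norm_one, mul_one, norm_pow, norm_norm, pow_one] at h1 ⊢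
        nlinarith [norm_nonneg (Dl q)]
      have hD : (fun q => 3 * Dl q) =O[𝓟 (Ann R)] (fun q => ‖Dl q‖ ^ 1) := by
        rw [isBigO_principal]
        exact ⟨3, fun q _ => by simp⟩
      have h2 : (fun q => (18 + phi 2 q) * Yu q (u q) 0) =O[𝓟 (Ann R)]
          (fun q => ‖Dl q‖ ^ 1) := by
        have h3 := Lab2_mul_bd' hY1 ((Lab2_const_bd (R := R) 18).add hph)
        refine h3.congr_left fun q => ?_
        ring
      have h4 : (fun q => Yu q (u q) 0 ^ 2) =O[𝓟 (Ann R)] (fun q => ‖Dl q‖ ^ 1) := by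
        have h3 := Lab2_mul_bd' hY1 hY
        refine h3.congr_left fun q => ?_
        ring
      have h5 := Lab2_mul_bd' (Lab2_to_rho hR ((hD.sub h2).add h4)) (Lab2_chi_inv_bd h 0)
      simpa using h5
    · have h1 := (((Lab2_mul_bd (Lab2_const_bd (R := R) 3) (Lab2_Dl_bd hR)).sub
        (Lab2_mul_bd ((Lab2_const_bd (R := R) 18).add hph) hY)).add (Lab2_mul_bd hY hY))
      have h2 := Lab2_mul_bd h1 (Lab2_chi_inv_bd h i)
      have h3 : (fun q => (3 * Dl q - (18 + phi 2 q) * Yu q (u q) i +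
        Yu q (u q) i ^ 2) * (chi' (u q) i)⁻¹) =O[𝓟 (Ann R)] (fun _ => (1 : ℝ)) := by
        refine h2.congr_left fun q => ?_
        ring
      simpa [Lab2_rho_ne _ hi] using h3

end Pool.Agent.PlaneGT
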