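import Pool.Agent.Lib.MP_6aab98_ag.GT.Rad2

/-! # MP_6aab98_ag GT, row Rad3 -/

namespace Pool.Agent.PlaneGT

open Finset Filter Topology Asymptotics
open scoped Nat

private theorem Rad3_nonneg (d : ℕ) : 0 ≤ n d := by
  rcases Nat.eq_zero_or_pos d with h | h
  · rw [h, n_zero]
  · exact (n_pos h).le

private theorem Rad3_coef (d : ℕ) : 0 ≤ 3 * (d : ℝ) ^ 2 - 2 * d := by
  rcases Nat.eq_zero_or_pos d with h | h
  · rw [h]
    norm_num
  · have h1 : (1 : ℝ) ≤ d := by exact_mod_cast h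
    nlinarith

/-- Row Rad1. `R = sSup {r ≥ 0 | ∀ m, SS m r ≤ 27}`: the set contains `1.01` (by `n_le`:
`∑ (3 d ^ 2 - 2 d) n_d 1.01 ^ d ≤ 3 ∑_{d ≥ 1} 0.808 ^ d = 3 * 0.808 / 0.192 < 27`), is bounded by
`54` (`d = 1` term) and closed; use `SS_extend`. -/
theorem exists_rad : ∃ R, IsRad R := by
  have hterm : ∀ {r : ℝ}, 0 ≤ r → ∀ d : ℕ, 0 ≤ (3 * (d : ℝ) ^ 2 - 2 * d) * n d * r ^ d := by
    intro r hr d
    exact mul_nonneg (mul_nonneg (Rad3_coef d) (Rad3_nonneg d)) (pow_nonneg hr d)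
  set A : Set ℝ := {r | 0 ≤ r ∧ ∀ m, SS m r ≤ 27} with hA
  have hmem : (101 / 100 : ℝ) ∈ A := by
    refine ⟨by norm_num, fun m => ?_⟩
    have h1 : ∀ d ∈ range (m + 1), (3 * (d : ℝ) ^ 2 - 2 * d) * n d * (101 / 100 : ℝ) ^ d ≤
        3 * (101 / 125 : ℝ) ^ d := by
      intro d _
      have h2 := n_le d
      have h3 := Rad3_nonneg d
      have h4 : (3 * (d : ℝ) ^ 2 - 2 * d) * n d ≤ 3 * (4 / 5 : ℝ) ^ d := by
        have h5 : 0 ≤ (d : ℝ) * n d := mul_nonneg (Nat.cast_nonneg d) h3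
        nlinarith
      have h6 : (0 : ℝ) ≤ (101 / 100 : ℝ) ^ d := by positivity
      calc (3 * (d : ℝ) ^ 2 - 2 * d) * n d * (101 / 100 : ℝ) ^ d
          ≤ 3 * (4 / 5 : ℝ) ^ d * (101 / 100 : ℝ) ^ d := mul_le_mul_of_nonneg_right h4 h6
        _ = 3 * (101 / 125 : ℝ) ^ d := by
            rw [mul_assoc, ← mul_pow]
            norm_num
    have h7 : Summable (fun d : ℕ => 3 * (101 / 125 : ℝ) ^ d) :=
      (summable_geometric_of_lt_one (by norm_num) (by norm_num)).mul_left 3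
    unfold SS
    calc ∑ d ∈ range (m + 1), (3 * (d : ℝ) ^ 2 - 2 * d) * n d * (101 / 100 : ℝ) ^ d
        ≤ ∑ d ∈ range (m + 1), 3 * (101 / 125 : ℝ) ^ d := Finset.sum_le_sum h1
      _ ≤ ∑' d : ℕ, 3 * (101 / 125 : ℝ) ^ d :=
          h7.sum_le_tsum _ (fun d _ => by positivity)
      _ = 3 * (1 - 101 / 125 : ℝ)⁻¹ := by
          rw [tsum_mul_left, tsum_geometric_of_lt_one (by norm_num) (by norm_num)]
      _ ≤ 27 := by norm_num
  have hbdd : BddAbove A := by
    refine ⟨54, ?_⟩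
    intro r hr
    have h1 := hr.2 1
    unfold SS at h1
    rw [Finset.sum_range_succ, Finset.sum_range_one, n_one] at h1
    norm_num at h1
    linarith
  have hclosed : IsClosed A := by
    have h1 : A = {r | 0 ≤ r} ∩ ⋂ m, {r | SS m r ≤ 27} := by
      ext r
      simp [hA]
    rw [h1]
    refine IsClosed.inter isClosed_Ici (isClosed_iInter fun m => ?_)
    refine isClosed_le ?_ continuous_const
    unfold SS
    fun_prop
  set R : ℝ := sSup A with hR
  have hRA : R ∈ A := hclosed.csSup_mem ⟨_, hmem⟩ hbdd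
  have hR1 : 101 / 100 ≤ R := le_csSup hbdd hmem
  refine ⟨R, by linarith, ?_⟩
  have hsum : Summable (fun d : ℕ => (3 * (d : ℝ) ^ 2 - 2 * d) * n d * R ^ d) := by
    refine summable_of_sum_range_le (c := 27) (fun d => hterm hRA.1 d) (fun m => ?_)
    refine le_trans ?_ (hRA.2 m)
    unfold SS
    rw [Finset.sum_range_succ]
    linarith [hterm hRA.1 m]
  have hle : ∑' d : ℕ, (3 * (d : ℝ) ^ 2 - 2 * d) * n d * R ^ d ≤ 27 := by
    refine hsum.tsum_le_of_sum_range_le (fun m => ?_)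
    refine le_trans ?_ (hRA.2 m)
    unfold SS
    rw [Finset.sum_range_succ]
    linarith [hterm hRA.1 m]
  rcases lt_or_eq_of_le hle with hlt | heq
  · exfalso
    obtain ⟨r, hr, hr27⟩ := SS_extend (R := R)
      (δ := 27 - ∑' d : ℕ, (3 * (d : ℝ) ^ 2 - 2 * d) * n d * R ^ d) (by linarith) (by linarith)
      (fun m => by
        have h1 : SS m R ≤ ∑' d : ℕ, (3 * (d : ℝ) ^ 2 - 2 * d) * n d * R ^ d := by
          unfold SS
          exact hsum.sum_le_tsum _ (fun d _ => hterm hRA.1 d)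
        linarith)
    have h2 : r ≤ R := le_csSup hbdd ⟨by linarith, hr27⟩
    linarith
  · rw [← heq]
    exact hsum.hasSum

end Pool.Agent.PlaneGT
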