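import Pool.Agent.Lib.MP_6aab98_ag.GT.Zer2
import Pool.Agent.Lib.MP_6aab98_ag.GT.Fas2
import Pool.Agent.Lib.MP_6aab98_ag.GT.Hol3
import Pool.Agent.Lib.MP_6aab98_ag.GT.Rad3

/-! # MP_6aab98_ag GT: assembly -/

namespace Pool.Agent.PlaneGT

open Finset Filter Topology Asymptotics
open scoped Nat

theorem main : ∃ b κ : ℝ, 0 < b ∧ b < 1 ∧ 0 < κ ∧
    Tendsto (fun d : ℕ => ((N0 d : ℝ) / ((3 * d - 1)! : ℝ)) ^ (1 / (d : ℝ))) atTop (𝓝 b) ∧
    ∀ g : ℕ, 2 ≤ g →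
      (∀ q : ℂ, q ≠ 0 → ‖q‖ < 1 / b → DifferentiableAt ℂ (Fg g) q) ∧
      0 < wk g (List.replicate (3 * g - 3) 2) ∧
      Tendsto (fun d : ℕ => (Ng g d / ((3 * d - 1 + g)! : ℝ)) /
        (b ^ d * (d : ℝ) ^ ((5 * (g : ℝ) - 7) / 2))) atTop
        (𝓝 ((wk g (List.replicate (3 * g - 3) 2) : ℝ) * κ ^ (g - 1) /
          (((3 * g - 3)! : ℝ) * Real.Gamma ((5 * (g : ℝ) - 5) / 2)))) := by
  obtain ⟨R, hR⟩ := exists_rad
  obtain ⟨K, hK0, hK⟩ := exists_K hR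
  have hR1 : 1 < R := hR.1
  have hR0 : 0 < R := by linarith
  have hsq : 0 < Real.sqrt (6 * K) := Real.sqrt_pos.mpr (by positivity)
  refine ⟨1 / R, 27 * K ^ 2 * (Real.sqrt (6 * K))⁻¹ ^ 5, by positivity,
    (div_lt_one hR0).mpr hR1, by positivity, ?_, ?_⟩
  · exact n_root hR
  · intro g hg
    refine ⟨?_, wk_two_pos hg, ?_⟩
    · intro q h0 h1
      rw [one_div_one_div] at h1
      exact Fg_holo hR g h0 h1
    obtain ⟨B, hB⟩ := Fg_asymp2 hR hK0 hK hg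
    have hgR : (2 : ℝ) ≤ g := by exact_mod_cast hg
    have hM : 0 < (5 * (g : ℝ) - 5) / 2 := by linarith
    have hF : ∀ q : ℂ, 1 ≤ ‖q‖ → ‖q‖ < R → DifferentiableAt ℂ (Fg g) q :=
      fun q h1 h2 => Fg_holo hR g (norm_pos_iff.mp (by linarith)) h2
    have ht := transfer (F := Fg g) (R := R) (M := (5 * (g : ℝ) - 5) / 2)
      (β := (5 * (g : ℝ) - 6) / 2) (B := B)
      (h := ((hco K g * (Real.sqrt (6 * K))⁻¹ ^ (5 * g - 5) : ℝ) : ℂ)) hR1 (by linarith)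
      (by linarith) hF (by
        intro q h1 h2
        have h3 := hB q ⟨h1, h2⟩
        simpa only [Complex.ofReal_neg] using h3)
    have hre := (Complex.continuous_re.tendsto _).comp ht
    have e1 : ((((hco K g * (Real.sqrt (6 * K))⁻¹ ^ (5 * g - 5) : ℝ) : ℂ)) /
        ((Real.Gamma ((5 * (g : ℝ) - 5) / 2) : ℝ) : ℂ)).re =
        (wk g (List.replicate (3 * g - 3) 2) : ℝ) *
          (27 * K ^ 2 * (Real.sqrt (6 * K))⁻¹ ^ 5) ^ (g - 1) /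
          (((3 * g - 3)! : ℝ) * Real.Gamma ((5 * (g : ℝ) - 5) / 2)) := by
      rw [← Complex.ofReal_div, Complex.ofReal_re]
      have e2 : 5 * g - 5 = 5 * (g - 1) := by omega
      have e3 : ((3 * g - 3)! : ℝ) ≠ 0 := by positivity
      have e4 : Real.Gamma ((5 * (g : ℝ) - 5) / 2) ≠ 0 := (Real.Gamma_pos_of_pos hM).ne'
      unfold hco
      rw [e2, pow_mul, mul_pow (27 * K ^ 2)]
      field_simp
    rw [e1] at hre
    refine hre.congr fun d => ?_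
    simp only [Function.comp_apply]
    have h4 : ((3 * d - 1 + g)! : ℝ) ≠ 0 := by positivity
    have h5 : (5 * (g : ℝ) - 5) / 2 - 1 = (5 * (g : ℝ) - 7) / 2 := by ring
    rw [h5]
    have h6 : cf (Fg g) 1 d * (R : ℂ) ^ d / (((d : ℝ) ^ ((5 * (g : ℝ) - 7) / 2) : ℝ) : ℂ) =
        cf (Fg g) 1 d * ((R ^ d / (d : ℝ) ^ ((5 * (g : ℝ) - 7) / 2) : ℝ) : ℂ) := by
      push_cast
      ring
    rw [h6, Complex.re_mul_ofReal]
    unfold Ng
    rw [mul_div_cancel_left₀ _ h4]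
    have h7 : (cf (Fg g) 1 d).re =
        ((2 * Real.pi * Complex.I)⁻¹ * ∮ q in C(0, 1), Fg g q / q ^ (d + 1)).re := rfl
    rw [← h7, one_div, inv_pow]
    have h8 : (R ^ d) ≠ 0 := by positivity
    field_simp

end Pool.Agent.PlaneGT
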