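import Pool.Agent.Lib.MP_6aab98_ag.GT.Phi2

/-! # MP_6aab98_ag GT, row Ode1 -/

namespace Pool.Agent.PlaneGT

open Finset Filter Topology Asymptotics
open scoped Nat

/-- the general term of `phi j` -/
private noncomputable def Ode1_a (q : ℂ) (j d : ℕ) : ℂ := (d : ℂ) ^ j * (n d : ℂ) * q ^ d

private theorem Ode1_sum {R : ℝ} (hR : IsRad R) {q : ℂ} (hq : ‖q‖ < R) (j : ℕ) :
    HasSum (Ode1_a q j) (phi j q) :=
  (phi_summable' hR j hq).hasSum

private theorem Ode1_prod {R : ℝ} (hR : IsRad R) {q : ℂ} (hq : ‖q‖ < R) (i j : ℕ) :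
    HasSum (fun d : ℕ => ∑ p ∈ HasAntidiagonal.antidiagonal d, Ode1_a q i p.1 * Ode1_a q j p.2)
      (phi i q * phi j q) := by
  have h1 : Summable (fun d => ‖Ode1_a q i d‖) := (phi_summable' hR i hq).norm
  have h2 : Summable (fun d => ‖Ode1_a q j d‖) := (phi_summable' hR j hq).norm
  have h3 := (summable_norm_sum_mul_antidiagonal_of_summable_norm h1 h2).of_norm.hasSum
  rw [← tsum_mul_tsum_eq_tsum_sum_antidiagonal_of_summable_norm h1 h2] at h3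
  exact h3

private theorem Ode1_rec (q : ℂ) (d : ℕ) :
    27 * Ode1_a q 3 d - 54 * Ode1_a q 2 d + 33 * Ode1_a q 1 d - 6 * Ode1_a q 0 d =
      (∑ p ∈ HasAntidiagonal.antidiagonal d, Ode1_a q 2 p.1 * Ode1_a q 2 p.2) +
      3 * (∑ p ∈ HasAntidiagonal.antidiagonal d, Ode1_a q 2 p.1 * Ode1_a q 3 p.2) -
      2 * (∑ p ∈ HasAntidiagonal.antidiagonal d, Ode1_a q 1 p.1 * Ode1_a q 3 p.2) := by
  have h := congrArg (fun x : ℝ => (x : ℂ) * q ^ d) (n_rec d)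
  push_cast at h
  have hl : 27 * Ode1_a q 3 d - 54 * Ode1_a q 2 d + 33 * Ode1_a q 1 d - 6 * Ode1_a q 0 d =
      (27 * (d : ℂ) ^ 3 - 54 * (d : ℂ) ^ 2 + 33 * d - 6) * (n d : ℂ) * q ^ d := by
    simp only [Ode1_a]
    ring
  rw [hl, h, Finset.sum_mul, Finset.mul_sum, Finset.mul_sum, ← Finset.sum_add_distrib,
    ← Finset.sum_sub_distrib]
  refine Finset.sum_congr rfl fun p hp => ?_
  have hp' : p.1 + p.2 = d := HasAntidiagonal.mem_antidiagonal.1 hp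
  rw [← hp', pow_add]
  simp only [Ode1_a]
  ring

/-- Row Ode1. `n_rec` and Cauchy products (`tsum_mul_tsum_eq_tsum_sum_antidiagonal_of_summable_norm`). -/
theorem ode {R : ℝ} (hR : IsRad R) {q : ℂ} (hq : ‖q‖ < R) : Dl q * phi 3 q = Rh q := by
  have h1 := (((Ode1_sum hR hq 3).mul_left 27).sub ((Ode1_sum hR hq 2).mul_left 54)).add
    ((Ode1_sum hR hq 1).mul_left 33)
  have h2 := h1.sub ((Ode1_sum hR hq 0).mul_left 6)
  have h3 := ((Ode1_prod hR hq 2 2).add ((Ode1_prod hR hq 2 3).mul_left 3)).sub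
    ((Ode1_prod hR hq 1 3).mul_left 2)
  have h4 : 27 * phi 3 q - 54 * phi 2 q + 33 * phi 1 q - 6 * phi 0 q =
      phi 2 q * phi 2 q + 3 * (phi 2 q * phi 3 q) - 2 * (phi 1 q * phi 3 q) := by
    refine h2.unique ?_
    have h5 : (fun d : ℕ => 27 * Ode1_a q 3 d - 54 * Ode1_a q 2 d + 33 * Ode1_a q 1 d -
        6 * Ode1_a q 0 d) = fun d : ℕ =>
        (∑ p ∈ HasAntidiagonal.antidiagonal d, Ode1_a q 2 p.1 * Ode1_a q 2 p.2) +
        3 * (∑ p ∈ HasAntidiagonal.antidiagonal d, Ode1_a q 2 p.1 * Ode1_a q 3 p.2) -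
        2 * (∑ p ∈ HasAntidiagonal.antidiagonal d, Ode1_a q 1 p.1 * Ode1_a q 3 p.2) :=
      funext fun d => Ode1_rec q d
    rw [h5]
    exact h3
  unfold Dl Rh
  linear_combination h4

end Pool.Agent.PlaneGT
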