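import Pool.Agent.Lib.MP_6aab98_ag.GT.Gz2

/-! # MP_6aab98_ag GT, row Phi1 -/

namespace Pool.Agent.PlaneGT

open Finset Filter Topology Asymptotics
open scoped Nat

private lemma Phi1_n_nonneg (d : ℕ) : 0 ≤ n d := by
  rcases Nat.eq_zero_or_pos d with h | h
  · rw [h, n_zero]
  · exact (n_pos h).le

private lemma Phi1_term {R : ℝ} (hR : IsRad R) {j : ℕ} (hj : j ≤ 2) (d : ℕ) :
    (d : ℝ) ^ j * n d * R ^ d ≤ (3 * (d : ℝ) ^ 2 - 2 * d) * n d * R ^ d := by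
  have hn := Phi1_n_nonneg d
  have hR0 : 0 < R := lt_trans one_pos hR.1
  rcases Nat.eq_zero_or_pos d with h | h
  · subst h
    rw [n_zero]
    simp
  · have h1 : (1 : ℝ) ≤ d := by exact_mod_cast h
    have h2 : (d : ℝ) ^ j ≤ (d : ℝ) ^ 2 := pow_le_pow_right₀ h1 hj
    have h3 : (d : ℝ) ^ 2 ≤ 3 * (d : ℝ) ^ 2 - 2 * d := by nlinarith
    have h4 : 0 ≤ R ^ d := by positivity
    exact mul_le_mul_of_nonneg_right (mul_le_mul_of_nonneg_right (h2.trans h3) hn) h4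

/-- Row Phi1. -/
theorem summable_R {R : ℝ} (hR : IsRad R) {j : ℕ} (hj : j ≤ 2) :
    Summable (fun d : ℕ => (d : ℝ) ^ j * n d * R ^ d) := by
  have hR0 : 0 < R := lt_trans one_pos hR.1
  refine Summable.of_nonneg_of_le (fun d => ?_) (fun d => Phi1_term hR hj d) hR.2.summable
  have := Phi1_n_nonneg d
  positivity

private lemma Phi1_norm_le {R : ℝ} (j d : ℕ) {q : ℂ} (hq : ‖q‖ ≤ R) :
    ‖(d : ℂ) ^ j * (n d : ℂ) * q ^ d‖ ≤ (d : ℝ) ^ j * n d * R ^ d := by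
  have hn := Phi1_n_nonneg d
  rw [norm_mul, norm_mul, norm_pow, norm_pow, Complex.norm_natCast, Complex.norm_real,
    Real.norm_of_nonneg hn]
  exact mul_le_mul_of_nonneg_left (pow_le_pow_left₀ (norm_nonneg _) hq d) (by positivity)

/-- Row Phi1. -/
theorem phi_summable {R : ℝ} (hR : IsRad R) {j : ℕ} (hj : j ≤ 2) {q : ℂ} (hq : ‖q‖ ≤ R) :
    Summable (fun d : ℕ => (d : ℂ) ^ j * (n d : ℂ) * q ^ d) :=
  Summable.of_norm_bounded (summable_R hR hj) (fun d => Phi1_norm_le j d hq)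

/-- Row Phi1. -/
theorem phi_bound {R : ℝ} (hR : IsRad R) : ∃ C : ℝ, 0 < C ∧ ∀ j ≤ 2, ∀ q : ℂ, ‖q‖ ≤ R →
    ‖phi j q‖ ≤ C := by
  refine ⟨27, by norm_num, ?_⟩
  intro j hj q hq
  have h1 := tsum_of_norm_bounded (summable_R hR hj).hasSum
    (fun d => Phi1_norm_le (R := R) j d hq)
  refine h1.trans ?_
  have h2 := (summable_R hR hj).tsum_le_tsum (fun d => Phi1_term hR hj d) hR.2.summable
  rwa [hR.2.tsum_eq] at h2

/-- Row Phi1. -/
theorem phi_cont {R : ℝ} (hR : IsRad R) {j : ℕ} (hj : j ≤ 2) :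
    ContinuousOn (phi j) (Metric.closedBall 0 R) := by
  unfold phi
  refine continuousOn_tsum (fun d => ?_) (summable_R hR hj) ?_
  · exact Continuous.continuousOn (by fun_prop)
  · intro d q hq
    exact Phi1_norm_le j d (by simpa using hq)

private lemma Phi1_pow_sub {R : ℝ} (hR0 : 0 < R) {q : ℂ} (hq : ‖q‖ ≤ R) (d : ℕ) :
    ‖q ^ d - (R : ℂ) ^ d‖ ≤ d * R ^ d * (R⁻¹ * ‖q - R‖) := by
  rcases Nat.eq_zero_or_pos d with h | h
  · subst h
    simp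
  · have h1 : q ^ d - (R : ℂ) ^ d = (∑ i ∈ Finset.range d, q ^ i * (R : ℂ) ^ (d - 1 - i)) * (q - R) :=
      ((Commute.all q (R : ℂ)).geom_sum₂_mul d).symm
    have h2 : ‖∑ i ∈ Finset.range d, q ^ i * (R : ℂ) ^ (d - 1 - i)‖ ≤ d * R ^ (d - 1) := by
      refine (norm_sum_le _ _).trans ?_
      have h3 : ∀ i ∈ Finset.range d, ‖q ^ i * (R : ℂ) ^ (d - 1 - i)‖ ≤ R ^ (d - 1) := by
        intro i hi
        have hi' := Finset.mem_range.1 hi
        rw [norm_mul, norm_pow, norm_pow, Complex.norm_real, Real.norm_of_nonneg hR0.le]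
        calc ‖q‖ ^ i * R ^ (d - 1 - i) ≤ R ^ i * R ^ (d - 1 - i) :=
              mul_le_mul_of_nonneg_right (pow_le_pow_left₀ (norm_nonneg _) hq i) (by positivity)
          _ = R ^ (d - 1) := by
              rw [← pow_add]
              congr 1
              omega
      refine (Finset.sum_le_sum h3).trans ?_
      rw [Finset.sum_const, Finset.card_range, nsmul_eq_mul]
    rw [h1, norm_mul]
    have h4 : (d : ℝ) * R ^ d * (R⁻¹ * ‖q - R‖) = d * R ^ (d - 1) * ‖q - R‖ := by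
      obtain ⟨e, rfl⟩ : ∃ e, d = e + 1 := ⟨d - 1, by omega⟩
      rw [Nat.add_sub_cancel, pow_succ]
      field_simp
    rw [h4]
    exact mul_le_mul_of_nonneg_right h2 (norm_nonneg _)

/-- Row Phi1. `‖q ^ d - R ^ d‖ ≤ d R ^ (d - 1) ‖q - R‖`. -/
theorem phi_lip {R : ℝ} (hR : IsRad R) : ∃ C : ℝ, 0 < C ∧ ∀ j ≤ 1, ∀ q : ℂ, ‖q‖ ≤ R →
    ‖phi j q - phi j R‖ ≤ C * ‖q - R‖ := by
  have hR0 : 0 < R := lt_trans one_pos hR.1
  refine ⟨27 * R⁻¹, by positivity, ?_⟩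
  intro j hj q hq
  have hRn : ‖(R : ℂ)‖ ≤ R := by
    rw [Complex.norm_real, Real.norm_of_nonneg hR0.le]
  have hs1 := phi_summable hR (j := j) (by omega) hq
  have hs2 := phi_summable hR (j := j) (by omega) hRn
  unfold phi
  rw [← hs1.tsum_sub hs2]
  have hb : ∀ d : ℕ, ‖(d : ℂ) ^ j * (n d : ℂ) * q ^ d - (d : ℂ) ^ j * (n d : ℂ) * (R : ℂ) ^ d‖ ≤
      (d : ℝ) ^ (j + 1) * n d * R ^ d * (R⁻¹ * ‖q - R‖) := by
    intro d
    have hn := Phi1_n_nonneg d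
    rw [← mul_sub, norm_mul, norm_mul, norm_pow, Complex.norm_natCast, Complex.norm_real,
      Real.norm_of_nonneg hn]
    calc (d : ℝ) ^ j * n d * ‖q ^ d - (R : ℂ) ^ d‖
        ≤ (d : ℝ) ^ j * n d * (d * R ^ d * (R⁻¹ * ‖q - R‖)) :=
          mul_le_mul_of_nonneg_left (Phi1_pow_sub hR0 hq d) (by positivity)
      _ = _ := by ring
  have hs := summable_R hR (j := j + 1) (by omega)
  have h1 := tsum_of_norm_bounded (hs.mul_right (R⁻¹ * ‖q - R‖)).hasSum hb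
  refine h1.trans ?_
  rw [tsum_mul_right]
  have h2 := hs.tsum_le_tsum (fun d => Phi1_term hR (by omega) d) hR.2.summable
  rw [hR.2.tsum_eq] at h2
  calc _ ≤ 27 * (R⁻¹ * ‖q - R‖) := mul_le_mul_of_nonneg_right h2 (by positivity)
    _ = _ := by ring

end Pool.Agent.PlaneGT
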