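import Pool.Agent.Lib.MP_6aab98_ag.GT.Phi1

/-! # MP_6aab98_ag GT, row Phi2 -/

namespace Pool.Agent.PlaneGT

open Finset Filter Topology Asymptotics
open scoped Nat

theorem Phi2_summable_real {R : ℝ} (hR : IsRad R) (j : ℕ) {r : ℝ} (h0 : 0 ≤ r) (hr : r < R) :
    Summable (fun d : ℕ => (d : ℝ) ^ j * n d * r ^ d) := by
  have hR0 : 0 < R := lt_trans one_pos hR.1
  have hs := summable_R hR (j := 0) (by norm_num)
  have hnn : ∀ d : ℕ, 0 ≤ (d : ℝ) ^ 0 * n d * R ^ d := fun d =>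
    mul_nonneg (mul_nonneg (by positivity) (n_nonneg d)) (by positivity)
  set C := ∑' d : ℕ, (d : ℝ) ^ 0 * n d * R ^ d with hC
  have hle : ∀ d : ℕ, n d * R ^ d ≤ C := by
    intro d
    have := hs.le_tsum d (fun k _ => hnn k)
    rw [← hC, pow_zero, one_mul] at this
    exact this
  have hq : ‖r / R‖ < 1 := by
    rw [Real.norm_of_nonneg (by positivity), div_lt_one hR0]
    exact hr
  have hg := (summable_pow_mul_geometric_of_norm_lt_one j hq).mul_left C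
  refine Summable.of_nonneg_of_le
    (fun d => mul_nonneg (mul_nonneg (by positivity) (n_nonneg d)) (by positivity)) ?_ hg
  intro d
  have h1 : (d : ℝ) ^ j * n d * r ^ d = (n d * R ^ d) * ((d : ℝ) ^ j * (r / R) ^ d) := by
    rw [div_pow]
    field_simp
  rw [h1]
  exact mul_le_mul_of_nonneg_right (hle d) (by positivity)

theorem Phi2_norm_term (j d : ℕ) (q : ℂ) :
    ‖(d : ℂ) ^ j * (n d : ℂ) * q ^ d‖ = (d : ℝ) ^ j * n d * ‖q‖ ^ d := by
  rw [norm_mul, norm_mul, norm_pow, norm_pow, Complex.norm_natCast, Complex.norm_real,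
    Real.norm_of_nonneg (n_nonneg d)]

/-- Row Phi2. -/
theorem phi_summable' {R : ℝ} (hR : IsRad R) (j : ℕ) {q : ℂ} (hq : ‖q‖ < R) :
    Summable (fun d : ℕ => (d : ℂ) ^ j * (n d : ℂ) * q ^ d) := by
  refine Summable.of_norm ?_
  have := Phi2_summable_real hR j (norm_nonneg q) hq
  refine this.congr fun d => (Phi2_norm_term j d q).symm

/-- Row Phi2. -/
theorem phi_deriv {R : ℝ} (hR : IsRad R) (j : ℕ) {q : ℂ} (h0 : q ≠ 0) (hq : ‖q‖ < R) :
    HasDerivAt (phi j) (phi (j + 1) q / q) q := by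
  obtain ⟨ρ, hρ1, hρ2⟩ := exists_between hq
  have hρ0 : 0 < ρ := lt_of_le_of_lt (norm_nonneg q) hρ1
  have hu : Summable (fun d : ℕ => ((d : ℝ) ^ (j + 1) * n d * ρ ^ d) / ρ) :=
    (Phi2_summable_real hR (j + 1) hρ0.le hρ2).div_const ρ
  have hmem : q ∈ Metric.ball (0 : ℂ) ρ := by simpa using hρ1
  have key := hasDerivAt_tsum_of_isPreconnected
    (g := fun (d : ℕ) (z : ℂ) => (d : ℂ) ^ j * (n d : ℂ) * z ^ d)
    (g' := fun (d : ℕ) (z : ℂ) => (d : ℂ) ^ j * (n d : ℂ) * ((d : ℂ) * z ^ (d - 1)))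
    (t := Metric.ball (0 : ℂ) ρ) (y₀ := q) (y := q) hu Metric.isOpen_ball
    (convex_ball (0 : ℂ) ρ).isPreconnected
    (fun d z _ => (hasDerivAt_pow d z).const_mul _) ?_ hmem (phi_summable' hR j hq) hmem
  · have e : ∑' d : ℕ, (d : ℂ) ^ j * (n d : ℂ) * ((d : ℂ) * q ^ (d - 1)) = phi (j + 1) q / q := by
      unfold phi
      rw [← tsum_div_const]
      refine tsum_congr fun d => ?_
      rcases d with _ | d
      · simp
      · rw [Nat.add_sub_cancel, pow_succ q d, pow_succ (((d + 1 : ℕ) : ℂ)) j]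
        field_simp
    rw [e] at key
    exact key
  · intro d z hz
    have hz' : ‖z‖ ≤ ρ := by
      have : ‖z‖ < ρ := by simpa using hz
      exact this.le
    rw [norm_mul, norm_mul, norm_mul, norm_pow, norm_pow, Complex.norm_natCast, Complex.norm_real,
      Real.norm_of_nonneg (n_nonneg d)]
    rcases d with _ | d
    · simp
    · rw [Nat.add_sub_cancel]
      have h1 : ‖z‖ ^ d ≤ ρ ^ d := pow_le_pow_left₀ (norm_nonneg z) hz' d
      have h2 : ((d + 1 : ℕ) : ℝ) ^ (j + 1) * n (d + 1) * ρ ^ (d + 1) / ρ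
          = ((d + 1 : ℕ) : ℝ) ^ j * n (d + 1) * (((d + 1 : ℕ) : ℝ) * ρ ^ d) := by
        rw [pow_succ ρ d, pow_succ (((d + 1 : ℕ) : ℝ)) j]
        field_simp
      rw [h2]
      exact mul_le_mul_of_nonneg_left (mul_le_mul_of_nonneg_left h1 (by positivity))
        (mul_nonneg (by positivity) (n_nonneg _))

/-- Row Phi2. -/
theorem phi_near_zero {R : ℝ} (hR : IsRad R) : ∃ C : ℝ, 0 < C ∧ ∀ j ≤ 2, ∀ q : ℂ, ‖q‖ ≤ 1 →
    ‖phi j q - q / 2‖ ≤ C * ‖q‖ ^ 2 := by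
  have hs := Phi2_summable_real hR 2 (zero_le_one) hR.1
  have hnn : ∀ d : ℕ, 0 ≤ (d : ℝ) ^ 2 * n d * 1 ^ d := fun d =>
    mul_nonneg (mul_nonneg (by positivity) (n_nonneg d)) (by positivity)
  have hs2 : Summable (fun d : ℕ => ((d + 2 : ℕ) : ℝ) ^ 2 * n (d + 2) * 1 ^ (d + 2)) :=
    (summable_nat_add_iff (f := fun d : ℕ => (d : ℝ) ^ 2 * n d * 1 ^ d) 2).2 hs
  have hT0 : 0 ≤ ∑' d : ℕ, ((d + 2 : ℕ) : ℝ) ^ 2 * n (d + 2) * 1 ^ (d + 2) :=
    tsum_nonneg fun d => hnn (d + 2)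
  refine ⟨(∑' d : ℕ, ((d + 2 : ℕ) : ℝ) ^ 2 * n (d + 2) * 1 ^ (d + 2)) + 1, by linarith, ?_⟩
  intro j hj q hq
  have hqR : ‖q‖ < R := lt_of_le_of_lt hq hR.1
  have hf := phi_summable' hR j hqR
  have h1 := hf.sum_add_tsum_nat_add 2
  have h2 : phi j q - q / 2 = ∑' d : ℕ, (((d + 2 : ℕ) : ℂ) ^ j * (n (d + 2) : ℂ) * q ^ (d + 2)) := by
    unfold phi
    rw [← h1, Finset.sum_range_succ, Finset.sum_range_one, n_zero, n_one]
    push_cast
    simp only [one_pow, mul_zero, zero_mul, pow_one, zero_add, one_mul]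
    ring
  rw [h2]
  have hfs : Summable (fun d : ℕ => ‖((d + 2 : ℕ) : ℂ) ^ j * (n (d + 2) : ℂ) * q ^ (d + 2)‖) := by
    have := (summable_nat_add_iff (f := fun d : ℕ => (d : ℝ) ^ j * n d * ‖q‖ ^ d) 2).2
      (Phi2_summable_real hR j (norm_nonneg q) hqR)
    refine this.congr fun d => (Phi2_norm_term j (d + 2) q).symm
  refine (norm_tsum_le_tsum_norm hfs).trans ?_
  have h3 : ∑' d : ℕ, ‖((d + 2 : ℕ) : ℂ) ^ j * (n (d + 2) : ℂ) * q ^ (d + 2)‖
      ≤ ∑' d : ℕ, (((d + 2 : ℕ) : ℝ) ^ 2 * n (d + 2) * 1 ^ (d + 2)) * ‖q‖ ^ 2 := by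
    refine hfs.tsum_le_tsum ?_ (hs2.mul_right _)
    intro d
    rw [Phi2_norm_term]
    have ha : ((d + 2 : ℕ) : ℝ) ^ j ≤ ((d + 2 : ℕ) : ℝ) ^ 2 :=
      pow_le_pow_right₀ (by push_cast; linarith [(Nat.cast_nonneg d : (0 : ℝ) ≤ d)]) hj
    have hb : ‖q‖ ^ (d + 2) ≤ ‖q‖ ^ 2 :=
      pow_le_pow_of_le_one (norm_nonneg q) hq (by omega)
    rw [one_pow, mul_one]
    refine mul_le_mul (mul_le_mul_of_nonneg_right ha (n_nonneg _)) hb (by positivity)
      (mul_nonneg (by positivity) (n_nonneg _))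
  refine h3.trans ?_
  rw [tsum_mul_right]
  have : 0 ≤ ‖q‖ ^ 2 := by positivity
  nlinarith

end Pool.Agent.PlaneGT
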