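import Pool.Agent.Lib.MP_6aab98_ag.GT.Gz2

/-! # MP_6aab98_ag GT, row Rad1 -/

namespace Pool.Agent.PlaneGT

open Finset Filter Topology Asymptotics
open scoped Nat

/-- partial sums of `∑ (3 d ^ 2 - 2 d) n_d r ^ d` -/
noncomputable def SS (m : ℕ) (r : ℝ) : ℝ := ∑ d ∈ range (m + 1), (3 * (d : ℝ) ^ 2 - 2 * d) * n d * r ^ d

/-- partial sums of `∑ d ^ 3 n_d r ^ d` -/
noncomputable def TT (m : ℕ) (r : ℝ) : ℝ := ∑ d ∈ range (m + 1), (d : ℝ) ^ 3 * n d * r ^ d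

private theorem Rad1_sum (m : ℕ) (F : ℕ → ℕ → ℝ) (h0 : ∀ i j, 0 ≤ F i j) (h1 : ∀ j, F 0 j = 0)
    (h2 : ∀ i, F i 0 = 0) :
    ∑ d ∈ range (m + 1), ∑ p ∈ HasAntidiagonal.antidiagonal d, F p.1 p.2 ≤
      ∑ i ∈ range m, ∑ j ∈ range m, F i j := by
  have key : ∀ d ∈ range (m + 1), ∑ p ∈ HasAntidiagonal.antidiagonal d, F p.1 p.2 =
      ∑ p ∈ range m ×ˢ range m, if p.1 + p.2 = d then F p.1 p.2 else 0 := by
    intro d hd
    rw [mem_range] at hd
    rw [← Finset.sum_filter]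
    have e : (range m ×ˢ range m).filter (fun p => p.1 + p.2 = d) =
        (HasAntidiagonal.antidiagonal d).filter (fun p : ℕ × ℕ => p ∈ range m ×ˢ range m) := by
      ext p
      rw [Finset.mem_filter, Finset.mem_filter, HasAntidiagonal.mem_antidiagonal, and_comm]
    rw [e]
    refine (Finset.sum_filter_of_ne ?_).symm
    intro p hp hne
    rw [HasAntidiagonal.mem_antidiagonal] at hp
    rw [Finset.mem_product, mem_range, mem_range]
    have h3 : p.1 ≠ 0 := by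
      intro h
      apply hne
      rw [h, h1]
    have h4 : p.2 ≠ 0 := by
      intro h
      apply hne
      rw [h, h2]
    omega
  have e2 : ∑ i ∈ range m, ∑ j ∈ range m, F i j = ∑ p ∈ range m ×ˢ range m, F p.1 p.2 :=
    (Finset.sum_product' (range m) (range m) F).symm
  rw [Finset.sum_congr rfl key, Finset.sum_comm, e2]
  apply Finset.sum_le_sum
  intro p _
  rw [Finset.sum_ite_eq]
  split_ifs
  · exact le_rfl
  · exact h0 _ _

/-- Row Rad1. From `n_rec` summed over `d ≤ m` with weights `s ^ d` (all products of terms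
`i + j ≤ m`, with `i, j ≥ 1` as `n 0 = 0`, are among the products of the partial sums up to
`m - 1`): `27 T_m ≤ 54 P_m + P_{m-1} ^ 2 + S_{m-1} T_{m-1}` with `P_m = ∑_{d ≤ m} d ^ 2 n_d s ^ d`,
`P_m ≤ P_{m-1} + T_m / m` and `P_{m-1} ≤ S_{m-1} ≤ 27`, `T_{m-1} ≤ T_m`. -/
theorem TT_le {m : ℕ} (hm : 1 ≤ m) {s : ℝ} (hs : 0 ≤ s) (h27 : SS (m - 1) s ≤ 27) :
    (27 - 54 / m - SS (m - 1) s) * TT m s ≤ 54 * 27 + 27 ^ 2 := by
  have hm0 : (0 : ℝ) < m := by exact_mod_cast hm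
  have hm1 : m - 1 + 1 = m := by omega
  have hd1 : ∀ d : ℕ, d ≠ 0 → (1 : ℝ) ≤ d := fun d hd => by
    exact_mod_cast Nat.one_le_iff_ne_zero.2 hd
  -- signs of the terms
  have hb : ∀ d : ℕ, 0 ≤ (3 * (d : ℝ) ^ 2 - 2 * d) * n d * s ^ d := by
    intro d
    by_cases hd : d = 0
    · rw [hd]; simp
    · have h1 := hd1 d hd
      have h2 : (0 : ℝ) ≤ 3 * (d : ℝ) ^ 2 - 2 * d := by nlinarith
      exact mul_nonneg (mul_nonneg h2 (n_nonneg d)) (pow_nonneg hs d)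
  have hc : ∀ d : ℕ, 0 ≤ (d : ℝ) ^ 3 * n d * s ^ d := fun d =>
    mul_nonneg (mul_nonneg (by positivity) (n_nonneg d)) (pow_nonneg hs d)
  have ha : ∀ d : ℕ, 0 ≤ (d : ℝ) ^ 2 * n d * s ^ d := fun d =>
    mul_nonneg (mul_nonneg (by positivity) (n_nonneg d)) (pow_nonneg hs d)
  set PP : ℕ → ℝ := fun k => ∑ d ∈ range (k + 1), (d : ℝ) ^ 2 * n d * s ^ d with hPP
  -- the summed recursion
  have hrec : 27 * TT m s ≤ 54 * PP m + (PP (m - 1) ^ 2 + SS (m - 1) s * TT (m - 1) s) := by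
    have h1 : ∀ d ∈ range (m + 1), (27 * ((d : ℝ) ^ 3 * n d * s ^ d) -
        54 * ((d : ℝ) ^ 2 * n d * s ^ d)) ≤
        ∑ p ∈ HasAntidiagonal.antidiagonal d,
          (((p.1 : ℝ) ^ 2 * n p.1 * s ^ p.1) * ((p.2 : ℝ) ^ 2 * n p.2 * s ^ p.2) +
            ((3 * (p.1 : ℝ) ^ 2 - 2 * p.1) * n p.1 * s ^ p.1) *
              ((p.2 : ℝ) ^ 3 * n p.2 * s ^ p.2)) := by
      intro d _
      have h2 : ∑ p ∈ HasAntidiagonal.antidiagonal d,
          (((p.1 : ℝ) ^ 2 * n p.1 * s ^ p.1) * ((p.2 : ℝ) ^ 2 * n p.2 * s ^ p.2) +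
            ((3 * (p.1 : ℝ) ^ 2 - 2 * p.1) * n p.1 * s ^ p.1) *
              ((p.2 : ℝ) ^ 3 * n p.2 * s ^ p.2)) =
          (27 * (d : ℝ) ^ 3 - 54 * (d : ℝ) ^ 2 + 33 * d - 6) * n d * s ^ d := by
        rw [n_rec, Finset.sum_mul]
        refine Finset.sum_congr rfl fun p hp => ?_
        rw [HasAntidiagonal.mem_antidiagonal] at hp
        rw [← hp, pow_add]
        ring
      rw [h2]
      by_cases hd : d = 0
      · rw [hd, n_zero]; simp
      · have h3 := hd1 d hd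
        have h4 : 0 ≤ (33 * (d : ℝ) - 6) * (n d * s ^ d) :=
          mul_nonneg (by linarith) (mul_nonneg (n_nonneg d) (pow_nonneg hs d))
        nlinarith
    have h2 := Finset.sum_le_sum h1
    rw [Finset.sum_sub_distrib, ← Finset.mul_sum, ← Finset.mul_sum] at h2
    have h3 := Rad1_sum m (fun i j => ((i : ℝ) ^ 2 * n i * s ^ i) * ((j : ℝ) ^ 2 * n j * s ^ j) +
      ((3 * (i : ℝ) ^ 2 - 2 * i) * n i * s ^ i) * ((j : ℝ) ^ 3 * n j * s ^ j))
      (fun i j => add_nonneg (mul_nonneg (ha i) (ha j)) (mul_nonneg (hb i) (hc j)))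
      (fun j => by simp [n_zero]) (fun i => by simp [n_zero])
    have h4 : ∑ i ∈ range m, ∑ j ∈ range m,
        (((i : ℝ) ^ 2 * n i * s ^ i) * ((j : ℝ) ^ 2 * n j * s ^ j) +
        ((3 * (i : ℝ) ^ 2 - 2 * i) * n i * s ^ i) * ((j : ℝ) ^ 3 * n j * s ^ j)) =
        PP (m - 1) ^ 2 + SS (m - 1) s * TT (m - 1) s := by
      simp only [hPP, SS, TT, hm1]
      rw [sq, Finset.sum_mul_sum, Finset.sum_mul_sum, ← Finset.sum_add_distrib]
      refine Finset.sum_congr rfl fun i _ => ?_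
      rw [← Finset.sum_add_distrib]
    have h5 := h2.trans h3
    rw [h4] at h5
    change 27 * TT m s - 54 * PP m ≤ _ at h5
    linarith
  have hT0 : 0 ≤ TT m s := Finset.sum_nonneg fun d _ => hc d
  have hS0 : 0 ≤ SS (m - 1) s := Finset.sum_nonneg fun d _ => hb d
  have hP0 : 0 ≤ PP (m - 1) := Finset.sum_nonneg fun d _ => ha d
  -- `P_m ≤ P_{m-1} + T_m / m`
  have hPm : PP m ≤ PP (m - 1) + TT m s / m := by
    have h1 : PP m = PP (m - 1) + (m : ℝ) ^ 2 * n m * s ^ m := by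
      simp only [hPP]
      rw [Finset.sum_range_succ, hm1]
    have h2 : (m : ℝ) ^ 3 * n m * s ^ m ≤ TT m s :=
      Finset.single_le_sum (f := fun d : ℕ => (d : ℝ) ^ 3 * n d * s ^ d) (fun d _ => hc d)
        (Finset.mem_range.2 (Nat.lt_succ_self m))
    rw [h1]
    have h3 : (m : ℝ) ^ 2 * n m * s ^ m ≤ TT m s / m := by
      rw [le_div_iff₀ hm0]
      calc (m : ℝ) ^ 2 * n m * s ^ m * m = (m : ℝ) ^ 3 * n m * s ^ m := by ring
        _ ≤ TT m s := h2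
    linarith
  -- `P_{m-1} ≤ S_{m-1}`
  have hPS : PP (m - 1) ≤ SS (m - 1) s := by
    refine Finset.sum_le_sum fun d _ => ?_
    refine mul_le_mul_of_nonneg_right ?_ (pow_nonneg hs d)
    refine mul_le_mul_of_nonneg_right ?_ (n_nonneg d)
    by_cases hd : d = 0
    · rw [hd]; simp
    · have h1 := hd1 d hd
      nlinarith
  -- `T_{m-1} ≤ T_m`
  have hTT : TT (m - 1) s ≤ TT m s := by
    unfold TT
    refine Finset.sum_le_sum_of_subset_of_nonneg ?_ fun d _ _ => hc d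
    exact Finset.range_mono (by omega)
  have hP27 : PP (m - 1) ≤ 27 := hPS.trans h27
  have h6 : PP (m - 1) ^ 2 ≤ 27 ^ 2 := pow_le_pow_left₀ hP0 hP27 2
  have h7 : SS (m - 1) s * TT (m - 1) s ≤ SS (m - 1) s * TT m s :=
    mul_le_mul_of_nonneg_left hTT hS0
  have h8 : (27 - 54 / m - SS (m - 1) s) * TT m s =
      27 * TT m s - 54 * (TT m s / m) - SS (m - 1) s * TT m s := by
    field_simp
  rw [h8]
  linarith

end Pool.Agent.PlaneGT
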