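import Pool.Agent.Lib.MP_6aab98_ag.GT.Rad1

/-! # MP_6aab98_ag GT, row Rad2 -/

namespace Pool.Agent.PlaneGT

open Finset Filter Topology Asymptotics
open scoped Nat

private theorem Rad2_coef (d : ℕ) : 0 ≤ 3 * (d : ℝ) ^ 2 - 2 * d := by
  rcases Nat.eq_zero_or_pos d with h | h
  · subst h; simp
  · have h1 : (1 : ℝ) ≤ d := by exact_mod_cast h
    nlinarith

private theorem Rad2_mono {s : ℝ} (hs : 0 ≤ s) {a b : ℕ} (hab : a ≤ b) : SS a s ≤ SS b s := by
  unfold SS
  apply Finset.sum_le_sum_of_subset_of_nonneg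
  · intro x hx
    simp only [Finset.mem_range] at hx ⊢
    omega
  · intro i _ _
    have := Rad2_coef i
    have := n_nonneg i
    positivity

private theorem Rad2_TT_nonneg {s : ℝ} (hs : 0 ≤ s) (m : ℕ) : 0 ≤ TT m s := by
  unfold TT
  apply Finset.sum_nonneg
  intro i _
  have := n_nonneg i
  positivity

private theorem Rad2_pow {R r : ℝ} (hR : 0 < R) (hr : R ≤ r) (d : ℕ) :
    r ^ d - R ^ d ≤ d * r ^ d * ((r - R) / R) := by
  induction d with
  | zero => simp
  | succ d ih =>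
    have hr0 : 0 < r := lt_of_lt_of_le hR hr
    have h1 : r ^ (d + 1) - R ^ (d + 1) = r * (r ^ d - R ^ d) + R ^ d * (r - R) := by ring
    rw [h1]
    have h2 : r * (r ^ d - R ^ d) ≤ r * (d * r ^ d * ((r - R) / R)) :=
      mul_le_mul_of_nonneg_left ih hr0.le
    have h3 : R ^ d * (r - R) ≤ r ^ (d + 1) * ((r - R) / R) := by
      have h4 : R ^ d * (r - R) = R ^ (d + 1) * ((r - R) / R) := by
        rw [pow_succ, mul_div_assoc', mul_comm (R ^ d) R, mul_assoc, mul_div_assoc, mul_comm R,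
          div_mul_cancel₀ _ hR.ne']
      rw [h4]
      apply mul_le_mul_of_nonneg_right
      · exact pow_le_pow_left₀ hR.le hr _
      · exact div_nonneg (by linarith) hR.le
    calc r * (r ^ d - R ^ d) + R ^ d * (r - R)
        ≤ r * (d * r ^ d * ((r - R) / R)) + r ^ (d + 1) * ((r - R) / R) := add_le_add h2 h3
      _ = ((d + 1 : ℕ) : ℝ) * r ^ (d + 1) * ((r - R) / R) := by push_cast; ring

private theorem Rad2_diff {R r : ℝ} (hR : 0 < R) (hr : R ≤ r) (m : ℕ) :
    SS m r ≤ SS m R + 3 * TT m r * ((r - R) / R) := by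
  unfold SS TT
  rw [Finset.mul_sum, Finset.sum_mul, ← Finset.sum_add_distrib]
  apply Finset.sum_le_sum
  intro d _
  have hr0 : 0 < r := lt_of_lt_of_le hR hr
  have h1 := Rad2_pow hR hr d
  have h2 := Rad2_coef d
  have h3 := n_nonneg d
  have h4 : (3 * (d : ℝ) ^ 2 - 2 * d) * n d * (r ^ d - R ^ d) ≤
      (3 * (d : ℝ) ^ 2 - 2 * d) * n d * (d * r ^ d * ((r - R) / R)) :=
    mul_le_mul_of_nonneg_left h1 (mul_nonneg h2 h3)
  have h5 : (3 * (d : ℝ) ^ 2 - 2 * d) * n d * (d * r ^ d * ((r - R) / R)) ≤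
      3 * (d : ℝ) ^ 2 * n d * (d * r ^ d * ((r - R) / R)) := by
    apply mul_le_mul_of_nonneg_right
    · apply mul_le_mul_of_nonneg_right _ h3
      have : (0 : ℝ) ≤ d := Nat.cast_nonneg d
      linarith
    · have : 0 ≤ (r - R) / R := div_nonneg (by linarith) hR.le
      positivity
  have h6 : 3 * ((d : ℝ) ^ 3 * n d * r ^ d) * ((r - R) / R) =
      3 * (d : ℝ) ^ 2 * n d * (d * r ^ d * ((r - R) / R)) := by ring
  rw [h6]
  have h7 : (3 * (d : ℝ) ^ 2 - 2 * d) * n d * (r ^ d - R ^ d) =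
      (3 * (d : ℝ) ^ 2 - 2 * d) * n d * r ^ d - (3 * (d : ℝ) ^ 2 - 2 * d) * n d * R ^ d := by ring
  linarith

/-- Row Rad2. If `S_m(R) ≤ 27 - δ` for all `m` then `S_m(r) ≤ 27` for all `m` for some `r > R`.
Choose `M ≥ 1` with `54 / M ≤ δ / 4`, then `r > R` (close to `R`) with `S_M(r) ≤ 27 - δ / 2` (continuity) and
`3 C (r - R) / R ≤ δ / 2`, `C = (54 * 27 + 27 ^ 2) / (δ / 4)`. By induction `S_m(s) ≤ 27 - δ/2`
for all `s ∈ [R, r]` and all `m`: for `m ≤ M` by monotonicity, and if `m > M`,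
`T_m(s) ≤ C` by `TT_le`, and `S_m(s) - S_m(R) ≤ 3 T_m(s) (s - R) / s` from
`s ^ d - R ^ d ≤ d s ^ (d - 1) (s - R)`. -/
theorem SS_extend {R δ : ℝ} (hR : 0 < R) (hδ : 0 < δ) (h : ∀ m, SS m R ≤ 27 - δ) :
    ∃ r, R < r ∧ ∀ m, SS m r ≤ 27 := by
  obtain ⟨M, hM⟩ := exists_nat_gt (216 / δ)
  have hM0 : (0 : ℝ) < M := lt_trans (by positivity) hM
  have hM1 : 54 / (M : ℝ) ≤ δ / 4 := by
    rw [div_le_div_iff₀ hM0 (by norm_num)]
    rw [div_lt_iff₀ hδ] at hM
    linarith
  have hMpos : 1 ≤ M := by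
    have : (0 : ℝ) < (M : ℝ) := hM0
    exact_mod_cast this
  obtain ⟨C, hC⟩ : ∃ C : ℝ, C = (54 * 27 + 27 ^ 2) / (δ / 4) := ⟨_, rfl⟩
  have hC0 : 0 < C := by rw [hC]; positivity
  have hcont : Continuous (fun s : ℝ => SS M s) := by
    unfold SS
    fun_prop
  have hev1 : ∀ᶠ s in 𝓝[>] R, SS M s < 27 - δ / 2 := by
    have h1 : Tendsto (fun s : ℝ => SS M s) (𝓝[>] R) (𝓝 (SS M R)) :=
      (hcont.tendsto R).mono_left nhdsWithin_le_nhds
    apply h1.eventually (Iio_mem_nhds _)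
    have := h M
    linarith
  have hev2 : ∀ᶠ s in 𝓝[>] R, 3 * C * ((s - R) / R) < δ / 2 := by
    have h1 : Continuous (fun s : ℝ => 3 * C * ((s - R) / R)) := by fun_prop
    have h2 : Tendsto (fun s : ℝ => 3 * C * ((s - R) / R)) (𝓝[>] R) (𝓝 (3 * C * ((R - R) / R))) :=
      (h1.tendsto R).mono_left nhdsWithin_le_nhds
    apply h2.eventually (Iio_mem_nhds _)
    rw [sub_self, zero_div, mul_zero]
    positivity
  obtain ⟨r, hr1, hr2, hr3⟩ := (hev1.and (hev2.and self_mem_nhdsWithin)).exists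
  have hRr : R < r := hr3
  have hr0 : 0 < r := hR.trans hRr
  refine ⟨r, hRr, ?_⟩
  have key : ∀ m, SS m r ≤ 27 - δ / 2 := by
    intro m
    induction m with
    | zero =>
      exact (Rad2_mono hr0.le (Nat.zero_le M)).trans hr1.le
    | succ m ih =>
      rcases Nat.lt_or_ge M (m + 1) with hm | hm
      · have h27 : SS (m + 1 - 1) r ≤ 27 := by
          rw [Nat.add_sub_cancel]
          linarith
        have hT := TT_le (m := m + 1) (by omega) hr0.le h27
        rw [Nat.add_sub_cancel] at hT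
        have hTn := Rad2_TT_nonneg hr0.le (m + 1)
        have h54 : 54 / ((m + 1 : ℕ) : ℝ) ≤ δ / 4 := by
          refine le_trans ?_ hM1
          apply div_le_div_of_nonneg_left (by norm_num) hM0
          exact_mod_cast hm.le
        have hT2 : δ / 4 * TT (m + 1) r ≤ 54 * 27 + 27 ^ 2 := by
          refine le_trans ?_ hT
          apply mul_le_mul_of_nonneg_right _ hTn
          linarith
        have hT3 : TT (m + 1) r ≤ C := by
          rw [hC, le_div_iff₀ (by positivity)]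
          linarith
        have hd := Rad2_diff hR hRr.le (m + 1)
        have hx : 0 ≤ (r - R) / R := div_nonneg (by linarith) hR.le
        have hd2 : 3 * TT (m + 1) r * ((r - R) / R) ≤ 3 * C * ((r - R) / R) := by
          apply mul_le_mul_of_nonneg_right _ hx
          linarith
        have hh := h (m + 1)
        linarith
      · exact (Rad2_mono hr0.le hm).trans hr1.le
  intro m
  have := key m
  linarith

end Pool.Agent.PlaneGT
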