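import Pool.Agent.Lib.MP_6aab98_ag.GT.Base

/-! # MP_6aab98_ag GT, row Rts1 -/

namespace Pool.Agent.PlaneGT

open Finset Filter Topology Asymptotics
open scoped Nat

/-- `u` enumerates the roots of the characteristic polynomial of `Emat` (Vieta) -/
structure IsRts (f0 f1 f2 : ℂ) (u : Fin 3 → ℂ) : Prop where
  s1 : u 0 + u 1 + u 2 = f2
  s2 : u 0 * u 1 + u 0 * u 2 + u 1 * u 2 =
    (27 * f2 - 27 * f1 + 6 * f0) - 6 * (6 * f2 - 2 * f1)
  s3 : u 0 * u 1 * u 2 = -((6 * f2 - 2 * f1) ^ 2 - 9 * (27 * f2 - 27 * f1 + 6 * f0)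
    - (27 * f2 - 27 * f1 + 6 * f0) * f2)

/-- the characteristic polynomial -/
theorem Rts1_det (q s : ℂ) : (s • 1 - Emat q).det = s ^ 3 - phi 2 q * s ^ 2 +
    ((27 * phi 2 q - 27 * phi 1 q + 6 * phi 0 q) - 6 * (6 * phi 2 q - 2 * phi 1 q)) * s +
    ((6 * phi 2 q - 2 * phi 1 q) ^ 2 - 9 * (27 * phi 2 q - 27 * phi 1 q + 6 * phi 0 q)
    - (27 * phi 2 q - 27 * phi 1 q + 6 * phi 0 q) * phi 2 q) := by
  rw [Matrix.det_fin_three]
  simp [Emat, ca, cb]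
  ring

/-- permutations with given values -/
theorem Rts1_perm : ∀ a b c : Fin 3, a ≠ b → a ≠ c → b ≠ c →
    ∃ σ : Equiv.Perm (Fin 3), σ 0 = a ∧ σ 1 = b ∧ σ 2 = c := by
  decide

/-- Row Rts. Determinant of a 3 by 3 matrix, Vieta. -/
theorem isRts_iff (q : ℂ) (u : Fin 3 → ℂ) :
    (∀ s : ℂ, (s • 1 - Emat q).det = ∏ i, (s - u i)) ↔ IsRts (phi 0 q) (phi 1 q) (phi 2 q) u := by
  simp only [Rts1_det, Fin.prod_univ_three]
  constructor
  · intro h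
    have h0 := h 0
    have h1 := h 1
    have h2 := h (-1)
    refine ⟨?_, ?_, ?_⟩
    · linear_combination (1 / 2) * h1 + (1 / 2) * h2 - h0
    · linear_combination (-1 / 2) * h1 + (1 / 2) * h2
    · linear_combination h0
  · rintro ⟨h1, h2, h3⟩ s
    linear_combination s ^ 2 * h1 - s * h2 + h3

/-- Row Rts. Every cubic over `ℂ` splits. -/
theorem exists_isRts (f0 f1 f2 : ℂ) : ∃ u, IsRts f0 f1 f2 u := by
  set B : ℂ := (27 * f2 - 27 * f1 + 6 * f0) - 6 * (6 * f2 - 2 * f1) with hB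
  set c : ℂ := (6 * f2 - 2 * f1) ^ 2 - 9 * (27 * f2 - 27 * f1 + 6 * f0)
    - (27 * f2 - 27 * f1 + 6 * f0) * f2 with hc
  obtain ⟨a, ha⟩ : ∃ a : ℂ, a ^ 3 - f2 * a ^ 2 + B * a + c = 0 := by
    have hd : (Polynomial.X ^ 3 - Polynomial.C f2 * Polynomial.X ^ 2 +
        Polynomial.C B * Polynomial.X + Polynomial.C c : Polynomial ℂ).degree = 3 := by
      compute_degree!
    obtain ⟨a, ha⟩ := IsAlgClosed.exists_root (Polynomial.X ^ 3 - Polynomial.C f2 *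
      Polynomial.X ^ 2 + Polynomial.C B * Polynomial.X + Polynomial.C c : Polynomial ℂ)
      (by rw [hd]; decide)
    refine ⟨a, ?_⟩
    simpa [Polynomial.IsRoot] using ha
  obtain ⟨z, hz⟩ := IsAlgClosed.exists_pow_nat_eq
    ((f2 - a) ^ 2 - 4 * (B - a * (f2 - a))) (n := 2) (by norm_num)
  refine ⟨![a, ((f2 - a) + z) / 2, ((f2 - a) - z) / 2], ?_, ?_, ?_⟩
  · simp
    ring
  · simp
    linear_combination (-1 / 4) * hz
  · simp
    linear_combination (-a / 4) * hz + ha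

/-- Row Rts. -/
theorem uq_isRts (q : ℂ) : IsRts (phi 0 q) (phi 1 q) (phi 2 q) (uq q) := by
  rw [← isRts_iff]
  obtain ⟨u, hu⟩ := exists_isRts (phi 0 q) (phi 1 q) (phi 2 q)
  exact Classical.epsilon_spec (p := fun u : Fin 3 → ℂ =>
    ∀ s : ℂ, (s • 1 - Emat q).det = ∏ i, (s - u i)) ⟨u, (isRts_iff q u).2 hu⟩

/-- Row Rts. The discriminant. -/
theorem IsRts.disc {f0 f1 f2 : ℂ} {u : Fin 3 → ℂ} (h : IsRts f0 f1 f2 u) :
    ((u 0 - u 1) * (u 0 - u 2) * (u 1 - u 2)) ^ 2 = Dp f0 f1 f2 := by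
  have h1 := h.s1
  have h2 := h.s2
  have h3 := h.s3
  have e : Dp f0 f1 f2 = (-f2) ^ 2 *
      ((27 * f2 - 27 * f1 + 6 * f0) - 6 * (6 * f2 - 2 * f1)) ^ 2 -
      4 * ((27 * f2 - 27 * f1 + 6 * f0) - 6 * (6 * f2 - 2 * f1)) ^ 3 -
      4 * (-f2) ^ 3 * ((6 * f2 - 2 * f1) ^ 2 - 9 * (27 * f2 - 27 * f1 + 6 * f0)
        - (27 * f2 - 27 * f1 + 6 * f0) * f2) +
      18 * (-f2) * ((27 * f2 - 27 * f1 + 6 * f0) - 6 * (6 * f2 - 2 * f1)) *
        ((6 * f2 - 2 * f1) ^ 2 - 9 * (27 * f2 - 27 * f1 + 6 * f0)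
        - (27 * f2 - 27 * f1 + 6 * f0) * f2) -
      27 * ((6 * f2 - 2 * f1) ^ 2 - 9 * (27 * f2 - 27 * f1 + 6 * f0)
        - (27 * f2 - 27 * f1 + 6 * f0) * f2) ^ 2 := rfl
  rw [e]
  generalize ((27 * f2 - 27 * f1 + 6 * f0) - 6 * (6 * f2 - 2 * f1)) = B at h2 ⊢
  generalize ((6 * f2 - 2 * f1) ^ 2 - 9 * (27 * f2 - 27 * f1 + 6 * f0)
        - (27 * f2 - 27 * f1 + 6 * f0) * f2) = c at h3 ⊢
  have h4 : c = -(u 0 * u 1 * u 2) := by rw [h3, neg_neg]
  rw [h4, ← h2, ← h1]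
  ring

/-- Row Rts. With `Y i = 9 + f2 - u i`. -/
theorem IsRts.Y1 {f0 f1 f2 : ℂ} {u : Fin 3 → ℂ} (h : IsRts f0 f1 f2 u) :
    (9 + f2 - u 0) + (9 + f2 - u 1) + (9 + f2 - u 2) = 27 + 2 * f2 := by
  linear_combination (-1) * h.s1

/-- Row Rts. -/
theorem IsRts.Y2 {f0 f1 f2 : ℂ} {u : Fin 3 → ℂ} (h : IsRts f0 f1 f2 u) :
    (9 + f2 - u 0) * (9 + f2 - u 1) + (9 + f2 - u 0) * (9 + f2 - u 2) +
      (9 + f2 - u 1) * (9 + f2 - u 2) = 243 + 6 * f0 - 15 * f1 + 27 * f2 + f2 ^ 2 := by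
  linear_combination (-2 * (9 + f2)) * h.s1 + h.s2

/-- Row Rts. -/
theorem IsRts.Y3 {f0 f1 f2 : ℂ} {u : Fin 3 → ℂ} (h : IsRts f0 f1 f2 u) :
    (9 + f2 - u 0) * (9 + f2 - u 1) * (9 + f2 - u 2) = (27 + 2 * f1 - 3 * f2) ^ 2 := by
  linear_combination (-(9 + f2) ^ 2) * h.s1 + (9 + f2) * h.s2 - h.s3

/-- Row Rts. Invariance under relabelling. -/
theorem IsRts.perm {f0 f1 f2 : ℂ} {u : Fin 3 → ℂ} (h : IsRts f0 f1 f2 u)
    (σ : Equiv.Perm (Fin 3)) : IsRts f0 f1 f2 (u ∘ σ) := by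
  have e1 : u (σ 0) + u (σ 1) + u (σ 2) = u 0 + u 1 + u 2 := by
    have h1 := Equiv.sum_comp σ u
    rwa [Fin.sum_univ_three, Fin.sum_univ_three] at h1
  have e2 : u (σ 0) ^ 2 + u (σ 1) ^ 2 + u (σ 2) ^ 2 = u 0 ^ 2 + u 1 ^ 2 + u 2 ^ 2 := by
    have h1 := Equiv.sum_comp σ (fun i => u i ^ 2)
    rwa [Fin.sum_univ_three, Fin.sum_univ_three] at h1
  have e3 : u (σ 0) * u (σ 1) * u (σ 2) = u 0 * u 1 * u 2 := by
    have h1 := Equiv.prod_comp σ u
    rwa [Fin.prod_univ_three, Fin.prod_univ_three] at h1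
  refine ⟨?_, ?_, ?_⟩
  · change u (σ 0) + u (σ 1) + u (σ 2) = f2
    rw [e1, h.s1]
  · change u (σ 0) * u (σ 1) + u (σ 0) * u (σ 2) + u (σ 1) * u (σ 2) = _
    rw [← h.s2]
    linear_combination (1 / 2) * (u (σ 0) + u (σ 1) + u (σ 2) + u 0 + u 1 + u 2) * e1 -
      (1 / 2) * e2
  · change u (σ 0) * u (σ 1) * u (σ 2) = _
    rw [e3, h.s3]

/-- Row Rts. Two enumerations of three different roots differ by a permutation. -/
theorem IsRts.exists_perm {f0 f1 f2 : ℂ} {u v : Fin 3 → ℂ} (h : IsRts f0 f1 f2 u)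
    (h' : IsRts f0 f1 f2 v) : ∃ σ : Equiv.Perm (Fin 3), u = v ∘ σ := by
  have a1 : v 0 + v 1 + v 2 = u 0 + u 1 + u 2 := by rw [h.s1, h'.s1]
  have a2 : v 0 * v 1 + v 0 * v 2 + v 1 * v 2 = u 0 * u 1 + u 0 * u 2 + u 1 * u 2 := by
    rw [h.s2, h'.s2]
  have a3 : v 0 * v 1 * v 2 = u 0 * u 1 * u 2 := by rw [h.s3, h'.s3]
  -- the choice of indices
  have key : ∃ i j k : Fin 3, i ≠ j ∧ i ≠ k ∧ j ≠ k ∧ u i = v 0 ∧ u j = v 1 ∧ u k = v 2 := by
    have main : ∀ i j k : Fin 3, i ≠ j → i ≠ k → j ≠ k → u i = v 0 →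
        u i + u j + u k = v 0 + v 1 + v 2 →
        u i * u j + u i * u k + u j * u k = v 0 * v 1 + v 0 * v 2 + v 1 * v 2 →
        ∃ i j k : Fin 3, i ≠ j ∧ i ≠ k ∧ j ≠ k ∧ u i = v 0 ∧ u j = v 1 ∧ u k = v 2 := by
      intro i j k hij hik hjk hi b1 b2
      have c1 : u j + u k = v 1 + v 2 := by linear_combination b1 - hi
      have c2 : u j * u k = v 1 * v 2 := by
        linear_combination b2 - v 0 * c1 - (u j + u k) * hi
      have c3 : (v 1 - u j) * (v 1 - u k) = 0 := by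
        linear_combination c2 - v 1 * c1
      rcases mul_eq_zero.1 c3 with c4 | c4
      · have c5 : u j = v 1 := by linear_combination -c4
        exact ⟨i, j, k, hij, hik, hjk, hi, c5, by linear_combination c1 - c5⟩
      · have c5 : u k = v 1 := by linear_combination -c4
        exact ⟨i, k, j, hik, hij, hjk.symm, hi, c5, by linear_combination c1 - c5⟩
    have b0 : (v 0 - u 0) * ((v 0 - u 1) * (v 0 - u 2)) = 0 := by
      linear_combination v 0 ^ 2 * a1 - v 0 * a2 + a3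
    rcases mul_eq_zero.1 b0 with b1 | b1
    · exact main 0 1 2 (by decide) (by decide) (by decide) (by linear_combination -b1)
        (by linear_combination -a1) (by linear_combination -a2)
    · rcases mul_eq_zero.1 b1 with b2 | b2
      · exact main 1 0 2 (by decide) (by decide) (by decide) (by linear_combination -b2)
          (by linear_combination -a1) (by linear_combination -a2)
      · exact main 2 0 1 (by decide) (by decide) (by decide) (by linear_combination -b2)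
          (by linear_combination -a1) (by linear_combination -a2)
  obtain ⟨i, j, k, hij, hik, hjk, hi, hj, hk⟩ := key
  obtain ⟨τ, t0, t1, t2⟩ := Rts1_perm i j k hij hik hjk
  refine ⟨τ.symm, ?_⟩
  have e : ∀ m : Fin 3, u (τ m) = v m := by
    intro m
    fin_cases m
    · change u (τ 0) = v 0
      rw [t0, hi]
    · change u (τ 1) = v 1
      rw [t1, hj]
    · change u (τ 2) = v 2
      rw [t2, hk]
  funext m
  rw [Function.comp_apply, ← e, Equiv.apply_symm_apply]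

end Pool.Agent.PlaneGT
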