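import Pool.Agent.Lib.MP_6aab98_ag.GT.Siz1
import Pool.Agent.Lib.MP_6aab98_ag.GT.Wk1

/-! # MP_6aab98_ag GT, row Siz2 -/

namespace Pool.Agent.PlaneGT

open Finset Filter Topology Asymptotics
open scoped Nat

section

variable {ι : Type} {l : Filter ι} {ρ : ι → Fin 3 → ℝ} {u x y : ι → Fin 3 → ℂ}

/-- The dimension constraint bounds the number of the additional legs. -/
theorem Siz2_dim {g m N : ℕ} {ks : List ℕ} {l : Fin m → Fin N}
    (h : wk g (ks ++ List.ofFn (fun j => (l j : ℕ) + 2)) ≠ 0) : m + 3 ≤ 3 * g + ks.length := by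
  have h1 := wk_dim h
  rw [List.sum_append, List.length_append, List.length_ofFn, List.sum_ofFn,
    Finset.sum_add_distrib, Finset.sum_const, Finset.card_univ, Fintype.card_fin,
    smul_eq_mul] at h1
  omega

/-- Powers of a function which is bounded from below. -/
theorem Siz2_pow {r : ι → ℝ} (h1 : (fun _ : ι => (1 : ℝ)) =O[l] r) {a b : ℕ} (hab : a ≤ b) :
    (fun t => r t ^ a) =O[l] (fun t => r t ^ b) := by
  obtain ⟨c, rfl⟩ := Nat.exists_eq_add_of_le hab
  have h2 : (fun _ : ι => (1 : ℝ) ^ c) =O[l] (fun t => r t ^ c) := h1.pow c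
  have h3 := (isBigO_refl (fun t => r t ^ a) l).mul h2
  simpa [pow_add] using h3

/-- Row Siz2. Only `m` with `m + 3 ≤ 3 h + n` contribute (`wk_dim`: the exponents of the `m` legs
are at least `2`), and `ρ ^ m = O(ρ ^ (3 h + n - 3))`. -/
theorem Tame.oVert (h : Tame l ρ u x y) (g : ℕ) (i : Fin 3) (ks : List ℕ) :
    (fun t => vert (u t) (x t) (y t) g i ks) =O[l]
      (fun t => ρ t i ^ (5 * g + ks.length) * ((ρ t i)⁻¹) ^ 5) := by
  by_cases hN : 3 ≤ 3 * g + ks.length
  · obtain ⟨N, hN⟩ := Nat.exists_eq_add_of_le hN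
    have e1 : ∀ t, ρ t i ^ (5 * g + ks.length) * ((ρ t i)⁻¹) ^ 5 =
        (((ρ t i)⁻¹) ^ 2 * (ρ t i ^ 2) ^ g) * ρ t i ^ N := by
      intro t
      have hp := (h.pos t i).ne'
      have e2 : 5 * g + ks.length = 2 * g + N + 3 := by omega
      rw [e2, pow_add, pow_add, ← pow_mul]
      field_simp
    simp only [e1]
    have hy : (fun t => y t i / y t i ^ g) =O[l]
        (fun t => ((ρ t i)⁻¹) ^ 2 * (ρ t i ^ 2) ^ g) := by
      have h1 := (h.yup i).mul ((h.yinv i).pow g)
      refine h1.congr_left fun t => ?_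
      rw [inv_pow, div_eq_mul_inv]
    unfold vert
    refine hy.mul ?_
    refine IsBigO.fun_sum fun m _ => ?_
    refine IsBigO.const_mul_left ?_ _
    refine IsBigO.fun_sum fun f _ => ?_
    by_cases hw : wk g (ks ++ List.ofFn (fun j => (f j : ℕ) + 2)) = 0
    · simp only [hw, Rat.cast_zero, zero_mul]
      exact isBigO_zero _ _
    · have hm : m ≤ N := by
        have := Siz2_dim hw
        omega
      have h2 : (fun t => ∏ j : Fin m, Tm (u t) (x t) (y t) ((f j : ℕ) + 2) i) =O[l]
          (fun t => ∏ _j : Fin m, ρ t i) :=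
        IsBigO.finsetProd fun j _ => h.oT ((f j : ℕ) + 2) i
      have h3 : (fun t => ∏ j : Fin m, Tm (u t) (x t) (y t) ((f j : ℕ) + 2) i) =O[l]
          (fun t => ρ t i ^ m) := by simpa using h2
      exact (h3.trans (Siz2_pow (h.one i) hm)).const_mul_left _
  · have hz : ∀ t, vert (u t) (x t) (y t) g i ks = 0 := by
      intro t
      unfold vert
      rw [Finset.sum_eq_zero, mul_zero]
      intro m _
      rw [Finset.sum_eq_zero, mul_zero]
      intro f _
      have hw : wk g (ks ++ List.ofFn (fun j => (f j : ℕ) + 2)) = 0 := by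
        by_contra hw
        have := Siz2_dim hw
        omega
      rw [hw, Rat.cast_zero, zero_mul]
    simp only [hz]
    exact isBigO_zero _ _

/-- Row Siz2. An unstable vertex vanishes. -/
theorem vert_unstable (u x y : Fin 3 → ℂ) (i : Fin 3) {ks : List ℕ} (hk : ks.length ≤ 2) :
    vert u x y 0 i ks = 0 := by
  unfold vert
  rw [Finset.sum_eq_zero, mul_zero]
  intro m _
  rw [Finset.sum_eq_zero, mul_zero]
  intro f _
  have hw : wk 0 (ks ++ List.ofFn (fun j => (f j : ℕ) + 2)) = 0 := by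
    by_contra hw
    have := Siz2_dim hw
    omega
  rw [hw, Rat.cast_zero, zero_mul]

end

end Pool.Agent.PlaneGT
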