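import Mathlib

/-! # MP_6aab98_ag GT, row Tra1 -/

namespace Pool.Agent.PlaneGT

open Finset Filter Topology Asymptotics
open scoped Nat

/-- coefficients of `(1 - z) ^ (-M)` -/
noncomputable def bc (M : ℝ) (d : ℕ) : ℝ := ∏ k ∈ range d, ((M + k) / (k + 1))

theorem Tra1_fac (M : ℝ) (d : ℕ) : (d ! : ℝ) * bc M d = ∏ k ∈ range d, (M + k) := by
  induction d with
  | zero => simp [bc]
  | succ d ih =>
    have h : bc M (d + 1) = bc M d * ((M + d) / (d + 1)) := by
      unfold bc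
      rw [prod_range_succ]
    have hd : (d : ℝ) + 1 ≠ 0 := by positivity
    rw [h, prod_range_succ, ← ih, Nat.factorial_succ]
    push_cast
    field_simp

theorem Tra1_asc (M : ℝ) (d : ℕ) :
    (ascPochhammer ℂ d).eval (M : ℂ) = ((∏ k ∈ range d, (M + k) : ℝ) : ℂ) := by
  induction d with
  | zero => simp
  | succ d ih =>
    rw [ascPochhammer_succ_eval, ih, prod_range_succ]
    push_cast
    ring

theorem Tra1_choose (M : ℝ) (d : ℕ) :
    Ring.choose ((M : ℂ) + d - 1) d = (bc M d : ℂ) := by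
  have h1 : Ring.choose ((M : ℂ) + d - 1) d = Ring.multichoose (M : ℂ) d := by
    rw [Ring.choose]
    congr 1
    ring
  have h2 := Ring.factorial_nsmul_multichoose_eq_ascPochhammer (M : ℂ) d
  rw [Polynomial.ascPochhammer_smeval_eq_eval, Tra1_asc, ← Tra1_fac, nsmul_eq_mul] at h2
  have hd : (d ! : ℂ) ≠ 0 := by exact_mod_cast Nat.factorial_ne_zero d
  rw [h1]
  apply mul_left_cancel₀ hd
  rw [h2]
  push_cast
  ring

/-- Row Tra1. `(1 - z) f' = M f` for `f = ∑ bc M d z ^ d`, so `f (1 - z) ^ M` is constant. -/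
theorem hasSum_bc {M : ℝ} (hM : 0 < M) {z : ℂ} (hz : ‖z‖ < 1) :
    HasSum (fun d : ℕ => (bc M d : ℂ) * z ^ d) ((1 - z) ^ (-(M : ℂ))) := by
  have h := Complex.one_div_one_sub_cpow_hasFPowerSeriesOnBall_zero (M : ℂ)
  have hz' : z ∈ Metric.eball (0 : ℂ) 1 := by
    rw [Metric.mem_eball, edist_zero_right, ← ofReal_norm, ← ENNReal.ofReal_one]
    exact (ENNReal.ofReal_lt_ofReal_iff one_pos).2 hz
  have h1 := h.hasSum hz'
  rw [zero_add, one_div, ← Complex.cpow_neg] at h1
  refine h1.congr_fun ?_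
  intro d
  rw [FormalMultilinearSeries.ofScalars_apply_eq, Tra1_choose, smul_eq_mul]

/-- Row Tra1. `Real.GammaSeq_tendsto_Gamma`. -/
theorem bc_tendsto {M : ℝ} (hM : 0 < M) :
    Tendsto (fun d : ℕ => bc M d / (d : ℝ) ^ (M - 1)) atTop (𝓝 (1 / Real.Gamma M)) := by
  have h1 : Tendsto (fun d : ℕ => (1 / Real.GammaSeq M d) * ((d : ℝ) / (d + M))) atTop
      (𝓝 (1 / Real.Gamma M * 1)) := by
    refine Tendsto.mul ?_ (tendsto_natCast_div_add_atTop M)
    exact (tendsto_const_nhds).div (Real.GammaSeq_tendsto_Gamma M) (Real.Gamma_pos_of_pos hM).ne'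
  rw [mul_one] at h1
  refine h1.congr' ?_
  filter_upwards [eventually_gt_atTop 0] with d hd
  have hd' : (0 : ℝ) < d := by exact_mod_cast hd
  have hfac : (0 : ℝ) < d ! := by exact_mod_cast Nat.factorial_pos d
  have hprod : 0 < ∏ k ∈ range d, (M + k) := prod_pos fun k _ => by positivity
  have hpow : (0 : ℝ) < (d : ℝ) ^ (M - 1) := Real.rpow_pos_of_pos hd' _
  have e1 : (d : ℝ) ^ M = (d : ℝ) ^ (M - 1) * d := by
    rw [← Real.rpow_add_one hd'.ne']
    congr 1
    ring
  have e2 : bc M d = (∏ k ∈ range d, (M + k)) / d ! := by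
    rw [← Tra1_fac]
    field_simp
  have hMd : (d : ℝ) + M ≠ 0 := by positivity
  have hMd' : M + (d : ℝ) ≠ 0 := by positivity
  rw [Real.GammaSeq, prod_range_succ, e1, e2]
  have hprod' := hprod.ne'
  field_simp
  ring

end Pool.Agent.PlaneGT
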