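import Pool.Agent.Lib.MP_6aab98_ag.GT.Tra1

/-! # MP_6aab98_ag GT, row Tra2 -/

namespace Pool.Agent.PlaneGT

open Finset Filter Topology Asymptotics
open scoped Nat

/-- the `d`-th coefficient by Cauchy's formula on the circle of radius `r` -/
noncomputable def cf (F : ℂ → ℂ) (r : ℝ) (d : ℕ) : ℂ :=
  (2 * Real.pi * Complex.I)⁻¹ * ∮ q in C(0, r), F q / q ^ (d + 1)

/-- Row Tra2. Cauchy's theorem on an annulus
(`Complex.circleIntegral_eq_of_differentiable_on_annulus_off_countable`). -/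
theorem cf_eq {F : ℂ → ℂ} {R : ℝ} (hF : ∀ q : ℂ, 1 ≤ ‖q‖ → ‖q‖ < R → DifferentiableAt ℂ F q)
    {r : ℝ} (h1 : 1 ≤ r) (hr : r < R) (d : ℕ) : cf F r d = cf F 1 d := by
  unfold cf
  congr 1
  have hd : ∀ q : ℂ, 1 ≤ ‖q‖ → ‖q‖ < R →
      DifferentiableAt ℂ (fun z => F z / z ^ (d + 1)) q := by
    intro q h1q h2q
    have hq : q ≠ 0 := by
      intro h0
      rw [h0, norm_zero] at h1q
      linarith
    exact (hF q h1q h2q).div (differentiableAt_id.pow _) (pow_ne_zero _ hq)
  refine Complex.circleIntegral_eq_of_differentiable_on_annulus_off_countable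
    (r := 1) (R := r) zero_lt_one h1 Set.countable_empty ?_ ?_
  · intro q hq
    rw [Set.mem_sdiff, Metric.mem_closedBall, Metric.mem_ball, dist_zero_right, not_lt] at hq
    exact (hd q hq.2 (lt_of_le_of_lt hq.1 hr)).continuousAt.continuousWithinAt
  · intro q hq
    have hq1 := hq.1
    rw [Set.mem_sdiff, Metric.mem_closedBall, Metric.mem_ball, dist_zero_right, not_le] at hq1
    exact hd q hq1.2.le (hq1.1.trans hr)

/-- coefficients of a convergent power series by Cauchy's formula -/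
theorem Tra2_cf_of_hasSum {F : ℂ → ℂ} {r : ℝ} (hr : 0 < r)
    (hF : DifferentiableOn ℂ F (Metric.closedBall 0 r)) {a : ℕ → ℂ}
    (ha : ∀ᶠ z in 𝓝 (0 : ℂ), HasSum (fun d : ℕ => z ^ d * a d) (F z)) (d : ℕ) :
    cf F r d = a d := by
  have h1 : HasFPowerSeriesAt F (cauchyPowerSeries F 0 r) 0 :=
    (DifferentiableOn.hasFPowerSeriesOnBall (R := ⟨r, hr.le⟩) (c := 0) hF hr).hasFPowerSeriesAt
  have h2 : HasFPowerSeriesAt F (FormalMultilinearSeries.ofScalars ℂ a) 0 := by
    rw [hasFPowerSeriesAt_iff]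
    filter_upwards [ha] with z hz
    simpa [FormalMultilinearSeries.coeff_ofScalars] using hz
  have h3 := h1.eq_formalMultilinearSeries h2
  have h4 : (cauchyPowerSeries F 0 r) d (fun _ => 1) = a d := by
    have := congrArg (fun p : FormalMultilinearSeries ℂ ℂ ℂ => p.coeff d) h3
    simp only [FormalMultilinearSeries.coeff_ofScalars] at this
    exact this
  rw [cauchyPowerSeries_apply] at h4
  rw [← h4]
  unfold cf
  rw [smul_eq_mul]
  congr 1
  refine circleIntegral.integral_congr hr.le ?_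
  intro q hq
  have hq0 : q ≠ 0 := by
    intro h0
    rw [h0, mem_sphere_zero_iff_norm, norm_zero] at hq
    linarith
  simp only [sub_zero, smul_eq_mul, one_div, inv_pow]
  field_simp
  ring

/-- Row Tra2. The coefficients of the model function. -/
theorem cf_model {M R : ℝ} (hM : 0 < M) (hR : 1 < R) {r : ℝ} (h1 : 1 ≤ r) (hr : r < R) (d : ℕ) :
    cf (fun q => (1 - q / R) ^ (-(M : ℂ))) r d = ((bc M d / R ^ d : ℝ) : ℂ) := by
  have hR0 : 0 < R := by linarith
  have hR0' : (R : ℂ) ≠ 0 := by exact_mod_cast hR0.ne'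
  have hlt : ∀ q : ℂ, ‖q‖ < R → ‖q / (R : ℂ)‖ < 1 := by
    intro q hq
    rw [norm_div, Complex.norm_real, Real.norm_eq_abs, abs_of_pos hR0, div_lt_one hR0]
    exact hq
  have hr0 : 0 < r := by linarith
  refine Tra2_cf_of_hasSum (F := fun q => (1 - q / R) ^ (-(M : ℂ)))
    (a := fun n : ℕ => ((bc M n / R ^ n : ℝ) : ℂ)) hr0 ?_ ?_ d
  · intro q hq
    rw [Metric.mem_closedBall, dist_zero_right] at hq
    have h2 := hlt q (lt_of_le_of_lt hq hr)
    have hs : (1 - q / (R : ℂ)) ∈ Complex.slitPlane := by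
      left
      have h3 : (q / (R : ℂ)).re ≤ ‖q / (R : ℂ)‖ := Complex.re_le_norm _
      rw [Complex.sub_re, Complex.one_re]
      linarith
    have h4 : DifferentiableAt ℂ (fun q : ℂ => 1 - q / (R : ℂ)) q :=
      (differentiableAt_const _).sub (differentiableAt_id.div_const _)
    exact (h4.cpow (differentiableAt_const _) hs).differentiableWithinAt
  · have h5 : ∀ᶠ z in 𝓝 (0 : ℂ), z ∈ Metric.ball (0 : ℂ) R := Metric.ball_mem_nhds _ hR0
    filter_upwards [h5] with z hz
    rw [Metric.mem_ball, dist_zero_right] at hz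
    have h6 := hasSum_bc hM (hlt z hz)
    have h7 : (fun n : ℕ => z ^ n * ((bc M n / R ^ n : ℝ) : ℂ)) =
        fun n : ℕ => (bc M n : ℂ) * (z / (R : ℂ)) ^ n := by
      funext n
      push_cast
      rw [div_pow]
      ring
    rw [h7]
    exact h6

end Pool.Agent.PlaneGT
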