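import Pool.Agent.Lib.MP_6aab98_ag.GT.Tra2

/-! # MP_6aab98_ag GT, row Tra3 -/

namespace Pool.Agent.PlaneGT

open Finset Filter Topology Asymptotics
open scoped Nat

private theorem Tra3_norm {ρ θ t : ℝ} (h1 : 1 / 2 ≤ ρ) (h2 : ρ < 1) (h0 : 0 ≤ t)
    (ht : t ≤ Real.pi) (hc : Real.cos θ = Real.cos t) :
    (1 - ρ + t) / 8 ≤ ‖1 - (ρ : ℂ) * Complex.exp (θ * Complex.I)‖ := by
  have hq : Real.cos t ≤ 1 - 2 / Real.pi ^ 2 * t ^ 2 :=
    Real.cos_le_one_sub_mul_cos_sq (by rw [abs_of_nonneg h0]; exact ht)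
  have hpi : Real.pi ^ 2 ≤ 10 := by
    have h3 := Real.pi_lt_d2
    have h4 := Real.pi_pos
    nlinarith
  have hpi0 : 0 < Real.pi ^ 2 := by positivity
  have h5 : 1 / 5 ≤ 2 / Real.pi ^ 2 := by
    rw [div_le_div_iff₀ (by norm_num) hpi0]
    linarith
  have h6 : 1 / 5 * t ^ 2 ≤ 2 / Real.pi ^ 2 * t ^ 2 :=
    mul_le_mul_of_nonneg_right h5 (sq_nonneg t)
  have h7 : t ^ 2 / 5 ≤ 1 - Real.cos θ := by
    rw [hc]
    linarith
  have hn : ‖1 - (ρ : ℂ) * Complex.exp (θ * Complex.I)‖ ^ 2 =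
      (1 - ρ) ^ 2 + 2 * ρ * (1 - Real.cos θ) := by
    rw [Complex.sq_norm, Complex.normSq_apply]
    have hre : (1 - (ρ : ℂ) * Complex.exp (θ * Complex.I)).re = 1 - ρ * Real.cos θ := by
      rw [Complex.sub_re, Complex.re_ofReal_mul, Complex.exp_ofReal_mul_I_re, Complex.one_re]
    have him : (1 - (ρ : ℂ) * Complex.exp (θ * Complex.I)).im = - (ρ * Real.sin θ) := by
      rw [Complex.sub_im, Complex.im_ofReal_mul, Complex.exp_ofReal_mul_I_im, Complex.one_im]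
      ring
    rw [hre, him]
    have h8 := Real.sin_sq_add_cos_sq θ
    linear_combination ρ ^ 2 * h8
  have h9 : ((1 - ρ + t) / 8) ^ 2 ≤ ‖1 - (ρ : ℂ) * Complex.exp (θ * Complex.I)‖ ^ 2 := by
    rw [hn]
    have h10 : t ^ 2 / 5 ≤ 2 * ρ * (1 - Real.cos θ) := by
      have h11 : 0 ≤ 1 - Real.cos θ := by linarith [Real.cos_le_one θ]
      nlinarith
    nlinarith [sq_nonneg (1 - ρ - t), sq_nonneg (1 - ρ), sq_nonneg t]
  exact le_of_sq_le_sq h9 (norm_nonneg _)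

private theorem Tra3_int {β u : ℝ} (hβ : 1 < β) (hu : 0 < u) (T : ℝ) (hT : 0 ≤ T) :
    ∫ x in (0 : ℝ)..T, (u + x) ^ (-β) ≤ u ^ (1 - β) / (β - 1) := by
  have h1 : ∫ x in (0 : ℝ)..T, (u + x) ^ (-β) = ∫ x in u..(u + T), x ^ (-β) := by
    rw [intervalIntegral.integral_comp_add_left (fun x => x ^ (-β)) u, add_zero]
  rw [h1, integral_rpow]
  · have h2 : 0 ≤ (u + T) ^ (-β + 1) := by positivity
    have h3 : (-β + 1) = -(β - 1) := by ring
    rw [h3] at h2 ⊢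
    have h4 : (1 - β) = -(β - 1) := by ring
    rw [h4]
    have h5 : 0 < β - 1 := by linarith
    rw [div_neg, ← neg_div, neg_sub]
    exact div_le_div_of_nonneg_right (by linarith) h5.le
  · right
    refine ⟨by linarith, ?_⟩
    rw [Set.uIcc_of_le (by linarith)]
    intro h
    linarith [h.1]

private theorem Tra3_ii {β u : ℝ} (hu : 0 < u) (T : ℝ) (hT : 0 ≤ T) :
    IntervalIntegrable (fun x => (u + x) ^ (-β)) MeasureTheory.volume 0 T := by
  refine ContinuousOn.intervalIntegrable ?_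
  rw [Set.uIcc_of_le hT]
  refine ContinuousOn.rpow_const (continuousOn_const.add continuousOn_id) ?_
  intro x hx
  left
  have : 0 < u + x := by linarith [hx.1]
  exact this.ne'

private theorem Tra3_pow {d : ℕ} (hd : 2 ≤ d) :
    (1 / (1 - 1 / (d : ℝ))) ^ d ≤ Real.exp 2 := by
  have hd' : (2 : ℝ) ≤ d := by exact_mod_cast hd
  have h1 : (0 : ℝ) < d - 1 := by linarith
  have h2 : 1 / (1 - 1 / (d : ℝ)) = 1 / (d - 1) + 1 := by
    field_simp
    ring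
  have h3 : 1 / (1 - 1 / (d : ℝ)) ≤ Real.exp (1 / (d - 1)) := by
    rw [h2]
    exact Real.add_one_le_exp _
  have h4 : 0 ≤ 1 / (1 - 1 / (d : ℝ)) := by
    rw [h2]
    positivity
  calc (1 / (1 - 1 / (d : ℝ))) ^ d ≤ (Real.exp (1 / (d - 1))) ^ d := pow_le_pow_left₀ h4 h3 d
    _ = Real.exp (d * (1 / (d - 1))) := by rw [← Real.exp_nat_mul]
    _ ≤ Real.exp 2 := by
      refine Real.exp_le_exp.2 ?_
      rw [mul_one_div, div_le_iff₀ h1]
      linarith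

/-- Row Tra3. On the circle of radius `R (1 - 1 / d)`, `‖1 - q / R‖ ≥ max (1 / d) (|θ| / 4)` for `q = r e^{iθ}`, `|θ| ≤ π`
(`d ≥ 2`), and `∫_{-π}^{π} (max (1 / d) (|θ| / 4)) ^ (-β) ≤ C d ^ (β - 1)`; `(1 - 1 / d) ^ (-d)` is
bounded. -/
theorem cf_le {β R : ℝ} (hβ : 1 < β) (hR : 1 < R) : ∃ C : ℝ, ∀ (B : ℝ) (F : ℂ → ℂ),
    0 ≤ B → (∀ q : ℂ, 1 ≤ ‖q‖ → ‖q‖ < R → ContinuousAt F q) →
    (∀ q : ℂ, 1 ≤ ‖q‖ → ‖q‖ < R → ‖F q‖ ≤ B * ‖1 - q / R‖ ^ (-β)) → ∀ d : ℕ, 2 ≤ d →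
    1 ≤ R * (1 - 1 / (d : ℝ)) →
    ‖cf F (R * (1 - 1 / (d : ℝ))) d‖ * R ^ d ≤ C * B * (d : ℝ) ^ (β - 1) := by
  refine ⟨(2 * Real.pi)⁻¹ * Real.exp 2 * (8 ^ β * (2 / (β - 1))), ?_⟩
  intro B F hB _ hF d hd hr1
  have hd' : (2 : ℝ) ≤ d := by exact_mod_cast hd
  have hd0 : (0 : ℝ) < d := by linarith
  have hpi := Real.pi_pos
  set ρ : ℝ := 1 - 1 / (d : ℝ) with hρ
  set r : ℝ := R * ρ with hr
  have hu : 1 - ρ = 1 / (d : ℝ) := by rw [hρ]; ring
  have hu0 : 0 < 1 / (d : ℝ) := by positivity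
  have hρ1 : 1 / 2 ≤ ρ := by
    have h1 : 1 / (d : ℝ) ≤ 1 / 2 := one_div_le_one_div_of_le (by norm_num) hd'
    rw [hρ]
    linarith
  have hρ2 : ρ < 1 := by linarith
  have hR0 : 0 < R := by linarith
  have hr0 : 0 < r := by linarith
  have hrR : r < R := by
    rw [hr]
    nlinarith
  -- the pointwise bound
  set g : ℝ → ℝ := fun θ => (1 / r ^ d * B * 8 ^ β) *
    ((1 / (d : ℝ) + θ) ^ (-β) + (1 / (d : ℝ) + (2 * Real.pi - θ)) ^ (-β)) with hg
  have hint1 : IntervalIntegrable (fun θ : ℝ => (1 / (d : ℝ) + θ) ^ (-β)) MeasureTheory.volume 0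
      (2 * Real.pi) := Tra3_ii hu0 _ (by positivity)
  have hint2 : IntervalIntegrable (fun θ : ℝ => (1 / (d : ℝ) + (2 * Real.pi - θ)) ^ (-β))
      MeasureTheory.volume 0 (2 * Real.pi) := by
    have h1 := hint1.comp_sub_left (2 * Real.pi)
    rw [sub_zero, sub_self] at h1
    exact h1.symm
  have hgi : IntervalIntegrable g MeasureTheory.volume 0 (2 * Real.pi) :=
    (hint1.add hint2).const_mul _
  have hgI : ∫ θ in (0 : ℝ)..(2 * Real.pi), g θ ≤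
      (1 / r ^ d * B * 8 ^ β) * (2 / (β - 1) * (d : ℝ) ^ (β - 1)) := by
    rw [hg]
    rw [intervalIntegral.integral_const_mul, intervalIntegral.integral_add hint1 hint2]
    refine mul_le_mul_of_nonneg_left ?_ (by positivity)
    have h1 : ∫ θ in (0 : ℝ)..(2 * Real.pi), (1 / (d : ℝ) + (2 * Real.pi - θ)) ^ (-β) =
        ∫ θ in (0 : ℝ)..(2 * Real.pi), (1 / (d : ℝ) + θ) ^ (-β) := by
      rw [intervalIntegral.integral_comp_sub_left (fun θ => (1 / (d : ℝ) + θ) ^ (-β)),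
        sub_zero, sub_self]
    rw [h1]
    have h2 := Tra3_int hβ hu0 (2 * Real.pi) (by positivity)
    have h3 : (1 / (d : ℝ)) ^ (1 - β) = (d : ℝ) ^ (β - 1) := by
      rw [one_div, Real.inv_rpow hd0.le, ← Real.rpow_neg hd0.le]
      congr 1
      ring
    rw [h3] at h2
    have h4 : 2 / (β - 1) * (d : ℝ) ^ (β - 1) =
        (d : ℝ) ^ (β - 1) / (β - 1) + (d : ℝ) ^ (β - 1) / (β - 1) := by ring
    rw [h4]
    exact add_le_add h2 h2
  have hpt : ∀ θ ∈ Set.Ioc (0 : ℝ) (2 * Real.pi),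
      ‖deriv (circleMap 0 r) θ • (F (circleMap 0 r θ) / (circleMap 0 r θ) ^ (d + 1))‖ ≤ g θ := by
    intro θ hθ
    have hq : ‖circleMap 0 r θ‖ = r := by
      rw [norm_circleMap_zero, abs_of_pos hr0]
    have h1 := hF (circleMap 0 r θ) (by rw [hq]; exact hr1) (by rw [hq]; exact hrR)
    have h2 : circleMap 0 r θ / R = (ρ : ℂ) * Complex.exp (θ * Complex.I) := by
      rw [circleMap_zero, hr]
      have h3 : (R : ℂ) ≠ 0 := by exact_mod_cast hR0.ne'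
      push_cast
      field_simp
    rw [h2] at h1
    have h4 : ‖deriv (circleMap 0 r) θ‖ = r := by
      rw [deriv_circleMap, norm_mul, hq, Complex.norm_I, mul_one]
    rw [norm_smul, h4, norm_div, norm_pow, hq]
    have h5 : r * (‖F (circleMap 0 r θ)‖ / r ^ (d + 1)) = 1 / r ^ d * ‖F (circleMap 0 r θ)‖ := by
      rw [pow_succ]
      field_simp
    rw [h5]
    have h6 : ‖1 - (ρ : ℂ) * Complex.exp (θ * Complex.I)‖ ^ (-β) ≤ 8 ^ β *
        ((1 / (d : ℝ) + θ) ^ (-β) + (1 / (d : ℝ) + (2 * Real.pi - θ)) ^ (-β)) := by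
      have h8 : ∀ t : ℝ, 0 ≤ t → t ≤ Real.pi → Real.cos θ = Real.cos t →
          ‖1 - (ρ : ℂ) * Complex.exp (θ * Complex.I)‖ ^ (-β) ≤
            8 ^ β * (1 / (d : ℝ) + t) ^ (-β) := by
        intro t ht0 ht hc
        have h9 := Tra3_norm hρ1 hρ2 ht0 ht hc
        rw [hu] at h9
        have h10 : 0 < (1 / (d : ℝ) + t) / 8 := by positivity
        refine (Real.rpow_le_rpow_of_nonpos h10 h9 (by linarith)).trans (le_of_eq ?_)
        rw [Real.div_rpow (by positivity) (by norm_num), Real.rpow_neg (by norm_num : (0 : ℝ) ≤ 8),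
          div_inv_eq_mul, mul_comm]
      rw [mul_add]
      have h11 : 0 ≤ 8 ^ β * (1 / (d : ℝ) + θ) ^ (-β) := by
        have : 0 < 1 / (d : ℝ) + θ := by linarith [hθ.1]
        positivity
      have h12 : 0 ≤ 8 ^ β * (1 / (d : ℝ) + (2 * Real.pi - θ)) ^ (-β) := by
        have : 0 < 1 / (d : ℝ) + (2 * Real.pi - θ) := by linarith [hθ.2]
        positivity
      rcases le_total θ Real.pi with h | h
      · have := h8 θ hθ.1.le h rfl
        linarith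
      · have := h8 (2 * Real.pi - θ) (by linarith [hθ.2]) (by linarith)
          (by rw [Real.cos_two_pi_sub])
        linarith
    rw [hg]
    have h7 : 1 / r ^ d * ‖F (circleMap 0 r θ)‖ ≤ 1 / r ^ d *
        (B * ‖1 - (ρ : ℂ) * Complex.exp (θ * Complex.I)‖ ^ (-β)) :=
      mul_le_mul_of_nonneg_left h1 (by positivity)
    refine h7.trans ?_
    have h13 : 1 / r ^ d * (B * ‖1 - (ρ : ℂ) * Complex.exp (θ * Complex.I)‖ ^ (-β)) ≤
        1 / r ^ d * (B * (8 ^ β *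
          ((1 / (d : ℝ) + θ) ^ (-β) + (1 / (d : ℝ) + (2 * Real.pi - θ)) ^ (-β)))) :=
      mul_le_mul_of_nonneg_left (mul_le_mul_of_nonneg_left h6 hB) (by positivity)
    refine h13.trans (le_of_eq ?_)
    ring
  have hI : ‖∮ q in C(0, r), F q / q ^ (d + 1)‖ ≤ ∫ θ in (0 : ℝ)..(2 * Real.pi), g θ := by
    unfold circleIntegral
    refine intervalIntegral.norm_integral_le_of_norm_le (by positivity) ?_ hgi
    exact Filter.Eventually.of_forall hpt
  unfold cf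
  rw [norm_mul]
  have hnn : ‖((2 : ℂ) * Real.pi * Complex.I)⁻¹‖ = (2 * Real.pi)⁻¹ := by
    rw [norm_inv, norm_mul, norm_mul, Complex.norm_I, mul_one, Complex.norm_real,
      Real.norm_of_nonneg hpi.le]
    norm_num
  rw [hnn]
  have hfin := hI.trans hgI
  have hRr : 1 / r ^ d * R ^ d ≤ Real.exp 2 := by
    have h1 := Tra3_pow hd
    have h2 : 1 / r ^ d * R ^ d = (1 / (1 - 1 / (d : ℝ))) ^ d := by
      rw [← hρ, hr, mul_pow, div_pow, one_pow]
      field_simp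
    rw [h2]
    exact h1
  have hpos : 0 ≤ (2 * Real.pi)⁻¹ := by positivity
  have hb1 : 0 < β - 1 := by linarith
  calc (2 * Real.pi)⁻¹ * ‖∮ q in C(0, r), F q / q ^ (d + 1)‖ * R ^ d
      ≤ (2 * Real.pi)⁻¹ * ((1 / r ^ d * B * 8 ^ β) * (2 / (β - 1) * (d : ℝ) ^ (β - 1))) * R ^ d :=
        mul_le_mul_of_nonneg_right (mul_le_mul_of_nonneg_left hfin hpos) (by positivity)
    _ = (2 * Real.pi)⁻¹ * (1 / r ^ d * R ^ d) *
        (B * 8 ^ β * (2 / (β - 1) * (d : ℝ) ^ (β - 1))) := by ring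
    _ ≤ (2 * Real.pi)⁻¹ * Real.exp 2 * (B * 8 ^ β * (2 / (β - 1) * (d : ℝ) ^ (β - 1))) :=
        mul_le_mul_of_nonneg_right (mul_le_mul_of_nonneg_left hRr hpos) (by positivity)
    _ = (2 * Real.pi)⁻¹ * Real.exp 2 * (8 ^ β * (2 / (β - 1))) * B * (d : ℝ) ^ (β - 1) := by
        ring

end Pool.Agent.PlaneGT
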