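import Pool.Agent.Lib.MP_6aab98_ag.GT.Tra3

/-! # MP_6aab98_ag GT, row Tra4 -/

namespace Pool.Agent.PlaneGT

open Finset Filter Topology Asymptotics
open scoped Nat

private theorem Tra4_slit {R : ℝ} (hR : 1 < R) {q : ℂ} (hq : ‖q‖ < R) :
    1 - q / R ∈ Complex.slitPlane := by
  have hR0 : 0 < R := by linarith
  left
  have h1 : (q / (R : ℂ)).re ≤ ‖q / (R : ℂ)‖ := Complex.re_le_norm _
  have h2 : ‖q / (R : ℂ)‖ < 1 := by
    rw [norm_div, Complex.norm_real, Real.norm_eq_abs, abs_of_pos hR0, div_lt_one hR0]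
    exact hq
  simp only [Complex.sub_re, Complex.one_re]
  linarith

private theorem Tra4_diff {R : ℝ} (M : ℝ) (hR : 1 < R) {q : ℂ} (hq : ‖q‖ < R) :
    DifferentiableAt ℂ (fun q : ℂ => (1 - q / R) ^ (-(M : ℂ))) q := by
  have h1 : DifferentiableAt ℂ (fun q : ℂ => 1 - q / (R : ℂ)) q := by fun_prop
  exact h1.cpow_const (Tra4_slit hR hq)

private theorem Tra4_int {F : ℂ → ℂ} {r : ℝ} (hr : 1 ≤ r) (d : ℕ)
    (hF : ∀ q : ℂ, ‖q‖ = r → ContinuousAt F q) :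
    CircleIntegrable (fun q => F q / q ^ (d + 1)) 0 r := by
  apply ContinuousOn.circleIntegrable (by linarith)
  intro q hq
  have hq1 : ‖q‖ = r := by simpa using hq
  have hq0 : q ≠ 0 := by
    intro h
    rw [h, norm_zero] at hq1
    linarith
  apply ContinuousAt.continuousWithinAt
  exact (hF q hq1).div (by fun_prop) (pow_ne_zero _ hq0)

private theorem Tra4_cf {F : ℂ → ℂ} {R M : ℝ} {h : ℂ} (hR : 1 < R) (hM : 0 < M)
    (hF : ∀ q : ℂ, 1 ≤ ‖q‖ → ‖q‖ < R → DifferentiableAt ℂ F q) {r : ℝ} (h1 : 1 ≤ r)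
    (hr : r < R) (d : ℕ) :
    cf F 1 d = cf (fun q => F q - h * (1 - q / R) ^ (-(M : ℂ))) r d +
      h * ((bc M d / R ^ d : ℝ) : ℂ) := by
  rw [← cf_eq hF h1 hr d, ← cf_model hM hR h1 hr d]
  unfold cf
  have hi1 := Tra4_int (F := F) h1 d (fun q hq => (hF q (by rw [hq]; exact h1)
    (by rw [hq]; exact hr)).continuousAt)
  have hi2 := Tra4_int (F := fun q : ℂ => (1 - q / R) ^ (-(M : ℂ))) h1 d
    (fun q hq => (Tra4_diff M hR (by rw [hq]; exact hr)).continuousAt)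
  have hi3 : CircleIntegrable (fun q : ℂ => h * ((1 - q / R) ^ (-(M : ℂ)) / q ^ (d + 1))) 0 r := by
    have := hi2.const_fun_smul (a := h)
    simpa [smul_eq_mul] using this
  have h2 : (∮ q in C(0, r), (F q - h * (1 - q / R) ^ (-(M : ℂ))) / q ^ (d + 1)) =
      (∮ q in C(0, r), F q / q ^ (d + 1)) -
        h * ∮ q in C(0, r), (1 - q / R) ^ (-(M : ℂ)) / q ^ (d + 1) := by
    rw [← circleIntegral.integral_const_mul, ← circleIntegral.integral_sub hi1 hi3]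
    congr 1
    funext q
    ring
  rw [h2]
  ring

/-- Row Tra4. Assembly. -/
theorem transfer {F : ℂ → ℂ} {R M β B : ℝ} {h : ℂ} (hR : 1 < R) (hβ : 1 < β) (hM : β < M)
    (hF : ∀ q : ℂ, 1 ≤ ‖q‖ → ‖q‖ < R → DifferentiableAt ℂ F q)
    (hb : ∀ q : ℂ, 1 ≤ ‖q‖ → ‖q‖ < R →
      ‖F q - h * (1 - q / R) ^ (-(M : ℂ))‖ ≤ B * ‖1 - q / R‖ ^ (-β)) :
    Tendsto (fun d : ℕ => cf F 1 d * (R : ℂ) ^ d / (((d : ℝ) ^ (M - 1) : ℝ) : ℂ)) atTop
      (𝓝 (h / (Real.Gamma M : ℂ))) := by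
  have hR0 : 0 < R := by linarith
  have hM0 : 0 < M := by linarith
  have hB : 0 ≤ B := by
    have h1 := hb 1 (by simp) (by simpa using hR)
    have h2 : 0 < ‖1 - (1 : ℂ) / R‖ ^ (-β) := by
      apply Real.rpow_pos_of_pos
      rw [norm_pos_iff]
      exact Complex.slitPlane_ne_zero (Tra4_slit hR (by simpa using hR))
    by_contra hB
    have h3 := mul_neg_of_neg_of_pos (not_le.1 hB) h2
    have h4 := norm_nonneg (F 1 - h * (1 - 1 / R) ^ (-(M : ℂ)))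
    linarith
  obtain ⟨C, hC⟩ := cf_le hβ hR
  set G : ℂ → ℂ := fun q => F q - h * (1 - q / R) ^ (-(M : ℂ)) with hG
  have hC' := hC B G hB (fun q h1 h2 => ((hF q h1 h2).continuousAt.sub
    (continuousAt_const.mul (Tra4_diff M hR h2).continuousAt))) hb
  set r : ℕ → ℝ := fun d => R * (1 - 1 / (d : ℝ)) with hrdef
  have hr : Tendsto r atTop (𝓝 R) := by
    have h1 : Tendsto r atTop (𝓝 (R * (1 - 0))) :=
      (tendsto_const_nhds.sub tendsto_one_div_atTop_nhds_zero_nat).const_mul R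
    rw [sub_zero, mul_one] at h1
    exact h1
  have hev : ∀ᶠ d : ℕ in atTop, 2 ≤ d ∧ 1 ≤ r d ∧ r d < R := by
    filter_upwards [eventually_ge_atTop 2, hr.eventually (lt_mem_nhds hR)] with d h2 h3
    refine ⟨h2, h3.le, ?_⟩
    have h4 : (0 : ℝ) < d := by exact_mod_cast (by omega : 0 < d)
    have h5 : (0 : ℝ) < 1 / d := by positivity
    have h6 : R * (1 - 1 / (d : ℝ)) < R * 1 := mul_lt_mul_of_pos_left (by linarith) hR0
    simpa [hrdef] using h6
  have hsplit : (fun d : ℕ => cf G (r d) d * (R : ℂ) ^ d / (((d : ℝ) ^ (M - 1) : ℝ) : ℂ) +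
      h * ((bc M d / (d : ℝ) ^ (M - 1) : ℝ) : ℂ)) =ᶠ[atTop]
      (fun d : ℕ => cf F 1 d * (R : ℂ) ^ d / (((d : ℝ) ^ (M - 1) : ℝ) : ℂ)) := by
    filter_upwards [hev] with d hd
    rw [Tra4_cf (h := h) hR hM0 hF hd.2.1 hd.2.2 d]
    have h1 : (R : ℂ) ≠ 0 := by exact_mod_cast hR0.ne'
    push_cast
    rw [add_mul, add_div]
    congr 1
    field_simp
  refine Tendsto.congr' hsplit ?_
  have hfirst : Tendsto (fun d : ℕ => cf G (r d) d * (R : ℂ) ^ d /
      (((d : ℝ) ^ (M - 1) : ℝ) : ℂ)) atTop (𝓝 0) := by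
    have hz : Tendsto (fun d : ℕ => C * B * (d : ℝ) ^ (-(M - β))) atTop (𝓝 0) := by
      have h1 : Tendsto (fun d : ℕ => (d : ℝ) ^ (-(M - β))) atTop (𝓝 0) :=
        (tendsto_rpow_neg_atTop (by linarith)).comp tendsto_natCast_atTop_atTop
      simpa using h1.const_mul (C * B)
    refine squeeze_zero_norm' ?_ hz
    filter_upwards [hev] with d hd
    have hd0 : (0 : ℝ) < d := by exact_mod_cast (by omega : 0 < d)
    have h1 := hC' d hd.1 hd.2.1
    have h2 : (0 : ℝ) < (d : ℝ) ^ (M - 1) := Real.rpow_pos_of_pos hd0 _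
    rw [norm_div, norm_mul, norm_pow, Complex.norm_real, Complex.norm_real, Real.norm_eq_abs,
      Real.norm_eq_abs, abs_of_pos hR0, abs_of_pos h2, div_le_iff₀ h2]
    refine h1.trans (le_of_eq ?_)
    rw [mul_assoc (C * B), ← Real.rpow_add hd0]
    congr 2
    ring
  have hsecond : Tendsto (fun d : ℕ => h * ((bc M d / (d : ℝ) ^ (M - 1) : ℝ) : ℂ)) atTop
      (𝓝 (h / (Real.Gamma M : ℂ))) := by
    have h1 : Tendsto (fun d : ℕ => ((bc M d / (d : ℝ) ^ (M - 1) : ℝ) : ℂ)) atTop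
        (𝓝 ((1 / Real.Gamma M : ℝ) : ℂ)) :=
      (Complex.continuous_ofReal.tendsto _).comp (bc_tendsto hM0)
    have h2 := h1.const_mul h
    refine Eq.subst (motive := fun z => Tendsto _ atTop (𝓝 z)) ?_ h2
    push_cast
    ring
  simpa using hfirst.add hsecond

end Pool.Agent.PlaneGT
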