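import Pool.Agent.Lib.MP_6aab98_ag.GT.Dl4
import Pool.Agent.Lib.MP_6aab98_ag.GT.Ode1
import Pool.Agent.Lib.MP_6aab98_ag.GT.Ode2

/-! # MP_6aab98_ag GT, row Zer1 -/

namespace Pool.Agent.PlaneGT

open Finset Filter Topology Asymptotics
open scoped Nat

/-- Row Zer1. Differentiate `ode` (both sides agree on the punctured disc) with `phi_deriv`, and
divide by `Dl ≠ 0`. -/
theorem phi4_eq {R : ℝ} (hR : IsRad R) {q : ℂ} (h0 : q ≠ 0) (hq : ‖q‖ < R) :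
    phi 4 q = 3 * Rh q ^ 2 / Dl q ^ 3 + 54 * Rh q / Dl q ^ 2 +
      (6 * phi 1 q - 33 * phi 2 q) / Dl q := by
  have hq' : q ≠ (R : ℂ) := by
    intro h
    rw [h, Complex.norm_real, Real.norm_eq_abs] at hq
    exact absurd hq (not_lt.2 (le_abs_self R))
  have hD : Dl q ≠ 0 := Dl_ne hR hq.le hq'
  have d0 := phi_deriv hR 0 h0 hq
  have d1 := phi_deriv hR 1 h0 hq
  have d2 := phi_deriv hR 2 h0 hq
  have d3 := phi_deriv hR 3 h0 hq
  have hDl : HasDerivAt Dl ((2 * phi 2 q - 3 * phi 3 q) / q) q := by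
    have h1 := ((d1.const_mul (2 : ℂ)).const_add (27 : ℂ)).sub (d2.const_mul (3 : ℂ))
    have h2 : (2 * (phi (1 + 1) q / q) - 3 * (phi (2 + 1) q / q)) =
        (2 * phi 2 q - 3 * phi 3 q) / q := by
      norm_num
      ring
    rw [h2] at h1
    exact h1
  have hRh : HasDerivAt Rh ((6 * phi 1 q - 33 * phi 2 q + 54 * phi 3 q +
      2 * phi 2 q * phi 3 q) / q) q := by
    have h1 := (((d0.const_mul (6 : ℂ)).sub (d1.const_mul (33 : ℂ))).add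
      (d2.const_mul (54 : ℂ))).add (d2.pow 2)
    have h2 : (6 * (phi (0 + 1) q / q) - 33 * (phi (1 + 1) q / q) + 54 * (phi (2 + 1) q / q) +
        ((2 : ℕ) : ℂ) * phi 2 q ^ (2 - 1) * (phi (2 + 1) q / q)) =
        (6 * phi 1 q - 33 * phi 2 q + 54 * phi 3 q + 2 * phi 2 q * phi 3 q) / q := by
      norm_num
      ring
    rw [h2] at h1
    exact h1
  have hprod := hDl.mul d3
  have hev : (fun z => Dl z * phi 3 z) =ᶠ[𝓝 q] Rh := by
    have hopen : {z : ℂ | ‖z‖ < R} ∈ 𝓝 q :=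
      (isOpen_lt continuous_norm continuous_const).mem_nhds hq
    filter_upwards [hopen] with z hz
    exact ode hR hz
  have hRh' := hRh.congr_of_eventuallyEq hev
  have huniq := hprod.unique hRh'
  have hode := ode hR hq
  have e3 : phi 3 q = Rh q / Dl q := by
    rw [eq_div_iff hD, mul_comm]
    exact hode
  have huniq2 : (2 * phi 2 q - 3 * phi 3 q) * phi 3 q + Dl q * phi 4 q =
      6 * phi 1 q - 33 * phi 2 q + 54 * phi 3 q + 2 * phi 2 q * phi 3 q := by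
    have h1 : ((2 * phi 2 q - 3 * phi 3 q) * phi 3 q + Dl q * phi 4 q) / q =
        (6 * phi 1 q - 33 * phi 2 q + 54 * phi 3 q + 2 * phi 2 q * phi 3 q) / q := by
      rw [← huniq]
      have h4 : phi (3 + 1) q = phi 4 q := rfl
      rw [h4]
      ring
    exact (div_left_inj' h0).1 h1
  have e4 : Dl q * phi 4 q = 6 * phi 1 q - 33 * phi 2 q + 54 * phi 3 q + 3 * phi 3 q ^ 2 := by
    linear_combination huniq2
  have e5 : phi 4 q = (6 * phi 1 q - 33 * phi 2 q + 54 * phi 3 q + 3 * phi 3 q ^ 2) / Dl q := by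
    rw [eq_div_iff hD, mul_comm]
    exact e4
  rw [e5, e3]
  field_simp
  ring

/-- Row Zer1. Via `Dl_pow_asymp` with `k = 3`, `Rh_sub_le` and `Dl_lower`. -/
theorem phi4_asymp {R : ℝ} (hR : IsRad R) {K : ℝ} (hK0 : 0 < K) (hK : Rh (R : ℂ) = K) :
    ∃ C : ℝ, ∀ q : ℂ, 1 ≤ ‖q‖ → ‖q‖ < R →
      ‖phi 4 q - ((3 * K ^ 2 * (Real.sqrt (6 * K))⁻¹ ^ 3 : ℝ) : ℂ) *
        (1 - q / R) ^ (-((3 / 2 : ℝ) : ℂ))‖ ≤ C * ‖1 - q / R‖ ^ (-(5 / 4 : ℝ)) := by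
  obtain ⟨C1, hC1, h1⟩ := Dl_pow_asymp hR hK0 hK 3 (by norm_num)
  obtain ⟨C2, hC2, h2⟩ := Rh_sub_le hR hK
  obtain ⟨c, hc, h3⟩ := Dl_lower hR
  obtain ⟨B, hB, h4⟩ := phi_bound hR
  have hR0 : 0 < R := by linarith [hR.1]
  have hRC : (R : ℂ) ≠ 0 := by exact_mod_cast hR0.ne'
  set M : ℝ := 93 * B + B ^ 2 with hM
  have hMpos : 0 < M := by positivity
  set Q : ℝ := 3 * (C2 * (M + K) * (2 * R * c⁻¹ ^ 3 + c⁻¹ ^ 2)) + 3 * K ^ 2 * C1 +
    54 * M * c⁻¹ ^ 2 + 78 * B * c⁻¹ with hQ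
  have hQpos : 0 < Q := by positivity
  refine ⟨Q * 2, fun q hq1 hqR => ?_⟩
  have hqA : q ∈ Ann R := ⟨hq1, hqR⟩
  have hq0 : q ≠ 0 := by
    intro h
    rw [h, norm_zero] at hq1
    linarith
  have hqne : q ≠ (R : ℂ) := by
    intro h
    rw [h, Complex.norm_real, Real.norm_eq_abs] at hqR
    exact absurd hqR (not_lt.2 (le_abs_self R))
  have hD : Dl q ≠ 0 := Dl_ne hR hqR.le hqne
  set r : ℝ := ‖1 - q / R‖ with hr
  have hz : 1 - q / R ≠ 0 := by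
    intro h
    apply hqne
    have h5 : q / R = 1 := by linear_combination -h
    rw [div_eq_one_iff_eq hRC] at h5
    exact h5
  have hr0 : 0 < r := norm_pos_iff.2 hz
  have hr2 : r ≤ 2 := by
    have h5 : r ≤ ‖(1 : ℂ)‖ + ‖q / R‖ := norm_sub_le _ _
    have h6 : ‖q / (R : ℂ)‖ ≤ 1 := by
      rw [norm_div, Complex.norm_real, Real.norm_eq_abs, abs_of_pos hR0, div_le_one hR0]
      exact hqR.le
    rw [norm_one] at h5
    linarith
  have hqRr : ‖q - R‖ = R * r := by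
    have h5 : q - R = -((R : ℂ) * (1 - q / R)) := by
      field_simp
      ring
    rw [h5, norm_neg, norm_mul, Complex.norm_real, Real.norm_eq_abs, abs_of_pos hR0]
  set t : ℝ := (Real.sqrt r)⁻¹ with ht
  have hsq : 0 < Real.sqrt r := Real.sqrt_pos.2 hr0
  have ht0 : 0 < t := inv_pos.2 hsq
  have ht2 : t ^ 2 = r⁻¹ := by rw [ht, inv_pow, Real.sq_sqrt hr0.le]
  have hrt : r * t ^ 2 = 1 := by rw [ht2, mul_inv_cancel₀ hr0.ne']
  have ht1 : 1 ≤ 2 * t := by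
    have h5 : Real.sqrt r ≤ 2 := by
      rw [Real.sqrt_le_left (by norm_num)]
      linarith
    have h6 : Real.sqrt r * t = 1 := mul_inv_cancel₀ hsq.ne'
    nlinarith
  set a : ℝ := ‖(Dl q)⁻¹‖ with ha
  have hDpos : 0 < ‖Dl q‖ := norm_pos_iff.2 hD
  have ha0 : 0 ≤ a := norm_nonneg _
  have haD : ‖Dl q‖ * a = 1 := by
    rw [ha, norm_inv, mul_inv_cancel₀ hDpos.ne']
  have hat : a ≤ c⁻¹ * t := by
    rw [ha, norm_inv, ht, ← mul_inv]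
    exact inv_anti₀ (by positivity) (h3 q hqA)
  have hp0 := h4 0 (by norm_num) q hqR.le
  have hp1 := h4 1 (by norm_num) q hqR.le
  have hp2 := h4 2 (by norm_num) q hqR.le
  have hRhM : ‖Rh q‖ ≤ M := by
    unfold Rh
    have e1 : ‖6 * phi 0 q‖ ≤ 6 * B := by
      rw [norm_mul]; norm_num; exact hp0
    have e2 : ‖33 * phi 1 q‖ ≤ 33 * B := by
      rw [norm_mul]; norm_num; exact hp1
    have e3 : ‖54 * phi 2 q‖ ≤ 54 * B := by
      rw [norm_mul]; norm_num; exact hp2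
    have e4 : ‖phi 2 q ^ 2‖ ≤ B ^ 2 := by
      rw [norm_pow]; exact pow_le_pow_left₀ (norm_nonneg _) hp2 2
    have e5 := norm_add_le (6 * phi 0 q - 33 * phi 1 q + 54 * phi 2 q) (phi 2 q ^ 2)
    have e6 := norm_add_le (6 * phi 0 q - 33 * phi 1 q) (54 * phi 2 q)
    have e7 := norm_sub_le (6 * phi 0 q) (33 * phi 1 q)
    linarith
  have hdiff := h2 q hqR.le
  rw [hqRr] at hdiff
  have hsum : ‖Rh q + K‖ ≤ M + K := by
    refine (norm_add_le _ _).trans ?_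
    rw [Complex.norm_real, Real.norm_eq_abs, abs_of_pos hK0]
    linarith
  -- the four terms
  have hpw := h1 q hqA
  have hexp1 : (-((3 : ℕ) : ℂ) / 2) = -((3 / 2 : ℝ) : ℂ) := by
    push_cast
    ring
  have hexp2 : ‖1 - q / R‖ ^ (-(((3 : ℕ) : ℝ) - 1) / 2) = t ^ 2 := by
    rw [ht2, ← hr]
    have h5 : (-(((3 : ℕ) : ℝ) - 1) / 2) = -1 := by norm_num
    rw [h5, Real.rpow_neg_one]
  rw [hexp1, hexp2] at hpw
  set c3 : ℝ := (Real.sqrt (6 * K))⁻¹ ^ 3 with hc3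
  set z3 : ℂ := (1 - q / R) ^ (-((3 / 2 : ℝ) : ℂ)) with hz3
  have hmain : phi 4 q - ((3 * K ^ 2 * c3 : ℝ) : ℂ) * z3 =
      3 * ((Rh q - K) * (Rh q + K) * ((Dl q)⁻¹) ^ 3) +
        3 * (K : ℂ) ^ 2 * (((Dl q)⁻¹) ^ 3 - (c3 : ℂ) * z3) +
        54 * (Rh q * ((Dl q)⁻¹) ^ 2) + (6 * phi 1 q - 33 * phi 2 q) * (Dl q)⁻¹ := by
    rw [phi4_eq hR hq0 hqR]
    push_cast
    field_simp
    ring
  have b1 : ‖3 * ((Rh q - K) * (Rh q + K) * ((Dl q)⁻¹) ^ 3)‖ ≤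
      3 * (C2 * (M + K) * (2 * R * c⁻¹ ^ 3 + c⁻¹ ^ 2)) * t ^ 2 := by
    rw [norm_mul, norm_mul, norm_mul, norm_pow, ← ha]
    have e0 : ‖(3 : ℂ)‖ = 3 := by norm_num
    rw [e0]
    have e1 : ‖Rh q - K‖ * ‖Rh q + K‖ * a ^ 3 ≤ C2 * (R * r + ‖Dl q‖) * (M + K) * a ^ 3 := by
      refine mul_le_mul_of_nonneg_right ?_ (by positivity)
      exact mul_le_mul hdiff hsum (norm_nonneg _) (by positivity)
    have e2 : C2 * (R * r + ‖Dl q‖) * (M + K) * a ^ 3 =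
        C2 * (M + K) * (R * (r * a ^ 3) + a ^ 2) := by
      have : ‖Dl q‖ * a ^ 3 = a ^ 2 := by
        calc ‖Dl q‖ * a ^ 3 = (‖Dl q‖ * a) * a ^ 2 := by ring
          _ = a ^ 2 := by rw [haD, one_mul]
      linear_combination C2 * (M + K) * this
    have e3 : a ^ 2 ≤ c⁻¹ ^ 2 * t ^ 2 := by
      rw [← mul_pow]
      exact pow_le_pow_left₀ ha0 hat 2
    have e4 : r * a ^ 3 ≤ 2 * c⁻¹ ^ 3 * t ^ 2 := by
      have e5 : a ^ 3 ≤ (c⁻¹ * t) ^ 3 := pow_le_pow_left₀ ha0 hat 3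
      have e6 : r * (c⁻¹ * t) ^ 3 = c⁻¹ ^ 3 * t := by
        calc r * (c⁻¹ * t) ^ 3 = c⁻¹ ^ 3 * t * (r * t ^ 2) := by ring
          _ = c⁻¹ ^ 3 * t := by rw [hrt, mul_one]
      have e7 : t ≤ 2 * t ^ 2 := by nlinarith
      calc r * a ^ 3 ≤ r * (c⁻¹ * t) ^ 3 := mul_le_mul_of_nonneg_left e5 hr0.le
        _ = c⁻¹ ^ 3 * t := e6
        _ ≤ c⁻¹ ^ 3 * (2 * t ^ 2) := mul_le_mul_of_nonneg_left e7 (by positivity)
        _ = 2 * c⁻¹ ^ 3 * t ^ 2 := by ring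
    have e8 : R * (r * a ^ 3) + a ^ 2 ≤ (2 * R * c⁻¹ ^ 3 + c⁻¹ ^ 2) * t ^ 2 := by
      have := mul_le_mul_of_nonneg_left e4 hR0.le
      nlinarith
    calc 3 * (‖Rh q - K‖ * ‖Rh q + K‖ * a ^ 3)
        ≤ 3 * (C2 * (M + K) * (R * (r * a ^ 3) + a ^ 2)) := by
          rw [← e2]
          exact mul_le_mul_of_nonneg_left e1 (by norm_num)
      _ ≤ 3 * (C2 * (M + K) * ((2 * R * c⁻¹ ^ 3 + c⁻¹ ^ 2) * t ^ 2)) := by
          refine mul_le_mul_of_nonneg_left ?_ (by norm_num)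
          exact mul_le_mul_of_nonneg_left e8 (by positivity)
      _ = 3 * (C2 * (M + K) * (2 * R * c⁻¹ ^ 3 + c⁻¹ ^ 2)) * t ^ 2 := by ring
  have b2 : ‖3 * (K : ℂ) ^ 2 * (((Dl q)⁻¹) ^ 3 - (c3 : ℂ) * z3)‖ ≤ 3 * K ^ 2 * C1 * t ^ 2 := by
    rw [norm_mul, norm_mul, norm_pow, Complex.norm_real, Real.norm_eq_abs, abs_of_pos hK0]
    have e0 : ‖(3 : ℂ)‖ = 3 := by norm_num
    rw [e0, mul_assoc (3 * K ^ 2)]
    exact mul_le_mul_of_nonneg_left hpw (by positivity)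
  have b3 : ‖54 * (Rh q * ((Dl q)⁻¹) ^ 2)‖ ≤ 54 * M * c⁻¹ ^ 2 * t ^ 2 := by
    rw [norm_mul, norm_mul, norm_pow, ← ha]
    have e0 : ‖(54 : ℂ)‖ = 54 := by norm_num
    rw [e0]
    have e3 : a ^ 2 ≤ c⁻¹ ^ 2 * t ^ 2 := by
      rw [← mul_pow]
      exact pow_le_pow_left₀ ha0 hat 2
    calc 54 * (‖Rh q‖ * a ^ 2) ≤ 54 * (M * (c⁻¹ ^ 2 * t ^ 2)) := by
          refine mul_le_mul_of_nonneg_left ?_ (by norm_num)
          exact mul_le_mul hRhM e3 (by positivity) hMpos.le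
      _ = 54 * M * c⁻¹ ^ 2 * t ^ 2 := by ring
  have b4 : ‖(6 * phi 1 q - 33 * phi 2 q) * (Dl q)⁻¹‖ ≤ 78 * B * c⁻¹ * t ^ 2 := by
    rw [norm_mul, ← ha]
    have e1 : ‖6 * phi 1 q‖ ≤ 6 * B := by
      rw [norm_mul]; norm_num; exact hp1
    have e2 : ‖33 * phi 2 q‖ ≤ 33 * B := by
      rw [norm_mul]; norm_num; exact hp2
    have e3 := norm_sub_le (6 * phi 1 q) (33 * phi 2 q)
    have e4 : ‖6 * phi 1 q - 33 * phi 2 q‖ ≤ 39 * B := by linarith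
    have e7 : t ≤ 2 * t ^ 2 := by nlinarith
    have e8 : a ≤ c⁻¹ * (2 * t ^ 2) :=
      hat.trans (mul_le_mul_of_nonneg_left e7 (by positivity))
    calc ‖6 * phi 1 q - 33 * phi 2 q‖ * a ≤ 39 * B * (c⁻¹ * (2 * t ^ 2)) :=
          mul_le_mul e4 e8 ha0 (by positivity)
      _ = 78 * B * c⁻¹ * t ^ 2 := by ring
  have htot : ‖phi 4 q - ((3 * K ^ 2 * c3 : ℝ) : ℂ) * z3‖ ≤ Q * t ^ 2 := by
    rw [hmain]
    refine (norm_add_le _ _).trans ?_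
    refine (add_le_add_left (norm_add_le _ _) _).trans ?_
    refine (add_le_add_left (add_le_add_left (norm_add_le _ _) _) _).trans ?_
    rw [hQ]
    nlinarith
  refine htot.trans ?_
  rw [mul_assoc]
  refine mul_le_mul_of_nonneg_left ?_ hQpos.le
  rw [ht2]
  have e1 : r⁻¹ = r ^ (-(5 / 4 : ℝ)) * r ^ (1 / 4 : ℝ) := by
    rw [← Real.rpow_add hr0, ← Real.rpow_neg_one]
    norm_num
  have e2 : r ^ (1 / 4 : ℝ) ≤ 2 := by
    calc r ^ (1 / 4 : ℝ) ≤ (2 : ℝ) ^ (1 / 4 : ℝ) :=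
          Real.rpow_le_rpow hr0.le hr2 (by norm_num)
      _ ≤ (2 : ℝ) ^ (1 : ℝ) := Real.rpow_le_rpow_of_exponent_le (by norm_num) (by norm_num)
      _ = 2 := Real.rpow_one 2
  rw [e1, mul_comm (2 : ℝ)]
  exact mul_le_mul_of_nonneg_left e2 (Real.rpow_nonneg hr0.le _)

end Pool.Agent.PlaneGT
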