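import Pool.Agent.Lib.MP_6aab98_ag.GT.Zer1
import Pool.Agent.Lib.MP_6aab98_ag.GT.Tra4
import Pool.Agent.Lib.MP_6aab98_ag.GT.Phi2

/-! # MP_6aab98_ag GT, row Zer2 -/

namespace Pool.Agent.PlaneGT

open Finset Filter Topology Asymptotics
open scoped Nat

private theorem Zer2_series {R : ℝ} (hR : IsRad R) (j : ℕ) {r : ℝ} (h0 : 0 < r) (hr : r < R) :
    HasFPowerSeriesOnBall (phi j)
      (FormalMultilinearSeries.ofScalars ℂ (fun d : ℕ => (d : ℂ) ^ j * (n d : ℂ))) 0
      (ENNReal.ofReal r) := by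
  refine ⟨?_, by simpa using h0, ?_⟩
  · have hs := phi_summable' hR j (q := (r : ℂ)) (by
      rw [Complex.norm_real, Real.norm_eq_abs, abs_of_pos h0]
      exact hr)
    have h1 := (FormalMultilinearSeries.ofScalars ℂ
      (fun d : ℕ => (d : ℂ) ^ j * (n d : ℂ))).le_radius_of_summable_norm (r := r.toNNReal) (by
        have h2 := hs.norm
        refine h2.congr fun d => ?_
        rw [FormalMultilinearSeries.ofScalars_norm, Real.coe_toNNReal _ h0.le, norm_mul _ ((r : ℂ) ^ d),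
          norm_pow, Complex.norm_real, Real.norm_eq_abs, abs_of_pos h0])
    exact h1
  · intro y hy
    have hy' : ‖y‖ < R := by
      rw [Metric.mem_eball, edist_dist, dist_zero_right] at hy
      exact lt_trans ((ENNReal.ofReal_lt_ofReal_iff h0).1 hy) hr
    have h1 := (phi_summable' hR j hy').hasSum
    rw [zero_add]
    simp only [FormalMultilinearSeries.ofScalars_apply_eq, smul_eq_mul]
    exact h1

/-- Row Zer2. Cauchy's formula for the coefficients of a power series (absolutely convergent on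
the circle: integrate termwise, or use `hasFPowerSeriesOnBall` and uniqueness). -/
theorem cf_phi {R : ℝ} (hR : IsRad R) (j d : ℕ) :
    cf (phi j) 1 d = (((d : ℝ) ^ j * n d : ℝ) : ℂ) := by
  have hR1 : 1 < R := hR.1
  have hdiff : DifferentiableOn ℂ (phi j) (Metric.closedBall 0 1) := by
    have h1 := Zer2_series hR j (r := (1 + R) / 2) (by linarith) (by linarith)
    intro q hq
    refine (h1.differentiableOn.differentiableAt ?_).differentiableWithinAt
    refine Metric.isOpen_eball.mem_nhds ?_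
    rw [Metric.mem_eball, edist_dist]
    refine (ENNReal.ofReal_lt_ofReal_iff (by linarith)).2 ?_
    exact lt_of_le_of_lt (Metric.mem_closedBall.1 hq) (by linarith)
  have h2 := Zer2_series hR j (r := (1 + R) / 2) (by linarith) (by linarith)
  have h3 : HasFPowerSeriesOnBall (phi j) (cauchyPowerSeries (phi j) 0 1) 0 ((1 : NNReal) : ENNReal) := by
    refine DifferentiableOn.hasFPowerSeriesOnBall (R := (1 : NNReal)) ?_ (by norm_num)
    simpa using hdiff
  have h4 := h2.hasFPowerSeriesAt.eq_formalMultilinearSeries h3.hasFPowerSeriesAt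
  have h5 := congrArg (fun p : FormalMultilinearSeries ℂ ℂ ℂ => p d (fun _ => (1 : ℂ))) h4
  simp only [FormalMultilinearSeries.ofScalars_apply_eq, cauchyPowerSeries_apply] at h5
  simp only [sub_zero, one_pow, smul_eq_mul, mul_one] at h5
  unfold cf
  push_cast
  rw [h5]
  congr 1
  refine circleIntegral.integral_congr (by norm_num) fun q hq => ?_
  have hq0 : q ≠ 0 := by
    intro h0
    rw [h0] at hq
    simp at hq
  show phi j q / q ^ (d + 1) = (1 / q) ^ d * (q⁻¹ * phi j q)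
  rw [one_div, inv_pow, pow_succ]
  field_simp

/-- Row Zer2. `transfer` with `M = 3/2`, `β = 5/4`: `d ^ 4 n_d R ^ d / d ^ (1/2)` converges to a
positive number. -/
theorem n_root {R : ℝ} (hR : IsRad R) :
    Tendsto (fun d : ℕ => n d ^ (1 / (d : ℝ))) atTop (𝓝 (1 / R)) := by
  have hR1 : 1 < R := hR.1
  have hR0 : 0 < R := by linarith
  obtain ⟨K, hK0, hK⟩ := exists_K hR
  obtain ⟨C, hC⟩ := phi4_asymp hR hK0 hK
  set h : ℝ := 3 * K ^ 2 * (Real.sqrt (6 * K))⁻¹ ^ 3 with hh
  have hpos : 0 < h := by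
    have : 0 < Real.sqrt (6 * K) := Real.sqrt_pos.mpr (by positivity)
    positivity
  have ht := transfer (F := phi 4) (R := R) (M := 3 / 2) (β := 5 / 4) (B := C) (h := (h : ℂ)) hR1
    (by norm_num) (by norm_num) (by
      intro q h1 h2
      have hq0 : q ≠ 0 := by
        intro h0
        rw [h0, norm_zero] at h1
        linarith
      exact (phi_deriv hR 4 hq0 h2).differentiableAt) hC
  have hG : 0 < Real.Gamma (3 / 2) := Real.Gamma_pos_of_pos (by norm_num)
  -- the real sequence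
  have hre := (Complex.continuous_re.tendsto _).comp ht
  have e1 : ((h : ℂ) / ((Real.Gamma (3 / 2) : ℝ) : ℂ)).re = h / Real.Gamma (3 / 2) := by
    rw [← Complex.ofReal_div, Complex.ofReal_re]
  rw [e1] at hre
  have hx : Tendsto (fun d : ℕ => (d : ℝ) ^ 4 * n d * R ^ d / (d : ℝ) ^ ((3 / 2 : ℝ) - 1)) atTop
      (𝓝 (h / Real.Gamma (3 / 2))) := by
    refine hre.congr fun d => ?_
    simp only [Function.comp_apply]
    rw [cf_phi hR 4 d, ← Complex.ofReal_pow, ← Complex.ofReal_mul, ← Complex.ofReal_div,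
      Complex.ofReal_re]
  have hc : h / Real.Gamma (3 / 2) ≠ 0 := (div_pos hpos hG).ne'
  have hinv : Tendsto (fun d : ℕ => 1 / (d : ℝ)) atTop (𝓝 0) := tendsto_one_div_atTop_nhds_zero_nat
  have h1 := hx.rpow hinv (Or.inl hc)
  rw [Real.rpow_zero] at h1
  have h2 : Tendsto (fun d : ℕ => (d : ℝ) ^ (1 / (d : ℝ))) atTop (𝓝 1) :=
    tendsto_rpow_div.comp tendsto_natCast_atTop_atTop
  have h3 := h2.rpow_const (p := 7 / 2) (Or.inl one_ne_zero)
  rw [Real.one_rpow] at h3
  have h4 := (h1.div (h3.mul_const R) (by simp [hR0.ne']))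
  rw [one_mul] at h4
  refine h4.congr' ?_
  filter_upwards [eventually_gt_atTop 0] with d hd
  have hd0 : (0 : ℝ) < d := by exact_mod_cast hd
  have hn : 0 < n d := n_pos hd
  have e2 : (d : ℝ) ^ 4 * n d * R ^ d / (d : ℝ) ^ ((3 / 2 : ℝ) - 1) =
      n d * (d : ℝ) ^ (7 / 2 : ℝ) * R ^ d := by
    have e3 : (d : ℝ) ^ 4 = (d : ℝ) ^ (7 / 2 : ℝ) * (d : ℝ) ^ ((3 / 2 : ℝ) - 1) := by
      rw [← Real.rpow_add hd0, ← Real.rpow_natCast]
      norm_num
    rw [e3]
    have : (d : ℝ) ^ ((3 / 2 : ℝ) - 1) ≠ 0 := (Real.rpow_pos_of_pos hd0 _).ne'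
    field_simp
  have e4 : (R ^ d) ^ (1 / (d : ℝ)) = R := by
    rw [← Real.rpow_natCast, ← Real.rpow_mul hR0.le, mul_one_div_cancel hd0.ne', Real.rpow_one]
  have e5 : ((d : ℝ) ^ (7 / 2 : ℝ)) ^ (1 / (d : ℝ)) = ((d : ℝ) ^ (1 / (d : ℝ))) ^ (7 / 2 : ℝ) := by
    rw [← Real.rpow_mul hd0.le, ← Real.rpow_mul hd0.le, mul_comm]
  rw [Pi.div_apply, e2, Real.mul_rpow (by positivity) (by positivity), Real.mul_rpow hn.le (by positivity), e4,
    e5]
  have h5 : ((d : ℝ) ^ (1 / (d : ℝ))) ^ (7 / 2 : ℝ) ≠ 0 :=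
    (Real.rpow_pos_of_pos (Real.rpow_pos_of_pos hd0 _) _).ne'
  field_simp

end Pool.Agent.PlaneGT
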